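import Mathlib
import Pool.Agent.Work.MP_20070e_gt.Defs

set_option autoImplicit false

/-!
# MP_20070e_gt : definitions used in the statements

Copies of the sphere and of the projective space, local extensions.
-/

open Matrix Manifold Topology ContDiff Metric Filter

namespace Pool.Agent.Work.MP_20070e_gt.X

/-- `φ : S^m → M` describes an embedded copy of the sphere `S^m` (`proj` false) or of the projective
space `ℝP^m = S^m / {±1}` (`proj` true) in the manifold `M`: `φ` is smooth, its derivative is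
injective everywhere, and `φ x = φ y` only for `x = y` (respectively for `x = ± y`). -/
def IsModel (proj : Prop) {m : ℕ} {M : Type} [TopologicalSpace M] [ChartedSpace (Eu (m + 1)) M]
    (φ : Sph (m + 1) → M) : Prop :=
  SmoothMap (Eu m) (Eu (m + 1)) φ ∧ InjDeriv (Eu m) (Eu (m + 1)) φ ∧
    ∀ x y : Sph (m + 1), φ x = φ y ↔ (x = y ∨ (proj ∧ x = -y))

/-- `θ : W → M` is a local `G`-action near `S` (on the open neighbourhood `U` of `S`) which extends
the action `α` of `Γ`. -/
def IsLocalExtension {n : ℕ} {M : Type} [TopologicalSpace M] [ChartedSpace (Eu n) M]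
    {Γ : Subgroup (SLn n)} (α : SmoothAction Γ M) (S : Set M) (U : Set M) (W : Set (SLn n × M))
    (θ : SLn n × M → M) : Prop :=
  IsOpen U ∧ S ⊆ U ∧ IsOpen W ∧ (∀ p ∈ W, p.2 ∈ U) ∧
    (∀ (g : SLn n), ∀ x ∈ S, (g, x) ∈ W) ∧
    SmoothOnSL W θ ∧
    (∀ x, (1, x) ∈ W → θ (1, x) = x) ∧
    (∀ g h x, (h, x) ∈ W → (g, θ (h, x)) ∈ W → (g * h, x) ∈ W → θ (g, θ (h, x)) = θ (g * h, x)) ∧
    (∀ (γ : Γ) (x : M), ((γ : SLn n), x) ∈ W → θ ((γ : SLn n), x) = α.toFun γ x)

/-- `Γ ≤ SL_{m+1}(ℝ)` has a smooth action on some `(m+1)`-manifold `M` and an invariant embedded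
copy of the sphere `S^m` (`proj` false) or of `ℝP^m` (`proj` true) on which it acts in the standard
way, such that the action does not extend to a local `G`-action on any neighbourhood of it. -/
def HasNonExtendable (proj : Prop) {m : ℕ} (Γ : Subgroup (SLn (m + 1))) : Prop :=
  ∃ (M : Type) (_ : TopologicalSpace M) (_ : ChartedSpace (Eu (m + 1)) M),
    IsSmoothManifold (m + 1) M ∧ ∃ (α : SmoothAction Γ M) (φ : Sph (m + 1) → M),
      IsModel proj φ ∧ IsStandardOn α φ ∧ ¬ HasLocalExtension α (Set.range φ)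

/-- `Γ` has a nontrivial homomorphism to `{1, -1}` (a subgroup of index two). -/
def HasSign {n : ℕ} (Γ : Subgroup (SLn n)) : Prop := ∃ χ : Γ →* ℤˣ, χ ≠ 1

end Pool.Agent.Work.MP_20070e_gt.X
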