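import Mathlib
import Pool.Agent.Work.MP_20070e_gt.X.Stmt

set_option autoImplicit false

/-!
# MP_20070e_gt, block X : definitions (FIXED file)

Copies of the sphere and of the projective space, local extensions, fields of hyperplanes.
-/

open Matrix Manifold Topology ContDiff Metric Filter

namespace Pool.Agent.Work.MP_20070e_gt.X

/-- real `n × n` matrices -/
abbrev Mat (n : ℕ) := Matrix (Fin n) (Fin n) ℝ

theorem hasLocalExtension_iff {n : ℕ} {M : Type} [TopologicalSpace M] [ChartedSpace (Eu n) M]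
    {Γ : Subgroup (SLn n)} (α : SmoothAction Γ M) (S : Set M) :
    HasLocalExtension α S ↔ ∃ U W θ, IsLocalExtension α S U W θ := Iff.rfl

/-! ## elements of the group -/

/-- the base vector -/
noncomputable def e0 (m : ℕ) : Eu (m + 1) := EuclideanSpace.single 0 1

theorem norm_e0 (m : ℕ) : ‖e0 m‖ = 1 := by simp [e0]

/-- the base point of the sphere -/
noncomputable def oo (m : ℕ) : Sph (m + 1) := ⟨e0 m, mem_sphere_zero_iff_norm.2 (norm_e0 m)⟩

/-- `diag (e^{m s}, e^{-s}, …, e^{-s})` -/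
noncomputable def aa (m : ℕ) (s : ℝ) : SLn (m + 1) :=
  ⟨Matrix.diagonal (fun i => if i = 0 then Real.exp (m * s) else Real.exp (-s)), by
    rw [Matrix.det_diagonal, Fin.prod_univ_succ]
    simp only [if_true, Fin.succ_ne_zero, if_false, Finset.prod_const, Finset.card_univ,
      Fintype.card_fin]
    rw [← Real.exp_nat_mul, ← Real.exp_add]
    simp⟩

/-- elementary matrices -/
noncomputable abbrev tv {n : ℕ} {i j : Fin n} (hij : i ≠ j) (t : ℝ) : SLn n :=
  SpecialLinearGroup.transvection hij t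

/-- A closed `Γ`-equivariant family of subspaces of codimension at most one of the space of
matrices of trace zero, parametrised by the sphere. -/
structure HypField {m : ℕ} (Γ : Subgroup (SLn (m + 1)))
    (k : Sph (m + 1) → Submodule ℝ (Mat (m + 1))) : Prop where
  tr : ∀ x, ∀ A ∈ k x, A.trace = 0
  codim : ∀ x, ∀ A B : Mat (m + 1), A.trace = 0 → B.trace = 0 →
    ∃ c d : ℝ, (c ≠ 0 ∨ d ≠ 0) ∧ c • A + d • B ∈ k x
  closed : ∀ (x : ℕ → Sph (m + 1)) (A : ℕ → Mat (m + 1)) (x' : Sph (m + 1)) (A' : Mat (m + 1)),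
    (∀ j, A j ∈ k (x j)) → Tendsto x atTop (𝓝 x') → Tendsto A atTop (𝓝 A') → A' ∈ k x'
  equiv : ∀ γ ∈ Γ, ∀ x A, A ∈ k x → γ.1 * A * (γ⁻¹).1 ∈ k (sphAct γ x)

/-- The family of subspaces seen from the base point: `K(g) = Ad(g) k(g⁻¹ o)`. -/
noncomputable def KK {m : ℕ} (k : Sph (m + 1) → Submodule ℝ (Mat (m + 1))) (g : SLn (m + 1)) :
    Submodule ℝ (Mat (m + 1)) where
  carrier := {A | (g⁻¹).1 * A * g.1 ∈ k (sphAct g⁻¹ (oo m))}
  add_mem' := by
    intro A B hA hB
    simp only [Set.mem_ofPred_eq] at hA hB ⊢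
    rw [mul_add, add_mul]
    exact (k _).add_mem hA hB
  zero_mem' := by
    simp only [Set.mem_ofPred_eq, mul_zero, zero_mul]
    exact (k _).zero_mem
  smul_mem' := by
    intro c A hA
    simp only [Set.mem_ofPred_eq] at hA ⊢
    rw [Matrix.mul_smul, Matrix.smul_mul]
    exact (k _).smul_mem c hA

theorem mem_KK {m : ℕ} {k : Sph (m + 1) → Submodule ℝ (Mat (m + 1))} {g : SLn (m + 1)}
    {A : Mat (m + 1)} : A ∈ KK k g ↔ (g⁻¹).1 * A * g.1 ∈ k (sphAct g⁻¹ (oo m)) := Iff.rfl

/-! ## adapted charts -/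

section charts

variable {m : ℕ} {M : Type} [TopologicalSpace M] [ChartedSpace (Eu (m + 1)) M]

/-- A chart of `M` at `φ x` in which the image of `φ` is the hyperplane `r = 0`. -/
structure AdChart (φ : Sph (m + 1) → M) (x : Sph (m + 1)) where
  c : OpenPartialHomeomorph M (Eu m × ℝ)
  mem : φ x ∈ c.source
  zero : ∀ y ∈ c.source, y ∈ Set.range φ ↔ (c y).2 = 0
  smooth : ContMDiffOn (𝓡 (m + 1)) 𝓘(ℝ, Eu m × ℝ) ∞ c c.source
  smooth_symm : ContMDiffOn 𝓘(ℝ, Eu m × ℝ) (𝓡 (m + 1)) ∞ c.symm c.target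

/-- An adapted chart, together with the expression `F` of the local action `θ` near the identity. -/
structure ExtChart (φ : Sph (m + 1) → M) (W : Set (SLn (m + 1) × M))
    (θ : SLn (m + 1) × M → M) (x : Sph (m + 1)) extends AdChart φ x where
  F : (Fin (m + 1) → Fin (m + 1) → ℝ) × (Eu m × ℝ) → Eu m × ℝ
  smoothF : ContDiffAt ℝ 2 F (ent (1 : SLn (m + 1)), c (φ x))
  eqF : ∀ᶠ p in 𝓝 (ent (1 : SLn (m + 1)), c (φ x)), ∀ g : SLn (m + 1), ent g = p.1 →
    (g, c.symm p.2) ∈ W ∧ θ (g, c.symm p.2) ∈ c.source ∧ c (θ (g, c.symm p.2)) = F p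

end charts

open scoped Classical in
/-- a curve in `SL_n(ℝ)` through `1` with velocity `A` (if `A` has trace zero): the matrix
`1 + t A` divided by the `n`-th root of its determinant -/
noncomputable def cur {n : ℕ} (A : Mat n) (t : ℝ) : SLn n :=
  if h : 0 < n ∧ 0 < (1 + t • A).det then
    ⟨((1 + t • A).det ^ (-(1 / (n : ℝ)))) • (1 + t • A), by
      rw [Matrix.det_smul, Fintype.card_fin, ← Real.rpow_natCast, ← Real.rpow_mul h.2.le,
        neg_mul, one_div, inv_mul_cancel₀ (by exact_mod_cast h.1.ne'), Real.rpow_neg_one,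
        inv_mul_cancel₀ h.2.ne']⟩
  else 1

/-- The matrices of trace zero whose fundamental field is tangent to the image of `φ` at `φ x`. -/
noncomputable def kf {m : ℕ} {M : Type} [TopologicalSpace M] [ChartedSpace (Eu (m + 1)) M]
    {φ : Sph (m + 1) → M} {W : Set (SLn (m + 1) × M)} {θ : SLn (m + 1) × M → M}
    (E : ∀ x, ExtChart φ W θ x) (x : Sph (m + 1)) : Submodule ℝ (Mat (m + 1)) where
  carrier := {A | A.trace = 0 ∧
    fderiv ℝ (fun B => ((E x).F (B, (E x).c (φ x))).2) (ent (1 : SLn (m + 1)))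
      (fun i j => A i j) = 0}
  add_mem' := by
    rintro A B ⟨h1, h2⟩ ⟨h3, h4⟩
    refine ⟨by rw [Matrix.trace_add, h1, h3, add_zero], ?_⟩
    have h5 : (fun i j => (A + B) i j) = (fun i j => A i j) + (fun i j => B i j) := rfl
    rw [h5, map_add, h2, h4, add_zero]
  zero_mem' := by
    refine ⟨Matrix.trace_zero _ _, ?_⟩
    have h5 : (fun i j => (0 : Mat (m + 1)) i j) = (0 : Fin (m + 1) → Fin (m + 1) → ℝ) := rfl
    rw [h5, map_zero]
  smul_mem' := by
    rintro c A ⟨h1, h2⟩
    refine ⟨by rw [Matrix.trace_smul, h1, smul_zero], ?_⟩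
    have h5 : (fun i j => (c • A) i j) = c • (fun i j => A i j) := rfl
    rw [h5, map_smul, h2, smul_zero]

/-! ## orders and cyclic rings -/

/-- integer combination of `n²` real `n × n` matrices -/
noncomputable def combn {n : ℕ} (B : Fin n × Fin n → Mat n) (c : Fin n × Fin n → ℤ) : Mat n :=
  ∑ k, (c k : ℝ) • B k

/-- An order of a division algebra of degree `n` over `ℚ`, embedded in the real matrices. -/
structure OrdN (n : ℕ) where
  B : Fin n × Fin n → Mat n
  indep : LinearIndependent ℝ B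
  one : ∃ e, combn B e = 1
  mul : ∀ c d, ∃ e, combn B c * combn B d = combn B e
  adj : ∀ c, ∃ e, adjugate (combn B c) = combn B e
  det_int : ∀ c, ∃ z : ℤ, (combn B c).det = (z : ℝ)
  det_ne : ∀ c, c ≠ 0 → (combn B c).det ≠ 0

/-- A cyclic ring of degree `n` (for instance the ring of integers of a real cyclic field) with an
automorphism `σ` and an inert prime `q` with Frobenius automorphism `σ`. -/
structure CycRing (n : ℕ) where
  R : Type
  ring : CommRing R
  dom : IsDomain R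
  b : Module.Basis (Fin n) ℤ R
  ι : R →+* ℝ
  ι_inj : Function.Injective ι
  σ : R ≃+* R
  σn : ∀ x, (σ : R → R)^[n] x = x
  dist : ∀ i, 0 < i → i < n → ∃ x, (σ : R → R)^[i] x ≠ x
  fix : ∀ x, σ x = x → ∃ z : ℤ, x = z
  q : ℕ
  prime : q.Prime
  frob : ∀ x, ∃ y, σ x = x ^ q + q * y

end Pool.Agent.Work.MP_20070e_gt.X
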