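import Mathlib
import Pool.Agent.Work.MP_20070e_gt.X.Defs

/-!
# X/El (M): elementary facts on the group elements and on the action on the sphere

Everything is a direct computation.
* `aa` is a one parameter group of diagonal matrices; `lin (aa m s) v = e^{-s} v + (e^{m s} - e^{-s}) v_0 e_0`.
* conjugation of an elementary matrix `1 + t E_{ij}` by a diagonal matrix `d` multiplies `t` by `d_i / d_j`.
* `sphAct g x = g x / |g x|`: an action (positive homogeneity), commutes with `x ↦ -x`, jointly continuous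
  (`lin` is continuous in `(g, x)`: finite sums of products of entries; `|g x| ≠ 0` by `lin_ne_zero`;
  `Continuous.subtype_mk`).
* `tv_comm`: multiply out (`E_ij E_jl = E_il`, the other products vanish).
* `exists_rot`: extend `x` to an orthonormal basis of `ℝ^{m+1}`
  (`Orthonormal.exists_orthonormalBasis_extension_of_card_eq`, `x` at the index `0`); the matrix with these
  columns is orthogonal, so its determinant is `±1`; if it is `-1`, replace the last column (`m ≥ 1`) by its
  negative. All entries are at most `1` in absolute value (columns have norm one).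
* `compact_box`: `SL_n(ℝ)` is closed in the space of matrices
  (`SpecialLinearGroup.isClosedEmbedding_val`, see `compact_bounded` in `../L3.lean`).
-/

set_option autoImplicit false

open Matrix Topology Metric Filter

namespace Pool.Agent.Work.MP_20070e_gt.X

variable {m n : ℕ}

instance : FirstCountableTopology (SLn n) := by
  have h := (SpecialLinearGroup.isClosedEmbedding_val (n := Fin n) (R := ℝ)).isEmbedding.isInducing
  have h2 : FirstCountableTopology (Matrix (Fin n) (Fin n) ℝ) :=
    inferInstanceAs (FirstCountableTopology (Fin n → Fin n → ℝ))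
  exact h.firstCountableTopology

theorem aa_zero : aa m 0 = 1 := by
  apply Subtype.ext
  change Matrix.diagonal (fun i => if i = 0 then Real.exp (m * 0) else Real.exp (-0)) =
    (1 : Matrix (Fin (m + 1)) (Fin (m + 1)) ℝ)
  simp

theorem aa_add (s t : ℝ) : aa m (s + t) = aa m s * aa m t := by
  apply Subtype.ext
  change Matrix.diagonal (fun i => if i = 0 then Real.exp (m * (s + t)) else Real.exp (-(s + t))) =
    Matrix.diagonal (fun i => if i = 0 then Real.exp (m * s) else Real.exp (-s)) *
    Matrix.diagonal (fun i => if i = 0 then Real.exp (m * t) else Real.exp (-t))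
  rw [Matrix.diagonal_mul_diagonal]
  congr 1
  funext i
  split_ifs
  · rw [← Real.exp_add]; congr 1; ring
  · rw [← Real.exp_add]; congr 1; ring

theorem aa_neg (s : ℝ) : aa m (-s) = (aa m s)⁻¹ := by
  rw [eq_inv_iff_mul_eq_one, ← aa_add, neg_add_cancel, aa_zero]

theorem aa_pow (s : ℝ) (k : ℕ) : (aa m s) ^ k = aa m (k * s) := by
  induction k with
  | zero => rw [pow_zero, Nat.cast_zero, zero_mul, aa_zero]
  | succ k ih =>
    rw [pow_succ, ih, ← aa_add]
    congr 1
    push_cast
    ring

theorem aa_continuous : Continuous (aa m) := by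
  refine Continuous.subtype_mk ?_ _
  refine Continuous.matrix_diagonal ?_
  refine continuous_pi fun i => ?_
  by_cases h : i = 0
  · simp only [h, if_true]
    exact Real.continuous_exp.comp (continuous_const.mul continuous_id)
  · simp only [h, if_false]
    exact Real.continuous_exp.comp continuous_neg

theorem lin_aa (s : ℝ) (v : Eu (m + 1)) :
    lin (aa m s) v = Real.exp (-s) • v + ((Real.exp (m * s) - Real.exp (-s)) * v 0) • e0 m := by
  ext i
  change ((aa m s).1 *ᵥ v.ofLp) i = Real.exp (-s) * v i +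
    ((Real.exp (m * s) - Real.exp (-s)) * v 0) * (e0 m) i
  change ((Matrix.diagonal (fun i => if i = 0 then Real.exp (m * s) else Real.exp (-s))) *ᵥ v.ofLp) i = _
  rw [Matrix.mulVec_diagonal]
  unfold e0
  rw [EuclideanSpace.single_apply]
  by_cases h : i = 0
  · subst h
    simp only [if_true]
    ring
  · simp only [h, if_false]
    ring

theorem lin_continuous : Continuous (fun p : SLn n × Eu n => lin p.1 p.2) := by
  unfold lin
  refine (PiLp.continuous_toLp 2 _).comp ?_
  refine continuous_pi fun i => ?_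
  change Continuous (fun p : SLn n × Eu n => ∑ j, p.1.1 i j * p.2 j)
  refine continuous_finset_sum _ fun j _ => ?_
  have h1 : Continuous (fun p : SLn n × Eu n => p.1.1 i j) :=
    ((continuous_subtype_val.comp continuous_fst).matrix_elem i j)
  have h2 : Continuous (fun p : SLn n × Eu n => p.2 j) :=
    (EuclideanSpace.proj j : Eu n →L[ℝ] ℝ).continuous.comp continuous_snd
  exact h1.mul h2

theorem sphAct_one (x : Sph n) : sphAct 1 x = x := by
  apply Subtype.ext
  change (‖lin 1 x.1‖)⁻¹ • lin 1 x.1 = x.1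
  rw [lin_one, norm_eq_of_mem_sphere x, inv_one, one_smul]

private theorem lin_smul' (g : SLn n) (c : ℝ) (v : Eu n) : lin g (c • v) = c • lin g v := by
  rw [lin_eq, lin_eq, map_smul]

private theorem lin_neg' (g : SLn n) (v : Eu n) : lin g (-v) = -lin g v := by
  rw [lin_eq, lin_eq, map_neg]

private theorem sph_ne (x : Sph n) : (x : Eu n) ≠ 0 := by
  intro h
  have := norm_eq_of_mem_sphere x
  rw [h, norm_zero] at this
  exact zero_ne_one this

theorem sphAct_mul (g h : SLn n) (x : Sph n) : sphAct (g * h) x = sphAct g (sphAct h x) := by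
  apply Subtype.ext
  change (‖lin (g * h) x.1‖)⁻¹ • lin (g * h) x.1 =
    (‖lin g ((‖lin h x.1‖)⁻¹ • lin h x.1)‖)⁻¹ • lin g ((‖lin h x.1‖)⁻¹ • lin h x.1)
  have h1 : 0 < ‖lin h x.1‖ := norm_pos_iff.2 (lin_ne_zero h (sph_ne x))
  rw [lin_smul', norm_smul, norm_inv, norm_norm, lin_mul, smul_smul]
  congr 1
  rw [mul_inv, inv_inv, mul_comm ‖lin h x.1‖, mul_assoc, mul_inv_cancel₀ h1.ne', mul_one]

theorem sphAct_neg (g : SLn n) (x : Sph n) : sphAct g (-x) = -sphAct g x := by
  apply Subtype.ext
  change (‖lin g (-x.1)‖)⁻¹ • lin g (-x.1) = -((‖lin g x.1‖)⁻¹ • lin g x.1)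
  rw [lin_neg', norm_neg, smul_neg]

theorem sphAct_continuous : Continuous (fun p : SLn n × Sph n => sphAct p.1 p.2) := by
  refine Continuous.subtype_mk ?_ _
  have h1 : Continuous (fun p : SLn n × Sph n => lin p.1 p.2.1) :=
    lin_continuous.comp (continuous_fst.prodMk (continuous_subtype_val.comp continuous_snd))
  have h2 : Continuous (fun p : SLn n × Sph n => (‖lin p.1 p.2.1‖)⁻¹) :=
    Continuous.inv₀ h1.norm (fun p => (norm_pos_iff.2 (lin_ne_zero p.1 (sph_ne p.2))).ne')
  exact h2.smul h1

private theorem sphAct_of_lin {g : SLn (m + 1)} {l : ℝ} (hl : 0 < l)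
    (h : lin g (e0 m) = l • e0 m) : sphAct g (oo m) = oo m := by
  apply Subtype.ext
  change (‖lin g (e0 m)‖)⁻¹ • lin g (e0 m) = e0 m
  rw [h, norm_smul, norm_e0, mul_one, Real.norm_of_nonneg hl.le, smul_smul,
    inv_mul_cancel₀ hl.ne', one_smul]

theorem sphAct_aa (s : ℝ) : sphAct (aa m s) (oo m) = oo m := by
  apply sphAct_of_lin (Real.exp_pos (m * s))
  rw [lin_aa]
  have h1 : (e0 m) 0 = 1 := by unfold e0; simp
  rw [h1, mul_one, sub_smul]
  abel

theorem sphAct_tv {j : Fin (m + 1)} (hj : (0 : Fin (m + 1)) ≠ j) (t : ℝ) :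
    sphAct (tv hj t) (oo m) = oo m := by
  apply sphAct_of_lin one_pos
  rw [one_smul]
  ext i
  change ((tv hj t).1 *ᵥ (e0 m).ofLp) i = (e0 m) i
  rw [SpecialLinearGroup.transvection_coe, Matrix.add_mulVec, Matrix.one_mulVec]
  have h1 : ((Matrix.single (0 : Fin (m + 1)) j t) *ᵥ (e0 m).ofLp) i = 0 := by
    rw [Matrix.mulVec, dotProduct]
    apply Finset.sum_eq_zero
    intro k _
    unfold e0
    by_cases hk : k = 0
    · subst hk
      rw [Matrix.single_apply]
      have : ¬ ((0 : Fin (m + 1)) = i ∧ j = 0) := fun h => hj h.2.symm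
      rw [if_neg this, zero_mul]
    · have : (EuclideanSpace.single (0 : Fin (m + 1)) (1 : ℝ)).ofLp k = 0 := by
        simp [hk]
      rw [this, mul_zero]
  rw [Pi.add_apply, h1, add_zero]

/-- the stabiliser of the base point -/
theorem sphAct_eq_oo {g : SLn (m + 1)} (h : sphAct g (oo m) = oo m) :
    ∃ l : ℝ, 0 < l ∧ lin g (e0 m) = l • e0 m := by
  have h1 := congrArg Subtype.val h
  change (‖lin g (e0 m)‖)⁻¹ • lin g (e0 m) = e0 m at h1
  have h2 : 0 < ‖lin g (e0 m)‖ := norm_pos_iff.2 (lin_ne_zero g (by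
    intro h3
    have := norm_e0 m
    rw [h3, norm_zero] at this
    exact zero_ne_one this))
  refine ⟨‖lin g (e0 m)‖, h2, ?_⟩
  have h3 := congrArg (fun z => ‖lin g (e0 m)‖ • z) h1
  simp only [smul_smul, mul_inv_cancel₀ h2.ne', one_smul] at h3
  exact h3

private theorem diag_tv {d : Fin n → ℝ} {i j : Fin n} (hij : i ≠ j) (t c : ℝ)
    (h : d i * t = c * d j) :
    Matrix.diagonal d * (1 + Matrix.single i j t : Matrix (Fin n) (Fin n) ℝ) =
      (1 + Matrix.single i j c) * Matrix.diagonal d := by
  rw [mul_add, add_mul, mul_one, one_mul]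
  congr 1
  ext a b
  rw [Matrix.diagonal_mul, Matrix.mul_diagonal, Matrix.single_apply, Matrix.single_apply]
  by_cases hab : i = a ∧ j = b
  · obtain ⟨rfl, rfl⟩ := hab
    simp only [and_self, if_true]
    exact h
  · rw [if_neg hab, if_neg hab, mul_zero, zero_mul]

theorem aa_tv_up {j : Fin (m + 1)} (hj : (0 : Fin (m + 1)) ≠ j) (s t : ℝ) :
    aa m s * tv hj t * (aa m s)⁻¹ = tv hj (Real.exp ((m + 1) * s) * t) := by
  rw [mul_inv_eq_iff_eq_mul]
  apply Subtype.ext
  change Matrix.diagonal (fun i => if i = 0 then Real.exp (m * s) else Real.exp (-s)) *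
      (1 + Matrix.single 0 j t) = (1 + Matrix.single 0 j (Real.exp ((m + 1) * s) * t)) *
    Matrix.diagonal (fun i => if i = 0 then Real.exp (m * s) else Real.exp (-s))
  apply diag_tv hj
  simp only [if_true, Ne.symm hj, if_false]
  rw [mul_right_comm, ← Real.exp_add]
  congr 2
  ring

theorem aa_tv_low {i : Fin (m + 1)} (hi : i ≠ (0 : Fin (m + 1))) (s t : ℝ) :
    aa m s * tv hi t * (aa m s)⁻¹ = tv hi (Real.exp (-((m + 1) * s)) * t) := by
  rw [mul_inv_eq_iff_eq_mul]
  apply Subtype.ext
  change Matrix.diagonal (fun i => if i = 0 then Real.exp (m * s) else Real.exp (-s)) *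
      (1 + Matrix.single i 0 t) = (1 + Matrix.single i 0 (Real.exp (-((m + 1) * s)) * t)) *
    Matrix.diagonal (fun i => if i = 0 then Real.exp (m * s) else Real.exp (-s))
  apply diag_tv hi
  simp only [if_true, hi, if_false]
  rw [mul_right_comm, ← Real.exp_add]
  congr 2
  ring

theorem tv_comm {i j l : Fin n} (hij : i ≠ j) (hjl : j ≠ l) (hil : i ≠ l) (s t : ℝ) :
    tv hij s * tv hjl t * tv hij (-s) * tv hjl (-t) = tv hil (s * t) := by
  apply Subtype.ext
  change (1 + Matrix.single i j s) * (1 + Matrix.single j l t) * (1 + Matrix.single i j (-s)) *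
    (1 + Matrix.single j l (-t)) = (1 + Matrix.single i l (s * t) : Matrix (Fin n) (Fin n) ℝ)
  have e1 : ∀ a b : ℝ, Matrix.single i j a * Matrix.single j l b =
      (Matrix.single i l (a * b) : Matrix (Fin n) (Fin n) ℝ) := fun a b =>
    Matrix.single_mul_single_same _ _ _ _ _
  have e2 : ∀ a b : ℝ, Matrix.single i j a * Matrix.single i j b =
      (0 : Matrix (Fin n) (Fin n) ℝ) := fun a b => Matrix.single_mul_single_of_ne _ _ _ _ hij.symm _
  have e3 : ∀ a b : ℝ, Matrix.single j l a * Matrix.single i j b =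
      (0 : Matrix (Fin n) (Fin n) ℝ) := fun a b => Matrix.single_mul_single_of_ne _ _ _ _ hil.symm _
  have e4 : ∀ a b : ℝ, Matrix.single j l a * Matrix.single j l b =
      (0 : Matrix (Fin n) (Fin n) ℝ) := fun a b => Matrix.single_mul_single_of_ne _ _ _ _ hjl.symm _
  have e5 : ∀ a b : ℝ, Matrix.single i l a * Matrix.single i j b =
      (0 : Matrix (Fin n) (Fin n) ℝ) := fun a b => Matrix.single_mul_single_of_ne _ _ _ _ hil.symm _
  have e6 : ∀ a b : ℝ, Matrix.single i l a * Matrix.single j l b =
      (0 : Matrix (Fin n) (Fin n) ℝ) := fun a b => Matrix.single_mul_single_of_ne _ _ _ _ hjl.symm _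
  simp only [mul_add, add_mul, mul_one, one_mul, e1, e2, e3, e4, e5, e6, add_zero]
  have f1 : (Matrix.single i j (-s) : Matrix (Fin n) (Fin n) ℝ) = -Matrix.single i j s :=
    (Matrix.single_neg ..).symm
  have f2 : (Matrix.single j l (-t) : Matrix (Fin n) (Fin n) ℝ) = -Matrix.single j l t :=
    (Matrix.single_neg ..).symm
  have f3 : (Matrix.single i l (s * -t) : Matrix (Fin n) (Fin n) ℝ) = -Matrix.single i l (s * t) := by
    rw [mul_neg]; exact (Matrix.single_neg ..).symm
  have f4 : (Matrix.single i l (-s * -t) : Matrix (Fin n) (Fin n) ℝ) = Matrix.single i l (s * t) := by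
    rw [neg_mul_neg]
  rw [f1, f2, f3, f4]
  abel

theorem tv_continuous {i j : Fin n} (hij : i ≠ j) : Continuous (fun t : ℝ => tv hij t) := by
  refine Continuous.subtype_mk ?_ _
  change Continuous (fun t : ℝ => (1 + Matrix.single i j t : Matrix (Fin n) (Fin n) ℝ))
  refine continuous_const.add ?_
  refine continuous_matrix fun a b => ?_
  simp only [Matrix.single_apply]
  by_cases h : i = a ∧ j = b
  · simp only [h, and_self, if_true]
    exact continuous_id
  · simp only [h, if_false]
    exact continuous_const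

theorem exists_rot (hm : 1 ≤ m) (x : Sph (m + 1)) :
    ∃ g : SLn (m + 1), (∀ i j, |g.1 i j| ≤ 1) ∧ lin g (e0 m) = (x : Eu (m + 1)) ∧
      sphAct g (oo m) = x := by
  classical
  have hfr : Module.finrank ℝ (Eu (m + 1)) = Fintype.card (Fin (m + 1)) := by simp
  have hor : Orthonormal ℝ (({0} : Set (Fin (m + 1))).restrict (fun _ => (x : Eu (m + 1)))) := by
    constructor
    · intro i
      exact norm_eq_of_mem_sphere x
    · intro i j hij
      exact absurd (Subsingleton.elim i j) hij
  obtain ⟨b, hb⟩ := hor.exists_orthonormalBasis_extension_of_card_eq hfr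
  have hb0 : b 0 = (x : Eu (m + 1)) := hb 0 rfl
  let A : Matrix (Fin (m + 1)) (Fin (m + 1)) ℝ := Matrix.of fun i j => (b j) i
  have hA : Aᵀ * A = 1 := by
    ext i j
    rw [Matrix.mul_apply]
    have h1 := orthonormal_iff_ite.1 b.orthonormal i j
    rw [PiLp.inner_apply] at h1
    rw [Matrix.one_apply, ← h1]
    apply Finset.sum_congr rfl
    intro k _
    change (b i) k * (b j) k = inner ℝ ((b i) k) ((b j) k)
    rw [real_inner_eq_re_inner ℝ]
    simp [mul_comm]
  have hdet : A.det * A.det = 1 := by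
    have h1 := congrArg Matrix.det hA
    rw [Matrix.det_mul, Matrix.det_transpose, Matrix.det_one] at h1
    exact h1
  let A' : Matrix (Fin (m + 1)) (Fin (m + 1)) ℝ :=
    A * Matrix.diagonal (fun j => if j = Fin.last m then A.det else 1)
  have hA' : A'.det = 1 := by
    rw [Matrix.det_mul, Matrix.det_diagonal, Fin.prod_univ_castSucc]
    have h1 : ∀ j : Fin m, (if (Fin.castSucc j) = Fin.last m then A.det else 1) = 1 := fun j =>
      if_neg (Fin.castSucc_lt_last j).ne
    simp only [h1, Finset.prod_const_one, one_mul, if_true]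
    exact hdet
  have hA'ij : ∀ i j, A' i j = (b j) i * (if j = Fin.last m then A.det else 1) := fun i j =>
    Matrix.mul_diagonal _ _ _ _
  have habs : |A.det| = 1 := by
    have h1 : |A.det| * |A.det| = 1 := by rw [← abs_mul, hdet, abs_one]
    nlinarith [abs_nonneg A.det]
  have h0l : (0 : Fin (m + 1)) ≠ Fin.last m := by
    intro h
    have h2 := congrArg Fin.val h
    simp at h2
    omega
  have hlin : lin (⟨A', hA'⟩ : SLn (m + 1)) (e0 m) = (x : Eu (m + 1)) := by
    ext i
    change ∑ j, A' i j * (e0 m) j = x.1 i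
    rw [Finset.sum_eq_single 0]
    · rw [hA'ij, if_neg h0l, mul_one, hb0]
      unfold e0
      simp
    · intro j _ hj
      unfold e0
      simp [hj]
    · intro h
      exact absurd (Finset.mem_univ _) h
  refine ⟨⟨A', hA'⟩, ?_, hlin, ?_⟩
  · intro i j
    change |A' i j| ≤ 1
    rw [hA'ij, abs_mul]
    have h1 : |(b j) i| ≤ 1 := by
      have h2 := PiLp.norm_apply_le (b j) i
      rw [b.orthonormal.1 j] at h2
      exact h2
    have h3 : |(if j = Fin.last m then A.det else 1)| = 1 := by
      split_ifs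
      · exact habs
      · exact abs_one
    rw [h3, mul_one]
    exact h1
  · apply Subtype.ext
    change (‖lin (⟨A', hA'⟩ : SLn (m + 1)) (e0 m)‖)⁻¹ • lin (⟨A', hA'⟩ : SLn (m + 1)) (e0 m) = x.1
    rw [hlin, norm_eq_of_mem_sphere x, inv_one, one_smul]

theorem compact_box (R : ℝ) : IsCompact {h : SLn n | ∀ i j, |h.1 i j| ≤ R} := by
  have h1 : IsCompact (Set.pi Set.univ (fun _ : Fin n => Set.pi Set.univ
      (fun _ : Fin n => Set.Icc (-R) R)) : Set (Matrix (Fin n) (Fin n) ℝ)) :=
    isCompact_univ_pi (fun _ => isCompact_univ_pi (fun _ => isCompact_Icc))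
  have h2 := SpecialLinearGroup.isClosedEmbedding_val (n := Fin n) (R := ℝ) |>.isCompact_preimage h1
  have h3 : {h : SLn n | ∀ i j, |h.1 i j| ≤ R} = (fun h : SLn n => h.1) ⁻¹'
      (Set.pi Set.univ (fun _ : Fin n => Set.pi Set.univ
      (fun _ : Fin n => Set.Icc (-R) R)) : Set (Matrix (Fin n) (Fin n) ℝ)) := by
    ext h
    constructor
    · intro hh i _ j _
      exact abs_le.1 (hh i j)
    · intro hh i j
      exact abs_le.2 (hh i (Set.mem_univ i) j (Set.mem_univ j))
  rw [h3]
  exact h2

end Pool.Agent.Work.MP_20070e_gt.X
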