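import Mathlib
import Pool.Agent.Work.MP_20070e_gt.X.El

/-!
# X/DK (S-M): the family `K(g)`

All by definition (`mem_KK`), `sphAct_mul`, `(g h)⁻¹ = h⁻¹ g⁻¹` and the fields of `HypField`.
* `KK_mul_right`: `K(g γ) = K(g)` for `γ ∈ Γ` (equivariance, with `γ` and with `γ⁻¹`).
* `KK_mul_left`: if `q o = o` then `A ∈ K(q g) ↔ q⁻¹ A q ∈ K(g)`.
* `KK_closed`: continuity of `g ↦ g⁻¹`, of the products and of `sphAct`.
* `mem_k_iff`: `A ∈ k(g⁻¹ o) ↔ g A g⁻¹ ∈ K(g)`.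
* `KK_eq_of_le`: two subspaces of codimension one in the matrices of trace zero: if `K(g) ≤ K(g')`, and `K(g')` is not
  everything, then `K(g) = K(g')`: let `B ∈ K(g')`; choose `A₀` of trace zero, `A₀ ∉ K(g')`, and `c, d` not both zero with
  `c A₀ + d B ∈ K(g) ≤ K(g')`: then `c A₀ ∈ K(g')`, so `c = 0`, `d ≠ 0` and `B ∈ K(g)`.
-/

set_option autoImplicit false

open Matrix Topology Metric Filter

namespace Pool.Agent.Work.MP_20070e_gt.X

variable {m : ℕ} {Γ : Subgroup (SLn (m + 1))} {k : Sph (m + 1) → Submodule ℝ (Mat (m + 1))}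

private theorem vi (g : SLn (m + 1)) : (g⁻¹).1 * g.1 = 1 :=
  congrArg Subtype.val (inv_mul_cancel g)

private theorem iv' (g : SLn (m + 1)) : g.1 * (g⁻¹).1 = 1 :=
  congrArg Subtype.val (mul_inv_cancel g)

private theorem tr_conj (g : SLn (m + 1)) (A : Mat (m + 1)) :
    ((g⁻¹).1 * A * g.1).trace = A.trace := by
  rw [Matrix.trace_mul_cycle, iv', one_mul]

private theorem tr_conj' (g : SLn (m + 1)) (A : Mat (m + 1)) :
    (g.1 * A * (g⁻¹).1).trace = A.trace := by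
  rw [Matrix.trace_mul_cycle, vi, one_mul]

private theorem conj_conj (g : SLn (m + 1)) (A : Mat (m + 1)) :
    (g⁻¹).1 * (g.1 * A * (g⁻¹).1) * g.1 = A := by
  calc (g⁻¹).1 * (g.1 * A * (g⁻¹).1) * g.1 = ((g⁻¹).1 * g.1) * A * ((g⁻¹).1 * g.1) := by
        simp only [mul_assoc]
    _ = A := by rw [vi, one_mul, mul_one]

theorem KK_tr (h : HypField Γ k) {g : SLn (m + 1)} {A : Mat (m + 1)} (hA : A ∈ KK k g) :
    A.trace = 0 := by
  have h1 := h.tr _ _ (mem_KK.1 hA)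
  rwa [tr_conj] at h1

theorem KK_codim (h : HypField Γ k) (g : SLn (m + 1)) (A B : Mat (m + 1)) (hA : A.trace = 0)
    (hB : B.trace = 0) : ∃ c d : ℝ, (c ≠ 0 ∨ d ≠ 0) ∧ c • A + d • B ∈ KK k g := by
  obtain ⟨c, d, hcd, hm⟩ := h.codim (sphAct g⁻¹ (oo m)) ((g⁻¹).1 * A * g.1) ((g⁻¹).1 * B * g.1)
    (by rw [tr_conj, hA]) (by rw [tr_conj, hB])
  refine ⟨c, d, hcd, mem_KK.2 ?_⟩
  rw [mul_add, add_mul, Matrix.mul_smul, Matrix.mul_smul, Matrix.smul_mul, Matrix.smul_mul]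
  exact hm

theorem KK_closed (h : HypField Γ k) (g : ℕ → SLn (m + 1)) (A : ℕ → Mat (m + 1))
    (g' : SLn (m + 1)) (A' : Mat (m + 1)) (hA : ∀ j, A j ∈ KK k (g j))
    (hg : Tendsto g atTop (𝓝 g')) (hA' : Tendsto A atTop (𝓝 A')) : A' ∈ KK k g' := by
  have hinv : Tendsto (fun j => (g j)⁻¹) atTop (𝓝 g'⁻¹) := hg.inv
  have h0 : Tendsto (fun j => sphAct (g j)⁻¹ (oo m)) atTop (𝓝 (sphAct g'⁻¹ (oo m))) := by
    have hc : Continuous (fun g : SLn (m + 1) => sphAct g (oo m)) := by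
      have h1 : Continuous (fun g : SLn (m + 1) => (g, oo m)) := Continuous.prodMk_left (oo m)
      have h2 := (sphAct_continuous (n := m + 1))
      have h3 := Continuous.comp h2 h1
      exact h3
    exact Tendsto.comp (hc.tendsto g'⁻¹) hinv
  have hval : Continuous (fun g : SLn (m + 1) => g.1) := continuous_subtype_val
  have h1 : Tendsto (fun j => (g j).1) atTop (𝓝 g'.1) := (hval.tendsto g').comp hg
  have h2 : Tendsto (fun j => ((g j)⁻¹).1) atTop (𝓝 (g'⁻¹).1) := (hval.tendsto g'⁻¹).comp hinv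
  have h3 : Tendsto (fun j => ((g j)⁻¹).1 * A j * (g j).1) atTop (𝓝 ((g'⁻¹).1 * A' * g'.1)) :=
    (h2.mul hA').mul h1
  have h4 : ∀ j, ((g j)⁻¹).1 * A j * (g j).1 ∈ k (sphAct (g j)⁻¹ (oo m)) := fun j =>
    mem_KK.1 (hA j)
  exact mem_KK.2 (h.closed (fun j => sphAct (g j)⁻¹ (oo m)) (fun j => ((g j)⁻¹).1 * A j * (g j).1)
    (sphAct g'⁻¹ (oo m)) ((g'⁻¹).1 * A' * g'.1) h4 h0 h3)

theorem KK_mul_right (h : HypField Γ k) (g : SLn (m + 1)) {γ : SLn (m + 1)} (hγ : γ ∈ Γ) :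
    KK k (g * γ) = KK k g := by
  have key : ∀ (g γ : SLn (m + 1)), γ ∈ Γ → KK k g ≤ KK k (g * γ) := by
    intro g γ hγ A hA
    have h1 := h.equiv γ⁻¹ (Γ.inv_mem hγ) _ _ (mem_KK.1 hA)
    rw [mem_KK, _root_.mul_inv_rev, sphAct_mul]
    have e : ((γ⁻¹ * g⁻¹ : SLn (m + 1))).1 * A * (g * γ).1 =
        (γ⁻¹).1 * ((g⁻¹).1 * A * g.1) * ((γ⁻¹)⁻¹).1 := by
      rw [inv_inv]
      change (γ⁻¹).1 * (g⁻¹).1 * A * (g.1 * γ.1) = _
      simp only [mul_assoc]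
    rw [e]
    exact h1
  apply le_antisymm
  · have h1 := key (g * γ) γ⁻¹ (Γ.inv_mem hγ)
    rwa [mul_inv_cancel_right] at h1
  · exact key g γ hγ

theorem KK_mul_left {q : SLn (m + 1)} (hq : sphAct q (oo m) = oo m) (g : SLn (m + 1))
    (A : Mat (m + 1)) : A ∈ KK k (q * g) ↔ (q⁻¹).1 * A * q.1 ∈ KK k g := by
  have hq' : sphAct q⁻¹ (oo m) = oo m := by
    conv_lhs => rw [← hq]
    rw [← sphAct_mul, inv_mul_cancel, sphAct_one]
  rw [mem_KK, mem_KK, _root_.mul_inv_rev, sphAct_mul, hq']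
  have e : ((g⁻¹ * q⁻¹ : SLn (m + 1))).1 * A * (q * g).1 =
      (g⁻¹).1 * ((q⁻¹).1 * A * q.1) * g.1 := by
    change (g⁻¹).1 * (q⁻¹).1 * A * (q.1 * g.1) = _
    simp only [mul_assoc]
  rw [e]

theorem mem_k_iff (g : SLn (m + 1)) (A : Mat (m + 1)) :
    A ∈ k (sphAct g⁻¹ (oo m)) ↔ g.1 * A * (g⁻¹).1 ∈ KK k g := by
  rw [mem_KK, conj_conj]

theorem KK_ne (hall : ∀ x, ∃ A : Mat (m + 1), A.trace = 0 ∧ A ∉ k x) (g : SLn (m + 1)) :
    ∃ A : Mat (m + 1), A.trace = 0 ∧ A ∉ KK k g := by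
  obtain ⟨A, h1, h2⟩ := hall (sphAct g⁻¹ (oo m))
  refine ⟨g.1 * A * (g⁻¹).1, by rw [tr_conj', h1], fun h3 => h2 ?_⟩
  exact (mem_k_iff g A).2 h3

theorem KK_eq_of_le (h : HypField Γ k) (hall : ∀ x, ∃ A : Mat (m + 1), A.trace = 0 ∧ A ∉ k x)
    {g g' : SLn (m + 1)} (hle : KK k g ≤ KK k g') : KK k g = KK k g' := by
  apply le_antisymm hle
  intro B hB
  obtain ⟨A0, h1, h2⟩ := KK_ne hall g'
  obtain ⟨c, d, hcd, hm⟩ := KK_codim h g A0 B h1 (KK_tr h hB)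
  have h3 : c • A0 ∈ KK k g' := by
    have h4 := (KK k g').sub_mem (hle hm) ((KK k g').smul_mem d hB)
    rwa [add_sub_cancel_right] at h4
  have hc : c = 0 := by
    by_contra hc
    apply h2
    have h4 := (KK k g').smul_mem c⁻¹ h3
    rwa [smul_smul, inv_mul_cancel₀ hc, one_smul] at h4
  have hd : d ≠ 0 := by
    rcases hcd with h4 | h4
    · exact absurd hc h4
    · exact h4
  rw [hc, zero_smul, zero_add] at hm
  have h4 := (KK k g).smul_mem d⁻¹ hm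
  rwa [smul_smul, inv_mul_cancel₀ hd, one_smul] at h4

/-- `K(g)` is the kernel of a nonzero linear functional on the matrices of trace zero -/
theorem KK_functional (h : HypField Γ k)
    (hall : ∀ x, ∃ A : Mat (m + 1), A.trace = 0 ∧ A ∉ k x) (g : SLn (m + 1)) :
    ∃ f : Mat (m + 1) →ₗ[ℝ] ℝ, (∀ A, A.trace = 0 → (A ∈ KK k g ↔ f A = 0)) ∧
      ∃ A, A.trace = 0 ∧ f A ≠ 0 := by
  obtain ⟨A0, h1, h2⟩ := KK_ne hall g
  obtain ⟨f, hf1, hf2⟩ := Submodule.exists_dual_map_eq_bot_of_notMem h2 inferInstance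
  have hf3 : ∀ A ∈ KK k g, f A = 0 := by
    intro A hA
    have h3 : f A ∈ (KK k g).map f := Submodule.mem_map_of_mem hA
    rw [hf2, Submodule.mem_bot] at h3
    exact h3
  refine ⟨f, fun A hA => ⟨hf3 A, fun h3 => ?_⟩, A0, h1, hf1⟩
  obtain ⟨c, d, hcd, hm⟩ := KK_codim h g A0 A h1 hA
  have h4 := hf3 _ hm
  rw [map_add, map_smul, map_smul, h3, smul_zero, add_zero, smul_eq_mul] at h4
  have hc : c = 0 := by
    rcases mul_eq_zero.1 h4 with h5 | h5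
    · exact h5
    · exact absurd h5 hf1
  have hd : d ≠ 0 := by
    rcases hcd with h5 | h5
    · exact absurd hc h5
    · exact h5
  rw [hc, zero_smul, zero_add] at hm
  have h5 := (KK k g).smul_mem d⁻¹ hm
  rwa [smul_smul, inv_mul_cancel₀ hd, one_smul] at h5

end Pool.Agent.Work.MP_20070e_gt.X
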