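import Mathlib
import Pool.Agent.Work.MP_20070e_gt.X.El

/-!
# X/Seq (S): sequences and cocompactness

Choose `γ k` with `h k * γ k ∈ C`; `IsCompact.tendsto_subseq` (first countability: `El`). For two sequences use
the compact set `C ×ˢ C`. `ent`-criterion: `1` is isolated in `Γ`: `nhds_one_eq` (in `../C2.lean`).
`disc_eventually`: if `γ k → u`, `γ k ∈ Γ`, then `γ k * (γ l)⁻¹ → 1`, so `γ k = γ l` for large `k, l`, and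
`u = γ k`.
-/

set_option autoImplicit false

open Matrix Topology Metric Filter

namespace Pool.Agent.Work.MP_20070e_gt.X

variable {n : ℕ}

private theorem seq_inducing : IsInducing (ent : SLn n → (Fin n → Fin n → ℝ)) :=
  IsInducing.subtypeVal

theorem exists_subseq {Γ : Subgroup (SLn n)} {C : Set (SLn n)} (hC : IsCompact C)
    (hΓ : ∀ g : SLn n, ∃ γ ∈ Γ, g * γ ∈ C) (h : ℕ → SLn n) :
    ∃ (γ : ℕ → SLn n) (ψ : ℕ → ℕ) (κ : SLn n), (∀ k, γ k ∈ Γ) ∧ (∀ k, h k * γ k ∈ C) ∧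
      StrictMono ψ ∧ κ ∈ C ∧ Tendsto (fun k => h (ψ k) * γ (ψ k)) atTop (𝓝 κ) := by
  choose γ hγ hγC using fun k => hΓ (h k)
  obtain ⟨κ, hκ, ψ, hψ, ht⟩ := hC.tendsto_subseq hγC
  exact ⟨γ, ψ, κ, hγ, hγC, hψ, hκ, ht⟩

theorem exists_subseq_pair {Γ : Subgroup (SLn n)} {C : Set (SLn n)} (hC : IsCompact C)
    (hΓ : ∀ g : SLn n, ∃ γ ∈ Γ, g * γ ∈ C) (h h' : ℕ → SLn n) :
    ∃ (γ γ' : ℕ → SLn n) (ψ : ℕ → ℕ) (κ κ' : SLn n), (∀ k, γ k ∈ Γ) ∧ (∀ k, γ' k ∈ Γ) ∧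
      StrictMono ψ ∧ Tendsto (fun k => h (ψ k) * γ (ψ k)) atTop (𝓝 κ) ∧
      Tendsto (fun k => h' (ψ k) * γ' (ψ k)) atTop (𝓝 κ') := by
  choose γ hγ hγC using fun k => hΓ (h k)
  choose γ' hγ' hγC' using fun k => hΓ (h' k)
  obtain ⟨κ, hκ, ψ₁, hψ₁, ht₁⟩ := hC.tendsto_subseq hγC
  obtain ⟨κ', hκ', ψ₂, hψ₂, ht₂⟩ := hC.tendsto_subseq (fun k => hγC' (ψ₁ k))
  exact ⟨γ, γ', ψ₁ ∘ ψ₂, κ, κ', hγ, hγ', hψ₁.comp hψ₂, ht₁.comp hψ₂.tendsto_atTop, ht₂⟩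

theorem disc_limit {Γ : Subgroup (SLn n)} (hΓ : IsDiscreteSubgroup Γ) (γ : ℕ → SLn n)
    (hγ : ∀ k, γ k ∈ Γ) (u : SLn n) (hu : Tendsto γ atTop (𝓝 u)) : u ∈ Γ := by
  obtain ⟨U, hU, hUΓ⟩ := hΓ
  have h1 : Tendsto (fun p : ℕ × ℕ => γ p.1 * (γ p.2)⁻¹) (atTop ×ˢ atTop) (𝓝 (u * u⁻¹)) :=
    (hu.comp tendsto_fst).mul (hu.comp tendsto_snd).inv
  rw [mul_inv_cancel, prod_atTop_atTop_eq] at h1
  have h2 := h1.eventually hU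
  rw [eventually_atTop] at h2
  obtain ⟨⟨a, b⟩, hab⟩ := h2
  have h3 : ∀ k ≥ max a b, γ k = γ (max a b) := by
    intro k hk
    have h4 := hab (k, max a b) ⟨(le_max_left a b).trans hk, le_max_right a b⟩
    have h5 := hUΓ _ (Γ.mul_mem (hγ k) (Γ.inv_mem (hγ (max a b)))) h4
    exact mul_inv_eq_one.1 h5
  have h6 : Tendsto γ atTop (𝓝 (γ (max a b))) :=
    tendsto_const_nhds.congr' (by
      rw [EventuallyEq, eventually_atTop]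
      exact ⟨max a b, fun k hk => (h3 k hk).symm⟩)
  rw [tendsto_nhds_unique hu h6]
  exact hγ _

theorem disc_eps {Γ : Subgroup (SLn n)} (hΓ : IsDiscreteSubgroup Γ) :
    ∃ ε : ℝ, 0 < ε ∧ ∀ γ ∈ Γ, ‖ent γ - ent (1 : SLn n)‖ < ε → γ = 1 := by
  obtain ⟨U, hU, hUΓ⟩ := hΓ
  rw [seq_inducing.nhds_eq_comap, Filter.mem_comap] at hU
  obtain ⟨t, ht, hts⟩ := hU
  obtain ⟨ε, hε, hb⟩ := Metric.mem_nhds_iff.1 ht
  refine ⟨ε, hε, fun γ hγ hh => hUΓ γ hγ (hts (hb ?_))⟩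
  rw [mem_ball, dist_eq_norm]
  exact hh

/-- convergence in `SL_n(ℝ)` is convergence of the entries -/
theorem tendsto_one_iff (g : ℕ → SLn n) :
    Tendsto g atTop (𝓝 1) ↔ Tendsto (fun k => ‖ent (g k) - ent (1 : SLn n)‖) atTop (𝓝 0) := by
  rw [seq_inducing.tendsto_nhds_iff, tendsto_iff_norm_sub_tendsto_zero]
  rfl

end Pool.Agent.Work.MP_20070e_gt.X
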