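import Mathlib
import Pool.Agent.Work.MP_20070e_gt.X.El
import Pool.Agent.Work.MP_20070e_gt.X.Seq

/-!
# X/IrrA (M): a contracting element for a proper invariant subspace

Let `P` be the orthogonal projection of `ℝⁿ` onto `E` (as a matrix or a linear map) and `Q = 1 - P`. Put
`a₀ = P + 2 Q`, `a₀⁻¹ = P + 2⁻¹ Q`. Its determinant is positive: `a₀ = b²` with `b = P + √2 Q` invertible. Let
`a = (det a₀)^{-1/n} a₀` (`n > 0` since `E ≠ ⊤` and `E ≠ ⊥`). Conjugation by `a` is conjugation by `a₀`. Both `a` and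
`a⁻¹` preserve `E` (`P v = v`, `Q v = 0` on `E`).

If `p` preserves `E`, i.e. `Q p P = 0`, then `p = P p P + P p Q + Q p Q` and
`a^l p a^{-l} = P p P + 2^{-l} P p Q + Q p Q = p - (1 - 2^{-l}) P p Q`. As `P 1 Q = 0`, we get
`a^l p a^{-l} - 1 = (p - 1) - (1 - 2^{-l}) P (p - 1) Q`, so the norm is at most `B ‖p - 1‖` with a constant `B`
depending only on `P` (entries: `B = 1 + n² (max |P|)(max |Q|)`; any bound will do, e.g. by compactness/continuity of the
bilinear maps; `‖ent ·‖` is the sup norm of the entries).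

`u = 1 + ε' X` with `X = P Y Q ≠ 0` for some `Y`: choose `0 ≠ e ∈ E`, `0 ≠ f ∈ Eᗮ`, `X = e fᵀ` (`X v = ⟪f, v⟫ e`);
`X² = 0`, so `det (1 + ε' X) = 1` (`1 + ε' ⟪f, e⟫ = 1`; `Matrix.det_one_add_replicateCol_mul_replicateRow` or
`det_one_add_vecMulVec`..). `a^l u a^{-l} = 1 + 2^{-l} ε' X → 1`.
-/

set_option autoImplicit false

open Matrix Topology Metric Filter

namespace Pool.Agent.Work.MP_20070e_gt.X

private noncomputable def mvA {n : ℕ} (A : Mat n) (v : Eu n) : Eu n := WithLp.toLp 2 (A *ᵥ v.ofLp)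

private theorem mvA_mul {n : ℕ} (A B : Mat n) (v : Eu n) : mvA (A * B) v = mvA A (mvA B v) := by
  simp [mvA, Matrix.mulVec_mulVec]

private theorem mvA_add {n : ℕ} (A B : Mat n) (v : Eu n) : mvA (A + B) v = mvA A v + mvA B v := by
  simp [mvA, Matrix.add_mulVec]

private theorem mvA_sub {n : ℕ} (A B : Mat n) (v : Eu n) : mvA (A - B) v = mvA A v - mvA B v := by
  simp [mvA, Matrix.sub_mulVec]

private theorem mvA_smul {n : ℕ} (c : ℝ) (A : Mat n) (v : Eu n) : mvA (c • A) v = c • mvA A v := by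
  simp [mvA, Matrix.smul_mulVec]

private theorem mvA_one {n : ℕ} (v : Eu n) : mvA (1 : Mat n) v = v := by
  simp [mvA]

private theorem mvA_zero {n : ℕ} (v : Eu n) : mvA (0 : Mat n) v = 0 := by
  simp [mvA]

private theorem mvA_ext {n : ℕ} {A B : Mat n} (h : ∀ v, mvA A v = mvA B v) : A = B := by
  apply (Matrix.toEuclideanLin (𝕜 := ℝ) (m := Fin n) (n := Fin n)).injective
  apply LinearMap.ext
  intro v
  exact h v

private def entA {n : ℕ} (A : Mat n) : Fin n → Fin n → ℝ := fun i j => A i j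

private noncomputable def LA {n : ℕ} (P Q : Mat n) :
    (Fin n → Fin n → ℝ) →ₗ[ℝ] (Fin n → Fin n → ℝ) where
  toFun D := entA (P * Matrix.of D * Q)
  map_add' A B := by
    change entA (P * (Matrix.of A + Matrix.of B) * Q) = _
    rw [mul_add, add_mul]
    rfl
  map_smul' c A := by
    change entA (P * (c • Matrix.of A) * Q) = _
    rw [Matrix.mul_smul, Matrix.smul_mul]
    rfl

/-- the algebra of a projection. -/
private theorem proj_conj {n : ℕ} {P Q p : Mat n} (hPP : P * P = P) (hPQ : P * Q = 0)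
    (hQP : Q * P = 0) (hQQ : Q * Q = Q) (hsum : P + Q = 1) (h : Q * p * P = 0) {t : ℝ}
    (ht : t ≠ 0) :
    (P + t • Q) * p * (P + t⁻¹ • Q) - 1 = (p - 1) - (1 - t⁻¹) • (P * (p - 1) * Q) := by
  have h1 : p = P * p * P + P * p * Q + Q * p * Q := by
    have h2 : p = (P + Q) * p * (P + Q) := by rw [hsum, one_mul, mul_one]
    have h3 : (P + Q) * p * (P + Q) = P * p * P + P * p * Q + Q * p * P + Q * p * Q := by
      noncomm_ring
    rw [h3, h, add_zero] at h2
    exact h2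
  have h4 : (P + t • Q) * p * (P + t⁻¹ • Q) = P * p * P + t⁻¹ • (P * p * Q) +
      t • (Q * p * P) + Q * p * Q := by
    simp only [add_mul, mul_add, Matrix.smul_mul, Matrix.mul_smul, smul_smul,
      inv_mul_cancel₀ ht, one_smul]
    abel
  have h5 : P * (p - 1) * Q = P * p * Q := by
    rw [mul_sub, mul_one, sub_mul, hPQ, sub_zero]
  rw [h4, h, smul_zero, add_zero, h5, sub_smul, one_smul]
  conv_rhs => rw [h1]
  have h6 : P * (P * p * P + P * p * Q + Q * p * Q) * Q = P * p * Q := by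
    rw [← h1]
  rw [h6]
  abel

private theorem conj_add {n : ℕ} (A B X : Mat n) (c : ℝ) :
    A * (1 + c • X) * B = A * B + c • (A * X * B) := by
  rw [mul_add, mul_one, Matrix.mul_smul, add_mul, Matrix.smul_mul]

theorem exists_contr {n : ℕ} (E : Submodule ℝ (Eu n)) (h0 : E ≠ ⊥) (h1 : E ≠ ⊤) :
    ∃ (a : SLn n) (B : ℝ), (∀ v ∈ E, lin a v ∈ E) ∧ (∀ v ∈ E, lin a⁻¹ v ∈ E) ∧ 0 < B ∧
      (∀ p : SLn n, (∀ v ∈ E, lin p v ∈ E) → ∀ l : ℕ,
        ‖ent (a ^ l * p * (a ^ l)⁻¹) - ent (1 : SLn n)‖ ≤ B * ‖ent p - ent (1 : SLn n)‖) ∧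
      (∀ ε : ℝ, 0 < ε → ∃ u : SLn n, u ≠ 1 ∧ ‖ent u - ent (1 : SLn n)‖ < ε ∧
        (∀ v ∈ E, lin u v ∈ E) ∧ Tendsto (fun l : ℕ => a ^ l * u * (a ^ l)⁻¹) atTop (𝓝 1)) := by
  -- a projection
  obtain ⟨f, hf⟩ := LinearMap.exists_leftInverse_of_injective E.subtype
    (LinearMap.ker_eq_bot.2 E.injective_subtype)
  obtain ⟨P, hP⟩ : ∃ P : Mat n, ∀ v, mvA P v = E.subtype (f v) := by
    refine ⟨Matrix.toEuclideanLin.symm (E.subtype ∘ₗ f), fun v => ?_⟩
    have : Matrix.toEuclideanLin (Matrix.toEuclideanLin.symm (E.subtype ∘ₗ f)) v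
        = (E.subtype ∘ₗ f) v := by
      rw [LinearEquiv.apply_symm_apply]
    exact this
  have hPE : ∀ v, mvA P v ∈ E := fun v => by rw [hP]; exact (f v).2
  have hPv : ∀ v ∈ E, mvA P v = v := by
    intro v hv
    rw [hP]
    have h2 := LinearMap.congr_fun hf ⟨v, hv⟩
    have h3 : f v = ⟨v, hv⟩ := h2
    rw [h3]
    rfl
  obtain ⟨Q, hQ⟩ : ∃ Q : Mat n, Q = 1 - P := ⟨_, rfl⟩
  have hQv : ∀ v ∈ E, mvA Q v = 0 := by
    intro v hv
    rw [hQ, mvA_sub, mvA_one, hPv v hv, sub_self]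
  have hPP : P * P = P := by
    apply mvA_ext
    intro v
    rw [mvA_mul, hPv _ (hPE v)]
  have hPQ : P * Q = 0 := by rw [hQ, mul_sub, mul_one, hPP, sub_self]
  have hQP : Q * P = 0 := by rw [hQ, sub_mul, one_mul, hPP, sub_self]
  have hQQ : Q * Q = Q := by
    have h2 : Q * Q = (1 - P) * Q := by rw [← hQ]
    rw [h2, sub_mul, one_mul, hPQ, sub_zero]
  have hsum : P + Q = 1 := by rw [hQ]; abel
  -- one parameter group
  have hMM : ∀ t u : ℝ, (P + t • Q) * (P + u • Q) = P + (t * u) • Q := by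
    intro t u
    simp only [add_mul, mul_add, Matrix.smul_mul, Matrix.mul_smul, hPP, hPQ, hQP, hQQ, smul_zero,
      add_zero, zero_add, smul_smul]
    rw [mul_comm u t]
  have hM1 : P + (1 : ℝ) • Q = 1 := by rw [one_smul, hsum]
  have hdet : 0 < (P + (2 : ℝ) • Q).det := by
    have h2 : (P + (2 : ℝ) • Q).det = (P + (Real.sqrt 2) • Q).det ^ 2 := by
      rw [sq, ← Matrix.det_mul, hMM, Real.mul_self_sqrt (by norm_num)]
    have h3 : (P + (Real.sqrt 2) • Q).det ≠ 0 := by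
      intro h4
      have h5 : (P + (Real.sqrt 2) • Q).det * (P + (Real.sqrt 2)⁻¹ • Q).det = 1 := by
        rw [← Matrix.det_mul, hMM, mul_inv_cancel₀ (by positivity), hM1, Matrix.det_one]
      rw [h4, zero_mul] at h5
      exact zero_ne_one h5
    rw [h2]
    positivity
  have hn : n ≠ 0 := by
    rintro rfl
    apply h0
    rw [Submodule.eq_bot_iff]
    intro x _
    exact Subsingleton.elim _ _
  obtain ⟨s, hs, hs1⟩ : ∃ s : ℝ, 0 < s ∧ s ^ n * (P + (2 : ℝ) • Q).det = 1 := by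
    refine ⟨(P + (2 : ℝ) • Q).det ^ (-(1 / (n : ℝ))), Real.rpow_pos_of_pos hdet _, ?_⟩
    rw [← Real.rpow_natCast, ← Real.rpow_mul hdet.le, neg_mul, one_div,
      inv_mul_cancel₀ (by exact_mod_cast hn), Real.rpow_neg_one, inv_mul_cancel₀ hdet.ne']
  obtain ⟨a, ha⟩ : ∃ a : SLn n, a.1 = s • (P + (2 : ℝ) • Q) :=
    ⟨⟨s • (P + (2 : ℝ) • Q), by rw [Matrix.det_smul, Fintype.card_fin, hs1]⟩, rfl⟩
  have hapow : ∀ l : ℕ, (a ^ l).1 = s ^ l • (P + ((2 : ℝ) ^ l) • Q) := by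
    intro l
    induction l with
    | zero => 
      rw [pow_zero, pow_zero, pow_zero, one_smul, hM1]
      rfl
    | succ l ih =>
      rw [pow_succ]
      change (a ^ l).1 * a.1 = _
      rw [ih, ha, Matrix.smul_mul, Matrix.mul_smul, hMM, smul_smul, pow_succ, pow_succ]
  have hainv : ∀ l : ℕ, ((a ^ l)⁻¹).1 = (s ^ l)⁻¹ • (P + ((2 : ℝ) ^ l)⁻¹ • Q) := by
    intro l
    have h2 : (a ^ l).1 * ((s ^ l)⁻¹ • (P + ((2 : ℝ) ^ l)⁻¹ • Q)) = 1 := by
      rw [hapow, Matrix.smul_mul, Matrix.mul_smul, hMM, smul_smul,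
        mul_inv_cancel₀ (by positivity), mul_inv_cancel₀ (by positivity), one_smul, hM1]
    have h3 : ((a ^ l)⁻¹).1 * (a ^ l).1 = 1 := by
      have h4 : (a ^ l)⁻¹ * (a ^ l) = 1 := inv_mul_cancel _
      have h5 := congrArg Subtype.val h4
      exact h5
    calc ((a ^ l)⁻¹).1 = ((a ^ l)⁻¹).1 * ((a ^ l).1 * ((s ^ l)⁻¹ • (P + ((2 : ℝ) ^ l)⁻¹ • Q))) := by
          rw [h2, mul_one]
      _ = (s ^ l)⁻¹ • (P + ((2 : ℝ) ^ l)⁻¹ • Q) := by rw [← mul_assoc, h3, one_mul]
  have hconj : ∀ (l : ℕ) (p : SLn n), (a ^ l * p * (a ^ l)⁻¹).1 =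
      (P + ((2 : ℝ) ^ l) • Q) * p.1 * (P + ((2 : ℝ) ^ l)⁻¹ • Q) := by
    intro l p
    change (a ^ l).1 * p.1 * ((a ^ l)⁻¹).1 = _
    rw [hapow, hainv, Matrix.smul_mul, Matrix.smul_mul, Matrix.mul_smul, smul_smul,
      mul_inv_cancel₀ (by positivity), one_smul]
  have hlin : ∀ (g : SLn n) v, lin g v = mvA g.1 v := fun g v => rfl
  have hMv : ∀ t : ℝ, ∀ v ∈ E, mvA (P + t • Q) v = v := by
    intro t v hv
    rw [mvA_add, mvA_smul, hQv v hv, hPv v hv, smul_zero, add_zero]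
  refine ⟨a, 1 + ‖LinearMap.toContinuousLinearMap (LA P Q)‖, ?_, ?_, by positivity, ?_, ?_⟩
  · intro v hv
    rw [hlin, ha, mvA_smul, hMv _ v hv]
    exact E.smul_mem _ hv
  · intro v hv
    have h2 := hainv 1
    rw [pow_one, pow_one, pow_one] at h2
    rw [hlin, h2, mvA_smul, hMv _ v hv]
    exact E.smul_mem _ hv
  · intro p hp l
    have h2 : Q * p.1 * P = 0 := by
      apply mvA_ext
      intro v
      rw [mvA_mul, mvA_mul, mvA_zero, ← hlin]
      exact hQv _ (hp _ (hPE v))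
    have ht : ((2 : ℝ) ^ l) ≠ 0 := by positivity
    have h3 := proj_conj hPP hPQ hQP hQQ hsum h2 ht
    have h4 : ent (a ^ l * p * (a ^ l)⁻¹) - ent (1 : SLn n) =
        (ent p - ent (1 : SLn n)) -
          (1 - ((2 : ℝ) ^ l)⁻¹) • (LinearMap.toContinuousLinearMap (LA P Q))
            (ent p - ent (1 : SLn n)) := by
      have h5 : ent (a ^ l * p * (a ^ l)⁻¹) - ent (1 : SLn n) =
        entA ((P + ((2 : ℝ) ^ l) • Q) * p.1 * (P + ((2 : ℝ) ^ l)⁻¹ • Q) - 1) := by
        rw [← hconj]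
        rfl
      rw [h5, h3]
      rfl
    rw [h4]
    have h6 := (LinearMap.toContinuousLinearMap (LA P Q)).le_opNorm (ent p - ent (1 : SLn n))
    have h7 : 0 ≤ 1 - ((2 : ℝ) ^ l)⁻¹ := by
      have : ((2 : ℝ) ^ l)⁻¹ ≤ 1 := inv_le_one_of_one_le₀ (one_le_pow₀ (by norm_num))
      linarith
    have h8 : 1 - ((2 : ℝ) ^ l)⁻¹ ≤ 1 := by
      have : 0 ≤ ((2 : ℝ) ^ l)⁻¹ := by positivity
      linarith
    calc ‖(ent p - ent (1 : SLn n)) - (1 - ((2 : ℝ) ^ l)⁻¹) •
          (LinearMap.toContinuousLinearMap (LA P Q)) (ent p - ent (1 : SLn n))‖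
        ≤ ‖ent p - ent (1 : SLn n)‖ + ‖(1 - ((2 : ℝ) ^ l)⁻¹) •
          (LinearMap.toContinuousLinearMap (LA P Q)) (ent p - ent (1 : SLn n))‖ := norm_sub_le _ _
      _ ≤ ‖ent p - ent (1 : SLn n)‖ + 1 * (‖LinearMap.toContinuousLinearMap (LA P Q)‖ *
          ‖ent p - ent (1 : SLn n)‖) := by
          gcongr
          rw [norm_smul, Real.norm_of_nonneg h7]
          exact mul_le_mul h8 h6 (norm_nonneg _) zero_le_one
      _ = _ := by ring
  · intro ε hε
    -- a vector of `E` and a functional vanishing on `E`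
    obtain ⟨e, heE, he0⟩ := E.ne_bot_iff.1 h0
    obtain ⟨v0, hv0⟩ : ∃ v0, v0 ∉ E := by
      by_contra hcon
      push Not at hcon
      exact h1 (Submodule.eq_top_iff'.2 hcon)
    have hQv0 : mvA Q v0 ≠ 0 := by
      intro h2
      apply hv0
      rw [hQ, mvA_sub, mvA_one, sub_eq_zero] at h2
      rw [h2]
      exact hPE v0
    obtain ⟨j, hj⟩ : ∃ j, (Q *ᵥ v0.ofLp) j ≠ 0 := by
      by_contra hcon
      push Not at hcon
      apply hQv0
      unfold mvA
      have : Q *ᵥ v0.ofLp = 0 := funext hcon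
      rw [this]
      rfl
    obtain ⟨X, hX⟩ : ∃ X : Mat n, X = Matrix.vecMulVec e.ofLp (Q j) := ⟨_, rfl⟩
    have hXv : ∀ v, mvA X v = ((Q *ᵥ v.ofLp) j) • e := by
      intro v
      unfold mvA
      rw [hX, Matrix.vecMulVec_mulVec]
      ext i
      simp [Matrix.mulVec, mul_comm]
    have hXE : ∀ v ∈ E, mvA X v = 0 := by
      intro v hv
      have h2 := hQv v hv
      have h3 : (Q *ᵥ v.ofLp) j = 0 := by
        have h4 := congrArg (fun w : Eu n => w.ofLp j) h2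
        exact h4
      rw [hXv, h3, zero_smul]
    have hX0 : X ≠ 0 := by
      intro h2
      have h3 := hXv v0
      rw [h2, mvA_zero] at h3
      have h4 := smul_eq_zero.1 h3.symm
      rcases h4 with h4 | h4
      · exact hj h4
      · exact he0 h4
    have hPX : P * X = X := by
      apply mvA_ext
      intro v
      rw [mvA_mul, hXv, hPv _ (E.smul_mem _ heE)]
    have hQX : Q * X = 0 := by rw [hQ, sub_mul, one_mul, hPX, sub_self]
    have hXP : X * P = 0 := by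
      apply mvA_ext
      intro v
      rw [mvA_mul, hXE _ (hPE v), mvA_zero]
    have hXQ : X * Q = X := by rw [hQ, mul_sub, mul_one, hXP, sub_zero]
    have hdetX : ∀ c : ℝ, (1 + c • X).det = 1 := by
      intro c
      have h2 : 1 + c • X = 1 + Matrix.replicateCol Unit (c • e.ofLp) *
          Matrix.replicateRow Unit (Q j) := by
        rw [hX]
        ext i k
        simp [Matrix.vecMulVec_apply, Matrix.mul_apply, mul_assoc]
      rw [h2, Matrix.det_one_add_replicateCol_mul_replicateRow]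
      have h3 : (Q *ᵥ e.ofLp) j = 0 := by
        have h4 := congrArg (fun w : Eu n => w.ofLp j) (hQv e heE)
        exact h4
      have h5 : Q j ⬝ᵥ (c • e.ofLp) = c * (Q *ᵥ e.ofLp) j := by
        rw [dotProduct_smul]
        rfl
      rw [h5, h3, mul_zero, add_zero]
    obtain ⟨c, hc⟩ : ∃ c : ℝ, c = ε / (2 * (‖entA X‖ + 1)) := ⟨_, rfl⟩
    have hcpos : 0 < c := by rw [hc]; positivity
    obtain ⟨u, hu⟩ : ∃ u : SLn n, u.1 = 1 + c • X := ⟨⟨1 + c • X, hdetX c⟩, rfl⟩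
    have hentu : ent u - ent (1 : SLn n) = c • entA X := by
      have h2 : ent u - ent (1 : SLn n) = entA (u.1 - 1) := rfl
      rw [h2, hu, add_sub_cancel_left]
      rfl
    refine ⟨u, ?_, ?_, ?_, ?_⟩
    · intro h2
      rw [h2] at hu
      have h3 : c • X = 0 := by
        have h4 : (1 : Mat n) = 1 + c • X := hu
        have h5 := congrArg (fun Y => Y - 1) h4
        simpa using h5.symm
      rcases smul_eq_zero.1 h3 with h4 | h4
      · exact hcpos.ne' h4
      · exact hX0 h4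
    · rw [hentu, norm_smul, Real.norm_of_nonneg hcpos.le, hc]
      have h2 : 0 ≤ ‖entA X‖ := norm_nonneg _
      rw [div_mul_eq_mul_div, div_lt_iff₀ (by positivity)]
      nlinarith
    · intro v hv
      rw [hlin, hu, mvA_add, mvA_one, mvA_smul, hXE v hv, smul_zero, add_zero]
      exact hv
    · rw [tendsto_one_iff]
      have h2 : ∀ l : ℕ, ‖ent (a ^ l * u * (a ^ l)⁻¹) - ent (1 : SLn n)‖ =
          ((2 : ℝ)⁻¹) ^ l * (c * ‖entA X‖) := by
        intro l
        have h3 : ent (a ^ l * u * (a ^ l)⁻¹) - ent (1 : SLn n) =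
            entA ((P + ((2 : ℝ) ^ l) • Q) * u.1 * (P + ((2 : ℝ) ^ l)⁻¹ • Q) - 1) := by
          rw [← hconj]
          rfl
        have h4 : (P + ((2 : ℝ) ^ l) • Q) * u.1 * (P + ((2 : ℝ) ^ l)⁻¹ • Q) - 1 =
            (((2 : ℝ)⁻¹) ^ l * c) • X := by
          have h5 : (P + ((2 : ℝ) ^ l) • Q) * X = X := by
            rw [add_mul, hPX, Matrix.smul_mul, hQX, smul_zero, add_zero]
          have h6 : X * (P + ((2 : ℝ) ^ l)⁻¹ • Q) = ((2 : ℝ) ^ l)⁻¹ • X := by
            rw [mul_add, hXP, zero_add, Matrix.mul_smul, hXQ]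
          rw [hu, conj_add, hMM, mul_inv_cancel₀ (by positivity), hM1,
            add_sub_cancel_left, h5, h6, smul_smul, inv_pow, mul_comm]
        rw [h3, h4]
        have h5 : entA ((((2 : ℝ)⁻¹) ^ l * c) • X) = (((2 : ℝ)⁻¹) ^ l * c) • entA X := rfl
        rw [h5, norm_smul, Real.norm_of_nonneg (by positivity)]
        ring
      simp_rw [h2]
      have h6 : Tendsto (fun l : ℕ => ((2 : ℝ)⁻¹) ^ l) atTop (𝓝 0) :=
        tendsto_pow_atTop_nhds_zero_of_lt_one (by norm_num) (by norm_num)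
      have h7 := h6.mul_const (c * ‖entA X‖)
      rw [zero_mul] at h7
      exact h7

end Pool.Agent.Work.MP_20070e_gt.X
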