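import Mathlib
import Pool.Agent.Work.MP_20070e_gt.X.IrrA

/-!
# X/IrrB (M-L): a cocompact lattice acts irreducibly on `ℝⁿ`

PROOF (an equicontinuity argument). Suppose `⊥ ≠ E ≠ ⊤` is invariant (then `lin γ` maps `E` into `E` for all
`γ ∈ Γ`, and `γ⁻¹` too). Take `a`, `B` from `exists_contr`, `C` compact with `C Γ = G` and `ε₀` with
`γ ∈ Γ, ‖γ - 1‖ < ε₀ → γ = 1` (`disc_eps`). Let `u ≠ 1` with `‖u - 1‖ < ε₀`, `u E ⊆ E`, `a^l u a^{-l} → 1`. We show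
`u ∈ Γ`, a contradiction.

Apply `exists_subseq_pair` to `h k = (a^k)⁻¹` and `h' k = (a^k)⁻¹ u`: `γ k, δ k ∈ Γ`, `ψ` strictly increasing,
`κ_j := a^{-ψ j} γ (ψ j) → κ`, `κ'_j := a^{-ψ j} u δ (ψ j) → κ'`. All `κ_j, κ'_j` preserve `E`.

For `i < j` put `p = κ_j κ_i⁻¹`, `p' = κ'_j κ'_i⁻¹` (they preserve `E`, and `→ 1` as `i → ∞`, `j = 2 i`; note
`κ_{2i} → κ` and `κ_i⁻¹ → κ⁻¹`), `k = ψ i`, `l = ψ j`, `N = l - k ≥ j - i = i`. From `κ_j = p κ_i`: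
`γ l = (a^l p a^{-l}) a^{l-k} γ k`, i.e. `a^N = P⁻¹ γ_l γ_k⁻¹`, `P = a^l p a^{-l}`. From `κ'_j = p' κ'_i`:
`u δ_l = P' a^N u δ_k`, `P' = a^l p' a^{-l}`. With `u_N = a^N u a^{-N}` : `a^N u = u_N a^N`, so
`u δ_l = P' u_N P⁻¹ γ_l γ_k⁻¹ δ_k`, i.e. `u = (P' u_N P⁻¹) (γ_l γ_k⁻¹ δ_k δ_l⁻¹)`.
By the bound of `exists_contr`, `P → 1` and `P' → 1` as `i → ∞`, and `u_N → 1` since `N → ∞`. So
`Γ ∋ γ_l γ_k⁻¹ δ_k δ_l⁻¹ = (P' u_N P⁻¹)⁻¹ u → u`, and `u ∈ Γ` by `disc_limit`.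
-/

set_option autoImplicit false

open Matrix Topology Metric Filter

namespace Pool.Agent.Work.MP_20070e_gt.X

private theorem pr_inv {n : ℕ} (E : Submodule ℝ (Eu n)) {g : SLn n}
    (hg : ∀ v ∈ E, lin g v ∈ E) : ∀ v ∈ E, lin g⁻¹ v ∈ E := by
  have hinj : ∀ v w : Eu n, lin g v = lin g w → v = w := by
    intro v w h
    have h1 := congrArg (lin g⁻¹) h
    rwa [← lin_mul, ← lin_mul, inv_mul_cancel, lin_one, lin_one] at h1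
  let f : E →ₗ[ℝ] E := (Matrix.toEuclideanLin g.1).restrict (p := E) (q := E) hg
  have hf : ∀ v : E, ((f v : E) : Eu n) = lin g v := fun v => rfl
  have hfi : Function.Injective f := by
    intro v w h
    apply Subtype.ext
    apply hinj
    rw [← hf, ← hf, h]
  have hfs : Function.Surjective f := LinearMap.surjective_of_injective hfi
  intro v hv
  obtain ⟨w, hw⟩ := hfs ⟨v, hv⟩
  have h1 : lin g w = v := by rw [← hf, hw]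
  have h2 : lin g⁻¹ v = w := by rw [← h1, ← lin_mul, inv_mul_cancel, lin_one]
  rw [h2]
  exact w.2

private theorem pr_mul {n : ℕ} (E : Submodule ℝ (Eu n)) {g h : SLn n}
    (hg : ∀ v ∈ E, lin g v ∈ E) (hh : ∀ v ∈ E, lin h v ∈ E) : ∀ v ∈ E, lin (g * h) v ∈ E := by
  intro v hv
  rw [lin_mul]
  exact hg _ (hh _ hv)

private theorem pr_pow {n : ℕ} (E : Submodule ℝ (Eu n)) {g : SLn n}
    (hg : ∀ v ∈ E, lin g v ∈ E) (k : ℕ) : ∀ v ∈ E, lin (g ^ k) v ∈ E := by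
  induction k with
  | zero => intro v hv; rwa [pow_zero, lin_one]
  | succ k ih => rw [pow_succ]; exact pr_mul E ih hg

private theorem key_id {G : Type*} [Group G] (a u g1 g2 d1 d2 : G) (k l : ℕ) (hkl : k ≤ l) :
    u = ((a ^ l * (((a ^ l)⁻¹ * u * d2) * ((a ^ k)⁻¹ * u * d1)⁻¹) * (a ^ l)⁻¹) *
      (a ^ (l - k) * u * (a ^ (l - k))⁻¹) *
      (a ^ l * (((a ^ l)⁻¹ * g2) * ((a ^ k)⁻¹ * g1)⁻¹) * (a ^ l)⁻¹)⁻¹) *
      (g2 * g1⁻¹ * d1 * d2⁻¹) := by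
  obtain ⟨N, rfl⟩ := Nat.exists_eq_add_of_le hkl
  rw [Nat.add_sub_cancel_left, pow_add]
  have hc : a ^ k * a ^ N = a ^ N * a ^ k := by rw [← pow_add, ← pow_add, add_comm]
  rw [hc]
  group

theorem irreducible {n : ℕ} {Γ : Subgroup (SLn n)} (hΓ : IsUniformLattice Γ)
    (E : Submodule ℝ (Eu n)) (hE : ∀ γ ∈ Γ, ∀ v ∈ E, lin γ v ∈ E) : E = ⊥ ∨ E = ⊤ := by
  by_contra hcon
  push Not at hcon
  obtain ⟨h0, h1⟩ := hcon
  obtain ⟨a, B, ha, ha', hB, hbd, hu⟩ := exists_contr E h0 h1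
  obtain ⟨hdisc, C, hC, hCΓ⟩ := hΓ
  obtain ⟨ε, hε, hεΓ⟩ := disc_eps hdisc
  obtain ⟨u, hu1, huε, huE, hut⟩ := hu ε hε
  obtain ⟨γ, δ, ψ, κ, κ', hγ, hδ, hψ, hκ, hκ'⟩ := exists_subseq_pair hC hCΓ
    (fun k => (a ^ k)⁻¹) (fun k => (a ^ k)⁻¹ * u)
  have h2 : Tendsto (fun i : ℕ => 2 * i) atTop atTop :=
    tendsto_id.const_mul_atTop' (by norm_num : 0 < 2)
  -- the elements that preserve `E`
  have hK : ∀ j, ∀ v ∈ E, lin ((a ^ ψ j)⁻¹ * γ (ψ j)) v ∈ E := fun j =>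
    pr_mul E (pr_inv E (pr_pow E ha _)) (hE _ (hγ _))
  have hK' : ∀ j, ∀ v ∈ E, lin ((a ^ ψ j)⁻¹ * u * δ (ψ j)) v ∈ E := fun j =>
    pr_mul E (pr_mul E (pr_inv E (pr_pow E ha _)) huE) (hE _ (hδ _))
  have hp1 : Tendsto (fun i => ((a ^ ψ (2 * i))⁻¹ * γ (ψ (2 * i))) *
      ((a ^ ψ i)⁻¹ * γ (ψ i))⁻¹) atTop (𝓝 1) := by
    have h3 := (hκ.comp h2).mul hκ.inv
    rwa [mul_inv_cancel] at h3
  have hp1' : Tendsto (fun i => ((a ^ ψ (2 * i))⁻¹ * u * δ (ψ (2 * i))) *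
      ((a ^ ψ i)⁻¹ * u * δ (ψ i))⁻¹) atTop (𝓝 1) := by
    have h3 := (hκ'.comp h2).mul hκ'.inv
    rwa [mul_inv_cancel] at h3
  have hsq : ∀ p : ℕ → SLn n, (∀ i, ∀ v ∈ E, lin (p i) v ∈ E) → Tendsto p atTop (𝓝 1) →
      Tendsto (fun i => a ^ ψ (2 * i) * p i * (a ^ ψ (2 * i))⁻¹) atTop (𝓝 1) := by
    intro p hp hpt
    rw [tendsto_one_iff] at hpt ⊢
    refine squeeze_zero (fun i => norm_nonneg _) (fun i => hbd (p i) (hp i) _) ?_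
    simpa using hpt.const_mul B
  have hP := hsq _ (fun i => pr_mul E (hK (2 * i)) (pr_inv E (hK i))) hp1
  have hP' := hsq _ (fun i => pr_mul E (hK' (2 * i)) (pr_inv E (hK' i))) hp1'
  have hN : Tendsto (fun i => ψ (2 * i) - ψ i) atTop atTop := by
    refine tendsto_atTop_mono (fun i => ?_) tendsto_id
    have h3 := hψ.add_le_nat i i
    rw [← two_mul] at h3
    simp only [id]
    omega
  have hU := hut.comp hN
  have hlim : Tendsto (fun i => γ (ψ (2 * i)) * (γ (ψ i))⁻¹ * δ (ψ i) * (δ (ψ (2 * i)))⁻¹)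
      atTop (𝓝 u) := by
    have h3 := ((((hP'.mul hU).mul hP.inv).inv).mul (tendsto_const_nhds (x := u)))
    simp only [mul_one, inv_one, one_mul] at h3
    refine h3.congr (fun i => ?_)
    have h4 := key_id a u (γ (ψ i)) (γ (ψ (2 * i))) (δ (ψ i)) (δ (ψ (2 * i))) (ψ i) (ψ (2 * i))
      (hψ.monotone (by omega))
    rw [inv_mul_eq_iff_eq_mul]
    exact h4
  have huΓ : u ∈ Γ := disc_limit hdisc _ (fun i =>
    Γ.mul_mem (Γ.mul_mem (Γ.mul_mem (hγ _) (Γ.inv_mem (hγ _))) (hδ _)) (Γ.inv_mem (hδ _))) u hlim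
  exact hu1 (hεΓ u huΓ huε)

end Pool.Agent.Work.MP_20070e_gt.X
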