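import Mathlib
import Pool.Agent.Work.MP_20070e_gt.X.IrrB

/-!
# X/Min (M): the action on the projective space and on the sphere is minimal

`approx`: let `x ∈ S^m`, `g` a rotation with `g e₀ = x` (`exists_rot`), `h k = g * aa m k`. Apply `exists_subseq` to
`k ↦ (h k)⁻¹`: `γ_k ∈ Γ` with `κ_k := h_k⁻¹ γ_k ∈ C`, i.e. `γ_k = h_k κ_k`, and `κ_{ψ k} → κ`. For `z_k → z`:
`e^{-m ψ k} lin (γ_{ψ k}) z_k = lin g (e^{-m ψ k} lin (aa m (ψ k)) (lin κ_{ψ k} z_k)) → (κ z)_0 • lin g e₀ = (κ z)_0 • x`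
by `lin_aa` (`e^{-m k} e^{-k} → 0`, `e^{-m k}(e^{m k} - e^{-k}) → 1`).

`minimal_cone`: suppose `v₀ ∉ Z`; `v₀ ≠ 0` (`0 = 0 • z`), and `x = v₀ / |v₀| ∉ Z` (cone). By `approx` with `z_k = z ∈ Z`
constant: `(κ z)_0 • x ∈ Z` (closed, cone, invariant), so `(κ z)_0 = 0` for all `z ∈ Z`. So the span `E` of `Z` is contained
in the kernel of `z ↦ (κ z)_0`, which is not everything (`κ` is invertible), and it is `Γ`-invariant and nonzero,
contradicting `irreducible`.

`minimal_sph`: `Z` closed in the sphere, invariant, nonempty. (1) The cone `{c • x : c ∈ ℝ, x ∈ Z}` is closed (`Z` compact: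
if `c_k x_k → v ≠ 0` then `|c_k| → |v|`, subsequence), so it is everything: for all `x`, `x ∈ Z ∨ -x ∈ Z` (norms).
(2) If `Z ∩ -Z` is nonempty, the same applies to `Z ∩ -Z` (closed, invariant by `sphAct_neg`): `x ∈ Z` for all `x`.
(3) Otherwise `Z` and `-Z` are disjoint nonempty closed sets which cover the sphere; contradiction with connectedness
(`isPreconnected_sphere`, rank `m + 1 > 1`; `isPreconnected_closed_iff`).
-/

set_option autoImplicit false

open Matrix Topology Metric Filter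

namespace Pool.Agent.Work.MP_20070e_gt.X

variable {m : ℕ}

private theorem lin_smul' {n : ℕ} (g : SLn n) (c : ℝ) (v : Eu n) : lin g (c • v) = c • lin g v := by
  rw [lin_eq, lin_eq, map_smul]

private theorem lin_add' {n : ℕ} (g : SLn n) (v w : Eu n) : lin g (v + w) = lin g v + lin g w := by
  rw [lin_eq, lin_eq, lin_eq, map_add]

theorem approx (hm : 1 ≤ m) {Γ : Subgroup (SLn (m + 1))} (hΓ : IsUniformLattice Γ)
    (x : Sph (m + 1)) : ∃ (γ : ℕ → SLn (m + 1)) (s : ℕ → ℝ) (κ : SLn (m + 1)),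
      (∀ k, γ k ∈ Γ) ∧ (∀ k, 0 < s k) ∧
      ∀ (z : ℕ → Eu (m + 1)) (z' : Eu (m + 1)), Tendsto z atTop (𝓝 z') →
        Tendsto (fun k => s k • lin (γ k) (z k)) atTop (𝓝 ((lin κ z') 0 • (x : Eu (m + 1)))) := by
  obtain ⟨g, -, hg, -⟩ := exists_rot hm x
  obtain ⟨-, C, hC, hCΓ⟩ := hΓ
  obtain ⟨γ, ψ, κ, hγ, -, hψ, -, hκ⟩ := exists_subseq hC hCΓ (fun k => (g * aa m (k : ℝ))⁻¹)
  refine ⟨fun k => γ (ψ k), fun k => Real.exp (-(m * (ψ k : ℝ))), κ, fun k => hγ _,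
    fun k => Real.exp_pos _, ?_⟩
  intro z z' hz
  have hw : Tendsto (fun k => lin ((g * aa m (ψ k : ℝ))⁻¹ * γ (ψ k)) (z k)) atTop
      (𝓝 (lin κ z')) :=
    (lin_continuous.tendsto (κ, z')).comp (hκ.prodMk_nhds hz)
  have ht : Tendsto (fun k => Real.exp (-((m + 1) * (ψ k : ℝ)))) atTop (𝓝 0) := by
    refine Real.tendsto_exp_neg_atTop_nhds_zero.comp ?_
    refine Tendsto.const_mul_atTop (by positivity) ?_
    exact tendsto_natCast_atTop_atTop.comp hψ.tendsto_atTop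
  have hw0 : Tendsto (fun k => (lin ((g * aa m (ψ k : ℝ))⁻¹ * γ (ψ k)) (z k)) 0) atTop
      (𝓝 ((lin κ z') 0)) :=
    ((by fun_prop : Continuous (fun v : Eu (m + 1) => v 0)).tendsto _).comp hw
  have h1 : Tendsto (fun k => Real.exp (-((m + 1) * (ψ k : ℝ))) •
      lin ((g * aa m (ψ k : ℝ))⁻¹ * γ (ψ k)) (z k) +
      ((1 - Real.exp (-((m + 1) * (ψ k : ℝ)))) *
        (lin ((g * aa m (ψ k : ℝ))⁻¹ * γ (ψ k)) (z k)) 0) • e0 m) atTop
      (𝓝 ((0 : ℝ) • lin κ z' + ((1 - 0) * (lin κ z') 0) • e0 m)) :=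
    (ht.smul hw).add (((tendsto_const_nhds.sub ht).mul hw0).smul tendsto_const_nhds)
  rw [zero_smul, zero_add, sub_zero, one_mul] at h1
  have h2 : Continuous (fun v : Eu (m + 1) => lin g v) :=
    lin_continuous.comp (continuous_const.prodMk continuous_id)
  have h3 := (h2.tendsto _).comp h1
  rw [lin_smul', hg] at h3
  refine h3.congr (fun k => ?_)
  simp only [Function.comp_apply]
  have h4 : γ (ψ k) = g * aa m (ψ k : ℝ) * ((g * aa m (ψ k : ℝ))⁻¹ * γ (ψ k)) := by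
    rw [mul_inv_cancel_left]
  have h5 : lin (γ (ψ k)) (z k) =
      lin g (lin (aa m (ψ k : ℝ)) (lin ((g * aa m (ψ k : ℝ))⁻¹ * γ (ψ k)) (z k))) := by
    rw [← lin_mul, ← lin_mul, ← h4]
  rw [h5, lin_aa, ← lin_smul' g (Real.exp (-(m * (ψ k : ℝ))))]
  congr 1
  rw [smul_add, smul_smul, smul_smul]
  have e1 : Real.exp (-(m * (ψ k : ℝ))) * Real.exp (-(ψ k : ℝ)) =
      Real.exp (-((m + 1) * (ψ k : ℝ))) := by
    rw [← Real.exp_add]
    congr 1
    ring
  have e2 : Real.exp (-(m * (ψ k : ℝ))) * Real.exp (m * (ψ k : ℝ)) = 1 := by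
    rw [← Real.exp_add, neg_add_cancel, Real.exp_zero]
  rw [e1]
  congr 2
  rw [← mul_assoc, mul_sub, e1, e2]

theorem minimal_cone (hm : 1 ≤ m) {Γ : Subgroup (SLn (m + 1))} (hΓ : IsUniformLattice Γ)
    (Z : Set (Eu (m + 1))) (hcl : IsClosed Z) (hsm : ∀ c : ℝ, ∀ z ∈ Z, c • z ∈ Z)
    (hinv : ∀ γ ∈ Γ, ∀ z ∈ Z, lin γ z ∈ Z) (hne : ∃ z ∈ Z, z ≠ 0) : Z = Set.univ := by
  obtain ⟨z0, hz0, hz0'⟩ := hne
  by_contra hcon
  obtain ⟨v, hv⟩ := (Set.ne_univ_iff_exists_notMem _).1 hcon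
  have hv0 : v ≠ 0 := by
    rintro rfl
    apply hv
    rw [← zero_smul ℝ z0]
    exact hsm 0 z0 hz0
  have hnv : ‖v‖ ≠ 0 := norm_ne_zero_iff.2 hv0
  let x : Sph (m + 1) := ⟨‖v‖⁻¹ • v, by
    rw [mem_sphere_zero_iff_norm, norm_smul, norm_inv, norm_norm, inv_mul_cancel₀ hnv]⟩
  have hx : (x : Eu (m + 1)) ∉ Z := by
    intro h
    apply hv
    have h1 := hsm ‖v‖ _ h
    have h2 : ‖v‖ • (x : Eu (m + 1)) = v := by
      show ‖v‖ • (‖v‖⁻¹ • v) = v
      rw [smul_smul, mul_inv_cancel₀ hnv, one_smul]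
    rwa [h2] at h1
  obtain ⟨γ, s, κ, hγ, hs, hlim⟩ := approx hm hΓ x
  have hker : ∀ z ∈ Z, (lin κ z) 0 = 0 := by
    intro z hz
    by_contra h
    apply hx
    have h1 : (lin κ z) 0 • (x : Eu (m + 1)) ∈ Z :=
      hcl.mem_of_tendsto (hlim (fun _ => z) z tendsto_const_nhds)
        (Eventually.of_forall fun k => hsm _ _ (hinv _ (hγ k) _ hz))
    have h2 := hsm ((lin κ z) 0)⁻¹ _ h1
    rwa [smul_smul, inv_mul_cancel₀ h, one_smul] at h2
  have hE := irreducible hΓ (Submodule.span ℝ Z) (by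
    intro g hg v hv
    induction hv using Submodule.span_induction with
    | mem w hw => exact Submodule.subset_span (hinv g hg w hw)
    | zero =>
      have h1 : lin g (0 : Eu (m + 1)) = 0 := by rw [lin_eq, map_zero]
      rw [h1]
      exact Submodule.zero_mem _
    | add w w' _ _ h1 h2 =>
      rw [lin_add']
      exact Submodule.add_mem _ h1 h2
    | smul c w _ h1 =>
      rw [lin_smul']
      exact Submodule.smul_mem _ _ h1)
  rcases hE with hE | hE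
  · apply hz0'
    have h1 : z0 ∈ Submodule.span ℝ Z := Submodule.subset_span hz0
    rw [hE] at h1
    exact (Submodule.mem_bot ℝ).1 h1
  · have h1 : ∀ w ∈ Submodule.span ℝ Z, (lin κ w) 0 = 0 := by
      intro w hw
      induction hw using Submodule.span_induction with
      | mem w hw => exact hker w hw
      | zero =>
        have h1 : lin κ (0 : Eu (m + 1)) = 0 := by rw [lin_eq, map_zero]
        rw [h1]
        rfl
      | add w w' _ _ h1 h2 =>
        rw [lin_add', PiLp.add_apply, h1, h2, add_zero]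
      | smul c w _ h1 =>
        rw [lin_smul', PiLp.smul_apply, h1, smul_zero]
    have h2 := h1 (lin κ⁻¹ (e0 m)) (by rw [hE]; exact Submodule.mem_top)
    rw [← lin_mul, mul_inv_cancel, lin_one] at h2
    simp [e0] at h2

private theorem inner_smul_self' {n : ℕ} (y : Sph n) (c : ℝ) :
    c • (y : Eu n) = (inner ℝ (y : Eu n) (c • (y : Eu n))) • (y : Eu n) := by
  have h1 : inner ℝ (y : Eu n) (y : Eu n) = 1 := by
    rw [real_inner_self_eq_norm_sq, mem_sphere_zero_iff_norm.1 y.2, one_pow]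
  rw [inner_smul_right, h1, mul_one]

private theorem lemA (hm : 1 ≤ m) {Γ : Subgroup (SLn (m + 1))} (hΓ : IsUniformLattice Γ)
    (Z : Set (Sph (m + 1))) (hcl : IsClosed Z) (hinv : ∀ γ ∈ Γ, ∀ z ∈ Z, sphAct γ z ∈ Z)
    (hne : Z.Nonempty) (x : Sph (m + 1)) : x ∈ Z ∨ -x ∈ Z := by
  let T : Set (Eu (m + 1) × Sph (m + 1)) :=
    {p | p.2 ∈ Z ∧ p.1 = (inner ℝ (p.2 : Eu (m + 1)) p.1) • (p.2 : Eu (m + 1))}
  have hT : IsClosed T := by
    refine (hcl.preimage continuous_snd).inter (isClosed_eq continuous_fst ?_)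
    fun_prop
  have hW : IsClosed (Prod.fst '' T) := isClosedMap_fst_of_compactSpace T hT
  have hmem : ∀ y ∈ Z, ∀ c : ℝ, c • (y : Eu (m + 1)) ∈ Prod.fst '' T := fun y hy c =>
    ⟨(c • (y : Eu (m + 1)), y), ⟨hy, inner_smul_self' y c⟩, rfl⟩
  have hall : Prod.fst '' T = Set.univ := by
    refine minimal_cone hm hΓ _ hW ?_ ?_ ?_
    · rintro c _ ⟨⟨z, y⟩, ⟨hy, hz⟩, rfl⟩
      simp only at hy hz ⊢
      rw [hz, smul_smul]
      exact hmem y hy _
    · rintro γ hγ _ ⟨⟨z, y⟩, ⟨hy, hz⟩, rfl⟩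
      simp only at hy hz ⊢
      have hy0 : (y : Eu (m + 1)) ≠ 0 := by
        intro h
        have h1 := mem_sphere_zero_iff_norm.1 y.2
        rw [h, norm_zero] at h1
        exact zero_ne_one h1
      have hn : ‖lin γ (y : Eu (m + 1))‖ ≠ 0 := norm_ne_zero_iff.2 (lin_ne_zero γ hy0)
      have h1 : lin γ (y : Eu (m + 1)) = ‖lin γ (y : Eu (m + 1))‖ •
          (sphAct γ y : Eu (m + 1)) := by
        show _ = ‖lin γ (y : Eu (m + 1))‖ •
          ((‖lin γ (y : Eu (m + 1))‖)⁻¹ • lin γ (y : Eu (m + 1)))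
        rw [smul_smul, mul_inv_cancel₀ hn, one_smul]
      rw [hz, lin_smul', h1, smul_smul]
      exact hmem _ (hinv γ hγ y hy) _
    · obtain ⟨y, hy⟩ := hne
      refine ⟨y, ?_, ?_⟩
      · have h1 := hmem y hy 1
        rwa [one_smul] at h1
      · intro h
        have h1 := mem_sphere_zero_iff_norm.1 y.2
        rw [h, norm_zero] at h1
        exact zero_ne_one h1
  have hx : (x : Eu (m + 1)) ∈ Prod.fst '' T := by rw [hall]; exact Set.mem_univ _
  obtain ⟨⟨z, y⟩, ⟨hy, hz⟩, hzx⟩ := hx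
  simp only at hy hz hzx
  have hnx : ‖(x : Eu (m + 1))‖ = 1 := mem_sphere_zero_iff_norm.1 x.2
  have hny : ‖(y : Eu (m + 1))‖ = 1 := mem_sphere_zero_iff_norm.1 y.2
  rw [hzx] at hz
  have h1 : |inner ℝ (y : Eu (m + 1)) (x : Eu (m + 1))| = 1 := by
    have h2 := congrArg norm hz
    rw [norm_smul, hnx, hny, mul_one, Real.norm_eq_abs] at h2
    exact h2.symm
  rcases (abs_eq zero_le_one).1 h1 with h2 | h2
  · left
    rw [h2, one_smul] at hz
    rwa [Subtype.ext hz]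
  · right
    rw [h2, neg_one_smul] at hz
    have h3 : -x = y := by
      apply Subtype.ext
      show -(x : Eu (m + 1)) = y
      rw [hz, neg_neg]
    rwa [h3]

theorem minimal_sph (hm : 1 ≤ m) {Γ : Subgroup (SLn (m + 1))} (hΓ : IsUniformLattice Γ)
    (Z : Set (Sph (m + 1))) (hcl : IsClosed Z) (hinv : ∀ γ ∈ Γ, ∀ z ∈ Z, sphAct γ z ∈ Z)
    (hne : Z.Nonempty) : Z = Set.univ := by
  have hcn : IsClosed ((fun x : Sph (m + 1) => -x) ⁻¹' Z) := hcl.preimage continuous_neg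
  have hA := lemA hm hΓ Z hcl hinv hne
  have hrank : 1 < Module.rank ℝ (Eu (m + 1)) := by
    rw [← Module.finrank_eq_rank, finrank_euclideanSpace_fin]
    exact_mod_cast (by omega : 1 < m + 1)
  have hpc : PreconnectedSpace (Sph (m + 1)) :=
    isPreconnected_iff_preconnectedSpace.1 (isPreconnected_sphere hrank 0 1)
  have hint : (Set.univ ∩ (Z ∩ (fun x : Sph (m + 1) => -x) ⁻¹' Z)).Nonempty := by
    refine isPreconnected_closed_iff.1 hpc.isPreconnected_univ Z _ hcl hcn ?_ ?_ ?_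
    · intro x _
      exact hA x
    · obtain ⟨z, hz⟩ := hne
      exact ⟨z, Set.mem_univ _, hz⟩
    · obtain ⟨z, hz⟩ := hne
      refine ⟨-z, Set.mem_univ _, ?_⟩
      show - -z ∈ Z
      rwa [neg_neg]
  rw [Set.univ_inter] at hint
  have hB := lemA hm hΓ (Z ∩ (fun x : Sph (m + 1) => -x) ⁻¹' Z) (hcl.inter hcn) (by
    rintro γ hγ z ⟨h1, h2⟩
    refine ⟨hinv γ hγ z h1, ?_⟩
    show -(sphAct γ z) ∈ Z
    rw [← sphAct_neg]
    exact hinv γ hγ _ h2) hint
  rw [Set.eq_univ_iff_forall]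
  intro x
  rcases hB x with h | h
  · exact h.1
  · have h1 : - -x ∈ Z := h.2
    rwa [neg_neg] at h1

end Pool.Agent.Work.MP_20070e_gt.X
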