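import Mathlib
import Pool.Agent.Work.MP_20070e_gt.X.DK
import Pool.Agent.Work.MP_20070e_gt.X.Min

/-!
# X/DA (M-L): step 1: somewhere `k x` contains the stabiliser algebra of `x`

Notation: `p_x = {A : tr A = 0, A x ∈ ℝ x}`. We look for `g'` with `p_o ⊆ K(g')` (`A e₀ = λ e₀ → A ∈ K(g')`); then
`x = g'⁻¹ o` works: if `A x ∈ ℝ x`, `tr A = 0`, then `g' A g'⁻¹` has trace zero and fixes the line of `e₀` (`x` is a positive
multiple of `g'⁻¹ e₀`), so it is in `K(g')` and `A ∈ k x` by `mem_k_iff`.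

Let `f` be the functional of `K(1)` (`KK_functional`). For `j ≠ 0` let `ζ = E_{0j}`, `u_t = 1 + t ζ = tv t`; `ζ² = 0`,
`u_t⁻¹ = 1 - t ζ`. For `A` of trace zero, `A ∈ K(u_t) ↔ f_t(A) = 0` (`KK_mul_left`, `sphAct_tv`, `u_t * 1 = u_t`) with
`f_t(A) = f(u_t⁻¹ A u_t) = f(A) + t f(A ζ - ζ A) - t² A_{j0} f(ζ)` (since `ζ A ζ = A_{j0} ζ`).

Case 1: `f(E_{0j}) ≠ 0` for some `j ≠ 0`. Let `B = E_{j0}`. Then `f_t(B) = f(B) + t(..) - t² f(ζ)`, and for `A ∈ p_o` (so
`A_{j0} = 0`) `f_t(A)` is affine in `t`. For `t = N` large, `A_N = A - (f_t(A)/f_t(B)) B ∈ K(u_N)` (trace of `B` is `0`), and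
`A_N → A`. Apply `exists_subseq` to `h N = u_N`: `u_{ψN} γ_{ψN} → g'`; `K(u_N γ_N) = K(u_N)`; so `A ∈ K(g')` by `KK_closed`, with
the same `g'` for all `A ∈ p_o` (do not choose the subsequence depending on `A`).

Case 2: `f(E_{0j}) = 0` for all `j ≠ 0`, but `f(B ζ - ζ B) ≠ 0` for some `j ≠ 0` and some `B` of trace zero. Then `f_t` is
affine in `t` for every matrix, `f_t(B) → ±∞`; for `A ∈ p_o`: `A ζ - ζ A = A_{00} E_{0j} - ∑_l A_{jl} E_{0l}` (as `A e₀ = A_{00} e₀`,
i.e. `A_{i0} = 0` for `i ≠ 0`), and the term `l = 0` has `A_{j0} = 0`: so `f(A ζ - ζ A) = 0` and `f_t(A) = f(A)` is constant. Conclude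
as in case 1.

Case 3: `f(E_{0j}) = 0` and `f(B E_{0j} - E_{0j} B) = 0` for all `j ≠ 0` and all `B` of trace zero. Take `B = E_{i0}`, `i ≠ 0`:
`f(E_{ij} - δ_{ij} E_{00}) = 0`. A matrix `A ∈ p_o` of trace zero is a combination of `E_{0j}` (`j ≠ 0`), `E_{ij}` (`i ≠ j` both `≠ 0`) and
`E_{ii} - E_{00}` (`i ≠ 0`), so `f(A) = 0`: `g' = 1` works.
-/

set_option autoImplicit false

open Matrix Topology Metric Filter

namespace Pool.Agent.Work.MP_20070e_gt.X

private theorem e0_ofLp (m : ℕ) : (e0 m).ofLp = Pi.single 0 1 := by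
  ext i
  simp [e0, Pi.single_apply]

/-- reduction to the base point -/
private theorem step1_red {m : ℕ} {Γ : Subgroup (SLn (m + 1))}
    {k : Sph (m + 1) → Submodule ℝ (Mat (m + 1))} (h : HypField Γ k) (g' : SLn (m + 1))
    (hg : ∀ A : Mat (m + 1), A.trace = 0 → (∀ i, i ≠ 0 → A i 0 = 0) → A ∈ KK k g') :
    ∃ x : Sph (m + 1), ∀ A : Mat (m + 1), A.trace = 0 →
      (∃ l : ℝ, A *ᵥ (x : Eu (m + 1)).ofLp = l • (x : Eu (m + 1)).ofLp) → A ∈ k x := by
  refine ⟨sphAct g'⁻¹ (oo m), fun A hA hl => ?_⟩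
  obtain ⟨l, hl⟩ := hl
  rw [mem_k_iff]
  have hgg : g'.1 * (g'⁻¹).1 = 1 := by
    have := congrArg Subtype.val (mul_inv_cancel g')
    exact this
  have hgg' : (g'⁻¹).1 * g'.1 = 1 := by
    have := congrArg Subtype.val (inv_mul_cancel g')
    exact this
  apply hg
  · rw [Matrix.trace_mul_cycle, hgg', one_mul, hA]
  · -- the point `x`
    obtain ⟨c, hc, hx⟩ : ∃ c : ℝ, c ≠ 0 ∧
        ((sphAct g'⁻¹ (oo m) : Sph (m + 1)) : Eu (m + 1)).ofLp =
          c • ((g'⁻¹).1 *ᵥ (Pi.single 0 1 : Fin (m + 1) → ℝ)) := by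
      refine ⟨(‖lin g'⁻¹ (oo m).1‖)⁻¹, ?_, ?_⟩
      · apply inv_ne_zero
        rw [norm_ne_zero_iff]
        apply lin_ne_zero
        intro h0
        have := norm_e0 m
        have h1 : (e0 m) = 0 := h0
        rw [h1] at this
        simp at this
      · rw [← e0_ofLp]
        rfl
    rw [hx] at hl
    have hl2 : A *ᵥ ((g'⁻¹).1 *ᵥ (Pi.single 0 1 : Fin (m + 1) → ℝ)) =
        l • ((g'⁻¹).1 *ᵥ (Pi.single 0 1 : Fin (m + 1) → ℝ)) := by
      rw [Matrix.mulVec_smul, smul_comm l c] at hl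
      exact smul_right_injective _ hc hl
    have hB : (g'.1 * A * (g'⁻¹).1) *ᵥ (Pi.single 0 1 : Fin (m + 1) → ℝ) =
        l • (Pi.single 0 1 : Fin (m + 1) → ℝ) := by
      rw [← Matrix.mulVec_mulVec, ← Matrix.mulVec_mulVec, hl2, Matrix.mulVec_smul,
        Matrix.mulVec_mulVec, hgg, Matrix.one_mulVec]
    intro i hi
    have h1 := congrFun hB i
    rw [Matrix.mulVec_single_one] at h1
    simpa [hi] using h1

private theorem mul_sg {n : ℕ} (A : Mat n) (i j : Fin n) :
    A * single i j (1 : ℝ) = ∑ l, A l i • single l j (1 : ℝ) := by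
  ext a b
  rw [Matrix.sum_apply, Matrix.mul_apply]
  simp only [Matrix.smul_apply, Matrix.single_apply, smul_eq_mul]
  by_cases hb : j = b
  · simp [hb]
  · simp [hb]

private theorem sg_mul {n : ℕ} (A : Mat n) (i j : Fin n) :
    single i j (1 : ℝ) * A = ∑ l, A j l • single i l (1 : ℝ) := by
  ext a b
  rw [Matrix.sum_apply, Matrix.mul_apply]
  simp only [Matrix.smul_apply, Matrix.single_apply, smul_eq_mul]
  by_cases hb : i = a
  · simp [hb]
  · simp [hb]

private theorem f_eq {n : ℕ} (f : Mat n →ₗ[ℝ] ℝ) (A : Mat n) :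
    f A = ∑ i, ∑ j, A i j * f (single i j 1) := by
  conv_lhs => rw [Matrix.matrix_eq_sum_single A]
  rw [map_sum]
  apply Finset.sum_congr rfl
  intro i _
  rw [map_sum]
  apply Finset.sum_congr rfl
  intro j _
  have : single i j (A i j) = A i j • single i j (1 : ℝ) := by
    rw [Matrix.smul_single, smul_eq_mul, mul_one]
  rw [this, map_smul, smul_eq_mul]

/-- membership in `K(u_t)` -/
private theorem mem_KK_tv {m : ℕ} {k : Sph (m + 1) → Submodule ℝ (Mat (m + 1))}
    (f : Mat (m + 1) →ₗ[ℝ] ℝ)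
    (hf : ∀ A : Mat (m + 1), A.trace = 0 → (A ∈ KK k 1 ↔ f A = 0))
    {j : Fin (m + 1)} (hj : (0 : Fin (m + 1)) ≠ j) (t : ℝ) (A : Mat (m + 1))
    (hA : A.trace = 0) :
    A ∈ KK k (tv hj t) ↔
      -(A j 0 * f (single 0 j 1)) * t ^ 2 + f (A * single 0 j 1 - single 0 j 1 * A) * t + f A
        = 0 := by
  have h1 : A ∈ KK k (tv hj t) ↔ ((tv hj t)⁻¹).1 * A * (tv hj t).1 ∈ KK k 1 := by
    rw [← KK_mul_left (sphAct_tv hj t), mul_one]
  rw [h1, SpecialLinearGroup.transvection_inv]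
  have ht : (tv hj t).1 = 1 + t • single 0 j (1 : ℝ) := by
    show (1 : Mat (m + 1)) + single 0 j t = _
    rw [Matrix.smul_single, smul_eq_mul, mul_one]
  have ht' : (tv hj (-t)).1 = 1 + (-t) • single 0 j (1 : ℝ) := by
    show (1 : Mat (m + 1)) + single 0 j (-t) = _
    rw [Matrix.smul_single, smul_eq_mul, mul_one]
  have htr : ((tv hj (-t)).1 * A * (tv hj t).1).trace = 0 := by
    rw [Matrix.trace_mul_cycle]
    have : (tv hj t).1 * (tv hj (-t)).1 = 1 :=
      congrArg Subtype.val (SpecialLinearGroup.transvection_mul_neg hj t)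
    rw [this, one_mul, hA]
  rw [hf _ htr, ht, ht']
  have h2 : single (0 : Fin (m + 1)) j (1 : ℝ) * A * single (0 : Fin (m + 1)) j (1 : ℝ) =
      A j 0 • single (0 : Fin (m + 1)) j (1 : ℝ) := by
    ext a b
    by_cases ha : (0 : Fin (m + 1)) = a <;> by_cases hb : j = b <;>
      simp [Matrix.mul_apply, Matrix.single_apply, ha, hb]
  have h3 : (1 + (-t) • single (0 : Fin (m + 1)) j (1 : ℝ)) * A *
      (1 + t • single (0 : Fin (m + 1)) j (1 : ℝ)) =
      A + t • (A * single (0 : Fin (m + 1)) j 1 - single (0 : Fin (m + 1)) j 1 * A) -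
        (t ^ 2) • (single (0 : Fin (m + 1)) j (1 : ℝ) * A *
          single (0 : Fin (m + 1)) j (1 : ℝ)) := by
    simp only [add_mul, mul_add, one_mul, mul_one, smul_mul_assoc, mul_smul_comm, smul_smul,
      smul_sub]
    module
  rw [h3, h2, map_sub, map_add, map_smul, map_smul, map_smul]
  simp only [smul_eq_mul]
  constructor <;> intro h4 <;> rw [← h4] <;> ring

open Polynomial in
/-- the limit argument -/
private theorem step1_lim {m : ℕ} {Γ : Subgroup (SLn (m + 1))} (hΓ : IsUniformLattice Γ)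
    {k : Sph (m + 1) → Submodule ℝ (Mat (m + 1))} (h : HypField Γ k)
    (f : Mat (m + 1) →ₗ[ℝ] ℝ)
    (hf : ∀ A : Mat (m + 1), A.trace = 0 → (A ∈ KK k 1 ↔ f A = 0))
    {j : Fin (m + 1)} (hj : (0 : Fin (m + 1)) ≠ j) (B : Mat (m + 1)) (hB : B.trace = 0)
    (P : Mat (m + 1) → ℝ[X])
    (hP : ∀ A, P A = C (-(A j 0 * f (single 0 j 1))) * X ^ 2 +
      C (f (A * single 0 j 1 - single 0 j 1 * A)) * X + C (f A))
    (hdeg : ∀ A : Mat (m + 1), A.trace = 0 → (∀ i, i ≠ 0 → A i 0 = 0) →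
      (P A).degree < (P B).degree) :
    ∃ g' : SLn (m + 1), ∀ A : Mat (m + 1), A.trace = 0 → (∀ i, i ≠ 0 → A i 0 = 0) →
      A ∈ KK k g' := by
  have hev : ∀ A t, (P A).eval t =
      -(A j 0 * f (single 0 j 1)) * t ^ 2 + f (A * single 0 j 1 - single 0 j 1 * A) * t + f A := by
    intro A t
    rw [hP]
    simp only [eval_add, eval_mul, eval_C, eval_pow, eval_X]
  have hPB : P B ≠ 0 := by
    intro h0
    have h1 := hdeg 0 (Matrix.trace_zero _ _) (fun _ _ => rfl)
    rw [h0] at h1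
    simp at h1
  have h1 := (P B).eventually_atTop_not_isRoot hPB
  obtain ⟨x0, hx0⟩ := Filter.eventually_atTop.1 h1
  obtain ⟨N0, hN0⟩ := exists_nat_ge x0
  set t : ℕ → ℝ := fun N => (N : ℝ) + N0 with ht
  have htlim : Tendsto t atTop atTop :=
    tendsto_atTop_add_const_right _ _ tendsto_natCast_atTop_atTop
  have hne : ∀ N, (P B).eval (t N) ≠ 0 := by
    intro N
    apply hx0
    have : (0 : ℝ) ≤ (N : ℝ) := Nat.cast_nonneg N
    simp only [ht, ge_iff_le]
    linarith
  obtain ⟨_, C0, hC0, hCΓ⟩ := hΓ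
  obtain ⟨γ, ψ, κ, hγ, _, hψ, _, hlim⟩ := exists_subseq hC0 hCΓ (fun N => tv hj (t N))
  refine ⟨κ, fun A hA hA0 => ?_⟩
  set q : ℕ → ℝ := fun N => (P A).eval (t N) / (P B).eval (t N) with hq
  have hq0 : Tendsto q atTop (𝓝 0) :=
    ((P A).div_tendsto_atTop_zero_of_degree_lt (P B) (hdeg A hA hA0)).comp htlim
  refine KK_closed h (fun N => tv hj (t (ψ N)) * γ (ψ N)) (fun N => A - q (ψ N) • B) κ A ?_ hlim ?_
  · intro N
    rw [KK_mul_right h _ (hγ _), mem_KK_tv f hf hj _ _ (by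
      rw [Matrix.trace_sub, Matrix.trace_smul, hA, hB, smul_zero, sub_zero])]
    have e1 := hev A (t (ψ N))
    have e2 := hev B (t (ψ N))
    have e3 : q (ψ N) * (P B).eval (t (ψ N)) = (P A).eval (t (ψ N)) := by
      simp only [hq]
      exact div_mul_cancel₀ _ (hne _)
    rw [e1, e2] at e3
    have e4 : (A - q (ψ N) • B) * single 0 j 1 - single 0 j 1 * (A - q (ψ N) • B) =
        (A * single 0 j 1 - single 0 j 1 * A) -
          q (ψ N) • (B * single 0 j 1 - single 0 j 1 * B) := by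
      rw [sub_mul, mul_sub, smul_mul_assoc, mul_smul_comm, smul_sub]
      abel
    have e5 : f ((A - q (ψ N) • B) * single 0 j 1 - single 0 j 1 * (A - q (ψ N) • B)) =
        f (A * single 0 j 1 - single 0 j 1 * A) -
          q (ψ N) * f (B * single 0 j 1 - single 0 j 1 * B) := by
      rw [e4, map_sub, map_smul, smul_eq_mul]
    have e6 : f (A - q (ψ N) • B) = f A - q (ψ N) * f B := by
      rw [map_sub, map_smul, smul_eq_mul]
    have e7 : (A - q (ψ N) • B) j 0 = A j 0 - q (ψ N) * B j 0 := rfl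
    rw [e5, e6, e7]
    linear_combination -e3
  · have h2 : Tendsto (fun N => A - q (ψ N) • B) atTop (𝓝 (A - (0 : ℝ) • B)) :=
      tendsto_const_nhds.sub ((hq0.comp hψ.tendsto_atTop).smul_const B)
    rwa [zero_smul, sub_zero] at h2

theorem step1 {m : ℕ} (hm : 1 ≤ m) {Γ : Subgroup (SLn (m + 1))} (hΓ : IsUniformLattice Γ)
    {k : Sph (m + 1) → Submodule ℝ (Mat (m + 1))} (h : HypField Γ k)
    (hall : ∀ x, ∃ A : Mat (m + 1), A.trace = 0 ∧ A ∉ k x) :
    ∃ x : Sph (m + 1), ∀ A : Mat (m + 1), A.trace = 0 →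
      (∃ l : ℝ, A *ᵥ (x : Eu (m + 1)).ofLp = l • (x : Eu (m + 1)).ofLp) → A ∈ k x := by
  obtain ⟨f, hf, _⟩ := KK_functional h hall 1
  suffices hg : ∃ g' : SLn (m + 1), ∀ A : Mat (m + 1), A.trace = 0 →
      (∀ i, i ≠ 0 → A i 0 = 0) → A ∈ KK k g' by
    obtain ⟨g', hg'⟩ := hg
    exact step1_red h g' hg'
  by_cases h1 : ∃ j : Fin (m + 1), (0 : Fin (m + 1)) ≠ j ∧ f (single 0 j 1) ≠ 0
  · obtain ⟨j, hj, hfj⟩ := h1
    refine step1_lim hΓ h f hf hj (single j 0 1) ?_ _ (fun A => rfl) ?_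
    · exact Matrix.trace_single_eq_of_ne _ _ _ hj.symm
    · intro A hA hA0
      have hB1 : (single j 0 (1 : ℝ) : Mat (m + 1)) j 0 = 1 := Matrix.single_apply_same _ _ _
      have hAj : A j 0 = 0 := hA0 j hj.symm
      rw [hB1, hAj, one_mul, zero_mul, neg_zero, Polynomial.C_0, zero_mul, zero_add,
        Polynomial.degree_quadratic (neg_ne_zero.2 hfj)]
      exact Polynomial.degree_linear_lt
  · push Not at h1
    by_cases h2 : ∃ (j : Fin (m + 1)) (B : Mat (m + 1)), (0 : Fin (m + 1)) ≠ j ∧ B.trace = 0 ∧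
        f (B * single 0 j 1 - single 0 j 1 * B) ≠ 0
    · obtain ⟨j, B, hj, hB, hfB⟩ := h2
      refine step1_lim hΓ h f hf hj B hB _ (fun A => rfl) ?_
      intro A hA hA0
      rw [h1 j hj]
      simp only [mul_zero, neg_zero, Polynomial.C_0, zero_mul, zero_add]
      rw [Polynomial.degree_linear hfB]
      have e1 : f (A * single 0 j 1 - single 0 j 1 * A) = 0 := by
        rw [mul_sg, sg_mul, map_sub, map_sum, map_sum]
        have e2 : ∑ l, f (A l 0 • single l j (1 : ℝ)) = 0 := by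
          apply Finset.sum_eq_zero
          intro l _
          rw [map_smul, smul_eq_mul]
          by_cases hl : l = 0
          · rw [hl, h1 j hj, mul_zero]
          · rw [hA0 l hl, zero_mul]
        have e3 : ∑ l, f (A j l • single 0 l (1 : ℝ)) = 0 := by
          apply Finset.sum_eq_zero
          intro l _
          rw [map_smul, smul_eq_mul]
          by_cases hl : (0 : Fin (m + 1)) = l
          · rw [← hl, hA0 j hj.symm, zero_mul]
          · rw [h1 l hl, mul_zero]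
        rw [e2, e3, sub_zero]
      rw [e1, Polynomial.C_0, zero_mul, zero_add]
      exact Polynomial.degree_C_lt
    · push Not at h2
      refine ⟨1, fun A hA hA0 => ?_⟩
      rw [hf A hA, f_eq]
      have key : ∀ i j : Fin (m + 1), A i j * f (single i j 1) =
          if i = j then A i i * f (single 0 0 1) else 0 := by
        intro i j
        by_cases hi : i = 0
        · by_cases hj : (0 : Fin (m + 1)) = j
          · rw [hi, ← hj, if_pos rfl]
          · rw [hi, h1 j hj, mul_zero, if_neg hj]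
        · by_cases hj : (0 : Fin (m + 1)) = j
          · rw [← hj, hA0 i hi, zero_mul, if_neg hi]
          · have e1 := h2 j (single i 0 1) hj (Matrix.trace_single_eq_of_ne _ _ _ hi)
            rw [map_sub, sub_eq_zero, Matrix.single_mul_single_same, mul_one] at e1
            by_cases hij : i = j
            · rw [if_pos hij, ← hij]
              rw [← hij, Matrix.single_mul_single_same, mul_one] at e1
              rw [e1]
            · rw [if_neg hij, e1, Matrix.single_mul_single_of_ne _ _ _ _ (fun h => hij h.symm),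
                map_zero, mul_zero]
      have e2 : ∑ i, ∑ j, A i j * f (single i j 1) = A.trace * f (single 0 0 1) := by
        rw [Matrix.trace, Finset.sum_mul]
        apply Finset.sum_congr rfl
        intro i _
        rw [Finset.sum_congr rfl (fun j _ => key i j)]
        simp
      rw [e2, hA, zero_mul]

end Pool.Agent.Work.MP_20070e_gt.X
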