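import Mathlib
import Pool.Agent.Work.MP_20070e_gt.X.Min

/-!
# X/DB (M): step 2: the condition `p_x ⊆ k x` holds everywhere as soon as it holds somewhere

Let `Z = {x : ∀ A, tr A = 0 → A x ∈ ℝ x → A ∈ k x}`. Apply `minimal_sph`.

Closed (the sphere is metrizable, use sequences: `IsSeqClosed`): `x_j → x`, `x_j ∈ Z`, `A x = l x`, `tr A = 0`. Put (vectors are columns,
`|x_j| = 1`) `A_j = A - (A x_j - l x_j) x_jᵀ + τ_j x_j x_jᵀ` with `τ_j = ⟪A x_j - l x_j, x_j⟫ = tr ((A x_j - l x_j) x_jᵀ)`. Then `tr A_j = 0`,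
`A_j x_j = l x_j + τ_j x_j`, so `A_j ∈ k (x_j)`, and `A_j → A`, since `A x_j - l x_j → A x - l x = 0`. By `HypField.closed`, `A ∈ k x`.

Invariant: `x ∈ Z`, `γ ∈ Γ`, `y = sphAct γ x` (a positive multiple of `γ x`), `A y = l y`: then `γ⁻¹ A γ` has trace zero and maps `x` to `l x`, so it is
in `k x`, and `A = γ (γ⁻¹ A γ) γ⁻¹ ∈ k y` by `HypField.equiv`.
-/

set_option autoImplicit false

open Matrix Topology Metric Filter

namespace Pool.Agent.Work.MP_20070e_gt.X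

private theorem mul_inv1 {n : ℕ} (γ : SLn n) : γ.1 * (γ⁻¹).1 = 1 := by
  have h := congrArg Subtype.val (mul_inv_cancel γ)
  exact h

private theorem inv_mul1 {n : ℕ} (γ : SLn n) : (γ⁻¹).1 * γ.1 = 1 := by
  have h := congrArg Subtype.val (inv_mul_cancel γ)
  exact h

private theorem conj_conj {n : ℕ} (γ : SLn n) (A : Mat n) :
    γ.1 * ((γ⁻¹).1 * A * γ.1) * (γ⁻¹).1 = A := by
  calc γ.1 * ((γ⁻¹).1 * A * γ.1) * (γ⁻¹).1
      = (γ.1 * (γ⁻¹).1) * A * (γ.1 * (γ⁻¹).1) := by simp only [Matrix.mul_assoc]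
    _ = A := by rw [mul_inv1, one_mul, mul_one]

private theorem trace_conj {n : ℕ} (γ : SLn n) (A : Mat n) :
    ((γ⁻¹).1 * A * γ.1).trace = A.trace := by
  rw [Matrix.trace_mul_comm, ← Matrix.mul_assoc, mul_inv1, one_mul]

private theorem dot_self {n : ℕ} (y : Sph n) : (y : Eu n).ofLp ⬝ᵥ (y : Eu n).ofLp = 1 := by
  have h1 : ‖(y : Eu n)‖ = 1 := mem_sphere_zero_iff_norm.1 y.2
  have h2 := EuclideanSpace.norm_sq_eq (y : Eu n)
  rw [h1] at h2
  rw [dotProduct]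
  have h3 : ∀ i, (y : Eu n).ofLp i * (y : Eu n).ofLp i = ‖(y : Eu n).ofLp i‖ ^ 2 := fun i => by
    rw [Real.norm_eq_abs, sq_abs]
    ring
  rw [Finset.sum_congr rfl fun i _ => h3 i, ← h2]
  norm_num

private noncomputable def wv {n : ℕ} (A : Mat n) (l : ℝ) (y : Sph n) : Fin n → ℝ :=
  A *ᵥ (y : Eu n).ofLp - l • (y : Eu n).ofLp

private noncomputable def Av {n : ℕ} (A : Mat n) (l : ℝ) (y : Sph n) : Mat n :=
  A - Matrix.vecMulVec (wv A l y) (y : Eu n).ofLp +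
    (wv A l y ⬝ᵥ (y : Eu n).ofLp) • Matrix.vecMulVec (y : Eu n).ofLp (y : Eu n).ofLp

private theorem Av_cont {n : ℕ} (A : Mat n) (l : ℝ) : Continuous (Av A l) := by
  have h0 : Continuous fun y : Sph n => (y : Eu n).ofLp := by fun_prop
  have h1 : Continuous (wv A l) := by
    unfold wv
    exact (continuous_const.matrix_mulVec h0).sub (h0.const_smul l)
  unfold Av
  exact (continuous_const.sub (h1.matrix_vecMulVec h0)).add
    ((h1.dotProduct h0).smul (h0.matrix_vecMulVec h0))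

private theorem Av_trace {n : ℕ} (A : Mat n) (hA : A.trace = 0) (l : ℝ) (y : Sph n) :
    (Av A l y).trace = 0 := by
  unfold Av
  rw [Matrix.trace_add, Matrix.trace_sub, Matrix.trace_smul, Matrix.trace_vecMulVec,
    Matrix.trace_vecMulVec, dot_self, hA, smul_eq_mul]
  ring

private theorem vec_mv {n : ℕ} (u v x : Fin n → ℝ) :
    Matrix.vecMulVec u v *ᵥ x = (v ⬝ᵥ x) • u := by
  funext i
  simp only [Matrix.mulVec, dotProduct, Matrix.vecMulVec_apply, Pi.smul_apply, smul_eq_mul,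
    Finset.sum_mul]
  exact Finset.sum_congr rfl fun j _ => by ring

private theorem Av_vec {n : ℕ} (A : Mat n) (l : ℝ) (y : Sph n) :
    ∃ c : ℝ, Av A l y *ᵥ (y : Eu n).ofLp = c • (y : Eu n).ofLp := by
  refine ⟨l + wv A l y ⬝ᵥ (y : Eu n).ofLp, ?_⟩
  unfold Av
  rw [Matrix.add_mulVec, Matrix.sub_mulVec, Matrix.smul_mulVec, vec_mv, vec_mv, dot_self,
    one_smul, one_smul, add_smul]
  have h1 : wv A l y = A *ᵥ (y : Eu n).ofLp - l • (y : Eu n).ofLp := rfl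
  have h2 : A *ᵥ (y : Eu n).ofLp - wv A l y = l • (y : Eu n).ofLp := by
    rw [h1]
    abel
  rw [h2]

private theorem Av_self {n : ℕ} (A : Mat n) (l : ℝ) (x : Sph n)
    (h : A *ᵥ (x : Eu n).ofLp = l • (x : Eu n).ofLp) : Av A l x = A := by
  have h1 : wv A l x = 0 := by
    unfold wv
    rw [h, sub_self]
  unfold Av
  rw [h1, zero_dotProduct, zero_smul, add_zero]
  have h2 : Matrix.vecMulVec (0 : Fin n → ℝ) (x : Eu n).ofLp = 0 := by
    ext i j
    simp [Matrix.vecMulVec_apply]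
  rw [h2, sub_zero]

private theorem conj_vec {n : ℕ} (γ : SLn n) (A : Mat n) (x : Sph n) (l : ℝ)
    (h : A *ᵥ (sphAct γ x : Eu n).ofLp = l • (sphAct γ x : Eu n).ofLp) :
    ((γ⁻¹).1 * A * γ.1) *ᵥ (x : Eu n).ofLp = l • (x : Eu n).ofLp := by
  have hx : (x : Eu n) ≠ 0 := by
    intro h0
    have h1 := mem_sphere_zero_iff_norm.1 x.2
    rw [h0, norm_zero] at h1
    exact zero_ne_one h1
  have hc : (‖lin γ x.1‖)⁻¹ ≠ 0 := inv_ne_zero (norm_ne_zero_iff.mpr (lin_ne_zero γ hx))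
  have e : (sphAct γ x : Eu n).ofLp = (‖lin γ x.1‖)⁻¹ • (γ.1 *ᵥ (x : Eu n).ofLp) := rfl
  rw [e, Matrix.mulVec_smul, smul_comm l] at h
  have h2 : A *ᵥ (γ.1 *ᵥ (x : Eu n).ofLp) = l • (γ.1 *ᵥ (x : Eu n).ofLp) :=
    smul_right_injective _ hc h
  rw [← Matrix.mulVec_mulVec, ← Matrix.mulVec_mulVec, h2, Matrix.mulVec_smul,
    Matrix.mulVec_mulVec, inv_mul1, Matrix.one_mulVec]

theorem step2 {m : ℕ} (hm : 1 ≤ m) {Γ : Subgroup (SLn (m + 1))} (hΓ : IsUniformLattice Γ)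
    {k : Sph (m + 1) → Submodule ℝ (Mat (m + 1))} (h : HypField Γ k)
    (hx : ∃ x : Sph (m + 1), ∀ A : Mat (m + 1), A.trace = 0 →
      (∃ l : ℝ, A *ᵥ (x : Eu (m + 1)).ofLp = l • (x : Eu (m + 1)).ofLp) → A ∈ k x) :
    ∀ x : Sph (m + 1), ∀ A : Mat (m + 1), A.trace = 0 →
      (∃ l : ℝ, A *ᵥ (x : Eu (m + 1)).ofLp = l • (x : Eu (m + 1)).ofLp) → A ∈ k x := by
  set Z : Set (Sph (m + 1)) := {x | ∀ A : Mat (m + 1), A.trace = 0 →
    (∃ l : ℝ, A *ᵥ (x : Eu (m + 1)).ofLp = l • (x : Eu (m + 1)).ofLp) → A ∈ k x} with hZ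
  have hcl : IsClosed Z := by
    apply IsSeqClosed.isClosed
    intro xs x hxs hlim A hA ⟨l, hl⟩
    refine h.closed xs (fun j => Av A l (xs j)) x A
      (fun j => hxs j _ (Av_trace A hA l _) (Av_vec A l _)) hlim ?_
    have h1 := ((Av_cont A l).tendsto x).comp hlim
    rw [Av_self A l x hl] at h1
    exact h1
  have hinv : ∀ γ ∈ Γ, ∀ z ∈ Z, sphAct γ z ∈ Z := by
    intro γ hγ z hz A hA ⟨l, hl⟩
    have h1 : (γ⁻¹).1 * A * γ.1 ∈ k z :=
      hz _ (by rw [trace_conj, hA]) ⟨l, conj_vec γ A z l hl⟩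
    have h2 := h.equiv γ hγ z _ h1
    rwa [conj_conj] at h2
  have key := minimal_sph hm hΓ Z hcl hinv hx
  intro x
  have h3 : x ∈ Z := by
    rw [key]
    exact Set.mem_univ x
  exact h3

/-- the set of points where `k` is everything is closed and invariant -/
theorem step0 {m : ℕ} (hm : 1 ≤ m) {Γ : Subgroup (SLn (m + 1))} (hΓ : IsUniformLattice Γ)
    {k : Sph (m + 1) → Submodule ℝ (Mat (m + 1))} (h : HypField Γ k)
    (hx : ∃ x : Sph (m + 1), ∀ A : Mat (m + 1), A.trace = 0 → A ∈ k x) :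
    ∀ x : Sph (m + 1), ∀ A : Mat (m + 1), A.trace = 0 → A ∈ k x := by
  set Z : Set (Sph (m + 1)) := {x | ∀ A : Mat (m + 1), A.trace = 0 → A ∈ k x} with hZ
  have hcl : IsClosed Z := by
    apply IsSeqClosed.isClosed
    intro xs x hxs hlim A hA
    exact h.closed xs (fun _ => A) x A (fun j => hxs j A hA) hlim tendsto_const_nhds
  have hinv : ∀ γ ∈ Γ, ∀ z ∈ Z, sphAct γ z ∈ Z := by
    intro γ hγ z hz A hA
    have h1 : (γ⁻¹).1 * A * γ.1 ∈ k z := hz _ (by rw [trace_conj, hA])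
    have h2 := h.equiv γ hγ z _ h1
    rwa [conj_conj] at h2
  have key := minimal_sph hm hΓ Z hcl hinv hx
  intro x
  have h3 : x ∈ Z := by
    rw [key]
    exact Set.mem_univ x
  exact h3

end Pool.Agent.Work.MP_20070e_gt.X
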