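import Mathlib
import Pool.Agent.Work.MP_20070e_gt.X.DK
import Pool.Agent.Work.MP_20070e_gt.X.Seq
import Pool.Agent.Work.MP_20070e_gt.T

/-!
# X/DC (M-L): step 3: `K` is constant (continuous Mautner phenomenon)

Hypothesis `hp`: `p_x ⊆ k x` for all `x`. Hence `p_o ⊆ K(g)` for all `g` (`mem_KK`: if `A e₀ = l e₀` then `g⁻¹ A g` maps `g⁻¹ e₀` to `l g⁻¹ e₀`,
and `sphAct g⁻¹ o` is a positive multiple of `g⁻¹ e₀`).

(1) `K(aa s * g) = K(g)`: by `KK_mul_left` (`sphAct_aa`), `A ∈ K(aa s g) ↔ a⁻¹ A a ∈ K(g)`, `a = aa m s`. The first column of `a⁻¹ A a` is: entry `(0,0)`: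
`A_{00}`, entry `(i,0)`: `e^{(m+1)s} A_{i0}`. So `a⁻¹ A a - e^{(m+1)s} A` has first column a multiple of `e₀` and trace zero: it is in `p_o ⊆ K(g)`. So
`a⁻¹ A a ∈ K(g) ↔ e^{(m+1)s} A ∈ K(g) ↔ A ∈ K(g)` (for `A` of trace zero; otherwise both sides are false by `KK_tr`).

(2) `K(tv (0≠j) t * g) = K(g)`: `u = tv t`; `A ∈ K(u g) ↔ u⁻¹ A u ∈ K(g)`, and `u⁻¹ A u - A` has first column
`u⁻¹ A e₀ - A e₀ = - t A_{j0} e₀` (as `u e₀ = e₀`), so it is in `p_o`.

(3) `K(tv (i≠0) t * g) = K(g)`: let `w = tv t`, `a = aa m 1`. `K(w g) = K(a^k w g) = K(w_k a^k g)` by (1), where `w_k = a^k w a^{-k} = tv (e^{-(m+1)k} t) → 1`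
(`aa_tv_low`, `aa_pow`). Choose (`exists_subseq` for `h k = a^k g`) `γ_k ∈ Γ` with `a^{ψk} g γ_{ψk} → g'`. Then `w_{ψk} a^{ψk} g γ_{ψk} → g'` as well. By `KK_closed` (with
constant `A`): `K(w g) ≤ K(g')` and `K(g) = K(a^k g γ_k) ≤ K(g')`. By `KK_eq_of_le`: `K(w g) = K(g') = K(g)`.

(4) `K(tv (i≠j) t * g) = K(g)` for `i, j ≠ 0`, `i ≠ j`: `tv_comm` with `i → 0 → j`.

(5) All `h`: `sl_induction` (in `../T.lean`) for the property `∀ g, K(h g) = K(g)`.
-/

set_option autoImplicit false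

open Matrix Topology Metric Filter

namespace Pool.Agent.Work.MP_20070e_gt.X

private theorem dc_hpo {m : ℕ} {k : Sph (m + 1) → Submodule ℝ (Mat (m + 1))}
    (hp : ∀ x : Sph (m + 1), ∀ A : Mat (m + 1), A.trace = 0 →
      (∃ l : ℝ, A *ᵥ (x : Eu (m + 1)).ofLp = l • (x : Eu (m + 1)).ofLp) → A ∈ k x)
    (g : SLn (m + 1)) (A : Mat (m + 1)) (hA : A.trace = 0) (hc : ∀ i, i ≠ 0 → A i 0 = 0) :
    A ∈ KK k g := by
  have hgg : g.1 * (g⁻¹).1 = 1 := by
    have h1 : (g * g⁻¹).1 = (1 : SLn (m + 1)).1 := by rw [mul_inv_cancel]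
    exact h1
  have hAe : A *ᵥ (e0 m).ofLp = (A 0 0) • (e0 m).ofLp := by
    have he : (e0 m).ofLp = Pi.single 0 1 := rfl
    rw [he, Matrix.mulVec_single_one]
    ext i
    by_cases hi : i = 0
    · subst hi
      simp
    · simp [hc i hi, Pi.single_eq_of_ne hi]
  rw [mem_KK]
  refine hp _ _ ?_ ⟨A 0 0, ?_⟩
  · rw [Matrix.mul_assoc, Matrix.trace_mul_comm, Matrix.mul_assoc, hgg, Matrix.mul_one, hA]
  · have hx : ((sphAct g⁻¹ (oo m) : Sph (m + 1)) : Eu (m + 1)).ofLp =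
        (‖lin g⁻¹ (e0 m)‖)⁻¹ • ((g⁻¹).1 *ᵥ (e0 m).ofLp) := rfl
    rw [hx, Matrix.mulVec_smul, Matrix.mulVec_mulVec]
    have h1 : (g⁻¹).1 * A * g.1 * (g⁻¹).1 = (g⁻¹).1 * A := by
      rw [Matrix.mul_assoc, hgg, Matrix.mul_one]
    rw [h1, ← Matrix.mulVec_mulVec, hAe, Matrix.mulVec_smul, smul_comm]

private theorem dc_conj {m : ℕ} {Γ : Subgroup (SLn (m + 1))}
    {k : Sph (m + 1) → Submodule ℝ (Mat (m + 1))} (h : HypField Γ k)
    (hp : ∀ x : Sph (m + 1), ∀ A : Mat (m + 1), A.trace = 0 →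
      (∃ l : ℝ, A *ᵥ (x : Eu (m + 1)).ofLp = l • (x : Eu (m + 1)).ofLp) → A ∈ k x)
    {q : SLn (m + 1)} (hq : sphAct q (oo m) = oo m) {c : ℝ} (hc : c ≠ 0)
    (hqc : ∀ A : Mat (m + 1), ∀ i, i ≠ 0 → ((q⁻¹).1 * A * q.1) i 0 = c * A i 0)
    (g : SLn (m + 1)) : KK k (q * g) = KK k g := by
  have hgg : q.1 * (q⁻¹).1 = 1 := by
    have h1 : (q * q⁻¹).1 = (1 : SLn (m + 1)).1 := by rw [mul_inv_cancel]
    exact h1
  have htr : ∀ A : Mat (m + 1), ((q⁻¹).1 * A * q.1).trace = A.trace := by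
    intro A
    rw [Matrix.mul_assoc, Matrix.trace_mul_comm, Matrix.mul_assoc, hgg, Matrix.mul_one]
  ext A
  by_cases hA : A.trace = 0
  · rw [KK_mul_left hq]
    have hC : (q⁻¹).1 * A * q.1 - c • A ∈ KK k g := by
      refine dc_hpo hp g _ ?_ ?_
      · rw [Matrix.trace_sub, htr, Matrix.trace_smul, hA, smul_zero, sub_zero]
      · intro i hi
        rw [Matrix.sub_apply, hqc A i hi, Matrix.smul_apply, smul_eq_mul, sub_self]
    constructor
    · intro h1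
      have h2 : c • A ∈ KK k g := by
        have := (KK k g).sub_mem h1 hC
        rwa [sub_sub_cancel] at this
      exact ((KK k g).smul_mem_iff hc).1 h2
    · intro h1
      have := (KK k g).add_mem hC ((KK k g).smul_mem c h1)
      rwa [sub_add_cancel] at this
  · exact ⟨fun h1 => absurd (KK_tr h h1) hA, fun h1 => absurd (KK_tr h h1) hA⟩

private theorem dc_aa_inv {m : ℕ} (s : ℝ) : ((aa m s)⁻¹).1 =
    Matrix.diagonal (fun i => if i = 0 then Real.exp (m * (-s)) else Real.exp (-(-s))) := by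
  rw [← aa_neg]
  rfl

private theorem dc_one {m : ℕ} {Γ : Subgroup (SLn (m + 1))}
    {k : Sph (m + 1) → Submodule ℝ (Mat (m + 1))} (h : HypField Γ k)
    (hp : ∀ x : Sph (m + 1), ∀ A : Mat (m + 1), A.trace = 0 →
      (∃ l : ℝ, A *ᵥ (x : Eu (m + 1)).ofLp = l • (x : Eu (m + 1)).ofLp) → A ∈ k x)
    (s : ℝ) (g : SLn (m + 1)) : KK k (aa m s * g) = KK k g := by
  refine dc_conj h hp (sphAct_aa s) (c := Real.exp ((m + 1) * s)) (Real.exp_ne_zero _) ?_ g
  intro A i hi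
  have h1 : (aa m s).1 = Matrix.diagonal (fun i => if i = 0 then Real.exp (m * s) else
      Real.exp (-s)) := rfl
  rw [dc_aa_inv, h1, Matrix.mul_diagonal, Matrix.diagonal_mul, if_neg hi, if_pos rfl, neg_neg]
  have h2 : Real.exp ((m + 1) * s) = Real.exp s * Real.exp (m * s) := by
    rw [← Real.exp_add]
    congr 1
    ring
  rw [h2]
  ring

private theorem dc_two {m : ℕ} {Γ : Subgroup (SLn (m + 1))}
    {k : Sph (m + 1) → Submodule ℝ (Mat (m + 1))} (h : HypField Γ k)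
    (hp : ∀ x : Sph (m + 1), ∀ A : Mat (m + 1), A.trace = 0 →
      (∃ l : ℝ, A *ᵥ (x : Eu (m + 1)).ofLp = l • (x : Eu (m + 1)).ofLp) → A ∈ k x)
    {j : Fin (m + 1)} (hj : (0 : Fin (m + 1)) ≠ j) (t : ℝ) (g : SLn (m + 1)) :
    KK k (tv hj t * g) = KK k g := by
  refine dc_conj h hp (sphAct_tv hj t) (c := 1) one_ne_zero ?_ g
  intro A i hi
  have hinv : (tv hj t)⁻¹ = tv hj (-t) := by
    rw [inv_eq_iff_mul_eq_one]
    apply Subtype.ext
    show (1 + Matrix.single 0 j t) * (1 + Matrix.single 0 j (-t)) = (1 : Mat (m + 1))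
    rw [mul_add, add_mul, add_mul, one_mul, mul_one, one_mul,
      Matrix.single_mul_single_of_ne _ _ _ _ hj.symm, add_zero, add_assoc, ← Matrix.single_add,
      add_neg_cancel, Matrix.single_zero, add_zero]
  rw [hinv, one_mul]
  show (((1 + Matrix.single 0 j (-t) : Mat (m + 1)) * A * (1 + Matrix.single 0 j t) :
    Mat (m + 1))) i 0 = A i 0
  rw [mul_add, mul_one, add_mul, one_mul, Matrix.add_apply, Matrix.add_apply]
  have e1 : ((Matrix.single 0 j (-t) : Mat (m + 1)) * A : Mat (m + 1)) i 0 = 0 := by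
    rw [Matrix.single_mul_apply_of_ne _ _ _ _ _ hi]
  have e2 : ∀ B : Mat (m + 1), (B * (Matrix.single 0 j t : Mat (m + 1)) : Mat (m + 1)) i 0 = 0 := by
    intro B
    rw [Matrix.mul_single_apply_of_ne _ _ _ _ _ hj]
  rw [e1, e2, add_zero, add_zero]

private theorem dc_three {m : ℕ} {Γ : Subgroup (SLn (m + 1))} (hΓ : IsUniformLattice Γ)
    {k : Sph (m + 1) → Submodule ℝ (Mat (m + 1))} (h : HypField Γ k)
    (hall : ∀ x, ∃ A : Mat (m + 1), A.trace = 0 ∧ A ∉ k x)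
    (hp : ∀ x : Sph (m + 1), ∀ A : Mat (m + 1), A.trace = 0 →
      (∃ l : ℝ, A *ᵥ (x : Eu (m + 1)).ofLp = l • (x : Eu (m + 1)).ofLp) → A ∈ k x)
    {i : Fin (m + 1)} (hi : i ≠ (0 : Fin (m + 1))) (t : ℝ) (g : SLn (m + 1)) :
    KK k (tv hi t * g) = KK k g := by
  obtain ⟨-, C, hC, hCΓ⟩ := hΓ
  obtain ⟨γ, ψ, κ, hγ, -, hψ, -, hlim⟩ :=
    exists_subseq hC hCΓ (fun j : ℕ => aa m (j : ℝ) * g)
  have hle : ∀ g0 : SLn (m + 1), ∀ f : ℕ → SLn (m + 1), Tendsto f atTop (𝓝 κ) →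
      (∀ j, KK k (f j) = KK k g0) → KK k g0 = KK k κ := by
    intro g0 f hf hK
    refine KK_eq_of_le h hall ?_
    intro A hA
    exact KK_closed h f (fun _ => A) κ A (fun j => by rw [hK j]; exact hA) hf tendsto_const_nhds
  have h1 : KK k g = KK k κ := by
    refine hle g _ hlim (fun j => ?_)
    rw [KK_mul_right h _ (hγ _), dc_one h hp]
  have h2 : KK k (tv hi t * g) = KK k κ := by
    refine hle (tv hi t * g) (fun j => tv hi (Real.exp (-((m + 1) * ((ψ j : ℕ) : ℝ))) * t) *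
      (aa m ((ψ j : ℕ) : ℝ) * g * γ (ψ j))) ?_ (fun j => ?_)
    · have h3 : Tendsto (fun j : ℕ => Real.exp (-((m + 1) * ((ψ j : ℕ) : ℝ))) * t) atTop
          (𝓝 (0 * t)) := by
        refine Tendsto.mul_const t ?_
        have h4 : Tendsto (fun j : ℕ => ((m : ℝ) + 1) * ((ψ j : ℕ) : ℝ)) atTop atTop :=
          Tendsto.const_mul_atTop (by positivity)
            (tendsto_natCast_atTop_atTop.comp hψ.tendsto_atTop)
        exact Real.tendsto_exp_neg_atTop_nhds_zero.comp h4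
      rw [zero_mul] at h3
      have h5 : Tendsto (fun j : ℕ => tv hi (Real.exp (-((m + 1) * ((ψ j : ℕ) : ℝ))) * t)) atTop
          (𝓝 (tv hi 0)) := ((tv_continuous hi).tendsto 0).comp h3
      have h6 : tv hi (0 : ℝ) = 1 := SpecialLinearGroup.transvection_coeff_zero hi
      rw [h6] at h5
      have h7 := h5.mul hlim
      rwa [one_mul] at h7
    · have h3 : tv hi (Real.exp (-((m + 1) * ((ψ j : ℕ) : ℝ))) * t) *
          (aa m ((ψ j : ℕ) : ℝ) * g * γ (ψ j)) =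
          aa m ((ψ j : ℕ) : ℝ) * (tv hi t * g) * γ (ψ j) := by
        rw [← aa_tv_low]
        group
      rw [h3, KK_mul_right h _ (hγ _), dc_one h hp]
  rw [h2, h1]

theorem step3 {m : ℕ} (hm : 1 ≤ m) {Γ : Subgroup (SLn (m + 1))} (hΓ : IsUniformLattice Γ)
    {k : Sph (m + 1) → Submodule ℝ (Mat (m + 1))} (h : HypField Γ k)
    (hall : ∀ x, ∃ A : Mat (m + 1), A.trace = 0 ∧ A ∉ k x)
    (hp : ∀ x : Sph (m + 1), ∀ A : Mat (m + 1), A.trace = 0 →
      (∃ l : ℝ, A *ᵥ (x : Eu (m + 1)).ofLp = l • (x : Eu (m + 1)).ofLp) → A ∈ k x) :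
    ∀ g h' : SLn (m + 1), KK k (h' * g) = KK k g := by
  intro g h'
  have key : ∀ h' : SLn (m + 1), ∀ g : SLn (m + 1), KK k (h' * g) = KK k g := by
    intro h'
    refine sl_induction (n := m + 1) (by omega) (fun h' => ∀ g, KK k (h' * g) = KK k g) ?_ ?_ h'
    · intro i j hij t g
      by_cases hi : i = 0
      · subst hi
        exact dc_two h hp hij t g
      · by_cases hj : j = 0
        · subst hj
          exact dc_three hΓ h hall hp hij t g
        · have hj' : (0 : Fin (m + 1)) ≠ j := fun hh => hj hh.symm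
          have h1 := tv_comm hi hj' hij t 1
          rw [mul_one] at h1
          show KK k (tv hij t * g) = KK k g
          rw [← h1, mul_assoc, mul_assoc, mul_assoc, dc_three hΓ h hall hp hi, dc_two h hp hj',
            dc_three hΓ h hall hp hi, dc_two h hp hj']
    · intro a b ha hb g
      show KK k (a * b * g) = KK k g
      rw [mul_assoc, ha, hb]
  exact key h' g

end Pool.Agent.Work.MP_20070e_gt.X
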