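import Mathlib
import Pool.Agent.Work.MP_20070e_gt.X.DA
import Pool.Agent.Work.MP_20070e_gt.X.DB
import Pool.Agent.Work.MP_20070e_gt.X.DC

/-!
# X/DD (M): there is no closed equivariant field of hyperplanes

Suppose `k x` is not everything for some `x`. By `step0`, `hall` holds (for every `x` some matrix of trace zero is not in `k x`). By `step1`, `step2`, `hp` holds, so by `step3` `K(h) = K(1)`
for all `h`. Let `K = K(1)`. `p_o ⊆ K` (as in `DC`). If `q o = o` (`sphAct q (oo m) = oo m`) and `A ∈ K` then `A ∈ K(q) = K(q * 1)`, so `q⁻¹ A q ∈ K` by `KK_mul_left`.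

Let `n = m + 1 ≥ 3` and `V = {c : Fin (m+1) → ℝ : c_0 = 0, c ⊗ e₀* ∈ K}` (`c ⊗ e₀* = ∑ c_i E_{i0}`, trace `c_0 = 0`). Let `i, j ≠ 0`, `i ≠ j`, `q = tv (i≠j) s` : it
fixes `e₀`, and `q⁻¹ (c ⊗ e₀*) q = (q⁻¹ c) ⊗ e₀*` (`e₀* q = e₀*` as row `0` of `q` is `e₀*`), `q⁻¹ c = c - s c_j e_i`. So `c ∈ V` and `c_j ≠ 0` imply `e_i ∈ V` for all `i ≠ 0, j`.
By `KK_codim` for `E_{10}`, `E_{20}` (`m ≥ 2`) some nonzero `α e_1 + β e_2 ∈ V`. Hence some `e_i ∈ V` (`i ≠ 0`): if `α ≠ 0` take `j = 1`, `i = 2`; otherwise `j = 2`, `i = 1`.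
From `e_i ∈ V` (with `c = e_i`, `j := i`) `e_l ∈ V` for all `l ≠ 0, i`. So all `e_l ∈ V`, `l ≠ 0`. Every `A` of trace zero is `∑_{l ≠ 0} A_{l0} E_{l0}` plus an element of `p_o`, so `A ∈ K`.
Contradiction with `KK_ne`.
-/

set_option autoImplicit false

open Matrix Topology Metric Filter

namespace Pool.Agent.Work.MP_20070e_gt.X

private noncomputable def ddC {m : ℕ} (c : Fin (m + 1) → ℝ) : Mat (m + 1) :=
  Matrix.of fun i j => if j = 0 then c i else 0

private theorem dd_po {m : ℕ} {k : Sph (m + 1) → Submodule ℝ (Mat (m + 1))}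
    (hp : ∀ x : Sph (m + 1), ∀ A : Mat (m + 1), A.trace = 0 →
      (∃ l : ℝ, A *ᵥ (x : Eu (m + 1)).ofLp = l • (x : Eu (m + 1)).ofLp) → A ∈ k x)
    (A : Mat (m + 1)) (hA : A.trace = 0) (hc : ∀ i, i ≠ 0 → A i 0 = 0) : A ∈ KK k 1 := by
  have hAe : A *ᵥ (e0 m).ofLp = (A 0 0) • (e0 m).ofLp := by
    have he : (e0 m).ofLp = Pi.single 0 1 := rfl
    rw [he, Matrix.mulVec_single_one]
    ext i
    by_cases hi : i = 0
    · subst hi
      simp
    · simp [hc i hi, Pi.single_eq_of_ne hi]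
  rw [mem_KK, inv_one, sphAct_one]
  have h1 : (1 : SLn (m + 1)).1 * A * (1 : SLn (m + 1)).1 = A := by
    change (1 : Mat (m + 1)) * A * (1 : Mat (m + 1)) = A
    rw [one_mul, mul_one]
  rw [h1]
  exact hp (oo m) A hA ⟨A 0 0, hAe⟩

private theorem dd_step {m : ℕ} {k : Sph (m + 1) → Submodule ℝ (Mat (m + 1))}
    (hK : ∀ q : SLn (m + 1), KK k q = KK k 1) (c : Fin (m + 1) → ℝ)
    (hc : ddC c ∈ KK k 1) {i j : Fin (m + 1)} (hi : i ≠ 0) (hj : j ≠ 0) (hij : i ≠ j)
    (hcj : c j ≠ 0) : (Matrix.single i 0 1 : Mat (m + 1)) ∈ KK k 1 := by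
  have hq : sphAct (tv hij (1 : ℝ)) (oo m) = oo m := by
    have h1 : lin (tv hij (1 : ℝ)) (e0 m) = e0 m := by
      have he : (e0 m).ofLp = Pi.single 0 1 := rfl
      change WithLp.toLp 2 ((1 + Matrix.single i j (1 : ℝ) : Mat (m + 1)) *ᵥ (e0 m).ofLp) = e0 m
      rw [he, Matrix.mulVec_single_one]
      ext a
      simp [Matrix.col_apply, Matrix.one_apply, e0, hj]
    apply Subtype.ext
    change (‖lin (tv hij (1 : ℝ)) (e0 m)‖)⁻¹ • lin (tv hij (1 : ℝ)) (e0 m) = e0 m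
    rw [h1, norm_e0, inv_one, one_smul]
  have h2 : ((tv hij (1 : ℝ))⁻¹).1 * ddC c * (tv hij (1 : ℝ)).1 ∈ KK k 1 := by
    rw [← KK_mul_left hq, hK]
    exact hc
  have h3 : ddC c - ((tv hij (1 : ℝ))⁻¹).1 * ddC c * (tv hij (1 : ℝ)).1 =
      c j • (Matrix.single i 0 1 : Mat (m + 1)) := by
    rw [SpecialLinearGroup.transvection_inv]
    change ddC c - (1 + Matrix.single i j (-1 : ℝ)) * ddC c * (1 + Matrix.single i j (1 : ℝ)) = _
    have e1 : ddC c * Matrix.single i j (1 : ℝ) = 0 := by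
      ext a b
      by_cases hb : j = b
      · subst hb
        rw [Matrix.mul_single_apply_same]
        simp [ddC, hi]
      · rw [Matrix.mul_single_apply_of_ne _ _ _ _ _ (fun h => hb h.symm)]
        rfl
    have e2 : Matrix.single i j (-1 : ℝ) * ddC c = -(c j • (Matrix.single i 0 1 : Mat (m + 1))) := by
      ext a b
      by_cases ha : i = a
      · subst ha
        rw [Matrix.single_mul_apply_same]
        by_cases hb : b = 0
        · subst hb
          simp [ddC]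
        · have hb' : (0 : Fin (m + 1)) ≠ b := fun h => hb h.symm
          simp [ddC, hb, Matrix.single_apply, hb']
      · rw [Matrix.single_mul_apply_of_ne _ _ _ _ _ (fun h => ha h.symm)]
        simp [ha]
    rw [mul_add, mul_one, mul_assoc, e1, mul_zero, add_zero, add_mul, one_mul, e2]
    abel
  have h4 := (KK k 1).sub_mem hc h2
  rw [h3] at h4
  exact ((KK k 1).smul_mem_iff hcj).1 h4

theorem hypField_top {m : ℕ} (hm : 2 ≤ m) {Γ : Subgroup (SLn (m + 1))} (hΓ : IsUniformLattice Γ)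
    {k : Sph (m + 1) → Submodule ℝ (Mat (m + 1))} (h : HypField Γ k) :
    ∀ x, ∀ A : Mat (m + 1), A.trace = 0 → A ∈ k x := by
  by_contra hcon
  have hm1 : 1 ≤ m := by omega
  have hall : ∀ x, ∃ A : Mat (m + 1), A.trace = 0 ∧ A ∉ k x := by
    by_contra h1
    push Not at h1
    exact hcon (step0 hm1 hΓ h h1)
  have hp := step2 hm1 hΓ h (step1 hm1 hΓ h hall)
  have hK : ∀ q : SLn (m + 1), KK k q = KK k 1 := by
    intro q
    have h1 := step3 hm1 hΓ h hall hp 1 q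
    rwa [mul_one] at h1
  obtain ⟨i1, hi1⟩ : ∃ i1 : Fin (m + 1), i1 = ⟨1, by omega⟩ := ⟨_, rfl⟩
  obtain ⟨i2, hi2⟩ : ∃ i2 : Fin (m + 1), i2 = ⟨2, by omega⟩ := ⟨_, rfl⟩
  have h10 : i1 ≠ 0 := by
    rw [hi1]
    intro h1
    have := congrArg Fin.val h1
    simp at this
  have h20 : i2 ≠ 0 := by
    rw [hi2]
    intro h1
    have := congrArg Fin.val h1
    simp at this
  have h12 : i1 ≠ i2 := by
    rw [hi1, hi2]
    intro h1
    have := congrArg Fin.val h1
    simp at this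
  have htr : ∀ l : Fin (m + 1), l ≠ 0 → (Matrix.single l 0 1 : Mat (m + 1)).trace = 0 :=
    fun l hl => Matrix.trace_single_eq_of_ne _ _ _ hl
  have hC : ∀ l : Fin (m + 1), ddC (Pi.single l 1) = (Matrix.single l 0 1 : Mat (m + 1)) := by
    intro l
    ext a b
    by_cases hb : b = 0
    · subst hb
      simp [ddC, Matrix.single_apply, Pi.single_apply, eq_comm]
    · have hb' : (0 : Fin (m + 1)) ≠ b := fun h => hb h.symm
      simp [ddC, Matrix.single_apply, hb, hb']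
  have hex : ∃ i : Fin (m + 1), i ≠ 0 ∧ (Matrix.single i 0 1 : Mat (m + 1)) ∈ KK k 1 := by
    obtain ⟨α, β, hαβ, hmem⟩ := KK_codim h 1 (Matrix.single i1 0 1) (Matrix.single i2 0 1)
      (htr i1 h10) (htr i2 h20)
    obtain ⟨c, hc⟩ : ∃ c : Fin (m + 1) → ℝ, c = α • Pi.single i1 1 + β • Pi.single i2 1 :=
      ⟨_, rfl⟩
    have hcC : ddC c ∈ KK k 1 := by
      have h1 : ddC c = α • (Matrix.single i1 0 1 : Mat (m + 1)) +
          β • (Matrix.single i2 0 1 : Mat (m + 1)) := by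
        rw [← hC, ← hC, hc]
        ext a b
        by_cases hb : b = 0
        · simp [ddC, hb]
        · simp [ddC, hb]
      rw [h1]
      exact hmem
    have hc1 : c i1 = α := by
      rw [hc]
      simp [h12]
    have hc2 : c i2 = β := by
      rw [hc]
      simp [h12.symm]
    rcases hαβ with hα | hβ
    · exact ⟨i2, h20, dd_step hK c hcC h20 h10 h12.symm (by rw [hc1]; exact hα)⟩
    · exact ⟨i1, h10, dd_step hK c hcC h10 h20 h12 (by rw [hc2]; exact hβ)⟩
  obtain ⟨i, hi0, hi⟩ := hex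
  have hallE : ∀ l : Fin (m + 1), l ≠ 0 → (Matrix.single l 0 1 : Mat (m + 1)) ∈ KK k 1 := by
    intro l hl
    by_cases hli : l = i
    · rw [hli]; exact hi
    · refine dd_step hK (Pi.single i 1) (by rw [hC]; exact hi) hl hi0 hli ?_
      simp
  obtain ⟨A, hA, hAK⟩ := KK_ne hall (1 : SLn (m + 1))
  apply hAK
  obtain ⟨S, hS⟩ : ∃ S : Mat (m + 1), S = ∑ l ∈ Finset.univ.erase (0 : Fin (m + 1)),
      A l 0 • (Matrix.single l 0 1 : Mat (m + 1)) := ⟨_, rfl⟩
  have hSK : S ∈ KK k 1 := by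
    rw [hS]
    apply (KK k 1).sum_mem
    intro l hl
    exact (KK k 1).smul_mem _ (hallE l (Finset.ne_of_mem_erase hl))
  have hAS : A - S ∈ KK k 1 := by
    apply dd_po hp
    · rw [Matrix.trace_sub, hA, hS, Matrix.trace_sum, zero_sub, neg_eq_zero]
      apply Finset.sum_eq_zero
      intro l hl
      rw [Matrix.trace_smul, htr l (Finset.ne_of_mem_erase hl), smul_zero]
    · intro i hi'
      rw [Matrix.sub_apply, hS, Matrix.sum_apply, sub_eq_zero,
        Finset.sum_eq_single_of_mem i (Finset.mem_erase.2 ⟨hi', Finset.mem_univ _⟩)]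
      · simp
      · intro l _ hl
        simp [Matrix.single_apply, hl]
  have h1 := (KK k 1).add_mem hAS hSK
  rwa [sub_add_cancel] at h1

end Pool.Agent.Work.MP_20070e_gt.X
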