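import Mathlib

/-!
# X/LCycA (M-L): cyclotomic data (pure Mathlib)

Choose a prime `p ≡ 1 (mod 2 n)`, `p > 2` (`Nat.exists_prime_gt_modEq_one`), `p - 1 = 2 n N`, `N > 0`. Let `g` be a generator of the cyclic group `(ZMod p)ˣ` and `q` a prime with `q ≡ g (mod p)` (Dirichlet: `Nat.forall_exists_prime_gt_and_eq_mod`). `L = CyclotomicField p ℚ`, `ζ` its primitive
`p`-th root of unity, `τ` the automorphism with `τ ζ = ζ^q` (`IsCyclotomicExtension.autEquivPow`, irreducibility `Polynomial.cyclotomic.irreducible_rat`). `Gal(L/ℚ) ≃ (ZMod p)ˣ` is generated by `τ`, of order `p - 1 = 2 n N`.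
* complex conjugation: choose an embedding `e : L →+* ℂ`. `τ^{nN}` has order `2`, so it corresponds to `-1 ∈ (ZMod p)ˣ` (the only element of order two), i.e. `τ^{nN} ζ = ζ⁻¹`; and `conj (e ζ) = (e ζ)⁻¹ = e (ζ⁻¹)` as `|e ζ| = 1`. Two ring homomorphisms `L → ℂ` which agree on `ζ` are equal
  (`IsCyclotomicExtension.adjoin_primitive_root_eq_top` / `IsPrimitiveRoot.powerBasis` ext).
* Frobenius: `𝓞 L = ℤ[ζ]` (`IsCyclotomicExtension.Rat.isIntegralClosure_adjoin_singleton_prime` or the theorem on `𝓞` of cyclotomic fields). The set of `x ∈ 𝓞 L` with `q ∣ τ x - x^q` is closed under addition (`(x + y)^q ≡ x^q + y^q (mod q)`: `add_pow_char` in `𝓞 L ⧸ q`, or `add_pow_prime_eq`),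
  multiplication, contains `ℤ` (Fermat) and `ζ`: it contains `ℤ[ζ]` (`Algebra.adjoin_induction`).
-/

set_option autoImplicit false

open NumberField

namespace Pool.Agent.Work.MP_20070e_gt.X

private theorem frob_step {L : Type} [Field L] [NumberField L] (τ : L ≃ₐ[ℚ] L) (q : ℕ)
    (hq : q.Prime) (z : 𝓞 L) (htop : Algebra.adjoin ℤ {z} = (⊤ : Subalgebra ℤ (𝓞 L)))
    (hz : τ (z : L) = (z : L) ^ q) (x : 𝓞 L) :
    ∃ y : 𝓞 L, τ (x : L) = (x : L) ^ q + q * (y : L) := by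
  have : Fact q.Prime := ⟨hq⟩
  have hx : x ∈ Algebra.adjoin ℤ {z} := by rw [htop]; exact Algebra.mem_top
  induction hx using Algebra.adjoin_induction with
  | mem x hx =>
    rw [Set.mem_singleton_iff] at hx
    subst hx
    exact ⟨0, by simp [hz]⟩
  | algebraMap m =>
    have h : (q : ℤ) ∣ m - m ^ q := by
      rw [← Int.modEq_iff_dvd, ← ZMod.intCast_eq_intCast_iff]
      push_cast
      rw [ZMod.pow_card]
    obtain ⟨c, hc⟩ := h
    refine ⟨algebraMap ℤ (𝓞 L) c, ?_⟩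
    have h2 : m = m ^ q + q * c := by linarith
    have h3 : ((m : ℤ) : L) = (m : L) ^ q + q * (c : L) := by
      exact_mod_cast congrArg (fun t : ℤ => (t : L)) h2
    simpa using h3
  | add x y _ _ hx hy =>
    obtain ⟨a, ha⟩ := hx
    obtain ⟨b, hb⟩ := hy
    obtain ⟨r, hr⟩ := exists_add_pow_prime_eq hq x y
    refine ⟨a + b - x * y * r, ?_⟩
    have hr' : ((x : L) + (y : L)) ^ q = (x : L) ^ q + (y : L) ^ q + q * (x : L) * (y : L) * (r : L) := by
      have := congrArg (algebraMap (𝓞 L) L) hr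
      simpa using this
    simp only [map_add, map_sub, map_mul]
    rw [ha, hb, hr']
    ring
  | mul x y _ _ hx hy =>
    obtain ⟨a, ha⟩ := hx
    obtain ⟨b, hb⟩ := hy
    refine ⟨x ^ q * b + a * y ^ q + q * a * b, ?_⟩
    simp only [map_add, map_mul, map_pow, map_natCast]
    rw [ha, hb]
    ring

private theorem cyclo_main (n p N q : ℕ) (hp : p.Prime) (hN : p - 1 = 2 * n * N)
    (hN0 : 0 < N) (hn : 1 ≤ n) (g : (ZMod p)ˣ) (hg : ∀ x, x ∈ Subgroup.zpowers g)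
    (hq : q.Prime) (hqg : (q : ZMod p) = g) (L : Type) [Field L] [NumberField L] [NeZero p]
    [IsCyclotomicExtension {p} ℚ L] (e : L →+* ℂ) :
    ∃ τ : L ≃ₐ[ℚ] L, (∀ σ : L ≃ₐ[ℚ] L, ∃ k : ℕ, σ = τ ^ k) ∧
        orderOf τ = 2 * n * N ∧ (∀ x, (starRingEnd ℂ) (e x) = e ((τ ^ (n * N)) x)) ∧
        ∀ x : 𝓞 L, ∃ y : 𝓞 L, τ (x : L) = (x : L) ^ q + q * (y : L) := by
  have : Fact p.Prime := ⟨hp⟩
  have hgord : orderOf g = 2 * n * N := by
    rw [orderOf_eq_card_of_forall_mem_zpowers hg, Nat.card_eq_fintype_card,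
      ZMod.card_units_eq_totient, Nat.totient_prime hp, hN]
  let G := IsCyclotomicExtension.Rat.galEquivZMod p L
  let τ : L ≃ₐ[ℚ] L := G.symm g
  have hGτ : G τ = g := G.apply_symm_apply g
  obtain ⟨ζ, hζ⟩ : ∃ ζ : L, IsPrimitiveRoot ζ p :=
    ⟨_, IsCyclotomicExtension.zeta_spec p ℚ L⟩
  refine ⟨τ, ?_, ?_, ?_, ?_⟩
  · intro σ
    have h1 : G σ ∈ Submonoid.powers g := by
      rw [mem_powers_iff_mem_zpowers]
      exact hg _
    obtain ⟨k, hk⟩ := h1
    refine ⟨k, G.injective ?_⟩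
    rw [map_pow, hGτ]; exact hk.symm
  · rw [← hgord, ← hGτ]
    exact (G.orderOf_eq τ).symm
  · have hm1 : ((g ^ (n * N) : (ZMod p)ˣ) : ZMod p) = -1 := by
      have h1 : ((g ^ (n * N) : (ZMod p)ˣ) : ZMod p) ^ 2 = 1 := by
        rw [← Units.val_pow_eq_pow_val, ← pow_mul, show n * N * 2 = orderOf g by rw [hgord]; ring,
          pow_orderOf_eq_one, Units.val_one]
      rw [sq] at h1
      rcases mul_self_eq_one_iff.1 h1 with h | h
      · exfalso
        have h2 : g ^ (n * N) = 1 := Units.ext (by rw [h, Units.val_one])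
        have h3 := Nat.le_of_dvd (Nat.mul_pos (by omega) hN0) (orderOf_dvd_of_pow_eq_one h2)
        rw [hgord] at h3
        nlinarith [Nat.mul_pos (show 0 < n by omega) hN0]
      · exact h
    have hGk : G (τ ^ (n * N)) = g ^ (n * N) := by rw [map_pow, hGτ]
    have hinv : (τ ^ (n * N)) ζ = ζ⁻¹ := by
      have h1 := IsCyclotomicExtension.Rat.galEquivZMod_apply_of_pow_eq p L (τ ^ (n * N))
        hζ.pow_eq_one
      change (τ ^ (n * N)) ζ = ζ ^ (G (τ ^ (n * N))).val.val at h1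
      rw [h1, hGk, hm1]
      refine eq_inv_of_mul_eq_one_left ?_
      rw [← pow_succ, hζ.pow_eq_one_iff_dvd, ← ZMod.natCast_eq_zero_iff]
      push_cast
      rw [ZMod.natCast_zmod_val]
      ring
    have hnorm : (starRingEnd ℂ) (e ζ) = (e ζ)⁻¹ := by
      have h1 : ‖e ζ‖ = 1 := by
        refine Complex.norm_eq_one_of_pow_eq_one (n := p) ?_ hp.ne_zero
        rw [← map_pow, hζ.pow_eq_one, map_one]
      rw [Complex.inv_def, Complex.normSq_eq_norm_sq, h1]
      simp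
    let f1 : L →ₐ[ℚ] ℂ := ((starRingEnd ℂ).comp e).toRatAlgHom
    let f2 : L →ₐ[ℚ] ℂ := (e.comp ((τ ^ (n * N) : L ≃ₐ[ℚ] L) : L →+* L)).toRatAlgHom
    have hf : f1 = f2 := by
      refine (hζ.powerBasis ℚ).algHom_ext ?_
      rw [IsPrimitiveRoot.powerBasis_gen]
      change (starRingEnd ℂ) (e ζ) = e ((τ ^ (n * N)) ζ)
      rw [hinv, hnorm, map_inv₀]
    intro x
    exact DFunLike.congr_fun hf x
  · intro x
    refine frob_step τ q hq hζ.toInteger
      (IsCyclotomicExtension.Rat.adjoin_singleton_eq_top hζ) ?_ x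
    change τ ζ = ζ ^ q
    have h1 := IsCyclotomicExtension.Rat.galEquivZMod_apply_of_pow_eq p L τ hζ.pow_eq_one
    change τ ζ = ζ ^ (G τ).val.val at h1
    rw [h1, hGτ, ← hqg, ZMod.val_natCast, hζ.eq_orderOf, pow_mod_orderOf]

theorem cyclo_data (n : ℕ) (hn : 1 ≤ n) :
    ∃ (L : Type) (_ : Field L) (_ : NumberField L) (_ : IsGalois ℚ L) (τ : L ≃ₐ[ℚ] L)
      (N q : ℕ) (e : L →+* ℂ), 0 < N ∧ q.Prime ∧ (∀ σ : L ≃ₐ[ℚ] L, ∃ k : ℕ, σ = τ ^ k) ∧
        orderOf τ = 2 * n * N ∧ (∀ x, (starRingEnd ℂ) (e x) = e ((τ ^ (n * N)) x)) ∧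
        ∀ x : 𝓞 L, ∃ y : 𝓞 L, τ (x : L) = (x : L) ^ q + q * (y : L) := by
  obtain ⟨p, hp, hp2, hmod⟩ := Nat.exists_prime_gt_modEq_one (k := 2 * n) 2 (by omega)
  have : Fact p.Prime := ⟨hp⟩
  have : NeZero p := ⟨hp.ne_zero⟩
  have hdvd : 2 * n ∣ p - 1 := (Nat.modEq_iff_dvd' hp.one_lt.le).1 hmod.symm
  obtain ⟨N, hN⟩ := hdvd
  have hN0 : 0 < N := by
    rcases Nat.eq_zero_or_pos N with h | h
    · subst h; omega
    · exact h
  obtain ⟨g, hg⟩ := IsCyclic.exists_generator (α := (ZMod p)ˣ)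
  obtain ⟨q, hqgt, hq, hqg⟩ := Nat.forall_exists_prime_gt_and_eq_mod (q := p)
    (a := (g : ZMod p)) g.isUnit 0
  have key : ∀ a : Algebra ℚ (CyclotomicField p ℚ),
      @IsCyclotomicExtension {p} ℚ (CyclotomicField p ℚ) _ _ a := by
    intro a
    have ha : a = CyclotomicField.algebra p ℚ := Subsingleton.elim _ _
    subst ha
    exact CyclotomicField.isCyclotomicExtension p ℚ
  have hc : IsCyclotomicExtension {p} ℚ (CyclotomicField p ℚ) := key _
  have hgal : IsGalois ℚ (CyclotomicField p ℚ) := IsCyclotomicExtension.isGalois {p} ℚ _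
  let e : CyclotomicField p ℚ →+* ℂ := Classical.choice inferInstance
  obtain ⟨τ, h1, h2, h3, h4⟩ := cyclo_main n p N q hp hN hN0 hn g hg hq hqg
    (CyclotomicField p ℚ) e
  exact ⟨CyclotomicField p ℚ, inferInstance, inferInstance, hgal, τ, N, q, e, hN0, hq, h1, h2, h3, h4⟩

end Pool.Agent.Work.MP_20070e_gt.X
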