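import Mathlib
import Pool.Agent.Work.MP_20070e_gt.X.LCycA
import Pool.Agent.Work.MP_20070e_gt.X.Defs

/-!
# X/LCycB (M-L): the cyclic ring of degree `n`

Take `cyclo_data`. `H = Subgroup.zpowers (τ^n)`, `K = IntermediateField.fixedField H` (`x ∈ K ↔ τ^n x = x`). `[L : ℚ] = |Gal| = 2 n N` (the group is generated by `τ`, `IsGalois.card_aut_eq_finrank`), `|H| = orderOf (τ^n) = 2 N`, `[L : K] = |H|` (`IntermediateField.finrank_fixedField_eq_card`),
so `[K : ℚ] = n`. `R = 𝓞 K`, `b` = an integral basis reindexed by `Fin n` (`RingOfIntegers.basis`, `RingOfIntegers.rank`). `σ` = restriction of `τ` to `K` (`τ` commutes with `τ^n`), as a ring automorphism of `𝓞 K` (`RingOfIntegers.mapRingEquiv`/`mapAlgEquiv`, or directly with `IsIntegral`).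
`σn`: `τ^n x = x` on `K`. `dist`: if `τ^i x = x` for all `x ∈ 𝓞 K` then for all `x ∈ K` (`K = Frac 𝓞 K`), so `τ^i ∈ fixingSubgroup K = H` (`IntermediateField.fixingSubgroup_fixedField`), so `τ^i = τ^{n k}` and `2 n N ∣ i - n k`, hence `n ∣ i`: impossible for `0 < i < n`. `fix`: `τ x = x` implies
`x` fixed by all of `Gal(L/ℚ)` (powers of `τ`), so `x ∈ ℚ` (`IsGalois.mem_bot_iff_fixed` ..), integral, so `x ∈ ℤ` (`IsIntegrallyClosed`, `IsInteger`). `ι`: for `x ∈ K`: `τ^{nN} x = x`, so `conj (e x) = e x` and `e x` is real: `ι x = (e x).re` is a ring homomorphism (`Complex.ofReal`), injective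
(field). `frob`: for `x ∈ 𝓞 K`: `τ x - x^q = q y` with `y ∈ 𝓞 L`; `y = (τ x - x^q)/q ∈ K` is integral, so `y ∈ 𝓞 K`.
-/

set_option autoImplicit false

open NumberField

namespace Pool.Agent.Work.MP_20070e_gt.X

theorem exists_cycRing (n : ℕ) (hn : 1 ≤ n) : Nonempty (CycRing n) := by
  classical
  obtain ⟨L, _, _, _, τ, N, q, e, hN, hq, hgen, hord, hconj, hfrob⟩ := cyclo_data n hn
  set H : Subgroup (L ≃ₐ[ℚ] L) := Subgroup.zpowers (τ ^ n) with hH
  let K : IntermediateField ℚ L := IntermediateField.fixedField H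
  have hmem : ∀ x : L, x ∈ K ↔ (τ ^ n) x = x := by
    intro x
    have h1 : x ∈ K ↔ ∀ g ∈ H, g x = x := IntermediateField.mem_fixedField_iff _ _
    rw [h1]
    constructor
    · intro h
      exact h _ (Subgroup.mem_zpowers _)
    · intro h g hg
      have h2 : H ≤ MulAction.stabilizer (L ≃ₐ[ℚ] L) x := by
        rw [hH, Subgroup.zpowers_le]
        exact h
      exact h2 hg
  have hfin : FiniteDimensional ℚ K := inferInstance
  have hnf : NumberField K := inferInstance
  -- restriction of `τ`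
  have hτK : ∀ x ∈ K, τ x ∈ K := by
    intro x hx
    rw [hmem] at hx ⊢
    rw [← AlgEquiv.mul_apply, ← pow_succ, pow_succ', AlgEquiv.mul_apply, hx]
  have hτK' : ∀ x ∈ K, τ.symm x ∈ K := by
    intro x hx
    rw [hmem] at hx ⊢
    apply τ.injective
    rw [← AlgEquiv.mul_apply, ← pow_succ', pow_succ, AlgEquiv.mul_apply,
      AlgEquiv.apply_symm_apply, hx]
  let τK : K ≃+* K :=
    { toFun := fun x => ⟨τ x, hτK x x.2⟩
      invFun := fun x => ⟨τ.symm x, hτK' x x.2⟩
      left_inv := fun x => Subtype.ext (τ.symm_apply_apply _)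
      right_inv := fun x => Subtype.ext (τ.apply_symm_apply _)
      map_mul' := fun x y => Subtype.ext (map_mul τ _ _)
      map_add' := fun x y => Subtype.ext (map_add τ _ _) }
  let σ : 𝓞 K ≃+* 𝓞 K := RingOfIntegers.mapRingEquiv τK
  have hσ : ∀ x : 𝓞 K, (((σ x : 𝓞 K) : K) : L) = τ (((x : 𝓞 K) : K) : L) := fun x => rfl
  have hσi : ∀ (i : ℕ) (x : 𝓞 K),
      ((((σ : 𝓞 K → 𝓞 K)^[i] x : 𝓞 K) : K) : L) = (τ ^ i) (((x : 𝓞 K) : K) : L) := by
    intro i
    induction i with
    | zero => intro x; rfl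
    | succ i ih =>
      intro x
      rw [Function.iterate_succ_apply', hσ, ih, pow_succ', AlgEquiv.mul_apply]
  have hinj : Function.Injective (fun x : 𝓞 K => (((x : 𝓞 K) : K) : L)) := by
    intro x y h
    exact RingOfIntegers.coe_injective (Subtype.val_injective h)
  -- degrees
  have hgal : Nat.card (L ≃ₐ[ℚ] L) = 2 * n * N := by
    rw [← hord, ← Nat.card_zpowers]
    symm
    apply Nat.card_congr
    exact (Equiv.subtypeUnivEquiv fun g => by
      obtain ⟨k, rfl⟩ := hgen g
      exact Subgroup.pow_mem _ (Subgroup.mem_zpowers τ) k)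
  have hHc : Nat.card H = 2 * N := by
    rw [hH, Nat.card_zpowers, orderOf_pow, hord]
    have : (2 * n * N).gcd n = n := Nat.gcd_eq_right ⟨2 * N, by ring⟩
    rw [this]
    apply Nat.div_eq_of_eq_mul_left (by omega)
    ring
  have hKn : Module.finrank ℚ K = n := by
    have h1 : Module.finrank ℚ K * Module.finrank K L = Module.finrank ℚ L :=
      Module.finrank_mul_finrank ℚ K L
    have h2 : Module.finrank K L = 2 * N := by
      rw [← hHc]
      exact IntermediateField.finrank_fixedField_eq_card H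
    have h3 : Module.finrank ℚ L = 2 * n * N := by
      rw [← hgal]
      exact (IsGalois.card_aut_eq_finrank ℚ L).symm
    rw [h2, h3] at h1
    have h4 : 0 < 2 * N := by omega
    apply Nat.eq_of_mul_eq_mul_right h4
    rw [h1]
    ring
  have hrank : Module.finrank ℤ (𝓞 K) = n := by
    rw [RingOfIntegers.rank, hKn]
  -- the real embedding
  let g : 𝓞 K →+* ℂ := (e.comp (algebraMap K L)).comp (algebraMap (𝓞 K) K)
  have hg : ∀ x : 𝓞 K, (g x).im = 0 := by
    intro x
    have h1 : (τ ^ (n * N)) (((x : 𝓞 K) : K) : L) = (((x : 𝓞 K) : K) : L) := by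
      have h2 := (hmem _).1 (x : K).2
      rw [pow_mul]
      have h3 : ∀ k : ℕ, ((τ ^ n) ^ k) (((x : 𝓞 K) : K) : L) = (((x : 𝓞 K) : K) : L) := by
        intro k
        induction k with
        | zero => rfl
        | succ k ih => rw [pow_succ', AlgEquiv.mul_apply, ih, h2]
      exact h3 N
    have h2 := hconj (((x : 𝓞 K) : K) : L)
    rw [h1] at h2
    exact Complex.conj_eq_iff_im.1 h2
  have hgr : ∀ x, ((g x).re : ℂ) = g x := fun x => by
    apply Complex.ext
    · exact Complex.ofReal_re _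
    · rw [Complex.ofReal_im, hg]
  let ι : 𝓞 K →+* ℝ :=
    { toFun := fun x => (g x).re
      map_one' := by rw [map_one]; exact Complex.one_re
      map_mul' := fun x y => by rw [map_mul, Complex.mul_re, hg, zero_mul, sub_zero]
      map_zero' := by rw [map_zero]; exact Complex.zero_re
      map_add' := fun x y => by rw [map_add, Complex.add_re] }
  have hιinj : Function.Injective ι := by
    intro x y h
    have h1 : g x = g y := by
      rw [← hgr x, ← hgr y]
      exact congrArg _ h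
    exact hinj (e.injective h1)
  refine ⟨⟨𝓞 K, inferInstance, inferInstance, Module.finBasisOfFinrankEq ℤ (𝓞 K) hrank, ι, hιinj,
    σ, ?_, ?_, ?_, q, hq, ?_⟩⟩
  · intro x
    apply hinj
    show ((((σ : 𝓞 K → 𝓞 K)^[n] x : 𝓞 K) : K) : L) = (((x : 𝓞 K) : K) : L)
    rw [hσi]
    exact (hmem _).1 (x : K).2
  · intro i hi hin
    by_contra hne
    push Not at hne
    have h1 : ∀ z : K, (τ ^ i) (z : L) = z := by
      intro z
      obtain ⟨a, b, hb, rfl⟩ := IsFractionRing.div_surjective (A := 𝓞 K) z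
      have ha := congrArg (fun x : 𝓞 K => (((x : 𝓞 K) : K) : L)) (hne a)
      have hb' := congrArg (fun x : 𝓞 K => (((x : 𝓞 K) : K) : L)) (hne b)
      rw [hσi] at ha hb'
      have h2 : (((algebraMap (𝓞 K) K a / algebraMap (𝓞 K) K b : K)) : L) =
          (((a : 𝓞 K) : K) : L) / (((b : 𝓞 K) : K) : L) := rfl
      rw [h2, map_div₀, ha, hb']
    have h2 : τ ^ i ∈ H := by
      rw [← IntermediateField.fixingSubgroup_fixedField H]
      intro z
      exact h1 z
    rw [hH, Subgroup.mem_zpowers_iff] at h2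
    obtain ⟨k, hk⟩ := h2
    have h3 : τ ^ ((n : ℤ) * k - i) = 1 := by
      rw [zpow_sub, zpow_mul, zpow_natCast, hk, zpow_natCast, mul_inv_cancel]
    rw [← orderOf_dvd_iff_zpow_eq_one, hord] at h3
    have h4 : (n : ℤ) ∣ (n : ℤ) * k - i := by
      refine dvd_trans ?_ h3
      push_cast
      exact ⟨2 * N, by ring⟩
    have h5 : (n : ℤ) ∣ i := by
      have := dvd_sub (Dvd.intro k rfl : (n : ℤ) ∣ (n : ℤ) * k) h4
      rwa [sub_sub_cancel] at this
    have h6 : n ∣ i := by exact_mod_cast h5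
    have := Nat.le_of_dvd hi h6
    omega
  · intro x hx
    have h1 : τ (((x : 𝓞 K) : K) : L) = (((x : 𝓞 K) : K) : L) := by
      rw [← hσ, hx]
    have h2 : ∀ f : L ≃ₐ[ℚ] L, f (((x : 𝓞 K) : K) : L) = (((x : 𝓞 K) : K) : L) := by
      intro f
      obtain ⟨k, rfl⟩ := hgen f
      induction k with
      | zero => rfl
      | succ k ih => rw [pow_succ', AlgEquiv.mul_apply, ih, h1]
    have h3 := (IsGalois.mem_bot_iff_fixed (F := ℚ) (E := L) _).2 h2
    obtain ⟨r, hr⟩ := IntermediateField.mem_bot.1 h3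
    have h4 : IsIntegral ℤ r := by
      rw [← isIntegral_algebraMap_iff (A := ℚ) (B := L) (algebraMap ℚ L).injective, hr]
      exact map_isIntegral_int (algebraMap K L) (RingOfIntegers.isIntegral_coe x)
    obtain ⟨z, hz⟩ := IsIntegrallyClosed.isIntegral_iff.1 h4
    refine ⟨z, ?_⟩
    apply hinj
    show (((x : 𝓞 K) : K) : L) = _
    rw [← hr, ← hz]
    simp
  · intro x
    let X : 𝓞 L := algebraMap (𝓞 K) (𝓞 L) x
    have hX : ((X : 𝓞 L) : L) = (((x : 𝓞 K) : K) : L) := rfl
    obtain ⟨Y, hY⟩ := hfrob X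
    rw [hX] at hY
    have hq0 : (q : L) ≠ 0 := by exact_mod_cast hq.ne_zero
    have hYe : (Y : L) = (τ (((x : 𝓞 K) : K) : L) - (((x : 𝓞 K) : K) : L) ^ q) / q := by
      rw [hY]
      field_simp
      ring
    have hYK : (Y : L) ∈ K := by
      rw [hYe]
      apply K.div_mem
      · exact K.sub_mem (hτK _ (x : K).2) (pow_mem (x : K).2 q)
      · exact natCast_mem K q
    have hint : IsIntegral ℤ (⟨(Y : L), hYK⟩ : K) := by
      have h1 := RingOfIntegers.isIntegral_coe Y
      exact (isIntegral_algebraMap_iff (A := K) (B := L) (algebraMap K L).injective).1 h1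
    refine ⟨⟨⟨(Y : L), hYK⟩, hint⟩, ?_⟩
    apply hinj
    show (((σ x : 𝓞 K) : K) : L) = _
    rw [hσ, hY]
    rfl

end Pool.Agent.Work.MP_20070e_gt.X
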