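import Mathlib
import Pool.Agent.Work.MP_20070e_gt.X.Defs

/-!
# X/LDefs (FIXED): the matrices of a cyclic algebra
-/

set_option autoImplicit false

open Matrix

namespace Pool.Agent.Work.MP_20070e_gt.X

instance {n : ℕ} (D : CycRing n) : CommRing D.R := D.ring

instance {n : ℕ} (D : CycRing n) : IsDomain D.R := D.dom

/-- The matrix of `∑_j x_j u^j` in the cyclic algebra `⊕ R u^j`, `u x = σ(x) u`, `u^n = q`: the entry `(i, k)` is
`σ^i (x_{k - i})`, times `q` if `k < i` (`k - i` is computed modulo `n`). -/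
def MR {n : ℕ} (D : CycRing n) (x : Fin n → D.R) : Matrix (Fin n) (Fin n) D.R :=
  fun i k => (D.σ : D.R → D.R)^[i.val] (x (k - i)) * (if k < i then (D.q : D.R) else 1)

/-- the real matrix -/
noncomputable def MRr {n : ℕ} (D : CycRing n) (x : Fin n → D.R) : Mat n := (MR D x).map D.ι

/-- the basis of the order -/
noncomputable def BB {n : ℕ} (D : CycRing n) (p : Fin n × Fin n) : Mat n :=
  MRr D (Pi.single p.1 (D.b p.2))

/-- the multiplication of the cyclic algebra -/
def cmul {n : ℕ} (D : CycRing n) (x y : Fin n → D.R) : Fin n → D.R := fun l =>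
  ∑ j : Fin n, x j * (D.σ : D.R → D.R)^[j.val] (y (l - j)) * (if l < j then (D.q : D.R) else 1)

end Pool.Agent.Work.MP_20070e_gt.X
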