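import Mathlib
import Pool.Agent.Work.MP_20070e_gt.X.LDefs

/-!
# X/LMat (M): the cyclic algebra

`σ^[i]` is a ring homomorphism (`RingEquiv`, iterate: `iterate_map_mul`, `iterate_map_add`, ..), `σ^[n] = id` (`D.σn`), `σ q = q` (natural numbers are fixed).
* `MR_mul`: entry `(i, k)` of the product: `∑_a σ^i(x_{a-i}) σ^a(y_{k-a}) [q if a < i] [q if k < a]`. Substitute `j = a - i` (mod `n`), so `a = i + j` mod `n` and `σ^a = σ^i σ^j` (if `i + j ≥ n`, use `σ^n = 1`). The entry `(i, k)` of
  `MR (cmul x y)` with `l = k - i` is `∑_j σ^i(x_j) σ^{i+j}(y_{l-j}) [q if l < j] [q if k < i]`, `l - j = k - a`. The factors agree: `[a < i] + [k < a] = [l < j] + [k < i]` where `a = i + j mod n`, `l = k - i mod n` (both sides count the number of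
  wraps: `a - i`, `k - a`, `k - i` as integers: `j = a - i + n [a < i]`, `(k - a) mod n = k - a + n [k < a]`, `l = k - i + n [k < i]`, `(l - j) mod n = l - j + n [l < j]`).
* `MR_U`: with `U = MR (single 1 1)` (`n ≥ 2`; for `Fin n` with `1` the element of value `1`): `U = ∑ E_{i,i+1}`, last row `q e_0`. Can also be proved by `MR_mul` with `cmul (single 1 1) x` and `cmul`.. ; entries: `(U M)_{i,k} = M_{i+1,k}`, times `q` if `i = n-1`;
  `(M' U)_{i,k} = M'_{i,k-1}`, times `q` if `k = 0`, with `M' = M.map σ`.
* `det U ≠ 0`: `U` is `q^{..}`: e.g. `U^n = q • 1` by `MR_mul` (or expansion of the determinant along the first column, or `det U ^ n = q ^ n`).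
-/

set_option autoImplicit false

open Matrix

namespace Pool.Agent.Work.MP_20070e_gt.X

variable {n : ℕ} (D : CycRing n)

/-- the iterates of `σ` as ring homomorphisms -/
private noncomputable def sgm (k : ℕ) : D.R →+* D.R := (D.σ : D.R →+* D.R) ^ k

private theorem sgm_apply (k : ℕ) (x : D.R) : (D.σ : D.R → D.R)^[k] x = sgm D k x := by
  unfold sgm
  rw [RingHom.coe_pow]
  rfl

private theorem sgm_add (k l : ℕ) (x : D.R) : sgm D (k + l) x = sgm D k (sgm D l x) := by
  rw [← sgm_apply, ← sgm_apply, ← sgm_apply, Function.iterate_add_apply]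

private theorem sgm_n (x : D.R) : sgm D n x = x := by
  rw [← sgm_apply, D.σn]

private theorem MR_apply (x : Fin n → D.R) (i k : Fin n) :
    MR D x i k = sgm D i.val (x (k - i)) * (if k < i then (D.q : D.R) else 1) := by
  unfold MR
  rw [sgm_apply]

private theorem val_sub_ge {k i : Fin n} (h : i ≤ k) : (k - i).val = k.val - i.val :=
  Fin.sub_val_of_le h

private theorem val_sub_lt {k i : Fin n} (h : k < i) : (k - i).val = n + k.val - i.val := by
  have h1 : k.val < i.val := h
  have h2 := i.2
  rw [Fin.sub_def]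
  show (n - i.val + k.val) % n = _
  rw [Nat.mod_eq_of_lt (by omega)]
  omega

private theorem val_add_lt {i j : Fin n} (h : i.val + j.val < n) :
    (i + j).val = i.val + j.val := by
  rw [Fin.val_add, Nat.mod_eq_of_lt h]

private theorem val_add_ge {i j : Fin n} (h : n ≤ i.val + j.val) :
    (i + j).val = i.val + j.val - n := by
  have h1 := i.2
  have h2 := j.2
  rw [Fin.val_add, Nat.mod_eq_sub_mod h, Nat.mod_eq_of_lt (by omega)]

private theorem wts (i j k : Fin n) :
    (if i + j < i then (D.q : D.R) else 1) * (if k < i + j then (D.q : D.R) else 1) =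
    (if k - i < j then (D.q : D.R) else 1) * (if k < i then (D.q : D.R) else 1) := by
  have hi := i.2
  have hj := j.2
  have hk := k.2
  rcases Nat.lt_or_ge (i.val + j.val) n with h1 | h1
  · have ha := val_add_lt h1
    rcases Nat.lt_or_ge k.val i.val with h2 | h2
    · have hl := val_sub_lt (k := k) (i := i) h2
      have e1 : ¬ (i + j < i) := by rw [Fin.lt_def]; omega
      have e2 : k < i + j := by rw [Fin.lt_def]; omega
      have e3 : ¬ (k - i < j) := by rw [Fin.lt_def]; omega
      have e4 : k < i := h2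
      rw [if_neg e1, if_pos e2, if_neg e3, if_pos e4]
    · have hl := val_sub_ge (k := k) (i := i) h2
      have e1 : ¬ (i + j < i) := by rw [Fin.lt_def]; omega
      have e4 : ¬ (k < i) := by rw [Fin.lt_def]; omega
      have e5 : (k < i + j) ↔ (k - i < j) := by rw [Fin.lt_def, Fin.lt_def]; omega
      rw [if_neg e1, if_neg e4, one_mul, mul_one]
      simp only [e5]
  · have ha := val_add_ge h1
    rcases Nat.lt_or_ge k.val i.val with h2 | h2
    · have hl := val_sub_lt (k := k) (i := i) h2
      have e1 : i + j < i := by rw [Fin.lt_def]; omega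
      have e4 : k < i := h2
      have e5 : (k < i + j) ↔ (k - i < j) := by rw [Fin.lt_def, Fin.lt_def]; omega
      rw [if_pos e1, if_pos e4, mul_comm]
      simp only [e5]
    · have hl := val_sub_ge (k := k) (i := i) h2
      have e1 : i + j < i := by rw [Fin.lt_def]; omega
      have e2 : ¬ (k < i + j) := by rw [Fin.lt_def]; omega
      have e3 : k - i < j := by rw [Fin.lt_def]; omega
      have e4 : ¬ (k < i) := by rw [Fin.lt_def]; omega
      rw [if_pos e1, if_neg e2, if_pos e3, if_neg e4]

private theorem sgm_fin_add (i j : Fin n) (x : D.R) :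
    sgm D (i + j).val x = sgm D i.val (sgm D j.val x) := by
  rw [← sgm_add]
  rcases Nat.lt_or_ge (i.val + j.val) n with h1 | h1
  · rw [val_add_lt h1]
  · rw [val_add_ge h1]
    conv_lhs => rw [← sgm_n D x]
    rw [← sgm_add, Nat.sub_add_cancel h1]

theorem MR_add (x y : Fin n → D.R) : MR D (x + y) = MR D x + MR D y := by
  ext i k
  rw [Matrix.add_apply, MR_apply, MR_apply, MR_apply, Pi.add_apply, map_add, add_mul]

private theorem MR_zero : MR D (0 : Fin n → D.R) = 0 := by
  ext i k
  rw [MR_apply, Pi.zero_apply, map_zero, zero_mul, Matrix.zero_apply]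

theorem MR_sum {ι : Type} (s : Finset ι) (x : ι → Fin n → D.R) :
    MR D (∑ a ∈ s, x a) = ∑ a ∈ s, MR D (x a) := by
  classical
  induction s using Finset.induction_on with
  | empty => rw [Finset.sum_empty, Finset.sum_empty, MR_zero]
  | insert a s ha ih => rw [Finset.sum_insert ha, Finset.sum_insert ha, MR_add, ih]

theorem MR_zsmul (z : ℤ) (x : Fin n → D.R) : MR D (z • x) = z • MR D x := by
  ext i k
  rw [Matrix.smul_apply, MR_apply, MR_apply, Pi.smul_apply, map_zsmul, smul_mul_assoc]

theorem MR_mul (hn : 1 ≤ n) (x y : Fin n → D.R) : MR D x * MR D y = MR D (cmul D x y) := by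
  have : NeZero n := ⟨by omega⟩
  ext i k
  rw [Matrix.mul_apply, MR_apply]
  unfold cmul
  rw [map_sum, Finset.sum_mul]
  rw [← Equiv.sum_comp (Equiv.addLeft i) (fun a => MR D x i a * MR D y a k)]
  refine Finset.sum_congr rfl fun j _ => ?_
  simp only [Equiv.coe_addLeft]
  rw [MR_apply, MR_apply, map_mul, map_mul, sgm_apply, ← sgm_fin_add]
  have h1 : i + j - i = j := by rw [add_comm, add_sub_cancel_right]
  have h2 : k - (i + j) = k - i - j := by rw [sub_sub]
  rw [h1, h2]
  have h3 : sgm D i.val (if k - i < j then (D.q : D.R) else 1) =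
      (if k - i < j then (D.q : D.R) else 1) := by
    split_ifs
    · rw [map_natCast]
    · rw [map_one]
  rw [h3]
  have h4 := wts D i j k
  calc sgm D i.val (x j) * (if i + j < i then (D.q : D.R) else 1) *
        (sgm D (i + j).val (y (k - i - j)) * (if k < i + j then (D.q : D.R) else 1))
      = sgm D i.val (x j) * sgm D (i + j).val (y (k - i - j)) *
        ((if i + j < i then (D.q : D.R) else 1) * (if k < i + j then (D.q : D.R) else 1)) := by
          ring
    _ = _ := by rw [h4]; ring

private theorem MR_single_zero (hn : 1 ≤ n) (r : D.R) (hr : D.σ r = r) :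
    MR D (Pi.single (⟨0, by omega⟩ : Fin n) r) = r • (1 : Matrix (Fin n) (Fin n) D.R) := by
  have : NeZero n := ⟨by omega⟩
  have h0 : (⟨0, by omega⟩ : Fin n) = 0 := by
    apply Fin.ext
    simp
  have hs : ∀ k : ℕ, sgm D k r = r := by
    intro k
    induction k with
    | zero => rw [← sgm_apply]; rfl
    | succ k ih =>
      rw [← sgm_apply, Function.iterate_succ_apply, hr, sgm_apply, ih]
  ext i k
  rw [MR_apply, Matrix.smul_apply, Matrix.one_apply, h0]
  by_cases h : i = k
  · subst h
    rw [sub_self, Pi.single_eq_same, hs, if_neg (lt_irrefl _), if_pos rfl, smul_eq_mul]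
  · have h1 : k - i ≠ 0 := fun h2 => h (sub_eq_zero.1 h2).symm
    rw [Pi.single_eq_of_ne h1, map_zero, zero_mul, if_neg h, smul_zero]

theorem MR_one (hn : 1 ≤ n) : ∃ x, MR D x = 1 := by
  refine ⟨Pi.single (⟨0, by omega⟩ : Fin n) 1, ?_⟩
  rw [MR_single_zero D hn 1 (map_one _), one_smul]

private theorem q_ne : (D.q : D.R) ≠ 0 := by
  intro h
  have h1 := congrArg D.ι h
  rw [map_natCast, map_zero] at h1
  exact D.prime.ne_zero (by exact_mod_cast h1)

/-- the matrix `U` of `u` has nonzero determinant -/
theorem MR_U_det (hn : 2 ≤ n) : (MR D (Pi.single (⟨1, by omega⟩ : Fin n) 1)).det ≠ 0 := by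
  have : NeZero n := ⟨by omega⟩
  have h1 : MR D (Pi.single (⟨1, by omega⟩ : Fin n) 1) *
      MR D (Pi.single (⟨n - 1, by omega⟩ : Fin n) 1) =
      (D.q : D.R) • (1 : Matrix (Fin n) (Fin n) D.R) := by
    rw [MR_mul D (by omega), ← MR_single_zero D (by omega) (D.q : D.R) (map_natCast _ _)]
    congr 1
    funext l
    unfold cmul
    rw [Finset.sum_eq_single (⟨1, by omega⟩ : Fin n)]
    · rw [Pi.single_eq_same, one_mul]
      show (D.σ : D.R → D.R)^[1] _ * _ = _
      rw [Function.iterate_one]
      by_cases h : l.val = 0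
      · have h2 : l - (⟨1, by omega⟩ : Fin n) = ⟨n - 1, by omega⟩ := by
          apply Fin.ext
          rw [val_sub_lt (by rw [Fin.lt_def]; show l.val < 1; omega)]
          show n + l.val - 1 = n - 1
          omega
        have h3 : l = ⟨0, by omega⟩ := Fin.ext h
        rw [h2, Pi.single_eq_same, map_one, one_mul, h3, Pi.single_eq_same,
          if_pos (by rw [Fin.lt_def]; exact Nat.zero_lt_one)]
      · have h2 : l - (⟨1, by omega⟩ : Fin n) ≠ ⟨n - 1, by omega⟩ := by
          intro h3
          have h4 := congrArg Fin.val h3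
          rw [val_sub_ge (by rw [Fin.le_def]; show 1 ≤ l.val; omega)] at h4
          have h5 := l.2
          simp only at h4
          omega
        have h3 : l ≠ ⟨0, by omega⟩ := fun h4 => h (congrArg Fin.val h4)
        rw [Pi.single_eq_of_ne h2, map_zero, zero_mul, Pi.single_eq_of_ne h3]
    · intro j _ hj
      rw [Pi.single_eq_of_ne hj, zero_mul, zero_mul]
    · intro h; exact absurd (Finset.mem_univ _) h
  intro h
  have h2 := congrArg Matrix.det h1
  rw [Matrix.det_mul, h, zero_mul, Matrix.det_smul, Matrix.det_one, mul_one] at h2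
  exact pow_ne_zero _ (q_ne D) h2.symm

private theorem MR_map (x : Fin n → D.R) :
    (MR D x).map D.σ = MR D (fun i => D.σ (x i)) := by
  ext i k
  rw [Matrix.map_apply, MR_apply, MR_apply, map_mul]
  congr 1
  · rw [← sgm_apply, ← sgm_apply]
    exact (Function.iterate_succ_apply' _ _ _).symm.trans (Function.iterate_succ_apply _ _ _)
  · split_ifs
    · rw [map_natCast]
    · rw [map_one]

/-- the matrix `U` of `u` conjugates `M` to `σ M` -/
theorem MR_U (hn : 2 ≤ n) (x : Fin n → D.R) :
    MR D (Pi.single (⟨1, by omega⟩ : Fin n) 1) * MR D x =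
      (MR D x).map D.σ * MR D (Pi.single (⟨1, by omega⟩ : Fin n) 1) := by
  have : NeZero n := ⟨by omega⟩
  rw [MR_map, MR_mul D (by omega), MR_mul D (by omega)]
  congr 1
  funext l
  unfold cmul
  rw [Finset.sum_eq_single (⟨1, by omega⟩ : Fin n)]
  · rw [Finset.sum_eq_single (l - (⟨1, by omega⟩ : Fin n))]
    · have h1 : l - (l - (⟨1, by omega⟩ : Fin n)) = ⟨1, by omega⟩ := sub_sub_cancel _ _
      rw [h1, Pi.single_eq_same, one_mul, sgm_apply D _ (1 : D.R), map_one, mul_one]
      show (D.σ : D.R → D.R)^[1] _ * _ = _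
      rw [Function.iterate_one]
      congr 1
      have hl := l.2
      by_cases h : l.val = 0
      · have h2 : (l - (⟨1, by omega⟩ : Fin n)).val = n - 1 := by
          rw [val_sub_lt (by rw [Fin.lt_def]; show l.val < 1; omega)]
          show n + l.val - 1 = n - 1
          omega
        rw [if_pos (by rw [Fin.lt_def]; show l.val < 1; omega),
          if_pos (by rw [Fin.lt_def, h2]; omega)]
      · have h2 : (l - (⟨1, by omega⟩ : Fin n)).val = l.val - 1 := by
          rw [val_sub_ge (by rw [Fin.le_def]; show 1 ≤ l.val; omega)]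
        rw [if_neg (by rw [Fin.lt_def]; show ¬ (l.val < 1); omega),
          if_neg (by rw [Fin.lt_def, h2]; omega)]
    · intro j _ hj
      have h1 : l - j ≠ (⟨1, by omega⟩ : Fin n) := by
        intro h2
        apply hj
        rw [← h2, sub_sub_cancel]
      rw [Pi.single_eq_of_ne h1, sgm_apply, map_zero, mul_zero, zero_mul]
    · intro h; exact absurd (Finset.mem_univ _) h
  · intro j _ hj
    rw [Pi.single_eq_of_ne hj, zero_mul, zero_mul]
  · intro h; exact absurd (Finset.mem_univ _) h

theorem MR_inj (hn : 1 ≤ n) {x y : Fin n → D.R} (h : MR D x = MR D y) : x = y := by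
  have : NeZero n := ⟨by omega⟩
  funext k
  have h1 := congrFun (congrFun h 0) k
  rw [MR_apply, MR_apply, sub_zero] at h1
  have h2 : ¬ (k < 0) := by
    rw [Fin.lt_def]
    simp
  rw [if_neg h2, mul_one, mul_one, Fin.val_zero, ← sgm_apply, ← sgm_apply] at h1
  exact h1

end Pool.Agent.Work.MP_20070e_gt.X
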