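import Mathlib
import Pool.Agent.Work.MP_20070e_gt.X.LMat

/-!
# X/LDet (M): the reduced norm and the characteristic polynomial are rational; adjugates

* `det_fixed`: from `MR_U`: `det U · det M = σ(det M) · det U` (`RingHom.map_det`), `det U ≠ 0` in a domain: `σ (det M) = det M`; `D.fix`.
* `charpoly_int`: over `R[X]`: `C(U) (X - M) = (X - σM) C(U)`, so `charpoly M = charpoly (M.map σ) = (charpoly M).map σ` (`Matrix.charpoly_map`; cancel `C (det U)` in the domain `R[X]`), so every coefficient is fixed by `σ`; `D.fix`.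
* `adj_mem`: `M = MR x`, `c_k ∈ ℤ` the coefficients of `charpoly M`. Cayley-Hamilton (`Matrix.aeval_self_charpoly`): `∑_{k ≤ n} c_k M^k = 0`, `c_0 = (-1)^n det M`. With `S = ∑_{k=1}^{n} c_k M^{k-1}`: `M S = -c_0`. Multiply by `adjugate M`: `det M • S = - c_0 • adjugate M =
  (-1)^{n+1} det M • adjugate M`; if `det M ≠ 0` then `adjugate M = (-1)^{n+1} S`, an integral combination of powers of `M`, and powers of `M` are `MR` of something (`MR_mul`, `MR_one`, `MR_sum`, `MR_zsmul`). If `det M = 0`, then `x = 0` by the hypothesis `hne` (module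
  `LNe`), `M = 0`, and `adjugate 0 = 0` (`n ≥ 2`: `Matrix.adjugate_zero`).
-/

set_option autoImplicit false

open Matrix

namespace Pool.Agent.Work.MP_20070e_gt.X

variable {n : ℕ} (D : CycRing n)

theorem det_fixed (hn : 2 ≤ n) (x : Fin n → D.R) : ∃ z : ℤ, (MR D x).det = (z : D.R) := by
  apply D.fix
  have h := congrArg Matrix.det (MR_U D hn x)
  rw [det_mul, det_mul, mul_comm] at h
  have h2 := mul_right_cancel₀ (MR_U_det D hn) h
  exact (RingHom.map_det (D.σ : D.R →+* D.R) (MR D x)).trans h2.symm

theorem charpoly_int (hn : 2 ≤ n) (x : Fin n → D.R) (k : ℕ) :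
    ∃ z : ℤ, (MR D x).charpoly.coeff k = (z : D.R) := by
  apply D.fix
  set U := MR D (Pi.single (⟨1, by omega⟩ : Fin n) 1) with hU
  set M := MR D x with hM
  have hUM : U * M = M.map D.σ * U := MR_U D hn x
  have h1 : U.map (Polynomial.C : D.R → Polynomial D.R) * charmatrix M =
      charmatrix (M.map D.σ) * U.map (Polynomial.C : D.R → Polynomial D.R) := by
    have h2 : U.map (Polynomial.C : D.R → Polynomial D.R) * M.map (Polynomial.C : D.R → Polynomial D.R) =
        (M.map D.σ).map (Polynomial.C : D.R → Polynomial D.R) *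
          U.map (Polynomial.C : D.R → Polynomial D.R) := by
      have h3 := congrArg (fun A : Matrix (Fin n) (Fin n) D.R =>
        (Polynomial.C : D.R →+* Polynomial D.R).mapMatrix A) hUM
      simp only [map_mul] at h3
      exact h3
    unfold charmatrix
    rw [mul_sub, sub_mul]
    congr 1
    exact (Matrix.scalar_commute (Polynomial.X : Polynomial D.R) (fun r => Commute.all _ _) _).eq.symm
  have h2 := congrArg Matrix.det h1
  rw [det_mul, det_mul, mul_comm] at h2
  have hUd : (U.map (Polynomial.C : D.R → Polynomial D.R)).det ≠ 0 := by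
    have h3 := RingHom.map_det (Polynomial.C : D.R →+* Polynomial D.R) U
    have h4 : (U.map (Polynomial.C : D.R → Polynomial D.R)).det = Polynomial.C U.det := h3.symm
    rw [h4]
    intro h5
    exact MR_U_det D hn (Polynomial.C_eq_zero.1 h5)
  have h3 := mul_right_cancel₀ hUd h2
  have h4 : (M.map D.σ).charpoly = M.charpoly.map (D.σ : D.R →+* D.R) :=
    Matrix.charpoly_map M (D.σ : D.R →+* D.R)
  have h5 : M.charpoly = M.charpoly.map (D.σ : D.R →+* D.R) := by
    rw [← h4]
    exact h3
  have h6 := congrArg (fun P : Polynomial D.R => P.coeff k) h5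
  simp only [Polynomial.coeff_map] at h6
  exact h6.symm

private theorem MR_zero' : MR D 0 = 0 := by
  have h := MR_zsmul D 0 0
  rwa [zero_smul, zero_smul] at h

private theorem MR_pow (hn : 1 ≤ n) (x : Fin n → D.R) (k : ℕ) : ∃ y, MR D x ^ k = MR D y := by
  induction k with
  | zero =>
    obtain ⟨y, hy⟩ := MR_one D hn
    exact ⟨y, by rw [pow_zero, hy]⟩
  | succ k ih =>
    obtain ⟨y, hy⟩ := ih
    exact ⟨cmul D y x, by rw [pow_succ, hy, MR_mul D hn]⟩

theorem adj_mem (hn : 2 ≤ n) (hne : ∀ x : Fin n → D.R, x ≠ 0 → (MR D x).det ≠ 0)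
    (x : Fin n → D.R) : ∃ y, (MR D x).adjugate = MR D y := by
  have hF : Nontrivial (Fin n) := Fin.nontrivial_iff_two_le.2 hn
  by_cases hx : x = 0
  · refine ⟨0, ?_⟩
    rw [hx, MR_zero', adjugate_zero]
  · have hd := hne x hx
    set M := MR D x with hM
    set P := M.charpoly with hP
    have hCH : Polynomial.aeval M P = 0 := Matrix.aeval_self_charpoly M
    set S := Polynomial.aeval M P.divX with hS
    have h1 : S * M + algebraMap D.R _ (P.coeff 0) = 0 := by
      rw [← hCH]
      conv_rhs => rw [← Polynomial.divX_mul_X_add P]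
      rw [map_add, map_mul, Polynomial.aeval_X, Polynomial.aeval_C]
    have hc0 : M.det = (-1) ^ n * P.coeff 0 := by
      have := Matrix.det_eq_sign_charpoly_coeff M
      rwa [Fintype.card_fin] at this
    have hc1 : P.coeff 0 = (-1) ^ n * M.det := by
      rw [hc0, ← mul_assoc, ← mul_pow]
      norm_num
    have h2 : M.det • S = -(P.coeff 0 • M.adjugate) := by
      have h3 := congrArg (fun A => A * M.adjugate) h1
      simp only [add_mul, zero_mul] at h3
      rw [mul_assoc, mul_adjugate, Matrix.mul_smul, mul_one, ← Algebra.smul_def] at h3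
      exact eq_neg_of_add_eq_zero_left h3
    have h3 : M.adjugate = (-((-1 : ℤ) ^ n)) • S := by
      have h4 : M.det • M.adjugate = M.det • ((-((-1 : ℤ) ^ n)) • S) := by
        rw [smul_comm, h2, hc1]
        have h5 : ((-1 : D.R) ^ n * M.det) • M.adjugate = ((-1 : ℤ) ^ n) • (M.det • M.adjugate) := by
          rw [mul_smul, ← Int.cast_smul_eq_zsmul D.R]
          push_cast
          rfl
        rw [h5, smul_neg, neg_smul, neg_neg, smul_smul, ← mul_pow]
        norm_num
      have h6 : Function.Injective (fun A : Matrix (Fin n) (Fin n) D.R => M.det • A) := by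
        intro A B hAB
        ext i j
        have := congrFun (congrFun hAB i) j
        exact mul_left_cancel₀ hd this
      exact h6 h4
    obtain ⟨y, hy⟩ : ∃ y, S = MR D y := by
      have h4 : ∀ k, ∃ (z : ℤ) (y : Fin n → D.R), P.divX.coeff k • M ^ k = MR D (z • y) := by
        intro k
        obtain ⟨z, hz⟩ := charpoly_int D hn x (k + 1)
        obtain ⟨y, hy⟩ := MR_pow D (by omega) x k
        refine ⟨z, y, ?_⟩
        rw [Polynomial.coeff_divX, MR_zsmul, ← hy, ← Int.cast_smul_eq_zsmul D.R, ← hz]
      choose z y hzy using h4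
      refine ⟨∑ k ∈ Finset.range (P.divX.natDegree + 1), z k • y k, ?_⟩
      rw [hS, Polynomial.aeval_eq_sum_range, MR_sum]
      exact Finset.sum_congr rfl fun k _ => hzy k
    exact ⟨(-((-1 : ℤ) ^ n)) • y, by rw [h3, hy, MR_zsmul]⟩

end Pool.Agent.Work.MP_20070e_gt.X
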