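import Mathlib
import Pool.Agent.Work.MP_20070e_gt.X.LDefs

/-!
# X/LInd (M): the basis of the order is linearly independent over `ℝ`

The ring homomorphisms `f_i = ι ∘ σ^i : R → ℝ`, `0 ≤ i < n`, are distinct (`D.dist`: if `f_i = f_j`, `i < j`, then `σ^{j-i} = 1` as `ι` and `σ^i` are injective), so they are linearly independent over `ℝ` (Dedekind: `linearIndependent_monoidHom`). Let `T i l = f_i (b_l)`
(`n × n` real matrix). If `∑_i a_i T i l = 0` for all `l`, then `∑_i a_i f_i(x) = 0` for all `x ∈ R` (`b` spans `R` over `ℤ`), so `a = 0`. So `T` is invertible, and `∑_l c_l T i l = 0` for all `i` implies `c = 0`.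

`∑_{(j,l)} c_{(j,l)} BB (j,l) = 0`: the entry `(i, i + j)` is `(1 or q) ∑_l c_{(j,l)} f_i(b_l)` (only the terms with the same `j = k - i` contribute), `q ≠ 0`. So for every `j`: `∑_l c_{(j,l)} T i l = 0` for all `i`, and `c = 0`.
-/

set_option autoImplicit false

open Matrix

namespace Pool.Agent.Work.MP_20070e_gt.X

variable {n : ℕ} (D : CycRing n)

/-- the iterates of `σ` as ring homomorphisms -/
private noncomputable def sg (k : ℕ) : D.R →+* D.R := (D.σ : D.R →+* D.R) ^ k

private theorem sg_apply (k : ℕ) (x : D.R) : sg D k x = (D.σ : D.R → D.R)^[k] x := by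
  unfold sg
  rw [RingHom.coe_pow]
  rfl

private noncomputable def ff (k : ℕ) : D.R →+* ℝ := D.ι.comp (sg D k)

private theorem ff_apply (k : ℕ) (x : D.R) : ff D k x = D.ι ((D.σ : D.R → D.R)^[k] x) := by
  unfold ff
  rw [RingHom.comp_apply, sg_apply]

private theorem iter_inj (k : ℕ) : Function.Injective ((D.σ : D.R → D.R)^[k]) :=
  (D.σ.injective).iterate k

private theorem ff_ne {i j : ℕ} (hij : i < j) (hj : j < n) : ff D i ≠ ff D j := by
  intro h
  obtain ⟨x, hx⟩ := D.dist (j - i) (by omega) (by omega)
  apply hx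
  have h1 : ff D i x = ff D j x := by rw [h]
  rw [ff_apply, ff_apply] at h1
  have h2 := D.ι_inj h1
  have h3 : (D.σ : D.R → D.R)^[j] x = (D.σ : D.R → D.R)^[i] ((D.σ : D.R → D.R)^[j - i] x) := by
    rw [← Function.iterate_add_apply]
    congr 2
    omega
  rw [h3] at h2
  exact (iter_inj D i h2).symm

private theorem rows_zero (a : Fin n → ℝ) (h : ∀ l, ∑ i : Fin n, a i * ff D i.val (D.b l) = 0) :
    a = 0 := by
  have h1 : ∀ x : D.R, ∑ i : Fin n, a i * ff D i.val x = 0 := by
    intro x
    rw [← D.b.sum_repr x]
    simp only [map_sum, map_zsmul]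
    have : ∀ i : Fin n, a i * ∑ l, (D.b.repr x) l • ff D i.val (D.b l)
        = ∑ l, ((D.b.repr x) l : ℝ) * (a i * ff D i.val (D.b l)) := by
      intro i
      rw [Finset.mul_sum]
      refine Finset.sum_congr rfl fun l _ => ?_
      rw [zsmul_eq_mul]
      ring
    rw [Finset.sum_congr rfl fun i _ => this i, Finset.sum_comm]
    refine Finset.sum_eq_zero fun l _ => ?_
    rw [← Finset.mul_sum, h l, mul_zero]
  have hinj : Function.Injective (fun i : Fin n => ((ff D i.val : D.R →+* ℝ) : D.R →* ℝ)) := by
    intro i j hij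
    have h2 : ff D i.val = ff D j.val := by
      ext x
      have := DFunLike.congr_fun hij x
      exact this
    rcases lt_trichotomy i.val j.val with h3 | h3 | h3
    · exact absurd h2 (ff_ne D h3 j.2)
    · exact Fin.ext h3
    · exact absurd h2.symm (ff_ne D h3 i.2)
  have h4 := (linearIndependent_monoidHom D.R ℝ).comp _ hinj
  rw [Fintype.linearIndependent_iff] at h4
  funext i
  refine h4 a ?_ i
  funext x
  simpa [Finset.sum_apply, Pi.smul_apply, smul_eq_mul] using h1 x

private theorem cols_zero (c : Fin n → ℝ) (h : ∀ i : Fin n, ∑ l, c l * ff D i.val (D.b l) = 0) :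
    c = 0 := by
  let T : Matrix (Fin n) (Fin n) ℝ := fun i l => ff D i.val (D.b l)
  have h1 : LinearIndependent ℝ T.row := by
    rw [Fintype.linearIndependent_iff]
    intro a ha i
    have h2 : a = 0 := by
      apply rows_zero D a
      intro l
      have := congrFun ha l
      simpa [Finset.sum_apply, Pi.smul_apply, smul_eq_mul, T, Matrix.row] using this
    rw [h2]; rfl
  have h3 : IsUnit T := Matrix.linearIndependent_rows_iff_isUnit.1 h1
  have h4 : T.mulVec c = 0 := by
    funext i
    rw [Pi.zero_apply, ← h i]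
    simp only [Matrix.mulVec, dotProduct, T]
    exact Finset.sum_congr rfl fun l _ => mul_comm _ _
  exact (Matrix.mulVec_injective_iff_isUnit.2 h3) (by rw [h4, Matrix.mulVec_zero])

private theorem BB_apply (j l i k : Fin n) :
    BB D (j, l) i k = if k - i = j then
      ff D i.val (D.b l) * D.ι (if k < i then (D.q : D.R) else 1) else 0 := by
  unfold BB MRr MR
  rw [Matrix.map_apply, map_mul]
  by_cases h : k - i = j
  · rw [if_pos h, h, Pi.single_eq_same, ff_apply]
  · rw [if_neg h, Pi.single_eq_of_ne h, ← sg_apply, map_zero, map_zero, zero_mul]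

private theorem wt_ne (i k : Fin n) : D.ι (if k < i then (D.q : D.R) else 1) ≠ 0 := by
  split_ifs
  · rw [map_natCast]
    exact_mod_cast D.prime.ne_zero
  · rw [map_one]
    exact one_ne_zero

theorem BB_indep (hn : 1 ≤ n) : LinearIndependent ℝ (BB D) := by
  have : NeZero n := ⟨by omega⟩
  rw [Fintype.linearIndependent_iff]
  intro c hc
  have key : ∀ j : Fin n, (fun l => c (j, l)) = 0 := by
    intro j
    apply cols_zero D
    intro i
    have h1 := congrFun (congrFun hc i) (i + j)
    rw [Matrix.zero_apply] at h1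
    rw [Fintype.sum_prod_type] at h1
    simp only [Matrix.sum_apply, Matrix.smul_apply, BB_apply, smul_eq_mul] at h1
    rw [Finset.sum_eq_single j] at h1
    · have h2 : i + j - i = j := by
        rw [add_comm, add_sub_cancel_right]
      simp only [h2, if_true] at h1
      have h3 : (∑ l, c (j, l) * ff D i.val (D.b l)) *
          D.ι (if i + j < i then (D.q : D.R) else 1) = 0 := by
        rw [Finset.sum_mul, ← h1]
        exact Finset.sum_congr rfl fun l _ => by ring
      exact (mul_eq_zero.1 h3).resolve_right (wt_ne D i (i + j))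
    · intro j' _ hj'
      refine Finset.sum_eq_zero fun l _ => ?_
      rw [if_neg, mul_zero]
      rw [add_comm, add_sub_cancel_right]
      exact hj'.symm
    · intro h; exact absurd (Finset.mem_univ _) h
  rintro ⟨j, l⟩
  exact congrFun (key j) l

/-- integer combinations of the basis -/
theorem combn_BB (c : Fin n × Fin n → ℤ) :
    combn (BB D) c = MRr D (fun j => ∑ l, c (j, l) • D.b l) := by
  ext i k
  unfold combn
  rw [Fintype.sum_prod_type]
  simp only [Matrix.sum_apply, Matrix.smul_apply, BB_apply, smul_eq_mul]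
  rw [Finset.sum_eq_single (k - i)]
  · simp only [if_true]
    unfold MRr MR
    rw [Matrix.map_apply, map_mul, ← ff_apply, map_sum, Finset.sum_mul]
    refine Finset.sum_congr rfl fun l _ => ?_
    rw [map_zsmul, zsmul_eq_mul]
    ring
  · intro j' _ hj'
    refine Finset.sum_eq_zero fun l _ => ?_
    rw [if_neg (fun h => hj' h.symm), mul_zero]
  · intro h; exact absurd (Finset.mem_univ _) h

end Pool.Agent.Work.MP_20070e_gt.X
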