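import Mathlib
import Pool.Agent.Work.MP_20070e_gt.X.Defs
import Pool.Agent.Work.MP_20070e_gt.L2

/-!
# X/LMink (S): Minkowski's theorem for `n × n` matrices

Copy of `minkProp_of_indep` in `../L2.lean` (which is the case `n = 3` with the index `Fin 9`; `exists_int_of_det` there is general). Here the index type is `Fin n × Fin n`, which makes it simpler: `A q p = B p q.1 q.2`, `G = g ⊗ₖ 1`, `det G = 1`. For `n = 0` there is no `c ≠ 0`,
so `1 ≤ n` is assumed.
-/

set_option autoImplicit false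

open Matrix

namespace Pool.Agent.Work.MP_20070e_gt.X

open Kronecker in
theorem mink {n : ℕ} (hn : 1 ≤ n) (B : Fin n × Fin n → Mat n) (hB : LinearIndependent ℝ B) :
    ∃ R : ℝ, 0 < R ∧ ∀ g : SLn n, ∃ c : Fin n × Fin n → ℤ, c ≠ 0 ∧
      ∀ i j, |(g.1 * combn B c) i j| ≤ R := by
  let A : Matrix (Fin n × Fin n) (Fin n × Fin n) ℝ := fun q p => B p q.1 q.2
  have hA : A.det ≠ 0 := by
    have h1 : LinearIndependent ℝ A.col := by
      let T : Matrix (Fin n) (Fin n) ℝ ≃ₗ[ℝ] (Fin n × Fin n → ℝ) :=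
        (LinearEquiv.curry ℝ ℝ (Fin n) (Fin n)).symm
      have h3 := hB.map' (T : Matrix (Fin n) (Fin n) ℝ →ₗ[ℝ] (Fin n × Fin n → ℝ)) T.ker
      exact h3
    rw [linearIndependent_cols_iff_isUnit, isUnit_iff_isUnit_det] at h1
    exact h1.ne_zero
  have hAp : 0 < |A.det| := abs_pos.2 hA
  have hcard : Fintype.card (Fin n × Fin n) ≠ 0 := by
    rw [Fintype.card_prod, Fintype.card_fin]
    exact Nat.mul_ne_zero (by omega) (by omega)
  refine ⟨|A.det| + 1, by positivity, fun g => ?_⟩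
  let G : Matrix (Fin n × Fin n) (Fin n × Fin n) ℝ := g.1 ⊗ₖ (1 : Matrix (Fin n) (Fin n) ℝ)
  have hG : G.det = 1 := by
    show (g.1 ⊗ₖ (1 : Matrix (Fin n) (Fin n) ℝ)).det = 1
    rw [det_kronecker, g.2, det_one, one_pow, one_mul]
  have hGA : (G * A).det = A.det := by rw [det_mul, hG, one_mul]
  obtain ⟨c, hc0, hc⟩ := exists_int_of_det (G * A) (by rw [hGA]; exact hA) (|A.det| + 1) (by positivity) (by
    rw [hGA]
    have h1 : (1:ℝ) ≤ |A.det| + 1 := by linarith
    calc |A.det| < |A.det| + 1 := by linarith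
      _ ≤ (|A.det| + 1) ^ Fintype.card (Fin n × Fin n) := le_self_pow₀ h1 hcard)
  refine ⟨c, hc0, ?_⟩
  intro i j
  have h1 := hc (i, j)
  have h2 : ((G * A).mulVec (fun p => (c p : ℝ))) (i, j) = (g.1 * combn B c) i j := by
    rw [← mulVec_mulVec]
    have h3 : A.mulVec (fun p => (c p : ℝ)) = fun q => (combn B c) q.1 q.2 := by
      funext q
      simp only [mulVec, dotProduct, combn, Matrix.sum_apply, Matrix.smul_apply, smul_eq_mul]
      refine Finset.sum_congr rfl (fun p _ => ?_)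
      simp only [A]
      ring
    rw [h3]
    simp only [mulVec, dotProduct, G, kroneckerMap_apply, Matrix.mul_apply, Fintype.sum_prod_type,
      Matrix.one_apply]
    refine Finset.sum_congr rfl (fun l _ => ?_)
    simp
  rw [← h2]
  exact h1

end Pool.Agent.Work.MP_20070e_gt.X
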