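import Mathlib
import Pool.Agent.Work.MP_20070e_gt.X.LMink
import Pool.Agent.Work.MP_20070e_gt.X.El
import Pool.Agent.Work.MP_20070e_gt.L3

/-!
# X/LLat (M-L): the lattices `Γ_k = {g ∈ SL_n(ℝ) : g = 1 + 2^k c, c ∈ order}` and a sign

This generalises `../L3.lean` (`n = 3`, index `Fin 9`, `k = 1`): copy its lemmas.

(1) `Γ_k` (`k ≥ 1`) is a subgroup (inverse: `g⁻¹ = adjugate g ∈ order`, and `g g⁻¹ = 1` gives `g⁻¹ = 1 - 2^k (c g⁻¹)`).
(2) It is discrete: `|det (h - 1)| < 1` is a neighbourhood of `1`; `γ - 1 = 2^k c` has integral determinant, so it is `0` and `c = 0` (`n ≥ 1`).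
(3) Cocompact: as `GamO_cocompact` with `mink`, with the modulus `m = 2^k * C!` instead of `2 * C!`, `C = ⌈n! R^n⌉`; keys `(det, c mod m)`. `det_smul` gives powers `n` instead of `3`.
(4) `Γ_1 ≠ ⊥`: otherwise `SL_n(ℝ)` would be compact (contained in the compact set of (3)); but for `n = m + 1 ≥ 2` the elements `aa m s`, `s → ∞`, are unbounded (entry `(0,0)` is `e^{m s}`).
(5) Let `1 ≠ γ ∈ Γ_1`, `γ = 1 + 2 c`, `c ≠ 0`. Write `c = 2^j c'` with `c'_p` odd for some index `p` (take `j` maximal with `2^j ∣ c_i` for all `i`). `γ = 1 + 2^{j+1} c' ∈ Γ := Γ_{j+1}`. `χ (1 + 2^{j+1} c) = (-1)^{c_p}` is well defined (independence: `det_ne`) and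
multiplicative: `(1 + 2^k c)(1 + 2^k d) = 1 + 2^k (c + d + 2^k e)`, `k ≥ 1`. `χ γ = -1`.
-/

set_option autoImplicit false

open Matrix Topology

namespace Pool.Agent.Work.MP_20070e_gt.X

section comb

variable {n : ℕ} (B : Fin n × Fin n → Mat n)

private lemma combn_add (c d : Fin n × Fin n → ℤ) : combn B (c + d) = combn B c + combn B d := by
  simp [combn, add_smul, Finset.sum_add_distrib]

private lemma combn_zero : combn B 0 = 0 := by
  simp [combn]

private lemma combn_smul (z : ℤ) (c : Fin n × Fin n → ℤ) :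
    combn B (z • c) = (z : ℝ) • combn B c := by
  simp [combn, Finset.smul_sum, mul_smul]

private lemma combn_neg (c : Fin n × Fin n → ℤ) : combn B (-c) = - combn B c := by
  simp [combn]

private lemma combn_sub (c d : Fin n × Fin n → ℤ) : combn B (c - d) = combn B c - combn B d := by
  rw [sub_eq_add_neg, combn_add, combn_neg, ← sub_eq_add_neg]

end comb

section lattice

variable {n : ℕ} (D : OrdN n)

private lemma combn_inj [Nonempty (Fin n)] {c d : Fin n × Fin n → ℤ}
    (h : combn D.B c = combn D.B d) : c = d := by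
  by_contra hne
  have h1 : c - d ≠ 0 := sub_ne_zero.2 hne
  apply D.det_ne _ h1
  rw [combn_sub, h, sub_self, det_zero]

private lemma M_smul_inj [Nonempty (Fin n)] {M : ℕ} (hM : M ≠ 0) {c d : Fin n × Fin n → ℤ}
    (h : (1 : Mat n) + (M : ℝ) • combn D.B c = 1 + (M : ℝ) • combn D.B d) : c = d := by
  apply combn_inj D
  have h1 := add_left_cancel h
  exact smul_right_injective _ (Nat.cast_ne_zero.2 hM) h1

/-- the congruence subgroup of the order -/
private def Gam (M : ℕ) : Subgroup (SLn n) where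
  carrier := {g | ∃ c, g.1 = 1 + (M : ℝ) • combn D.B c}
  mul_mem' := by
    rintro g h ⟨c, hc⟩ ⟨d, hd⟩
    obtain ⟨e, he⟩ := D.mul c d
    refine ⟨c + d + (M : ℤ) • e, ?_⟩
    have h0 : (g * h : SLn n).1 = g.1 * h.1 := rfl
    rw [h0, hc, hd, combn_add, combn_add, combn_smul, ← he]
    simp only [mul_add, add_mul, one_mul, mul_one, smul_mul_assoc, mul_smul_comm, smul_add,
      smul_smul]
    push_cast
    abel
  one_mem' := ⟨0, by rw [combn_zero, smul_zero, add_zero]; rfl⟩
  inv_mem' := by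
    rintro g ⟨c, hc⟩
    obtain ⟨o, ho⟩ := D.one
    obtain ⟨e, he⟩ := D.adj (o + (M : ℤ) • c)
    obtain ⟨f, hf⟩ := D.mul c e
    have h1 : (g⁻¹).1 = combn D.B e := by
      have h0 : (g⁻¹).1 = adjugate g.1 := rfl
      rw [h0, ← he, combn_add, combn_smul, ho, hc]
      norm_num
    have h2 : g.1 * (g⁻¹).1 = 1 := congrArg Subtype.val (mul_inv_cancel g)
    refine ⟨-f, ?_⟩
    rw [h1, hc, add_mul, one_mul, smul_mul_assoc, hf] at h2
    rw [h1, combn_neg, smul_neg, ← h2]
    abel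

private lemma Gam_discrete (M : ℕ) : IsDiscreteSubgroup (Gam D M) := by
  refine ⟨{h | |(h.1 - 1).det| < 1 ∨ n = 0}, ?_, ?_⟩
  · have hc : Continuous (fun h : SLn n => |(h.1 - 1).det|) := by
      have h1 : Continuous (fun h : SLn n => h.1) := continuous_subtype_val
      exact ((h1.sub continuous_const).matrix_det).abs
    rcases Nat.eq_zero_or_pos n with h0 | h0
    · have : {h : SLn n | |(h.1 - 1).det| < 1 ∨ n = 0} = Set.univ := by
        ext h
        simp [h0]
      rw [this]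
      exact Filter.univ_mem
    · have h1 : {h : SLn n | |(h.1 - 1).det| < 1} ∈ 𝓝 (1 : SLn n) := by
        refine (isOpen_lt hc continuous_const).mem_nhds ?_
        have : Nonempty (Fin n) := ⟨⟨0, h0⟩⟩
        simp
      exact Filter.mem_of_superset h1 fun x hx => Or.inl hx
  · rintro γ ⟨c, hc⟩ hγ
    rcases hγ with hγ | hγ
    · have h1 : γ.1 - 1 = combn D.B ((M : ℤ) • c) := by
        rw [hc, combn_smul, add_sub_cancel_left]
        norm_num
      rw [h1] at hγ
      obtain ⟨z, hz⟩ := D.det_int ((M : ℤ) • c)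
      rw [hz] at hγ
      have h2 : z = 0 := by
        have : |z| < 1 := by exact_mod_cast hγ
        exact Int.abs_lt_one_iff.1 this
      have h3 : (M : ℤ) • c = 0 := by
        by_contra hne
        apply D.det_ne _ hne
        rw [hz, h2, Int.cast_zero]
      rw [h3, combn_zero, sub_eq_zero] at h1
      exact Subtype.ext h1
    · subst hγ
      exact Subtype.ext (Subsingleton.elim _ _)

end lattice

private theorem Gam_cocompact {N : ℕ} (D : OrdN (N + 1)) {M : ℕ} (hM0 : M ≠ 0) :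
    ∃ K : Set (SLn (N + 1)), IsCompact K ∧ ∀ g : SLn (N + 1), ∃ γ ∈ Gam D M, g * γ ∈ K := by
  classical
  obtain ⟨R, hR0, hR⟩ := mink (Nat.succ_le_succ (Nat.zero_le N)) D.B D.indep
  set C : ℕ := ⌈(Nat.factorial (N + 1) : ℝ) * R ^ (N + 1)⌉₊ with hC
  set m : ℕ := M * C.factorial with hm
  have hm0 : m ≠ 0 := by positivity
  have : NeZero m := ⟨hm0⟩
  let P : ℤ × (Fin (N + 1) × Fin (N + 1) → ZMod m) → (Fin (N + 1) × Fin (N + 1) → ℤ) → Prop :=
    fun k c => (combn D.B c).det = (k.1 : ℝ) ∧ ∀ i, ((c i : ℤ) : ZMod m) = k.2 i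
  let rep : ℤ × (Fin (N + 1) × Fin (N + 1) → ZMod m) → (Fin (N + 1) × Fin (N + 1) → ℤ) :=
    fun k => if h : ∃ c, P k c then h.choose else 0
  have hrep : ∀ k c, P k c → P k (rep k) := by
    intro k c h
    have h' : ∃ c, P k c := ⟨c, h⟩
    simp only [rep, dif_pos h']
    exact h'.choose_spec
  let Y : ℤ × (Fin (N + 1) × Fin (N + 1) → ZMod m) → Mat (N + 1) := fun k =>
    ((k.1 : ℝ))⁻¹ • adjugate (combn D.B (rep k))
  let keys : Finset (ℤ × (Fin (N + 1) × Fin (N + 1) → ZMod m)) :=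
    Finset.Icc (-(C:ℤ)) C ×ˢ Finset.univ
  let E : ℝ := ∑ k ∈ keys, ∑ j, ∑ l, |Y k l j|
  refine ⟨{h | ∀ i j, |h.1 i j| ≤ R * E}, compact_box _, fun g => ?_⟩
  obtain ⟨c, hc0, hc⟩ := hR g
  obtain ⟨z, hz⟩ := D.det_int c
  have hz0 : z ≠ 0 := by
    rintro rfl
    exact D.det_ne c hc0 (by rw [hz, Int.cast_zero])
  have hzR : (z : ℝ) ≠ 0 := Int.cast_ne_zero.2 hz0
  have hzC : |z| ≤ C := by
    have h1 : |(g.1 * combn D.B c).det| ≤ (Nat.factorial (N + 1) : ℝ) * R ^ (N + 1) := by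
      have := det_le (A := g.1 * combn D.B c) (abv := AbsoluteValue.abs) (x := R) hc
      simpa using this
    rw [det_mul, g.2, one_mul, hz] at h1
    have h2 : ((|z| : ℤ) : ℝ) ≤ (C : ℝ) := by
      push_cast
      exact h1.trans (Nat.le_ceil _)
    exact_mod_cast h2
  let k : ℤ × (Fin (N + 1) × Fin (N + 1) → ZMod m) := (z, fun i => ((c i : ℤ) : ZMod m))
  have hk : k ∈ keys := by
    rw [Finset.mem_product]
    exact ⟨Finset.mem_Icc.2 (abs_le.1 hzC), Finset.mem_univ _⟩
  have hPc : P k c := ⟨hz, fun i => rfl⟩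
  obtain ⟨hd1, hd2⟩ := hrep k c hPc
  set d := rep k with hd
  have hw : ∀ i, ∃ w : ℤ, c i = d i + m * w := by
    intro i
    have h1 : ((d i : ℤ) : ZMod m) = ((c i : ℤ) : ZMod m) := hd2 i
    rw [ZMod.intCast_eq_intCast_iff] at h1
    obtain ⟨w, hw⟩ := h1.dvd
    exact ⟨w, by linarith⟩
  choose w hw using hw
  have hcd : combn D.B c = combn D.B d + (m : ℝ) • combn D.B w := by
    have h1 : c = d + (m : ℤ) • w := by
      funext i
      rw [Pi.add_apply, Pi.smul_apply, smul_eq_mul, hw i]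
    conv_lhs => rw [h1]
    rw [combn_add, combn_smul]
    push_cast
    rfl
  obtain ⟨e, he⟩ := D.adj d
  obtain ⟨f, hf⟩ := D.mul w e
  obtain ⟨t, ht⟩ : ∃ t : ℤ, (C.factorial : ℤ) = z * t := by
    have h1 : z.natAbs ∣ C.factorial := by
      apply Nat.dvd_factorial
      · exact Int.natAbs_pos.2 hz0
      · have : (z.natAbs : ℤ) ≤ C := by
          rw [Int.natCast_natAbs]
          exact hzC
        exact_mod_cast this
    have h2 : z ∣ (C.factorial : ℤ) := by
      rw [← Int.natAbs_dvd]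
      exact_mod_cast h1
    exact h2
  have hX : combn D.B c * Y k = 1 + (M : ℝ) • combn D.B (t • f) := by
    have h1 : Y k = (z : ℝ)⁻¹ • adjugate (combn D.B d) := rfl
    have h2 : combn D.B d * adjugate (combn D.B d) = (z : ℝ) • (1 : Mat (N + 1)) := by
      rw [mul_adjugate, hd1]
    rw [h1, mul_smul_comm, hcd, add_mul, h2, smul_mul_assoc, he, hf, smul_add, smul_smul, smul_smul,
      inv_mul_cancel₀ hzR, one_smul, combn_smul, smul_smul]
    congr 2
    have h3 : (m : ℝ) = M * (z * t) := by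
      have : ((C.factorial : ℤ) : ℝ) = z * t := by
        rw [ht]
        push_cast
        rfl
      rw [hm]
      push_cast at this ⊢
      rw [this]
    rw [h3]
    field_simp
  have hdet : (combn D.B c * Y k).det = 1 := by
    have h1 : Y k = (z : ℝ)⁻¹ • adjugate (combn D.B d) := rfl
    rw [det_mul, h1, det_smul, det_adjugate, hd1, hz]
    have h2 : (k.1 : ℝ) = z := rfl
    rw [h2]
    simp only [Fintype.card_fin, Nat.add_sub_cancel]
    rw [inv_pow, pow_succ]
    field_simp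
  refine ⟨⟨combn D.B c * Y k, hdet⟩, ⟨t • f, hX⟩, fun i j => ?_⟩
  have h5 : (g * ⟨combn D.B c * Y k, hdet⟩ : SLn (N + 1)).1 i j =
      ∑ l, (g.1 * combn D.B c) i l * Y k l j := by
    show (g.1 * (combn D.B c * Y k)) i j = _
    rw [← mul_assoc, Matrix.mul_apply]
  rw [h5]
  calc |∑ l, (g.1 * combn D.B c) i l * Y k l j| ≤ ∑ l, |(g.1 * combn D.B c) i l * Y k l j| :=
        Finset.abs_sum_le_sum_abs _ _
    _ ≤ ∑ l, R * |Y k l j| := by
        refine Finset.sum_le_sum (fun l _ => ?_)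
        rw [abs_mul]
        exact mul_le_mul_of_nonneg_right (hc i l) (abs_nonneg _)
    _ = R * ∑ l, |Y k l j| := by rw [Finset.mul_sum]
    _ ≤ R * E := by
        refine mul_le_mul_of_nonneg_left ?_ hR0.le
        calc ∑ l, |Y k l j| ≤ ∑ j, ∑ l, |Y k l j| :=
              Finset.single_le_sum (f := fun j => ∑ l, |Y k l j|)
                (fun _ _ => Finset.sum_nonneg (fun _ _ => abs_nonneg _)) (Finset.mem_univ j)
          _ ≤ E := Finset.single_le_sum (f := fun k => ∑ j, ∑ l, |Y k l j|)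
                (fun _ _ => Finset.sum_nonneg (fun _ _ => Finset.sum_nonneg
                  (fun _ _ => abs_nonneg _))) hk

private theorem odd_part {ι : Type} : ∀ (N : ℕ) (c : ι → ℤ) (i : ι), c i ≠ 0 → (c i).natAbs ≤ N →
    ∃ (j : ℕ) (c' : ι → ℤ), (∀ p, c p = 2 ^ j * c' p) ∧ ∃ p, Odd (c' p) := by
  intro N
  induction N with
  | zero =>
    intro c i hi hN
    exact absurd (Int.natAbs_eq_zero.1 (Nat.le_zero.1 hN)) hi
  | succ N ih =>
    intro c i hi hN
    by_cases h : ∃ p, Odd (c p)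
    · exact ⟨0, c, fun p => by rw [pow_zero, one_mul], h⟩
    · have h1 : ∀ p, ∃ d, c p = 2 * d := by
        intro p
        have h2 : ¬ Odd (c p) := fun h3 => h ⟨p, h3⟩
        rw [Int.not_odd_iff_even] at h2
        obtain ⟨d, hd⟩ := h2
        exact ⟨d, by rw [hd, two_mul]⟩
      choose d hd using h1
      have h2 : d i ≠ 0 := by
        intro h3
        apply hi
        rw [hd i, h3, mul_zero]
      have h3 : (d i).natAbs ≤ N := by
        have h4 := hd i
        omega
      obtain ⟨j, c', hc', hp⟩ := ih d i h2 h3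
      refine ⟨j + 1, c', fun p => ?_, hp⟩
      rw [hd p, hc' p, pow_succ]
      ring

private theorem Gam_two_ne {m : ℕ} (hm : 1 ≤ m) (D : OrdN (m + 1)) :
    ∃ γ ∈ Gam D 2, γ ≠ 1 := by
  by_contra hcon
  have hall : ∀ γ ∈ Gam D 2, γ = 1 := by
    intro γ hγ
    by_contra h
    exact hcon ⟨γ, hγ, h⟩
  obtain ⟨K, hK, hKc⟩ := Gam_cocompact D (M := 2) two_ne_zero
  have h1 : ∀ g : SLn (m + 1), g ∈ K := by
    intro g
    obtain ⟨γ, hγ, h2⟩ := hKc g
    rw [hall γ hγ, mul_one] at h2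
    exact h2
  have h2 : Continuous (fun g : SLn (m + 1) => g.1 0 0) :=
    (continuous_subtype_val).matrix_elem 0 0
  obtain ⟨C, hC⟩ := (hK.image h2).bddAbove
  have h3 : ∀ s : ℝ, Real.exp (m * s) ≤ C := by
    intro s
    apply hC
    refine ⟨aa m s, h1 _, ?_⟩
    show (Matrix.diagonal _ : Mat (m + 1)) 0 0 = _
    rw [Matrix.diagonal_apply_eq]
    simp
  have h4 := h3 C
  have h5 : (1 : ℝ) ≤ m := by exact_mod_cast hm
  have h6 : Real.exp (m * 0) ≤ C := h3 0
  rw [mul_zero, Real.exp_zero] at h6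
  have h7 := Real.add_one_le_exp ((m : ℝ) * C)
  nlinarith

theorem lattice_of_ordN {m : ℕ} (hm : 1 ≤ m) (D : OrdN (m + 1)) :
    ∃ Γ : Subgroup (SLn (m + 1)), IsUniformLattice Γ ∧ ∃ χ : Γ →* ℤˣ, χ ≠ 1 := by
  classical
  obtain ⟨γ0, ⟨c0, hc0⟩, hγ0⟩ := Gam_two_ne hm D
  have hc0' : c0 ≠ 0 := by
    rintro rfl
    apply hγ0
    apply Subtype.ext
    rw [hc0, combn_zero, smul_zero, add_zero]
    rfl
  obtain ⟨i0, hi0⟩ := Function.ne_iff.1 hc0'
  obtain ⟨j, c', hc', k, hk⟩ := odd_part _ c0 i0 hi0 le_rfl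
  have hM0 : 2 ^ (j + 1) ≠ 0 := by positivity
  refine ⟨Gam D (2 ^ (j + 1)), ⟨Gam_discrete D _, Gam_cocompact D hM0⟩, ?_⟩
  choose c hc using fun γ : Gam D (2 ^ (j + 1)) => γ.2
  let χ : Gam D (2 ^ (j + 1)) →* ℤˣ :=
    { toFun := fun γ => (-1 : ℤˣ) ^ (c γ k)
      map_one' := by
        have h1 := hc 1
        have h2 : c 1 = 0 := by
          apply M_smul_inj D hM0
          rw [← h1, combn_zero, smul_zero, add_zero]
          rfl
        rw [h2]
        rfl
      map_mul' := by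
        intro γ δ
        obtain ⟨e, he⟩ := D.mul (c γ) (c δ)
        have h2 : c (γ * δ) = c γ + c δ + ((2 ^ (j + 1) : ℕ) : ℤ) • e := by
          apply M_smul_inj D hM0
          rw [← hc (γ * δ)]
          have h3 : (γ * δ : Gam D (2 ^ (j + 1))).1.1 = γ.1.1 * δ.1.1 := rfl
          rw [h3, hc γ, hc δ, combn_add, combn_add, combn_smul, ← he]
          simp only [mul_add, add_mul, one_mul, mul_one, smul_mul_assoc, mul_smul_comm, smul_add,
            smul_smul]
          push_cast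
          abel
        rw [h2]
        simp only [Pi.add_apply, Pi.smul_apply, smul_eq_mul]
        rw [_root_.zpow_add, _root_.zpow_add]
        have h5 : Even (((2 ^ (j + 1) : ℕ) : ℤ) * e k) := by
          refine ⟨2 ^ j * e k, ?_⟩
          push_cast
          rw [pow_succ]
          ring
        rw [h5.neg_one_zpow, mul_one] }
  refine ⟨χ, fun h => ?_⟩
  have hγ1 : γ0.1 = 1 + ((2 ^ (j + 1) : ℕ) : ℝ) • combn D.B c' := by
    rw [hc0]
    have h1 : c0 = (2 ^ j : ℤ) • c' := by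
      funext p
      rw [Pi.smul_apply, smul_eq_mul, hc' p]
    rw [h1, combn_smul, smul_smul]
    congr 2
    push_cast
    rw [pow_succ]
    ring
  let γ : Gam D (2 ^ (j + 1)) := ⟨γ0, ⟨c', hγ1⟩⟩
  have h1 : c γ = c' := by
    apply M_smul_inj D hM0
    rw [← hc γ]
    exact hγ1
  have h2 : χ γ = 1 := by rw [h]; rfl
  have h3 : χ γ = (-1 : ℤˣ) ^ (c γ k) := rfl
  rw [h3, h1, hk.neg_one_zpow] at h2
  exact absurd h2 (by decide)

end Pool.Agent.Work.MP_20070e_gt.X
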