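import Mathlib
import Pool.Agent.Work.MP_20070e_gt.X.LMat

/-!
# X/LNe (M): the reduced norm of a nonzero element is nonzero

(1) `σ^[i] x ≡ x^{q^i} (mod q)` (`D.frob` and induction: `σ^{i+1} x = σ(x)^{q^i} + q.. `, `(a + q b)^{q^i} ≡ a^{q^i} (mod q)`: trivially since `q` divides the difference of the powers of congruent elements).
(2) If `x^N ∈ q R` for some `N` then `x ∈ q R`: for `k` with `q^{n k} ≥ N`: `x^{q^{nk}} ∈ q R` and `x = σ^{[nk]} x ≡ x^{q^{nk}} (mod q)`.
(3) If `det (MR x) = 0` then `q ∣ x 0`: modulo `q` the matrix `MR x` is upper triangular with diagonal entries `σ^i(x_0)` (work in `R ⧸ (q)`: `Matrix.det_of_upperTriangular`, `RingHom.map_det`), so `∏_i σ^i(x_0) ∈ q R`, and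
`∏ σ^i(x_0) ≡ x_0^{1 + q + ... + q^{n-1}}`; use (2).
(4) Let `det (MR x) = 0`, `x 0 = q y`. Let `x' j = x (j+1)` for `j + 1 < n` and `x' (n-1) = y`. Then `MR x = MR x' * U` with `U = MR (single 1 1)` (element `(∑ x'_j u^j) u`; `MR_mul`), so `det (MR x') = 0` (`det U ≠ 0`). Iterating, `q ∣ x j` for all `j`.
(5) So `x = q x''` with `det (MR x'') = 0`. Infinite descent: by iteration all the coordinates of `x` in the basis `D.b` are divisible by `q^k` for all `k`, so they vanish (`q ≥ 2`), `x = 0`. (Or strong induction on `∑ |coordinates|`.)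
-/

set_option autoImplicit false

open Matrix

namespace Pool.Agent.Work.MP_20070e_gt.X

variable {n : ℕ} (D : CycRing n)

private theorem frob_iter (k : ℕ) :
    ∀ x : D.R, (D.q : D.R) ∣ (D.σ : D.R → D.R)^[k] x - x ^ (D.q ^ k) := by
  induction k with
  | zero => intro x; simp
  | succ k ih =>
    intro x
    rw [Function.iterate_succ_apply]
    have h1 := ih (D.σ x)
    obtain ⟨y, hy⟩ := D.frob x
    have h2 : (D.q : D.R) ∣ D.σ x - x ^ D.q := ⟨y, by rw [hy]; ring⟩
    have h3 : D.σ x - x ^ D.q ∣ (D.σ x) ^ (D.q ^ k) - (x ^ D.q) ^ (D.q ^ k) :=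
      sub_dvd_pow_sub_pow _ _ _
    have h4 := dvd_add h1 (h2.trans h3)
    rw [← pow_mul, ← pow_succ'] at h4
    have h5 : (D.σ : D.R → D.R)^[k] (D.σ x) - (D.σ x) ^ (D.q ^ k) +
        ((D.σ x) ^ (D.q ^ k) - x ^ (D.q ^ (k + 1))) =
        (D.σ : D.R → D.R)^[k] (D.σ x) - x ^ (D.q ^ (k + 1)) := by ring
    rw [h5] at h4
    exact h4

private theorem iter_nk (k : ℕ) (x : D.R) : (D.σ : D.R → D.R)^[n * k] x = x := by
  rw [Function.iterate_mul]
  have h : (D.σ : D.R → D.R)^[n] = id := by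
    funext y
    exact D.σn y
  rw [h, Function.iterate_id]
  rfl

private theorem dvd_of_pow (hn : 1 ≤ n) (x : D.R) (N : ℕ) (h : (D.q : D.R) ∣ x ^ N) :
    (D.q : D.R) ∣ x := by
  have h1 := frob_iter D (n * N) x
  rw [iter_nk] at h1
  have h2 : N ≤ D.q ^ (n * N) := by
    have h3 : n * N < D.q ^ (n * N) := Nat.lt_pow_self D.prime.one_lt
    have h4 : N ≤ n * N := Nat.le_mul_of_pos_left N hn
    omega
  have h3 : (D.q : D.R) ∣ x ^ (D.q ^ (n * N)) := h.trans (pow_dvd_pow x h2)
  have h4 := dvd_add h1 h3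
  rw [sub_add_cancel] at h4
  exact h4

private theorem q_dvd_zero (hn : 2 ≤ n) (x : Fin n → D.R) (h : (MR D x).det = 0) :
    (D.q : D.R) ∣ x ⟨0, by omega⟩ := by
  have : NeZero n := ⟨by omega⟩
  have h00 : (⟨0, by omega⟩ : Fin n) = 0 := by
    apply Fin.ext
    simp
  rw [h00]
  let I : Ideal D.R := Ideal.span {(D.q : D.R)}
  let π : D.R →+* D.R ⧸ I := Ideal.Quotient.mk I
  have hπ : ∀ z, π z = 0 ↔ (D.q : D.R) ∣ z := by
    intro z
    show Ideal.Quotient.mk I z = 0 ↔ _
    rw [Ideal.Quotient.eq_zero_iff_mem, Ideal.mem_span_singleton]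
  have hq : π (D.q : D.R) = 0 := (hπ _).2 (dvd_refl _)
  have h1 : (π.mapMatrix (MR D x)).det = 0 := by
    rw [← RingHom.map_det, h, map_zero]
  have h2 : (π.mapMatrix (MR D x)).BlockTriangular id := by
    intro i k hik
    show π ((D.σ : D.R → D.R)^[i.val] (x (k - i)) * (if k < i then (D.q : D.R) else 1)) = 0
    rw [if_pos (show k < i from hik), map_mul, hq, mul_zero]
  rw [Matrix.det_of_upperTriangular h2] at h1
  have h3 : ∀ i : Fin n, (π.mapMatrix (MR D x)) i i = π (x 0) ^ (D.q ^ i.val) := by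
    intro i
    show π ((D.σ : D.R → D.R)^[i.val] (x (i - i)) * (if i < i then (D.q : D.R) else 1)) = _
    rw [if_neg (lt_irrefl _), mul_one, sub_self, ← map_pow, ← sub_eq_zero, ← map_sub, hπ]
    exact frob_iter D i.val (x 0)
  rw [Finset.prod_congr rfl (fun i _ => h3 i), Finset.prod_pow_eq_pow_sum, ← map_pow, hπ] at h1
  exact dvd_of_pow D (by omega) _ _ h1

private theorem shift (hn : 2 ≤ n) (x : Fin n → D.R) (y : D.R) (hy : x ⟨0, by omega⟩ = D.q * y)
    (h : (MR D x).det = 0) :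
    (MR D (fun j : Fin n => if hj : j.val + 1 < n then x ⟨j.val + 1, hj⟩ else y)).det = 0 := by
  have : NeZero n := ⟨by omega⟩
  have h1 : MR D x = MR D (fun j : Fin n => if hj : j.val + 1 < n then x ⟨j.val + 1, hj⟩ else y) *
      MR D (Pi.single (⟨1, by omega⟩ : Fin n) 1) := by
    rw [MR_mul D (by omega)]
    congr 1
    funext l
    unfold cmul
    rw [Finset.sum_eq_single (l - (⟨1, by omega⟩ : Fin n))]
    · have h2 : l - (l - (⟨1, by omega⟩ : Fin n)) = ⟨1, by omega⟩ := sub_sub_cancel _ _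
      have h5 : (D.σ : D.R → D.R)^[(l - (⟨1, by omega⟩ : Fin n)).val] (1 : D.R) = 1 :=
        Function.iterate_fixed (map_one D.σ) _
      rw [h2, Pi.single_eq_same, h5, mul_one]
      have hl := l.2
      show x l = (if hj : (l - (⟨1, by omega⟩ : Fin n)).val + 1 < n then
        x ⟨(l - (⟨1, by omega⟩ : Fin n)).val + 1, hj⟩ else y) * _
      by_cases h3 : l.val = 0
      · have h4 : (l - (⟨1, by omega⟩ : Fin n)).val = n - 1 := by
          rw [Fin.sub_def]
          show (n - 1 + l.val) % n = n - 1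
          rw [h3, Nat.add_zero, Nat.mod_eq_of_lt (by omega)]
        have h6 : l = ⟨0, by omega⟩ := Fin.ext h3
        rw [dif_neg (by rw [h4]; omega), if_pos (by rw [Fin.lt_def, h4]; omega), h6, hy, mul_comm]
      · have h4 : (l - (⟨1, by omega⟩ : Fin n)).val = l.val - 1 :=
          Fin.sub_val_of_le (by rw [Fin.le_def]; show 1 ≤ l.val; omega)
        rw [dif_pos (by rw [h4]; omega), if_neg (by rw [Fin.lt_def, h4]; omega), mul_one]
        congr 1
        apply Fin.ext
        show l.val = (l - (⟨1, by omega⟩ : Fin n)).val + 1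
        rw [h4]
        omega
    · intro j _ hj
      have h2 : l - j ≠ (⟨1, by omega⟩ : Fin n) := by
        intro h2
        apply hj
        rw [← h2, sub_sub_cancel]
      have h5 : (D.σ : D.R → D.R)^[j.val] (0 : D.R) = 0 :=
        Function.iterate_fixed (map_zero D.σ) _
      rw [Pi.single_eq_of_ne h2, h5, mul_zero, zero_mul]
    · intro h; exact absurd (Finset.mem_univ _) h
  rw [h1, Matrix.det_mul] at h
  rcases mul_eq_zero.1 h with h2 | h2
  · exact h2
  · exact absurd h2 (MR_U_det D hn)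

private theorem q_dvd (hn : 2 ≤ n) (j : ℕ) : ∀ (hj : j < n) (x : Fin n → D.R),
    (MR D x).det = 0 → (D.q : D.R) ∣ x ⟨j, hj⟩ := by
  induction j with
  | zero => intro hj x hx; exact q_dvd_zero D hn x hx
  | succ j ih =>
    intro hj x hx
    obtain ⟨y, hy⟩ := q_dvd_zero D hn x hx
    have h1 := ih (by omega) _ (shift D hn x y hy hx)
    simp only [hj, dif_pos] at h1
    exact h1

private theorem descent (hn : 2 ≤ n) (k : ℕ) : ∀ x : Fin n → D.R, (MR D x).det = 0 →
    ∀ j, ∃ y : D.R, x j = ((D.q ^ k : ℕ) : ℤ) • y := by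
  induction k with
  | zero =>
    intro x _ j
    exact ⟨x j, by simp⟩
  | succ k ih =>
    intro x hx j
    have h1 : ∀ j : Fin n, ∃ y, x j = (D.q : D.R) * y := fun j => q_dvd D hn j.val j.2 x hx
    choose x' hx' using h1
    have h2 : x = (D.q : ℤ) • x' := by
      funext j
      rw [Pi.smul_apply, zsmul_eq_mul, hx']
      simp
    have h3 : (MR D x').det = 0 := by
      have h4 : MR D x = (D.q : D.R) • MR D x' := by
        rw [h2, MR_zsmul]
        ext i k
        rw [Matrix.smul_apply, Matrix.smul_apply, zsmul_eq_mul, smul_eq_mul]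
        simp
      rw [h4, Matrix.det_smul] at hx
      rcases mul_eq_zero.1 hx with h5 | h5
      · exfalso
        have h7 : (D.q : D.R) = 0 := eq_zero_of_pow_eq_zero h5
        have h8 := congrArg D.ι h7
        rw [map_natCast, map_zero] at h8
        exact D.prime.ne_zero (by exact_mod_cast h8)
      · exact h5
    obtain ⟨y, hy⟩ := ih x' h3 j
    refine ⟨y, ?_⟩
    rw [hx', hy, zsmul_eq_mul, zsmul_eq_mul]
    push_cast
    ring

theorem det_MR_ne (hn : 2 ≤ n) (x : Fin n → D.R) (hx : x ≠ 0) : (MR D x).det ≠ 0 := by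
  intro h
  apply hx
  funext j
  rw [Pi.zero_apply]
  apply D.b.ext_elem
  intro l
  rw [map_zero, Finsupp.zero_apply]
  by_contra hne
  obtain ⟨y, hy⟩ := descent D hn (D.b.repr (x j) l).natAbs x h j
  have h1 : D.b.repr (x j) l = ((D.q ^ (D.b.repr (x j) l).natAbs : ℕ) : ℤ) * D.b.repr y l := by
    conv_lhs => rw [hy]
    rw [map_zsmul, Finsupp.smul_apply, smul_eq_mul]
  have h2 : D.q ^ (D.b.repr (x j) l).natAbs ∣ (D.b.repr (x j) l).natAbs := by
    rw [← Int.natCast_dvd]
    exact ⟨_, h1⟩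
  have h3 := Nat.le_of_dvd (Int.natAbs_pos.2 hne) h2
  have h4 : (D.b.repr (x j) l).natAbs < D.q ^ (D.b.repr (x j) l).natAbs :=
    Nat.lt_pow_self D.prime.one_lt
  omega

end Pool.Agent.Work.MP_20070e_gt.X
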