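import Mathlib
import Pool.Agent.Work.MP_20070e_gt.X.LDet
import Pool.Agent.Work.MP_20070e_gt.X.LNe
import Pool.Agent.Work.MP_20070e_gt.X.LInd

/-!
# X/LOrd (S-M): the order of a cyclic ring

`B = BB D`. Every `x : Fin n → R` is `fun j => ∑ l, c (j,l) • b l` with `c (j,l) = D.b.repr (x j) l`; so `MRr x` is a `combn` (`combn_BB`). `one`, `mul`: `MR_one`, `MR_mul` mapped by `ι` (`Matrix.map_mul`). `adj`: `adj_mem` (`det_MR_ne`), `RingHom.map_adjugate`.
`det_int`: `det_fixed`, `RingHom.map_det`. `det_ne`: if `c ≠ 0` then `x ≠ 0` (`b` is a basis), so `det (MR x) ≠ 0` and `ι` is injective.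
-/

set_option autoImplicit false

open Matrix

namespace Pool.Agent.Work.MP_20070e_gt.X

theorem ordN_of_cycRing {n : ℕ} (hn : 2 ≤ n) (D : CycRing n) : Nonempty (OrdN n) := by
  have hex : ∀ x : Fin n → D.R, ∃ c, combn (BB D) c = MRr D x := by
    intro x
    refine ⟨fun p => D.b.repr (x p.1) p.2, ?_⟩
    rw [combn_BB]
    congr 1
    funext j
    exact D.b.sum_repr (x j)
  have hmul : ∀ x y : Fin n → D.R, MRr D x * MRr D y = MRr D (cmul D x y) := by
    intro x y
    unfold MRr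
    rw [← MR_mul D (by omega), Matrix.map_mul]
  have hdet : ∀ x : Fin n → D.R, (MRr D x).det = D.ι (MR D x).det := by
    intro x
    unfold MRr
    rw [RingHom.map_det]
    rfl
  refine ⟨⟨BB D, BB_indep D (by omega), ?_, ?_, ?_, ?_, ?_⟩⟩
  · obtain ⟨x, hx⟩ := MR_one D (by omega : 1 ≤ n)
    obtain ⟨e, he⟩ := hex x
    refine ⟨e, ?_⟩
    rw [he]
    unfold MRr
    rw [hx, Matrix.map_one _ (map_zero _) (map_one _)]
  · intro c d
    rw [combn_BB, combn_BB, hmul]
    obtain ⟨e, he⟩ := hex (cmul D (fun j => ∑ l, c (j, l) • D.b l)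
      (fun j => ∑ l, d (j, l) • D.b l))
    exact ⟨e, he.symm⟩
  · intro c
    rw [combn_BB]
    obtain ⟨y, hy⟩ := adj_mem D hn (fun x hx => det_MR_ne D hn x hx)
      (fun j => ∑ l, c (j, l) • D.b l)
    obtain ⟨e, he⟩ := hex y
    refine ⟨e, ?_⟩
    rw [he]
    unfold MRr
    rw [← hy]
    exact (RingHom.map_adjugate D.ι _).symm
  · intro c
    rw [combn_BB, hdet]
    obtain ⟨z, hz⟩ := det_fixed D hn (fun j => ∑ l, c (j, l) • D.b l)
    refine ⟨z, ?_⟩
    rw [hz, map_intCast]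
  · intro c hc
    rw [combn_BB, hdet]
    intro h
    have h1 := D.ι_inj (h.trans (map_zero _).symm)
    refine det_MR_ne D hn _ ?_ h1
    intro h2
    apply hc
    funext p
    have h3 := congrFun h2 p.1
    exact Fintype.linearIndependent_iff.1 D.b.linearIndependent (fun l => c (p.1, l)) h3 p.2

end Pool.Agent.Work.MP_20070e_gt.X
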