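import Mathlib
import Pool.Agent.Work.MP_20070e_gt.X.Defs
import Pool.Agent.Work.MP_20070e_gt.N1

/-!
# X/QMan (M-L): the manifold `(ℝⁿ ∖ 0) / ±1`

`punc n` (an open subset of `Eu n`, `../N1.lean`) modulo `v ~ -v`: `Q = Quotient s` with the quotient topology, `pr = Quotient.mk`.
* `pr` is open: the saturation of an open `O` is `O ∪ -O`. `pr` is injective on the open ball `B_v = B(v, |v|)` (if `w, -w ∈ B(v, |v|)` then `2|v| ≤ |v - w| + |v + w| < 2 |v|`). So `pr` is a local homeomorphism (`IsLocalHomeomorph`), and `IsLocalHomeomorph.chartedSpace` (or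
  `..chartedSpaceOfRightInverse`) gives the charted space structure; or define the atlas by hand: the charts `Q ⊇ pr (B_v) → B_v ⊆ Eu n` (inverse of `pr` on `B_v`; `OpenPartialHomeomorph` from `IsOpenEmbedding`/`toOpenPartialHomeomorph`), followed by the inclusion `punc n → Eu n`.
* The transition maps are locally `w ↦ w` or `w ↦ -w`: if two charts `c, c'` and `z = c'(c⁻¹ w)`, then `z = w` or `z = -w`, and the sets where `z = w`, `z = -w` are open (both are closed and disjoint in the domain by continuity). So they are `C^∞`: `isManifold_of_contDiffOn`.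
* Hausdorff: if `pr v ≠ pr w`, separate `v` from `w` and from `-w` by small balls, the saturations are disjoint. Second countable: `IsOpenMap`/`IsQuotientMap` of a second countable space by an open map.
* in the charts `pr` is the identity or `±` the identity: smooth, with invertible derivative; if `f ∘ pr` is smooth then `f` is smooth (`f = (f ∘ pr) ∘ (local inverse of pr)`, the local inverse is the chart followed by the inclusion, smooth).
If Mathlib's quotient manifold instance `MulAction.instChartedSpaceQuotient` (group `ℤˣ`) is more convenient, use it: `Q` is existential.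
-/

set_option autoImplicit false

open Matrix Topology Metric Filter ContDiff Manifold TopologicalSpace

namespace Pool.Agent.Work.MP_20070e_gt.X

/-- antipodal equivalence -/
private def aset (n : ℕ) : Setoid (punc n) where
  r v w := v = w ∨ (v : Eu n) = -(w : Eu n)
  iseqv :=
    { refl := fun v => Or.inl rfl
      symm := by
        rintro v w (h | h)
        · exact Or.inl h.symm
        · right; rw [h, neg_neg]
      trans := by
        rintro u v w (h | h) (h' | h')
        · exact Or.inl (h.trans h')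
        · right; rw [h]; exact h'
        · right; rw [h, h']
        · left; apply Subtype.ext; rw [h, h', neg_neg] }

private def QQ (n : ℕ) : Type := Quotient (aset n)

private instance (n : ℕ) : TopologicalSpace (QQ n) :=
  inferInstanceAs (TopologicalSpace (Quotient (aset n)))

private def prq (n : ℕ) : punc n → QQ n := Quotient.mk _

private theorem prq_eq {n : ℕ} {v w : punc n} :
    prq n v = prq n w ↔ (v = w ∨ (v : Eu n) = -(w : Eu n)) := Quotient.eq (r := aset n)

private theorem prq_surj (n : ℕ) : Function.Surjective (prq n) := Quotient.mk_surjective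

private theorem prq_cont (n : ℕ) : Continuous (prq n) := continuous_quotient_mk'

/-- the antipode -/
private def nega {n : ℕ} (v : punc n) : punc n := ⟨-v.1, by
  have hv : (v : Eu n) ≠ 0 := v.2
  exact neg_ne_zero.2 hv⟩

private theorem nega_coe {n : ℕ} (v : punc n) : ((nega v : punc n) : Eu n) = -(v : Eu n) := rfl

private theorem nega_cont (n : ℕ) : Continuous (nega (n := n)) :=
  Continuous.subtype_mk continuous_subtype_val.neg _

private theorem prq_nega {n : ℕ} (v : punc n) : prq n (nega v) = prq n v :=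
  prq_eq.2 (Or.inr rfl)

private theorem prq_open (n : ℕ) : IsOpenMap (prq n) := by
  intro O hO
  have h1 : prq n ⁻¹' (prq n '' O) = O ∪ nega ⁻¹' O := by
    ext v
    constructor
    · rintro ⟨w, hw, hwv⟩
      rcases prq_eq.1 hwv with h | h
      · left; rw [← h]; exact hw
      · right
        have : nega v = w := Subtype.ext h.symm
        rw [Set.mem_preimage, this]
        exact hw
    · rintro (h | h)
      · exact ⟨v, h, rfl⟩
      · exact ⟨nega v, h, prq_nega v⟩
  have h2 : IsOpen (prq n ⁻¹' (prq n '' O)) := by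
    rw [h1]
    exact hO.union (hO.preimage (nega_cont n))
  exact h2

private theorem prq_oq (n : ℕ) : IsOpenQuotientMap (prq n) :=
  ⟨prq_surj n, prq_cont n, prq_open n⟩

/-- the ball around `a` not containing zero -/
private def Bq {n : ℕ} (a : punc n) : Set (punc n) := {v | dist (v : Eu n) a < ‖(a : Eu n)‖}

private theorem self_mem_Bq {n : ℕ} (a : punc n) : a ∈ Bq a := by
  have h : (a : Eu n) ≠ 0 := a.2
  show dist (a : Eu n) a < ‖(a : Eu n)‖
  rw [dist_self]
  exact norm_pos_iff.2 h

private theorem isOpen_Bq {n : ℕ} (a : punc n) : IsOpen (Bq a) :=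
  isOpen_lt (continuous_subtype_val.dist continuous_const) continuous_const

private theorem injOn_Bq {n : ℕ} (a : punc n) : Set.InjOn (prq n) (Bq a) := by
  intro v hv w hw h
  rcases prq_eq.1 h with h1 | h1
  · exact h1
  · exfalso
    have hv' : dist (v : Eu n) a < ‖(a : Eu n)‖ := hv
    have hw' : dist (w : Eu n) a < ‖(a : Eu n)‖ := hw
    rw [dist_eq_norm] at hv' hw'
    rw [h1] at hv'
    have h2 : (2 : ℝ) • (a : Eu n) = -(-(w : Eu n) - a) - (w - a) := by
      rw [two_smul]; abel
    have h3 : ‖(2 : ℝ) • (a : Eu n)‖ ≤ ‖-(w : Eu n) - a‖ + ‖(w : Eu n) - a‖ := by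
      rw [h2]
      refine (norm_sub_le _ _).trans ?_
      rw [norm_neg]
    rw [norm_smul, Real.norm_eq_abs, abs_of_pos (by norm_num : (0 : ℝ) < 2)] at h3
    linarith

private noncomputable def fq {n : ℕ} (a : punc n) : OpenPartialHomeomorph (punc n) (QQ n) :=
  haveI : Nonempty (punc n) := ⟨a⟩
  OpenPartialHomeomorph.ofContinuousOpen ((injOn_Bq a).toPartialEquiv (prq n) (Bq a))
    (prq_cont n).continuousOn (prq_open n) (isOpen_Bq a)

private theorem fq_source {n : ℕ} (a : punc n) : (fq a).source = Bq a := rfl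

private theorem fq_target {n : ℕ} (a : punc n) : (fq a).target = prq n '' Bq a := rfl

private theorem fq_coe {n : ℕ} (a v : punc n) : fq a v = prq n v := rfl

private theorem fq_symm {n : ℕ} {a v : punc n} (h : v ∈ Bq a) : (fq a).symm (prq n v) = v :=
  (fq a).left_inv (x := v) h

private noncomputable def cq {n : ℕ} (a : punc n) : OpenPartialHomeomorph (QQ n) (Eu n) :=
  (fq a).symm ≫ₕ (punc n).openPartialHomeomorphSubtypeCoe ⟨a⟩

private theorem cq_coe {n : ℕ} (a : punc n) :
    (cq a : QQ n → Eu n) = (Subtype.val : punc n → Eu n) ∘ (fq a).symm := rfl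

private theorem cq_source {n : ℕ} (a : punc n) : (cq a).source = prq n '' Bq a := by
  rw [cq, OpenPartialHomeomorph.trans_source]
  simp only [Opens.openPartialHomeomorphSubtypeCoe_source, Set.preimage_univ, Set.inter_univ]
  rfl

private theorem cq_apply {n : ℕ} {a v : punc n} (h : v ∈ Bq a) : cq a (prq n v) = v := by
  rw [cq_coe, Function.comp_apply, fq_symm h]

private theorem cq_symm {n : ℕ} {a v : punc n} (h : v ∈ Bq a) :
    (cq a).symm (v : Eu n) = prq n v := by
  have h1 := (cq a).left_inv (x := prq n v) (by rw [cq_source]; exact ⟨v, h, rfl⟩)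
  rwa [cq_apply h] at h1

private theorem cq_target {n : ℕ} {a : punc n} {w : Eu n} :
    w ∈ (cq a).target ↔ ∃ v ∈ Bq a, (v : Eu n) = w := by
  constructor
  · intro h
    have h1 := (cq a).map_target h
    rw [cq_source] at h1
    obtain ⟨v, hv, hvw⟩ := h1
    refine ⟨v, hv, ?_⟩
    rw [← cq_apply hv, hvw]
    exact (cq a).right_inv h
  · rintro ⟨v, hv, rfl⟩
    have h1 := (cq a).map_source (x := prq n v) (by rw [cq_source]; exact ⟨v, hv, rfl⟩)
    rwa [cq_apply hv] at h1

private theorem mem_of_dist {n : ℕ} {a : punc n} {w : Eu n} (h : dist w a < ‖(a : Eu n)‖) :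
    ∃ v ∈ Bq a, (v : Eu n) = w := by
  have hw : w ≠ 0 := by
    rintro rfl
    rw [dist_zero_left] at h
    exact lt_irrefl _ h
  exact ⟨⟨w, hw⟩, h, rfl⟩

private noncomputable instance csq (n : ℕ) : ChartedSpace (Eu n) (QQ n) where
  atlas := Set.range (cq (n := n))
  chartAt q := cq (Function.surjInv (prq_surj n) q)
  mem_chart_source q := by
    rw [cq_source]
    exact ⟨_, self_mem_Bq _, Function.surjInv_eq (prq_surj n) q⟩
  chart_mem_atlas q := ⟨_, rfl⟩

private instance manq (n : ℕ) : IsManifold (𝓡 n) ∞ (QQ n) := by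
  apply isManifold_of_contDiffOn
  rintro _ _ ⟨a, rfl⟩ ⟨b, rfl⟩
  rintro w ⟨hw, _⟩
  rw [Set.mem_preimage, OpenPartialHomeomorph.trans_source] at hw
  obtain ⟨hw1, hw2⟩ := hw
  rw [OpenPartialHomeomorph.symm_source] at hw1
  rw [Set.mem_preimage, cq_source] at hw2
  obtain ⟨v, hv, hvw⟩ := cq_target.1 hw1
  have hvw' : (v : Eu n) = w := hvw
  obtain ⟨u, hu, huv⟩ := hw2
  have h1 : (cq a).symm ((𝓡 n).symm w) = prq n v := by
    rw [← cq_symm hv, hvw]
  rw [h1] at huv
  apply ContDiffAt.contDiffWithinAt
  have key : ∀ (v' u' : punc n), v' ∈ Bq a → u' ∈ Bq b → prq n u' = prq n v' →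
      ((𝓡 n) ∘ ((cq a).symm ≫ₕ cq b) ∘ (𝓡 n).symm) (v' : Eu n) = (u' : Eu n) := by
    intro v' u' hv' hu' he
    show cq b ((cq a).symm (v' : Eu n)) = u'
    rw [cq_symm hv', ← he, cq_apply hu']
  rcases prq_eq.1 huv with h2 | h2
  · have hev : ((𝓡 n) ∘ ((cq a).symm ≫ₕ cq b) ∘ (𝓡 n).symm) =ᶠ[𝓝 w] id := by
      have ho : IsOpen {w' : Eu n | dist w' a < ‖(a : Eu n)‖ ∧ dist w' b < ‖(b : Eu n)‖} :=
        (isOpen_lt (continuous_id.dist continuous_const) continuous_const).inter
          (isOpen_lt (continuous_id.dist continuous_const) continuous_const)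
      filter_upwards [ho.mem_nhds (by
        constructor
        · rw [← hvw']; exact hv
        · rw [← hvw', ← h2]; exact hu : w ∈ _)] with w' hw'
      obtain ⟨v', hv', rfl⟩ := mem_of_dist hw'.1
      exact key v' v' hv' hw'.2 rfl
    exact contDiffAt_id.congr_of_eventuallyEq hev
  · have hev : ((𝓡 n) ∘ ((cq a).symm ≫ₕ cq b) ∘ (𝓡 n).symm) =ᶠ[𝓝 w] (fun x => -x) := by
      have ho : IsOpen {w' : Eu n | dist w' a < ‖(a : Eu n)‖ ∧ dist (-w') b < ‖(b : Eu n)‖} :=
        (isOpen_lt (continuous_id.dist continuous_const) continuous_const).inter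
          (isOpen_lt (continuous_id.neg.dist continuous_const) continuous_const)
      filter_upwards [ho.mem_nhds (by
        constructor
        · rw [← hvw']; exact hv
        · rw [← hvw', ← h2]; exact hu : w ∈ _)] with w' hw'
      obtain ⟨v', hv', rfl⟩ := mem_of_dist hw'.1
      exact key v' (nega v') hv' hw'.2 (prq_nega v')
    exact contDiffAt_id.neg.congr_of_eventuallyEq hev

private theorem cq_max {n : ℕ} (a : punc n) :
    cq a ∈ IsManifold.maximalAtlas (𝓡 n) ∞ (QQ n) :=
  IsManifold.subset_maximalAtlas ⟨a, rfl⟩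

private theorem prq_smooth (n : ℕ) : ContMDiff (𝓡 n) (𝓡 n) ∞ (prq n) := by
  intro v
  have h1 : ContMDiffOn (𝓡 n) (𝓡 n) ∞ (cq v).symm (cq v).target :=
    contMDiffOn_symm_of_mem_maximalAtlas (cq_max v)
  have h2 : ContMDiffAt (𝓡 n) (𝓡 n) ∞ (cq v).symm (v : Eu n) :=
    h1.contMDiffAt ((cq v).open_target.mem_nhds (cq_target.2 ⟨v, self_mem_Bq v, rfl⟩))
  have h3 : ContMDiffAt (𝓡 n) (𝓡 n) ∞ (Subtype.val : punc n → Eu n) v :=
    contMDiff_subtype_val.contMDiffAt
  have h4 := h2.comp v h3
  refine h4.congr_of_eventuallyEq ?_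
  filter_upwards [(isOpen_Bq v).mem_nhds (self_mem_Bq v)] with w hw
  exact (cq_symm hw).symm

private theorem fq_smooth {n : ℕ} (v : punc n) :
    ContMDiffAt (𝓡 n) (𝓡 n) ∞ (fq v).symm (prq n v) := by
  rw [← ContMDiffAt.subtypeVal_comp_iff, ← cq_coe]
  apply contMDiffAt_of_mem_maximalAtlas (cq_max v)
  rw [cq_source]
  exact ⟨v, self_mem_Bq v, rfl⟩

theorem exists_quotient (n : ℕ) :
    ∃ (Q : Type) (_ : TopologicalSpace Q) (_ : ChartedSpace (Eu n) Q) (pr : punc n → Q),
      IsSmoothManifold n Q ∧ Function.Surjective pr ∧ IsOpenMap pr ∧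
      (∀ v w : punc n, pr v = pr w ↔ (v = w ∨ (v : Eu n) = -(w : Eu n))) ∧
      SmoothMap (Eu n) (Eu n) pr ∧ InjDeriv (Eu n) (Eu n) pr ∧
      ∀ f : Q → Q, SmoothMap (Eu n) (Eu n) (fun v => f (pr v)) → SmoothMap (Eu n) (Eu n) f := by
  refine ⟨QQ n, inferInstance, inferInstance, prq n, ⟨?_, ?_, ?_⟩, prq_surj n, prq_open n,
    fun v w => prq_eq, prq_smooth n, ?_, ?_⟩
  · rw [t2Space_iff_of_isOpenQuotientMap (prq_oq n)]
    have h1 : {q : punc n × punc n | prq n q.1 = prq n q.2} =
        {q : punc n × punc n | (q.1 : Eu n) = (q.2 : Eu n)} ∪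
        {q : punc n × punc n | (q.1 : Eu n) = -(q.2 : Eu n)} := by
      ext q
      rw [Set.mem_ofPred_eq, prq_eq]
      constructor
      · rintro (h | h)
        · left; exact congrArg Subtype.val h
        · right; exact h
      · rintro (h | h)
        · left; exact Subtype.ext h
        · right; exact h
    rw [h1]
    exact (isClosed_eq (continuous_subtype_val.comp continuous_fst)
      (continuous_subtype_val.comp continuous_snd)).union
      (isClosed_eq (continuous_subtype_val.comp continuous_fst)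
      (continuous_subtype_val.comp continuous_snd).neg)
  · exact (prq_oq n).isQuotientMap.secondCountableTopology (prq_open n)
  · exact manq n
  · intro v
    have hd1 : MDifferentiableAt (𝓡 n) (𝓡 n) (fq v).symm (prq n v) :=
      (fq_smooth v).mdifferentiableAt (by simp)
    have hd2 : MDifferentiableAt (𝓡 n) (𝓡 n) (prq n) v :=
      (prq_smooth n v).mdifferentiableAt (by simp)
    have h1 := mfderiv_comp v hd1 hd2
    have h2 : (fq v).symm ∘ prq n =ᶠ[𝓝 v] id := by
      filter_upwards [(isOpen_Bq v).mem_nhds (self_mem_Bq v)] with w hw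
      exact fq_symm hw
    rw [h2.mfderiv_eq, mfderiv_id] at h1
    intro x y hxy
    have h3 := congrArg (fun L => L x) h1
    have h4 := congrArg (fun L => L y) h1
    simp only [ContinuousLinearMap.comp_apply] at h3 h4
    rw [hxy, ← h4] at h3
    exact h3
  · intro f hf q
    obtain ⟨v, rfl⟩ := prq_surj n q
    have h1 : ContMDiffAt (𝓡 n) (𝓡 n) ∞ (fun v => f (prq n v)) ((fq v).symm (prq n v)) :=
      hf _
    have h2 := h1.comp (prq n v) (fq_smooth v)
    refine h2.congr_of_eventuallyEq ?_
    filter_upwards [(fq v).open_target.mem_nhds (x := prq n v) ⟨v, self_mem_Bq v, rfl⟩] with q' hq'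
    have h3 : prq n ((fq v).symm q') = q' := (fq v).right_inv hq'
    simp only [Function.comp_apply]
    rw [h3]

end Pool.Agent.Work.MP_20070e_gt.X
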