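import Mathlib
import Pool.Agent.Work.MP_20070e_gt.X.Defs

/-!
# X/TBd (M): a function vanishing on the hypersurface is bounded by the defining function

`g = f ∘ c.c.symm : Eu m × ℝ → ℝ` is `C¹` at `p₀ = c.c (φ x)` (`p₀.2 = 0` by `zero`; composition of `ContMDiffAt`, then `contMDiffAt_iff_contDiffAt`), so it is
Lipschitz with some constant `C` on a neighbourhood of `p₀` (`ContDiffAt.exists_lipschitzOnWith`), and `g (u, 0) = 0` for `(u, 0)` near `p₀` (then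
`c.c.symm (u, 0) ∈ range φ` by `zero`). For `p = (u, r)` in a small ball (sup norm) around `p₀`, `(u, 0)` is in the ball too, so
`|g (u, r)| = |g (u, r) - g (u, 0)| ≤ C |r|`. Pull back by `c.c` (continuous at `φ x`).

`bound_at`: the same at another point `φ y` of the image in the source of the chart (with the same proof; `f` is `C¹` at `φ y`).
-/

set_option autoImplicit false

open Matrix Topology Metric Filter ContDiff Manifold

namespace Pool.Agent.Work.MP_20070e_gt.X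

theorem bound_at {m : ℕ} {M : Type} [TopologicalSpace M] [ChartedSpace (Eu (m + 1)) M]
    (hM : IsSmoothManifold (m + 1) M) {φ : Sph (m + 1) → M} {x : Sph (m + 1)} (c : AdChart φ x)
    (y : M) (hy : y ∈ c.c.source) (hy' : y ∈ Set.range φ) (f : M → ℝ)
    (hf : ContMDiffAt (𝓡 (m + 1)) 𝓘(ℝ, ℝ) 1 f y)
    (h0 : ∀ᶠ z in 𝓝 y, z ∈ Set.range φ → f z = 0) :
    ∃ C : ℝ, 0 < C ∧ ∀ᶠ z in 𝓝 y, |f z| ≤ C * |(c.c z).2| := by
  have hy2 : (c.c y).2 = 0 := (c.zero y hy).1 hy'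
  have hsymm : ContMDiffAt 𝓘(ℝ, Eu m × ℝ) (𝓡 (m + 1)) 1 c.c.symm (c.c y) :=
    (c.smooth_symm.contMDiffAt (c.c.open_target.mem_nhds (c.c.map_source hy))).of_le
      (by exact_mod_cast le_top)
  have hcy : c.c.symm (c.c y) = y := c.c.left_inv hy
  have hg1 : ContMDiffAt 𝓘(ℝ, Eu m × ℝ) 𝓘(ℝ, ℝ) 1 (fun p : Eu m × ℝ => f (c.c.symm p)) (c.c y) :=
    ContMDiffAt.comp (g := f) (f := c.c.symm) _ (by rw [hcy]; exact hf) hsymm
  have hg : ContDiffAt ℝ 1 (fun p : Eu m × ℝ => f (c.c.symm p)) (c.c y) :=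
    contMDiffAt_iff_contDiffAt.1 hg1
  obtain ⟨K, t, ht, hK⟩ := hg.exists_lipschitzOnWith
  have hz : ∀ᶠ p : Eu m × ℝ in 𝓝 (c.c y), p.2 = 0 → f (c.c.symm p) = 0 := by
    have h1 : ∀ᶠ p in 𝓝 (c.c y), c.c.symm p ∈ Set.range φ → f (c.c.symm p) = 0 := by
      have h2 : Tendsto c.c.symm (𝓝 (c.c y)) (𝓝 y) := by
        have h3 := hsymm.continuousAt
        unfold ContinuousAt at h3
        rw [hcy] at h3
        exact h3
      exact h2.eventually h0
    have h4 : ∀ᶠ p in 𝓝 (c.c y), p ∈ c.c.target :=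
      c.c.open_target.mem_nhds (c.c.map_source hy)
    filter_upwards [h1, h4] with p hp1 hp2 hp3
    apply hp1
    rw [c.zero _ (c.c.map_target hp2), c.c.right_inv hp2]
    exact hp3
  have hπ : Tendsto (fun p : Eu m × ℝ => ((p.1, (0 : ℝ)) : Eu m × ℝ)) (𝓝 (c.c y)) (𝓝 (c.c y)) := by
    have h1 : ContinuousAt (fun p : Eu m × ℝ => ((p.1, (0 : ℝ)) : Eu m × ℝ)) (c.c y) := by fun_prop
    have h2 : (((c.c y).1, (0 : ℝ)) : Eu m × ℝ) = c.c y := by
      rw [← hy2]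
    have h3 : Tendsto (fun p : Eu m × ℝ => ((p.1, (0 : ℝ)) : Eu m × ℝ)) (𝓝 (c.c y))
        (𝓝 ((c.c y).1, (0 : ℝ))) := h1
    rw [h2] at h3
    exact h3
  have hall : ∀ᶠ p : Eu m × ℝ in 𝓝 (c.c y), |f (c.c.symm p)| ≤ ((K : ℝ) + 1) * |p.2| := by
    filter_upwards [ht, hπ.eventually ht, hπ.eventually hz] with p h1 h2 h3
    have h4 : f (c.c.symm (p.1, (0 : ℝ))) = 0 := h3 rfl
    have h5 := hK.dist_le_mul p h1 (p.1, (0 : ℝ)) h2
    rw [h4, Real.dist_eq, sub_zero] at h5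
    have h6 : dist p (p.1, (0 : ℝ)) = |p.2| := by
      rw [Prod.dist_eq]
      simp
    rw [h6] at h5
    have h7 : (0 : ℝ) ≤ |p.2| := abs_nonneg _
    nlinarith
  refine ⟨(K : ℝ) + 1, by positivity, ?_⟩
  have hcont : Tendsto c.c (𝓝 y) (𝓝 (c.c y)) := c.c.continuousAt hy
  filter_upwards [hcont.eventually hall, c.c.open_source.mem_nhds hy] with z h1 h2
  rw [c.c.left_inv h2] at h1
  exact h1

private theorem snd_smooth {m : ℕ} {M : Type} [TopologicalSpace M] [ChartedSpace (Eu (m + 1)) M]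
    {φ : Sph (m + 1) → M} {x' : Sph (m + 1)} (c' : AdChart φ x') (y : M) (hy : y ∈ c'.c.source) :
    ContMDiffAt (𝓡 (m + 1)) 𝓘(ℝ, ℝ) 1 (fun z => (c'.c z).2) y := by
  have h1 : ContMDiffAt (𝓡 (m + 1)) 𝓘(ℝ, Eu m × ℝ) 1 c'.c y :=
    (c'.smooth.contMDiffAt (c'.c.open_source.mem_nhds hy)).of_le (by exact_mod_cast le_top)
  have h2 : ContMDiffAt 𝓘(ℝ, Eu m × ℝ) 𝓘(ℝ, ℝ) 1 (fun p : Eu m × ℝ => p.2) (c'.c y) :=
    contMDiffAt_iff_contDiffAt.2 contDiffAt_snd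
  exact ContMDiffAt.comp (g := fun p : Eu m × ℝ => p.2) (f := c'.c) _ h2 h1

/-- comparison of the defining functions of two adapted charts -/
theorem bound_charts {m : ℕ} {M : Type} [TopologicalSpace M] [ChartedSpace (Eu (m + 1)) M]
    (hM : IsSmoothManifold (m + 1) M) {φ : Sph (m + 1) → M} {x x' : Sph (m + 1)}
    (c : AdChart φ x) (c' : AdChart φ x') (y : M) (hy : y ∈ c.c.source) (hy' : y ∈ c'.c.source)
    (hyr : y ∈ Set.range φ) :
    ∃ C : ℝ, 0 < C ∧ ∀ᶠ z in 𝓝 y, |(c'.c z).2| ≤ C * |(c.c z).2| := by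
  refine bound_at hM c y hy hyr (fun z => (c'.c z).2) (snd_smooth c' y hy') ?_
  filter_upwards [c'.c.open_source.mem_nhds hy'] with z h1 h2
  exact (c'.zero z h1).1 h2

/-- comparison under the action of an element of `Γ` -/
theorem bound_action {m : ℕ} {M : Type} [TopologicalSpace M] [ChartedSpace (Eu (m + 1)) M]
    (hM : IsSmoothManifold (m + 1) M) {Γ : Subgroup (SLn (m + 1))} (α : SmoothAction Γ M)
    {φ : Sph (m + 1) → M} (hst : IsStandardOn α φ) (γ : Γ) {x : Sph (m + 1)}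
    (c : AdChart φ x) (c' : AdChart φ (sphAct (γ : SLn (m + 1)) x)) :
    ∃ C : ℝ, 0 < C ∧ ∀ᶠ z in 𝓝 (φ x), |(c'.c (α.toFun γ z)).2| ≤ C * |(c.c z).2| := by
  have hsm : ContMDiffAt (𝓡 (m + 1)) (𝓡 (m + 1)) 1 (α.toFun γ) (φ x) :=
    ((α.smooth γ).contMDiffAt).of_le (by exact_mod_cast le_top)
  have hmem : α.toFun γ (φ x) ∈ c'.c.source := by
    rw [← hst γ x]
    exact c'.mem
  refine bound_at hM c (φ x) c.mem ⟨x, rfl⟩ (fun z => (c'.c (α.toFun γ z)).2) ?_ ?_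
  · exact ContMDiffAt.comp (g := fun z => (c'.c z).2) (f := α.toFun γ) _
      (snd_smooth c' _ hmem) hsm
  · have h1 : ∀ᶠ z in 𝓝 (φ x), α.toFun γ z ∈ c'.c.source :=
      hsm.continuousAt.eventually (c'.c.open_source.mem_nhds hmem)
    filter_upwards [h1] with z hz hz2
    obtain ⟨w, rfl⟩ := hz2
    refine (c'.zero _ hz).1 ?_
    rw [← hst γ w]
    exact ⟨_, rfl⟩

end Pool.Agent.Work.MP_20070e_gt.X
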