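import Mathlib
import Pool.Agent.Work.MP_20070e_gt.X.Defs

/-!
# X/TCur (M): the curve `cur A t`

`det (1 + t A)` is a polynomial in `t`, equal to `1` at `t = 0`, with derivative `tr A` there (`Matrix.det_one_add_smul`: `det (1 + t A) = 1 + tr A t + t² (..)`;
or `derivative_det_one_add_X_smul`). So for `t` near `0` it is positive and for `tr A = 0` the function `t ↦ (det (1 + t A))^{-1/n}` has value `1` and derivative `0` at `0`; the product rule
gives the derivative `A` for the matrix `(det (1 + t A))^{-1/n} (1 + t A)`.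
`cur_conj`: `1 + t g A g⁻¹ = g (1 + t A) g⁻¹` has the same determinant.
-/

set_option autoImplicit false

open Matrix Topology Metric Filter ContDiff Manifold

namespace Pool.Agent.Work.MP_20070e_gt.X

private theorem cur_pos {n : ℕ} {A : Mat n} {t : ℝ} (h : 0 < n ∧ 0 < (1 + t • A).det) :
    (cur A t).1 = ((1 + t • A).det ^ (-(1 / (n : ℝ)))) • (1 + t • A) :=
  congrArg Subtype.val (dif_pos h)

private theorem cur_neg {n : ℕ} {A : Mat n} {t : ℝ} (h : ¬ (0 < n ∧ 0 < (1 + t • A).det)) :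
    cur A t = 1 := dif_neg h

theorem cur_zero {n : ℕ} (A : Mat n) : cur A 0 = 1 := by
  by_cases h : 0 < n ∧ 0 < (1 + (0 : ℝ) • A).det
  · apply Subtype.ext
    rw [cur_pos h, zero_smul, add_zero, Matrix.det_one, Real.one_rpow, one_smul]
    rfl
  · exact cur_neg h

private theorem conj_eq {n : ℕ} (g : SLn n) (A : Mat n) (t : ℝ) :
    1 + t • (g.1 * A * (g⁻¹).1) = g.1 * (1 + t • A) * (g⁻¹).1 := by
  have h1 : g.1 * (g⁻¹).1 = 1 := by
    exact congrArg Subtype.val (mul_inv_cancel g)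
  rw [mul_add, add_mul, mul_one, h1, Matrix.mul_smul, Matrix.smul_mul]

private theorem conj_det {n : ℕ} (g : SLn n) (A : Mat n) (t : ℝ) :
    (1 + t • (g.1 * A * (g⁻¹).1)).det = (1 + t • A).det := by
  rw [conj_eq, Matrix.det_mul, Matrix.det_mul, g.2, (g⁻¹).2, one_mul, mul_one]

theorem cur_conj {n : ℕ} (g : SLn n) (A : Mat n) (t : ℝ) :
    cur (g.1 * A * (g⁻¹).1) t = g * cur A t * g⁻¹ := by
  by_cases h : 0 < n ∧ 0 < (1 + t • A).det
  · have h' : 0 < n ∧ 0 < (1 + t • (g.1 * A * (g⁻¹).1)).det := by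
      rw [conj_det]
      exact h
    apply Subtype.ext
    change (cur (g.1 * A * (g⁻¹).1) t).1 = g.1 * (cur A t).1 * (g⁻¹).1
    rw [cur_pos h, cur_pos h', conj_det, conj_eq, Matrix.mul_smul, Matrix.smul_mul]
  · have h' : ¬ (0 < n ∧ 0 < (1 + t • (g.1 * A * (g⁻¹).1)).det) := by
      rw [conj_det]
      exact h
    rw [cur_neg h, cur_neg h', mul_one, mul_inv_cancel]

private theorem det_deriv {n : ℕ} (A : Mat n) (hA : A.trace = 0) :
    HasDerivAt (fun t : ℝ => (1 + t • A).det) 0 0 := by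
  have h1 : (fun t : ℝ => (1 + t • A).det) = fun t : ℝ =>
      1 + A.trace * t + (det (1 + (Polynomial.X : Polynomial ℝ) • A.map Polynomial.C)).divX.divX.eval t * t ^ 2 := by
    funext t
    exact Matrix.det_one_add_smul t A
  rw [h1, hA]
  set q := (det (1 + (Polynomial.X : Polynomial ℝ) • A.map Polynomial.C)).divX.divX
  have h3 := (q.hasDerivAt (0 : ℝ)).fun_mul (hasDerivAt_pow 2 (0 : ℝ))
  have h6 := h3.const_add 1
  have h7 : (fun t : ℝ => 1 + 0 * t + q.eval t * t ^ 2) = fun t : ℝ => 1 + q.eval t * t ^ 2 := by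
    funext t
    rw [zero_mul, add_zero]
  rw [h7]
  refine h6.congr_deriv ?_
  simp

theorem cur_hasDerivAt {n : ℕ} (hn : 0 < n) (A : Mat n) (hA : A.trace = 0) :
    HasDerivAt (fun t : ℝ => ent (cur A t)) (fun i j => A i j) 0 := by
  have hd := det_deriv A hA
  have h0 : (1 + (0 : ℝ) • A).det = 1 := by simp
  have hpos : ∀ᶠ t : ℝ in 𝓝 0, 0 < (1 + t • A).det := by
    have hc := hd.continuousAt
    have : 0 < (fun t : ℝ => (1 + t • A).det) 0 := by
      simp
    exact hc.eventually (lt_mem_nhds this)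
  have heq : (fun t : ℝ => ent (cur A t)) =ᶠ[𝓝 0] fun t i j =>
      (1 + t • A).det ^ (-(1 / (n : ℝ))) * (1 + t • A) i j := by
    filter_upwards [hpos] with t ht
    funext i j
    change (cur A t).1 i j = _
    rw [cur_pos ⟨hn, ht⟩]
    rfl
  refine HasDerivAt.congr_of_eventuallyEq ?_ heq
  rw [hasDerivAt_pi]
  intro i
  rw [hasDerivAt_pi]
  intro j
  have h1 : HasDerivAt (fun t : ℝ => (1 + t • A).det ^ (-(1 / (n : ℝ)))) 0 0 := by
    have h2 := hd.rpow_const (p := -(1 / (n : ℝ))) (Or.inl (by rw [h0]; exact one_ne_zero))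
    simpa using h2
  have h3 : HasDerivAt (fun t : ℝ => (1 + t • A) i j) (A i j) 0 := by
    have h4 : (fun t : ℝ => (1 + t • A) i j) = fun t : ℝ => (1 : Mat n) i j + t * A i j := by
      funext t
      simp [Matrix.add_apply, Matrix.smul_apply]
    rw [h4]
    simpa using ((hasDerivAt_id (0 : ℝ)).mul_const (A i j)).const_add ((1 : Mat n) i j)
  have h5 := h1.mul h3
  have h6 : (0 : ℝ) * (1 + (0 : ℝ) • A) i j + (1 + (0 : ℝ) • A).det ^ (-(1 / (n : ℝ))) * A i j = A i j := by
    rw [h0, Real.one_rpow]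
    ring
  rw [h6] at h5
  exact h5

theorem cur_tendsto {n : ℕ} (hn : 0 < n) (A : Mat n) (hA : A.trace = 0) :
    Tendsto (fun t : ℝ => cur A t) (𝓝 0) (𝓝 1) := by
  have h1 := (cur_hasDerivAt hn A hA).continuousAt
  refine (Topology.IsInducing.subtypeVal (t := {B : Mat n | B.det = 1})).tendsto_nhds_iff.2 ?_
  refine tendsto_pi_nhds.2 ?_
  intro i
  rw [tendsto_pi_nhds]
  intro j
  have h2 : Tendsto (fun t : ℝ => ent (cur A t)) (𝓝 0) (𝓝 (ent (cur A 0))) := h1
  rw [cur_zero, tendsto_pi_nhds] at h2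
  have h3 := h2 i
  rw [tendsto_pi_nhds] at h3
  exact h3 j

end Pool.Agent.Work.MP_20070e_gt.X
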