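import Mathlib
import Pool.Agent.Work.MP_20070e_gt.X.Defs

/-!
# X/TFlat (M): flattening a hypersurface (pure calculus)

Choose `v₀ : Eu (m+1)` not in the range of `D := fderiv ℝ F a` (its dimension is at most `m < m + 1`). Put `G (u, r) = F u + r • v₀` on
`V × ℝ` (open). `G` is `C^∞` there; its derivative at `(a, 0)` is `(u', r') ↦ D u' + r' • v₀`, injective (`D` is injective and `v₀ ∉ range D`), hence a
linear isomorphism `Eu m × ℝ ≃L Eu (m+1)` (equal finite dimensions, `LinearEquiv.ofInjectiveEndo`/`LinearMap.linearEquivOfInjective`,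
`LinearEquiv.toContinuousLinearEquiv`). The inverse function theorem (`ContDiffAt.toOpenPartialHomeomorph` or
`HasStrictFDerivAt.toOpenPartialHomeomorph`) gives an open partial homeomorphism; restrict its source to the open set of the points of `V × ℝ` at which
the derivative of `G` is invertible (the set of continuous linear equivalences is open: `ContinuousLinearEquiv.nhds`, continuity of `fderiv G` on
`V × ℝ`); then the inverse is `C^∞` on the target by `OpenPartialHomeomorph.contDiffAt_symm`.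
-/

set_option autoImplicit false

open Matrix Topology Metric Filter ContDiff

namespace Pool.Agent.Work.MP_20070e_gt.X

theorem flat_chart {m : ℕ} (F : Eu m → Eu (m + 1)) (a : Eu m) (V : Set (Eu m)) (hV : IsOpen V)
    (ha : a ∈ V) (hF : ContDiffOn ℝ ∞ F V) (hinj : Function.Injective (fderiv ℝ F a)) :
    ∃ Ψ : OpenPartialHomeomorph (Eu m × ℝ) (Eu (m + 1)), (a, 0) ∈ Ψ.source ∧
      (∀ p ∈ Ψ.source, p.1 ∈ V) ∧ (∀ p ∈ Ψ.source, p.2 = 0 → Ψ p = F p.1) ∧
      ContDiffOn ℝ ∞ Ψ Ψ.source ∧ ContDiffOn ℝ ∞ Ψ.symm Ψ.target := by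
  classical
  set D := fderiv ℝ F a with hD
  obtain ⟨v₀, hv₀⟩ : ∃ v : Eu (m + 1), v ∉ LinearMap.range D.toLinearMap := by
    by_contra hcon
    push Not at hcon
    have h1 : LinearMap.range D.toLinearMap = ⊤ := by
      rw [Submodule.eq_top_iff']
      exact hcon
    have h2 := LinearMap.finrank_range_le D.toLinearMap
    rw [h1, finrank_top, finrank_euclideanSpace_fin, finrank_euclideanSpace_fin] at h2
    omega
  let G : Eu m × ℝ → Eu (m + 1) := fun p => F p.1 + p.2 • v₀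
  let O : Set (Eu m × ℝ) := Prod.fst ⁻¹' V
  have hO : IsOpen O := hV.preimage continuous_fst
  have hG : ContDiffOn ℝ ∞ G O := by
    refine ContDiffOn.add (hF.comp contDiff_fst.contDiffOn (fun p hp => hp)) ?_
    exact (contDiff_snd.smul contDiff_const).contDiffOn
  have haO : ((a, 0) : Eu m × ℝ) ∈ O := ha
  have hGat : ∀ p ∈ O, ContDiffAt ℝ ∞ G p := fun p hp => (hG p hp).contDiffAt (hO.mem_nhds hp)
  have hn : (∞ : WithTop ℕ∞) ≠ 0 := by simp
  let L : Eu m × ℝ →L[ℝ] Eu (m + 1) :=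
    D.comp (ContinuousLinearMap.fst ℝ (Eu m) ℝ) +
      (ContinuousLinearMap.snd ℝ (Eu m) ℝ).smulRight v₀
  have hL : HasFDerivAt G L ((a, 0) : Eu m × ℝ) := by
    have h1 : HasFDerivAt F D a :=
      (((hF a ha).contDiffAt (hV.mem_nhds ha)).differentiableAt hn).hasFDerivAt
    have h2 : HasFDerivAt (fun p : Eu m × ℝ => F p.1)
        (D.comp (ContinuousLinearMap.fst ℝ (Eu m) ℝ)) ((a, 0) : Eu m × ℝ) :=
      HasFDerivAt.comp (g := F) ((a, 0) : Eu m × ℝ) h1 hasFDerivAt_fst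
    have h3 : HasFDerivAt (fun p : Eu m × ℝ => p.2 • v₀)
        ((ContinuousLinearMap.snd ℝ (Eu m) ℝ).smulRight v₀) ((a, 0) : Eu m × ℝ) :=
      hasFDerivAt_snd.smul_const v₀
    exact h2.add h3
  have hLapp : ∀ q : Eu m × ℝ, L q = D q.1 + q.2 • v₀ := fun q => rfl
  have hLinj : Function.Injective L.toLinearMap := by
    rw [← LinearMap.ker_eq_bot, LinearMap.ker_eq_bot']
    intro q hq
    have h1 : D q.1 + q.2 • v₀ = 0 := hq
    have h2 : q.2 = 0 := by
      by_contra h2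
      apply hv₀
      refine ⟨-(q.2⁻¹ • q.1), ?_⟩
      have h3 : D q.1 = -(q.2 • v₀) := eq_neg_of_add_eq_zero_left h1
      show D (-(q.2⁻¹ • q.1)) = v₀
      rw [map_neg, map_smul, h3, smul_neg, neg_neg, smul_smul, inv_mul_cancel₀ h2, one_smul]
    rw [h2, zero_smul, add_zero] at h1
    have h3 : q.1 = 0 := hinj (by rw [h1, map_zero])
    exact Prod.ext h3 h2
  let Le : (Eu m × ℝ) ≃ₗ[ℝ] Eu (m + 1) := LinearMap.linearEquivOfInjective L.toLinearMap hLinj (by
    rw [Module.finrank_prod, finrank_euclideanSpace_fin, finrank_euclideanSpace_fin,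
      Module.finrank_self])
  let Lc : (Eu m × ℝ) ≃L[ℝ] Eu (m + 1) := Le.toContinuousLinearEquiv
  have hLc : (Lc : Eu m × ℝ →L[ℝ] Eu (m + 1)) = L :=
    ContinuousLinearMap.ext (fun q => rfl)
  have hLc' : HasFDerivAt G (Lc : Eu m × ℝ →L[ℝ] Eu (m + 1)) ((a, 0) : Eu m × ℝ) := by
    rw [hLc]
    exact hL
  let e := (hGat _ haO).toOpenPartialHomeomorph G hLc' hn
  have he : ∀ p, e p = G p := fun p => rfl
  let s : Set (Eu m × ℝ) := O ∩ (fderiv ℝ G) ⁻¹'
    (Set.range (fun T : (Eu m × ℝ) ≃L[ℝ] Eu (m + 1) => (T : Eu m × ℝ →L[ℝ] Eu (m + 1))))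
  have hs : IsOpen s := by
    refine ContinuousOn.isOpen_inter_preimage ?_ hO ContinuousLinearEquiv.isOpen
    exact hG.continuousOn_fderiv_of_isOpen hO (by simp)
  let Ψ := e.restrOpen s hs
  have hsrc : Ψ.source = e.source ∩ s := e.restrOpen_source s hs
  have hΨ : ∀ p, Ψ p = G p := fun p => rfl
  refine ⟨Ψ, ?_, ?_, ?_, ?_, ?_⟩
  · rw [hsrc]
    refine ⟨(hGat _ haO).mem_toOpenPartialHomeomorph_source hLc' hn, haO, ?_⟩
    exact ⟨Lc, hLc'.fderiv.symm⟩
  · intro p hp
    rw [hsrc] at hp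
    exact hp.2.1
  · intro p _ hp2
    rw [hΨ]
    show F p.1 + p.2 • v₀ = F p.1
    rw [hp2, zero_smul, add_zero]
  · refine hG.mono ?_
    intro p hp
    rw [hsrc] at hp
    exact hp.2.1
  · intro y hy
    have hp : Ψ.symm y ∈ Ψ.source := Ψ.map_target hy
    rw [hsrc] at hp
    obtain ⟨T, hT⟩ := hp.2.2
    have h1 : ContDiffAt ℝ ∞ G (Ψ.symm y) := hGat _ hp.2.1
    have h2 : HasFDerivAt Ψ (T : Eu m × ℝ →L[ℝ] Eu (m + 1)) (Ψ.symm y) := by
      have h3 := (h1.differentiableAt hn).hasFDerivAt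
      have h4 : (T : Eu m × ℝ →L[ℝ] Eu (m + 1)) = fderiv ℝ G (Ψ.symm y) := hT
      rw [h4]
      exact h3
    exact (Ψ.contDiffAt_symm hy h2 h1).contDiffWithinAt

end Pool.Agent.Work.MP_20070e_gt.X
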