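import Mathlib
import Pool.Agent.Work.MP_20070e_gt.X.TFlat

/-!
# X/TAd (M-L): adapted charts exist

Let `z = φ x`, `e = chartAt (Eu (m+1)) z` (an `OpenPartialHomeomorph M (Eu (m+1))`, in the maximal atlas, so smooth on its source with smooth inverse on
its target: `contMDiffOn_chart`, `contMDiffOn_chart_symm`), `s = chartAt (Eu m) x` (a chart of the sphere; the sphere is a smooth manifold,
`EuclideanSpace.instIsManifoldSphere` needs `Fact (finrank = m + 1)`, see `incl_smooth` in `../N1.lean`). `F = e ∘ φ ∘ s.symm` on the open set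
`V = {u ∈ s.target : φ (s.symm u) ∈ e.source}`, `a = s x`. `F` is `C^∞` on `V` (composition of `ContMDiffOn`, `contMDiffOn_iff_contDiffOn`); `fderiv ℝ F a` is
`mfderiv φ x` read in the charts (`mfderiv` of a composition of three maps, the charts have invertible derivatives; or directly the definition of
`mfderiv` with `writtenInExtChartAt`, `range I = univ`, `fderivWithin_univ`), hence injective by `InjDeriv`.

`flat_chart` gives `Ψ`. Let `S₁ = {y ∈ s.source : (s y, 0) ∈ Ψ.source}`: an open neighbourhood of `x` in the sphere. Let `R = univ \ S₁` if `proj` is false and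
`R = univ \ (S₁ ∪ -S₁)` if `proj` is true: compact, and `z ∉ φ '' R` (if `φ y = φ x` then `y = x`, or `proj` and `y = -x`). `φ '' R` is compact, hence closed (`M` is Hausdorff). Let `O`
be its complement. If `φ y ∈ O` then `φ y = φ y'` for some `y' ∈ S₁` (`y' = y` or, if `proj`, `y' = -y`).

`c := (e restricted to O) ≫ Ψ.symm` (`OpenPartialHomeomorph.restr`, `.trans`). `c.source = {y ∈ e.source ∩ O : e y ∈ Ψ.target}`. `φ x ∈ c.source`: `e z = F a = Ψ (a, 0)`. `zero`: if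
`y ∈ c.source` and `y ∈ range φ`, then `y = φ y'` with `y' ∈ S₁`, `e y = F (s y') = Ψ (s y', 0)` (here `s y' ∈ V` since `(s y', 0) ∈ Ψ.source`), so `c y = (s y', 0)`. Conversely if
`(c y).2 = 0`, `c y = (u, 0) ∈ Ψ.source`, `u ∈ V`, then `e y = Ψ (u, 0) = F u = e (φ (s.symm u))`, both points in `e.source`, so `y = φ (s.symm u)`.
-/

set_option autoImplicit false

open Matrix Topology Metric Filter ContDiff Manifold

namespace Pool.Agent.Work.MP_20070e_gt.X

theorem exists_adChart {proj : Prop} {m : ℕ} {M : Type} [TopologicalSpace M]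
    [ChartedSpace (Eu (m + 1)) M] (hM : IsSmoothManifold (m + 1) M) {φ : Sph (m + 1) → M}
    (hφ : IsModel proj φ) (x : Sph (m + 1)) : Nonempty (AdChart φ x) := by
  classical
  obtain ⟨hT2, -, hMan⟩ := hM
  obtain ⟨hsm, hinj, hfib⟩ := hφ
  have hφc : Continuous φ := hsm.continuous
  set e : OpenPartialHomeomorph M (Eu (m + 1)) := chartAt (Eu (m + 1)) (φ x) with he
  set s : OpenPartialHomeomorph (Sph (m + 1)) (Eu m) := chartAt (Eu m) x with hs
  have hxs : x ∈ s.source := mem_chart_source _ _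
  have hxe : φ x ∈ e.source := mem_chart_source _ _
  set F : Eu m → Eu (m + 1) := fun u => e (φ (s.symm u)) with hF
  set V : Set (Eu m) := s.target ∩ s.symm ⁻¹' (φ ⁻¹' e.source) with hV
  have hVo : IsOpen V := s.isOpen_inter_preimage_symm (e.open_source.preimage hφc)
  have haV : s x ∈ V := ⟨s.map_source hxs, by
    show φ (s.symm (s x)) ∈ e.source
    rw [s.left_inv hxs]; exact hxe⟩
  have hFs : ContDiffOn ℝ ∞ F V := by
    rw [← contMDiffOn_iff_contDiffOn]
    have h1 : ContMDiffOn 𝓘(ℝ, Eu m) 𝓘(ℝ, Eu m) ∞ s.symm s.target :=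
      contMDiffOn_chart_symm
    have h2 : ContMDiffOn 𝓘(ℝ, Eu (m + 1)) 𝓘(ℝ, Eu (m + 1)) ∞ e e.source :=
      contMDiffOn_chart
    have h3 : ContMDiffOn 𝓘(ℝ, Eu m) 𝓘(ℝ, Eu (m + 1)) ∞ (φ ∘ s.symm) V :=
      hsm.comp_contMDiffOn (h1.mono (fun u hu => hu.1))
    exact h2.comp h3 (fun u hu => hu.2)
  have hFd : Function.Injective (fderiv ℝ F (s x)) := by
    have h1 := hinj x
    have h2 : MDifferentiableAt 𝓘(ℝ, Eu m) 𝓘(ℝ, Eu (m + 1)) φ x :=
      (hsm.mdifferentiable (by simp)) x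
    have h3 := h2.mfderiv
    rw [ModelWithCorners.range_eq_univ, fderivWithin_univ] at h3
    have h4 : ∀ w : Eu m, mfderiv 𝓘(ℝ, Eu m) 𝓘(ℝ, Eu (m + 1)) φ x w = fderiv ℝ F (s x) w := by
      intro w
      rw [h3]
      rfl
    intro w w' hww
    apply h1
    exact (h4 w).trans (hww.trans (h4 w').symm)
  obtain ⟨Ψ, hΨa, hΨV, hΨF, hΨ1, hΨ2⟩ := flat_chart F (s x) V hVo haV hFs hFd
  set S₁ : Set (Sph (m + 1)) := s.source ∩ s ⁻¹' {u | ((u, 0) : Eu m × ℝ) ∈ Ψ.source} with hS₁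
  have hS₁o : IsOpen S₁ := s.isOpen_inter_preimage
    (Ψ.open_source.preimage (Continuous.prodMk_left (0 : ℝ)))
  have hxS : x ∈ S₁ := ⟨hxs, hΨa⟩
  set R : Set (Sph (m + 1)) := {y | y ∉ S₁ ∧ (proj → -y ∉ S₁)} with hR
  have hRc : IsClosed R := by
    by_cases hp : proj
    · have h1 : R = S₁ᶜ ∩ (fun y : Sph (m + 1) => -y) ⁻¹' S₁ᶜ := by
        ext y
        simp only [hR, Set.mem_ofPred_eq, Set.mem_inter_iff, Set.mem_compl_iff, Set.mem_preimage]
        tauto
      rw [h1]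
      exact hS₁o.isClosed_compl.inter (hS₁o.isClosed_compl.preimage continuous_neg)
    · have h1 : R = S₁ᶜ := by
        ext y
        simp only [hR, Set.mem_ofPred_eq, Set.mem_compl_iff]
        tauto
      rw [h1]
      exact hS₁o.isClosed_compl
  have hRim : IsClosed (φ '' R) := (hRc.isCompact.image hφc).isClosed
  set O : Set M := (φ '' R)ᶜ with hO
  have hOo : IsOpen O := hRim.isOpen_compl
  have hxO : φ x ∈ O := by
    rintro ⟨y, hy, hyx⟩
    rcases (hfib y x).1 hyx with h | ⟨hp, h⟩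
    · exact hy.1 (h ▸ hxS)
    · apply hy.2 hp
      rw [h, neg_neg]
      exact hxS
  have hrep : ∀ y, φ y ∈ O → ∃ y' ∈ S₁, φ y' = φ y := by
    intro y hy
    by_cases h1 : y ∈ S₁
    · exact ⟨y, h1, rfl⟩
    · by_cases h2 : proj ∧ -y ∈ S₁
      · exact ⟨-y, h2.2, (hfib (-y) y).2 (Or.inr ⟨h2.1, rfl⟩)⟩
      · exact absurd ⟨y, ⟨h1, fun hp h3 => h2 ⟨hp, h3⟩⟩, rfl⟩ hy
  set c : OpenPartialHomeomorph M (Eu m × ℝ) := (e.restrOpen O hOo).trans Ψ.symm with hc
  have hcs : ∀ y, y ∈ c.source ↔ (y ∈ e.source ∧ y ∈ O) ∧ e y ∈ Ψ.target := by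
    intro y
    rw [hc, OpenPartialHomeomorph.trans_source]
    exact Iff.rfl
  have hcy : ∀ y, c y = Ψ.symm (e y) := fun y => rfl
  have hemap : e (φ x) = Ψ (s x, 0) := by
    rw [hΨF _ hΨa rfl]
    show e (φ x) = e (φ (s.symm (s x)))
    rw [s.left_inv hxs]
  refine ⟨⟨c, ?_, ?_, ?_, ?_⟩⟩
  · rw [hcs]
    exact ⟨⟨hxe, hxO⟩, by rw [hemap]; exact Ψ.map_source hΨa⟩
  · intro y hy
    obtain ⟨⟨hye, hyO⟩, hyt⟩ := (hcs y).1 hy
    constructor
    · rintro ⟨z, rfl⟩
      obtain ⟨y', hy', hyy⟩ := hrep z hyO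
      have h1 : e (φ z) = Ψ (s y', 0) := by
        rw [hΨF _ hy'.2 rfl]
        show e (φ z) = e (φ (s.symm (s y')))
        rw [s.left_inv hy'.1, hyy]
      rw [hcy, h1, Ψ.left_inv hy'.2]
    · intro h0
      rw [hcy] at h0
      have h1 : Ψ.symm (e y) ∈ Ψ.source := Ψ.map_target hyt
      have h2 := hΨF _ h1 h0
      rw [Ψ.right_inv hyt] at h2
      have h3 := hΨV _ h1
      have h4 : φ (s.symm (Ψ.symm (e y)).1) ∈ e.source := h3.2
      exact ⟨s.symm (Ψ.symm (e y)).1, (e.injOn h4 hye h2.symm)⟩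
  · have h2 : ContMDiffOn 𝓘(ℝ, Eu (m + 1)) 𝓘(ℝ, Eu (m + 1)) ∞ e e.source :=
      contMDiffOn_chart
    exact hΨ2.contMDiffOn.comp (h2.mono (fun y hy => ((hcs y).1 hy).1.1))
      (fun y hy => ((hcs y).1 hy).2)
  · have h2 : ContMDiffOn 𝓘(ℝ, Eu (m + 1)) 𝓘(ℝ, Eu (m + 1)) ∞ e.symm e.target :=
      contMDiffOn_chart_symm
    have hct : ∀ p ∈ c.target, p ∈ Ψ.source ∧ Ψ p ∈ e.target := by
      intro p hp
      rw [hc, OpenPartialHomeomorph.trans_target] at hp
      refine ⟨hp.1, ?_⟩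
      have h3 : Ψ p ∈ (e.restrOpen O hOo).target := hp.2
      exact h3.1
    exact h2.comp (hΨ1.contMDiffOn.mono (fun p hp => (hct p hp).1)) (fun p hp => (hct p hp).2)

end Pool.Agent.Work.MP_20070e_gt.X
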