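import Mathlib
import Pool.Agent.Work.MP_20070e_gt.X.TAd
import Pool.Agent.Work.MP_20070e_gt.N2

/-!
# X/TExt (M): the local action in adapted charts

Let `c` be an adapted chart at `x` (`exists_adChart`), `z = φ x`; `(1, z) ∈ W`. `SmoothOnSL` gives `N ∈ 𝓝 (ent 1, z)` and `Θ`, `C^∞` on `N`, with `Θ (ent g, y) = θ (g, y)` for `(g, y) ∈ W`,
`(ent g, y) ∈ N`. Put `F (B, w) = c (Θ (B, c.symm w))`. At `(ent 1, c z)`: `w ↦ c.symm w` is smooth, `Θ` is smooth at `(ent 1, z)`, `Θ (ent 1, z) = θ (1, z) = z`, `c` is smooth at `z`: so `F` is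
`ContMDiffAt`, hence `ContDiffAt` (`modelWithCornersSelf_prod`, `chartedSpaceSelf_prod`, `contMDiffAt_iff_contDiffAt`, as in `exists_locAct` in `../N2.lean`).
`eqF`: `W` is open, so `(g, y) ∈ W` for `g` near `1` and `y` near `z`; `g` near `1` means `ent g` near `ent 1` (`nhds_one_eq` in `../C2.lean`); `c.symm w → z` as `w → c z`; `(ent g, c.symm w) ∈ N`
eventually; so `θ (g, c.symm w) = Θ (ent g, c.symm w)`, which is in `c.source` eventually (continuity of `Θ` at `(ent 1, z)`, `c.source` open).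
-/

set_option autoImplicit false

open Matrix Topology Metric Filter ContDiff Manifold

namespace Pool.Agent.Work.MP_20070e_gt.X

theorem exists_extChart {proj : Prop} {m : ℕ} {M : Type} [TopologicalSpace M]
    [ChartedSpace (Eu (m + 1)) M] (hM : IsSmoothManifold (m + 1) M) {φ : Sph (m + 1) → M}
    (hφ : IsModel proj φ) {Γ : Subgroup (SLn (m + 1))} {α : SmoothAction Γ M} {U : Set M}
    {W : Set (SLn (m + 1) × M)} {θ : SLn (m + 1) × M → M}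
    (hθ : IsLocalExtension α (Set.range φ) U W θ) (x : Sph (m + 1)) :
    Nonempty (ExtChart φ W θ x) := by
  obtain ⟨c⟩ := exists_adChart hM hφ x
  have hWo : IsOpen W := hθ.2.2.1
  have hSW : ∀ (g : SLn (m + 1)), ∀ x ∈ Set.range φ, (g, x) ∈ W := hθ.2.2.2.2.1
  have hsm : SmoothOnSL W θ := hθ.2.2.2.2.2.1
  have h1 : ∀ x, (1, x) ∈ W → θ (1, x) = x := hθ.2.2.2.2.2.2.1
  have hz : ((1 : SLn (m + 1)), φ x) ∈ W := hSW 1 _ ⟨x, rfl⟩
  obtain ⟨N, hN, Θ, hΘ, heq⟩ := hsm _ hz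
  simp only at hN heq
  have hΘ1 : ContMDiffAt (𝓘(ℝ, Fin (m + 1) → Fin (m + 1) → ℝ).prod (𝓡 (m + 1))) (𝓡 (m + 1)) ∞ Θ
      (ent (1 : SLn (m + 1)), φ x) := ContMDiffOn.contMDiffAt hΘ hN
  have hΘz : Θ (ent (1 : SLn (m + 1)), φ x) = φ x := by
    rw [heq (1, φ x) hz (mem_of_mem_nhds hN)]
    exact h1 _ hz
  have hsymm : ContMDiffAt 𝓘(ℝ, Eu m × ℝ) (𝓡 (m + 1)) ∞ c.c.symm (c.c (φ x)) :=
    c.smooth_symm.contMDiffAt (c.c.open_target.mem_nhds (c.c.map_source c.mem))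
  have hcz : c.c.symm (c.c (φ x)) = φ x := c.c.left_inv c.mem
  have hr : ContMDiffAt (𝓘(ℝ, Fin (m + 1) → Fin (m + 1) → ℝ).prod 𝓘(ℝ, Eu m × ℝ))
      (𝓘(ℝ, Fin (m + 1) → Fin (m + 1) → ℝ).prod (𝓡 (m + 1))) ∞
      (fun p : (Fin (m + 1) → Fin (m + 1) → ℝ) × (Eu m × ℝ) => (p.1, c.c.symm p.2))
      (ent (1 : SLn (m + 1)), c.c (φ x)) := by
    apply ContMDiffAt.prodMk
    · exact contMDiffAt_fst
    · exact ContMDiffAt.comp (g := c.c.symm)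
        (f := fun p : (Fin (m + 1) → Fin (m + 1) → ℝ) × (Eu m × ℝ) => p.2) _
        hsymm contMDiffAt_snd
  have h3 : ContMDiffAt (𝓘(ℝ, Fin (m + 1) → Fin (m + 1) → ℝ).prod 𝓘(ℝ, Eu m × ℝ)) (𝓡 (m + 1)) ∞
      (fun p : (Fin (m + 1) → Fin (m + 1) → ℝ) × (Eu m × ℝ) => Θ (p.1, c.c.symm p.2))
      (ent (1 : SLn (m + 1)), c.c (φ x)) :=
    ContMDiffAt.comp (g := Θ)
      (f := fun p : (Fin (m + 1) → Fin (m + 1) → ℝ) × (Eu m × ℝ) => (p.1, c.c.symm p.2)) _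
      (by simp only [hcz]; exact hΘ1) hr
  have hc : ContMDiffAt (𝓡 (m + 1)) 𝓘(ℝ, Eu m × ℝ) ∞ c.c (φ x) :=
    c.smooth.contMDiffAt (c.c.open_source.mem_nhds c.mem)
  have h4 : ContMDiffAt (𝓘(ℝ, Fin (m + 1) → Fin (m + 1) → ℝ).prod 𝓘(ℝ, Eu m × ℝ))
      𝓘(ℝ, Eu m × ℝ) ∞
      (fun p : (Fin (m + 1) → Fin (m + 1) → ℝ) × (Eu m × ℝ) => c.c (Θ (p.1, c.c.symm p.2)))
      (ent (1 : SLn (m + 1)), c.c (φ x)) :=
    ContMDiffAt.comp (g := c.c)
      (f := fun p : (Fin (m + 1) → Fin (m + 1) → ℝ) × (Eu m × ℝ) => Θ (p.1, c.c.symm p.2)) _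
      (by simp only [hcz, hΘz]; exact hc) h3
  have h5 : ContDiffAt ℝ ∞
      (fun p : (Fin (m + 1) → Fin (m + 1) → ℝ) × (Eu m × ℝ) => c.c (Θ (p.1, c.c.symm p.2)))
      (ent (1 : SLn (m + 1)), c.c (φ x)) := by
    rw [← contMDiffAt_iff_contDiffAt]
    rw [modelWithCornersSelf_prod, ← chartedSpaceSelf_prod]
    exact h4
  refine ⟨{ toAdChart := c
            F := fun p => c.c (Θ (p.1, c.c.symm p.2))
            smoothF := h5.of_le (show ((2 : ℕ∞) : WithTop ℕ∞) ≤ ((⊤ : ℕ∞) : WithTop ℕ∞) from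
              WithTop.coe_le_coe.2 le_top)
            eqF := ?_ }⟩
  obtain ⟨A, hA, B, hB, hAB⟩ := mem_nhds_prod_iff.1 (hWo.mem_nhds hz)
  obtain ⟨ε, hε, hεA⟩ := nhds_one_eq A hA
  have k1 : ∀ᶠ p : (Fin (m + 1) → Fin (m + 1) → ℝ) × (Eu m × ℝ) in
      𝓝 (ent (1 : SLn (m + 1)), c.c (φ x)), ‖p.1 - ent (1 : SLn (m + 1))‖ < ε := by
    have : ContinuousAt (fun p : (Fin (m + 1) → Fin (m + 1) → ℝ) × (Eu m × ℝ) =>
        ‖p.1 - ent (1 : SLn (m + 1))‖) (ent (1 : SLn (m + 1)), c.c (φ x)) := by fun_prop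
    refine this.eventually_lt_const ?_
    simpa using hε
  have k2 : ContinuousAt (fun p : (Fin (m + 1) → Fin (m + 1) → ℝ) × (Eu m × ℝ) =>
      (p.1, c.c.symm p.2)) (ent (1 : SLn (m + 1)), c.c (φ x)) := hr.continuousAt
  have k3 : ContinuousAt (fun p : (Fin (m + 1) → Fin (m + 1) → ℝ) × (Eu m × ℝ) =>
      Θ (p.1, c.c.symm p.2)) (ent (1 : SLn (m + 1)), c.c (φ x)) := h3.continuousAt
  have k4 : ∀ᶠ p : (Fin (m + 1) → Fin (m + 1) → ℝ) × (Eu m × ℝ) in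
      𝓝 (ent (1 : SLn (m + 1)), c.c (φ x)), (p.1, c.c.symm p.2) ∈ N := by
    apply k2
    simp only [hcz]
    exact hN
  have k5 : ∀ᶠ p : (Fin (m + 1) → Fin (m + 1) → ℝ) × (Eu m × ℝ) in
      𝓝 (ent (1 : SLn (m + 1)), c.c (φ x)), Θ (p.1, c.c.symm p.2) ∈ c.c.source := by
    apply k3
    simp only [hcz, hΘz]
    exact c.c.open_source.mem_nhds c.mem
  have k6 : ∀ᶠ p : (Fin (m + 1) → Fin (m + 1) → ℝ) × (Eu m × ℝ) in
      𝓝 (ent (1 : SLn (m + 1)), c.c (φ x)), c.c.symm p.2 ∈ B := by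
    have h6 : ContinuousAt (fun p : (Fin (m + 1) → Fin (m + 1) → ℝ) × (Eu m × ℝ) =>
      c.c.symm p.2) (ent (1 : SLn (m + 1)), c.c (φ x)) := continuousAt_snd.comp k2
    apply h6
    simp only [hcz]
    exact hB
  filter_upwards [k1, k4, k5, k6] with p p1 p4 p5 p6 g hg
  have hgW : (g, c.c.symm p.2) ∈ W := hAB ⟨hεA g (by rw [hg]; exact p1), p6⟩
  have h6 := heq (g, c.c.symm p.2) hgW (by simp only; rw [hg]; exact p4)
  simp only at h6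
  rw [hg] at h6
  refine ⟨hgW, ?_, ?_⟩
  · rw [← h6]; exact p5
  · rw [← h6]

/-- the local action is continuous on its domain -/
theorem ext_continuousOn {m : ℕ} {M : Type} [TopologicalSpace M]
    [ChartedSpace (Eu (m + 1)) M] {S : Set M} {Γ : Subgroup (SLn (m + 1))}
    {α : SmoothAction Γ M} {U : Set M} {W : Set (SLn (m + 1) × M)} {θ : SLn (m + 1) × M → M}
    (hθ : IsLocalExtension α S U W θ) : ContinuousOn θ W :=
  smoothOnSL_continuousOn hθ.2.2.2.2.2.1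

end Pool.Agent.Work.MP_20070e_gt.X
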