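import Mathlib
import Pool.Agent.Work.MP_20070e_gt.X.TBd
import Pool.Agent.Work.MP_20070e_gt.X.TCur
import Pool.Agent.Work.MP_20070e_gt.X.TExt

/-!
# X/TKf (M): the tangency condition through curves

Let `C = E x`, `w₀ = C.c (φ x)`, `w₀.2 = 0` (`zero`). For `y ∈ range φ ∩ C.c.source` near `φ x` (precisely: `eqF` holds near `(ent 1, C.c y)`), write `w = C.c y`, `w.2 = 0`.
The curve `t ↦ ent (cur A t)` has derivative `A` at `0` (`cur_hasDerivAt`) and `cur A 0 = 1`. For `t` near `0`: `C.c (θ (cur A t, y)) = F (ent (cur A t), w)` (`eqF`, with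
`C.c.symm w = y`). If `B ↦ (F (B, w)).2` is differentiable at `ent 1`, then by the chain rule `t ↦ (C.c (θ (cur A t, y))).2` has the derivative `D A` at `t = 0`, where
`D = fderiv (fun B => (F (B, w)).2) (ent 1)`; its value at `t = 0` is `(C.c (θ (1, y))).2 = (C.c y).2 = 0`. So it is `o(t)` iff `D A = 0` (`hasDerivAt_iff_isLittleO`, uniqueness of derivatives).
-/

set_option autoImplicit false

open Matrix Topology Metric Filter ContDiff Manifold Asymptotics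

namespace Pool.Agent.Work.MP_20070e_gt.X

variable {m : ℕ} {M : Type} [TopologicalSpace M] [ChartedSpace (Eu (m + 1)) M]
  {φ : Sph (m + 1) → M} {Γ : Subgroup (SLn (m + 1))} {α : SmoothAction Γ M} {U : Set M}
  {W : Set (SLn (m + 1) × M)} {θ : SLn (m + 1) × M → M}

/-- the functional at a nearby point -/
theorem tangency_near (hθ : IsLocalExtension α (Set.range φ) U W θ) {x : Sph (m + 1)}
    (C : ExtChart φ W θ x) :
    ∀ᶠ y in 𝓝 (φ x), y ∈ Set.range φ → ∀ A : Mat (m + 1), A.trace = 0 →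
      (((fun t : ℝ => (C.c (θ (cur A t, y))).2) =o[𝓝 0] (fun t : ℝ => t)) ↔
        fderiv ℝ (fun B => (C.F (B, C.c y)).2) (ent (1 : SLn (m + 1))) (fun i j => A i j) = 0) := by
  have hn : 0 < m + 1 := Nat.succ_pos m
  -- swap the quantifiers in `eqF`
  have e1 : ∀ᶠ w in 𝓝 (C.c (φ x)), ∀ᶠ B in 𝓝 (ent (1 : SLn (m + 1))), ∀ g : SLn (m + 1),
      ent g = B → (g, C.c.symm w) ∈ W ∧ θ (g, C.c.symm w) ∈ C.c.source ∧
        C.c (θ (g, C.c.symm w)) = C.F (B, w) := by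
    have h1 := C.eqF
    rw [nhds_prod_eq, eventually_swap_iff] at h1
    exact h1.curry
  have e2 : ∀ᶠ w in 𝓝 (C.c (φ x)), DifferentiableAt ℝ C.F (ent (1 : SLn (m + 1)), w) := by
    have h1 : ∀ᶠ p in 𝓝 (ent (1 : SLn (m + 1)), C.c (φ x)), ContDiffAt ℝ 2 C.F p :=
      C.smoothF.eventually (by simp)
    have h2 : Tendsto (fun w : Eu m × ℝ => (ent (1 : SLn (m + 1)), w)) (𝓝 (C.c (φ x)))
        (𝓝 (ent (1 : SLn (m + 1)), C.c (φ x))) :=
      (Continuous.prodMk_right (ent (1 : SLn (m + 1)))).continuousAt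
    filter_upwards [h2.eventually h1] with w hw
    exact hw.differentiableAt (by simp)
  have hcont : Tendsto C.c (𝓝 (φ x)) (𝓝 (C.c (φ x))) := C.c.continuousAt C.mem
  filter_upwards [hcont.eventually e1, hcont.eventually e2, C.c.open_source.mem_nhds C.mem]
    with y h1 h2 h3 hyr A hA
  have hy2 : (C.c y).2 = 0 := (C.zero y h3).1 hyr
  rw [C.c.left_inv h3] at h1
  have h4 := h1.self_of_nhds 1 rfl
  have h5 : θ (1, y) = y := hθ.2.2.2.2.2.2.1 y h4.1
  have h6 : (C.F (ent (1 : SLn (m + 1)), C.c y)).2 = 0 := by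
    rw [← h4.2.2, h5]
    exact hy2
  have hG : DifferentiableAt ℝ (fun B => (C.F (B, C.c y)).2) (ent (1 : SLn (m + 1))) := by
    have h7 : DifferentiableAt ℝ (fun B : Fin (m + 1) → Fin (m + 1) → ℝ => (B, C.c y))
        (ent (1 : SLn (m + 1))) := by fun_prop
    have h8 : DifferentiableAt ℝ (fun B => C.F (B, C.c y)) (ent (1 : SLn (m + 1))) :=
      DifferentiableAt.comp (g := C.F)
        (f := fun B : Fin (m + 1) → Fin (m + 1) → ℝ => (B, C.c y)) _ h2 h7
    exact h8.snd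
  have hcur := cur_hasDerivAt hn A hA
  have hk : HasDerivAt (fun t : ℝ => (C.F (ent (cur A t), C.c y)).2)
      (fderiv ℝ (fun B => (C.F (B, C.c y)).2) (ent (1 : SLn (m + 1))) (fun i j => A i j)) 0 := by
    have h7 : HasFDerivAt (fun B => (C.F (B, C.c y)).2)
        (fderiv ℝ (fun B => (C.F (B, C.c y)).2) (ent (1 : SLn (m + 1)))) (ent (cur A 0)) := by
      rw [cur_zero]
      exact hG.hasFDerivAt
    exact h7.comp_hasDerivAt (0 : ℝ) hcur
  have hk0 : (fun t : ℝ => (C.F (ent (cur A t), C.c y)).2) 0 = 0 := by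
    simp only [cur_zero]
    exact h6
  have heq : (fun t : ℝ => (C.c (θ (cur A t, y))).2) =ᶠ[𝓝 0]
      (fun t : ℝ => (C.F (ent (cur A t), C.c y)).2) := by
    have h7 : Tendsto (fun t : ℝ => ent (cur A t)) (𝓝 0) (𝓝 (ent (1 : SLn (m + 1)))) := by
      have h8 : Tendsto (fun t : ℝ => ent (cur A t)) (𝓝 0) (𝓝 (ent (cur A 0))) :=
        hcur.continuousAt
      rw [cur_zero] at h8
      exact h8
    filter_upwards [h7.eventually h1] with t ht
    rw [(ht (cur A t) rfl).2.2]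
  have hiff : ((fun t : ℝ => (C.F (ent (cur A t), C.c y)).2) =o[𝓝 0] (fun t : ℝ => t)) ↔
      HasDerivAt (fun t : ℝ => (C.F (ent (cur A t), C.c y)).2) 0 0 := by
    rw [hasDerivAt_iff_isLittleO]
    have h7 : (fun x' : ℝ => (C.F (ent (cur A x'), C.c y)).2 -
        (C.F (ent (cur A 0), C.c y)).2 - (x' - 0) • (0 : ℝ)) =
        (fun t : ℝ => (C.F (ent (cur A t), C.c y)).2) := by
      funext t
      have : (C.F (ent (cur A 0), C.c y)).2 = 0 := hk0
      rw [this]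
      simp
    have h8 : (fun x' : ℝ => x' - 0) = fun t : ℝ => t := by
      funext t
      simp
    rw [h7, h8]
  rw [isLittleO_congr heq (EventuallyEq.refl _ _), hiff]
  constructor
  · intro h7
    exact hk.unique h7
  · intro h7
    rw [h7] at hk
    exact hk

theorem mem_kf_iff (hθ : IsLocalExtension α (Set.range φ) U W θ)
    (E : ∀ x, ExtChart φ W θ x) (x : Sph (m + 1)) (A : Mat (m + 1)) :
    A ∈ kf E x ↔ A.trace = 0 ∧
      (fun t : ℝ => ((E x).c (θ (cur A t, φ x))).2) =o[𝓝 0] (fun t : ℝ => t) := by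
  have h1 := (tangency_near hθ (E x)).self_of_nhds ⟨x, rfl⟩
  constructor
  · rintro ⟨h2, h3⟩
    exact ⟨h2, (h1 A h2).2 h3⟩
  · rintro ⟨h2, h3⟩
    exact ⟨h2, (h1 A h2).1 h3⟩

private theorem lo_trans (hM : IsSmoothManifold (m + 1) M)
    (hθ : IsLocalExtension α (Set.range φ) U W θ) {x₁ x₂ : Sph (m + 1)}
    (c₁ : AdChart φ x₁) (c₂ : AdChart φ x₂) (x' : Sph (m + 1)) (h1 : φ x' ∈ c₁.c.source)
    (h2 : φ x' ∈ c₂.c.source) (A : Mat (m + 1)) (hA : A.trace = 0)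
    (h : (fun t : ℝ => (c₁.c (θ (cur A t, φ x'))).2) =o[𝓝 0] (fun t : ℝ => t)) :
    (fun t : ℝ => (c₂.c (θ (cur A t, φ x'))).2) =o[𝓝 0] (fun t : ℝ => t) := by
  obtain ⟨K, hK, hb⟩ := bound_charts hM c₁ c₂ (φ x') h1 h2 ⟨x', rfl⟩
  have hW1 : ((1 : SLn (m + 1)), φ x') ∈ W := hθ.2.2.2.2.1 1 _ ⟨x', rfl⟩
  have ht : Tendsto (fun t : ℝ => θ (cur A t, φ x')) (𝓝 0) (𝓝 (φ x')) := by
    have h3 : ContinuousAt θ ((1 : SLn (m + 1)), φ x') :=
      (ext_continuousOn hθ).continuousAt (hθ.2.2.1.mem_nhds hW1)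
    have h4 : Tendsto (fun t : ℝ => (cur A t, φ x')) (𝓝 0) (𝓝 ((1 : SLn (m + 1)), φ x')) :=
      (cur_tendsto (Nat.succ_pos m) A hA).prodMk_nhds tendsto_const_nhds
    have h5 := h3.tendsto.comp h4
    rw [hθ.2.2.2.2.2.2.1 _ hW1] at h5
    exact h5
  refine IsBigO.trans_isLittleO ?_ h
  refine IsBigO.of_bound K ?_
  filter_upwards [ht.eventually hb] with t h3
  rw [Real.norm_eq_abs, Real.norm_eq_abs]
  exact h3

/-- the condition does not depend on the chart -/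
theorem mem_kf_iff_near (hM : IsSmoothManifold (m + 1) M)
    (hθ : IsLocalExtension α (Set.range φ) U W θ)
    (hφc : Continuous φ) (E : ∀ x, ExtChart φ W θ x) (x : Sph (m + 1)) :
    ∀ᶠ x' in 𝓝 x, ∀ A : Mat (m + 1), A ∈ kf E x' ↔ A.trace = 0 ∧
      fderiv ℝ (fun B => ((E x).F (B, (E x).c (φ x'))).2) (ent (1 : SLn (m + 1)))
        (fun i j => A i j) = 0 := by
  have h1 : Tendsto φ (𝓝 x) (𝓝 (φ x)) := hφc.continuousAt
  filter_upwards [h1.eventually (tangency_near hθ (E x)),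
    h1.eventually ((E x).c.open_source.mem_nhds (E x).mem)] with x' h2 h3 A
  rw [mem_kf_iff hθ E x' A]
  have h4 := h2 ⟨x', rfl⟩
  constructor
  · rintro ⟨h5, h6⟩
    exact ⟨h5, (h4 A h5).1 (lo_trans hM hθ (E x').toAdChart (E x).toAdChart x' (E x').mem h3 A h5 h6)⟩
  · rintro ⟨h5, h6⟩
    exact ⟨h5, lo_trans hM hθ (E x).toAdChart (E x').toAdChart x' h3 (E x').mem A h5 ((h4 A h5).2 h6)⟩

end Pool.Agent.Work.MP_20070e_gt.X
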