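import Mathlib
import Pool.Agent.Work.MP_20070e_gt.X.TKf
import Pool.Agent.Work.MP_20070e_gt.X.El

/-!
# X/TGr (L): Gronwall: elementary matrices near `1` preserve the image of `φ`

Let `C = E x`, `c = C.c`, `F = C.F`, `w₀ = c (φ x)` (`w₀.2 = 0`), `T t = tv hij t` (`T (s + t) = T s * T t`, `T 0 = 1`; `ent (T t) = ent 1 + t E_ij` is affine in `t`), `Eij` = the matrix unit.

(1) `H w := fderiv ℝ (fun B => (F (B, w)).2) (ent 1) (Eij)`. `H` is `C¹` at `w₀` (`F` is `C²` at `(ent 1, w₀)`: `ContDiffAt.fderiv_right` and composition with `w ↦ (ent 1, w)` and with the evaluation). For `w = (u, 0)` near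
`w₀`: `w = c (φ x')` with `x'` such that ... : `y = c.symm w ∈ range φ` by `zero`; `H w = 0`: by `htop`, `Eij ∈ kf E x''` for every `x''` with `φ x'' = y`; to use `mem_kf_iff_near` one needs `x''` near `x`; instead use
`tangency_near` at the point `y` (near `φ x`): `H w = 0` iff `(c (θ (cur Eij t, y))).2 = o(t)`, and `y = φ x''`, `mem_kf_iff` at `x''` gives `((E x'').c (θ (cur Eij t, y))).2 = o(t)`, and `bound_charts` (`y` is in the sources of both
charts) compares the two second coordinates near `y` (`θ (cur Eij t, y) → y`).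
As in `TBd`: `|H (u, r)| ≤ K |r|` for `(u, r)` near `w₀` (`H` is Lipschitz near `w₀` and vanishes at `(u, 0)`).

(2) `w(t) = F (ent (T t), w₀)`, `f(t) = (w(t)).2`, for `t` near `0` : `w(t) = c (θ (T t, φ x))` (`eqF`), `w` is continuous at every `t` near `0` (`F` is `C²` hence continuous near `(ent 1, w₀)`), `w(0) = w₀`. For `t` near `0` and `s → 0`:
`c (θ (T (s + t), φ x)) = c (θ (T s, θ (T t, φ x))) = F (ent (T s), w(t))` (`eqF` at the point `w(t)` near `w₀`: `θ (T t, φ x) = c.symm (w t)`; group law). So `f(t + s) = (F (ent (T s), w(t))).2` for `s` near `0` and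
`f'(t) = H (w(t))` (chain rule; `F (·, w(t))` is differentiable at `ent 1`). Hence `|f'(t)| ≤ K |f(t)|` for `|t| ≤ δ`, and `f(0) = 0`.

(3) Gronwall: `f = 0` on `[-δ, δ]` (`norm_le_gronwallBound_of_norm_deriv_right_le` with `δ = 0`, `ε = 0`, for `f` and for `t ↦ f(-t)`; or: `f² e^{-2Kt}` is nonincreasing for `t ≥ 0`).
So `θ (T t, φ x) ∈ range φ` by `zero`.
-/

set_option autoImplicit false

open Matrix Topology Metric Filter ContDiff Manifold Asymptotics

namespace Pool.Agent.Work.MP_20070e_gt.X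

variable {m : ℕ} {M : Type} [TopologicalSpace M] [ChartedSpace (Eu (m + 1)) M]
  {φ : Sph (m + 1) → M} {Γ : Subgroup (SLn (m + 1))} {α : SmoothAction Γ M} {U : Set M}
  {W : Set (SLn (m + 1) × M)} {θ : SLn (m + 1) × M → M}

/-- Gronwall: a solution of `|f'| ≤ K |f|` which vanishes at `0` vanishes near `0`. -/
private theorem gron {f f' : ℝ → ℝ} {K δ : ℝ} (h0 : f 0 = 0)
    (hd : ∀ t, |t| < δ → HasDerivAt f (f' t) t) (hb : ∀ t, |t| < δ → |f' t| ≤ K * |f t|) :
    ∀ t, |t| < δ → f t = 0 := by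
  intro t ht
  rcases le_total 0 t with h | h
  · rw [abs_of_nonneg h] at ht
    have hl : ∀ s ∈ Set.Icc 0 t, |s| < δ := by
      intro s hs
      rw [abs_of_nonneg hs.1]
      linarith [hs.2]
    refine eq_zero_of_abs_deriv_le_mul_abs_self_of_eq_zero_right (f := f) (f' := f') (K := K)
      (a := 0) (b := t) ?_ ?_ h0 ?_ t ⟨h, le_rfl⟩
    · intro s hs
      exact (hd s (hl s hs)).continuousAt.continuousWithinAt
    · intro s hs
      exact (hd s (hl s ⟨hs.1, hs.2.le⟩)).hasDerivWithinAt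
    · intro s hs
      exact hb s (hl s ⟨hs.1, hs.2.le⟩)
  · rw [abs_of_nonpos h] at ht
    have hl : ∀ s ∈ Set.Icc 0 (-t), |-s| < δ := by
      intro s hs
      rw [abs_neg, abs_of_nonneg hs.1]
      linarith [hs.2]
    have hd' : ∀ s ∈ Set.Icc 0 (-t), HasDerivAt (fun s => f (-s)) (-(f' (-s))) s := by
      intro s hs
      have h1 := (hd (-s) (hl s hs)).comp s (hasDerivAt_neg s)
      rw [mul_neg, mul_one] at h1
      exact h1
    have key := eq_zero_of_abs_deriv_le_mul_abs_self_of_eq_zero_right (f := fun s => f (-s))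
      (f' := fun s => -(f' (-s))) (K := K)
      (a := 0) (b := -t) (fun s hs => (hd' s hs).continuousAt.continuousWithinAt)
      (fun s hs => (hd' s ⟨hs.1, hs.2.le⟩).hasDerivWithinAt) (by simpa using h0)
      (fun s hs => by
        have := hb (-s) (hl s ⟨hs.1, hs.2.le⟩)
        simpa using this) (-t) ⟨by linarith, le_rfl⟩
    simpa using key

private theorem ent_tv {n : ℕ} {i j : Fin n} (hij : i ≠ j) (t : ℝ) :
    ent (tv hij t) = ent (1 : SLn n) + t • (fun a b => (Matrix.single i j (1 : ℝ)) a b) := by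
  ext a b
  simp [ent, SpecialLinearGroup.transvection, Matrix.transvection, Matrix.single, mul_ite]

private theorem tv_add {n : ℕ} {i j : Fin n} (hij : i ≠ j) (s t : ℝ) :
    tv hij (s + t) = tv hij s * tv hij t := by
  apply Subtype.ext
  simp [SpecialLinearGroup.transvection, Matrix.transvection_mul_transvection_same, hij]

theorem tv_small (hM : IsSmoothManifold (m + 1) M)
    (hθ : IsLocalExtension α (Set.range φ) U W θ) (E : ∀ x, ExtChart φ W θ x)
    (htop : ∀ x, ∀ A : Mat (m + 1), A.trace = 0 → A ∈ kf E x)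
    {i j : Fin (m + 1)} (hij : i ≠ j) (x : Sph (m + 1)) :
    ∀ᶠ t : ℝ in 𝓝 0, θ (tv hij t, φ x) ∈ Set.range φ := by
  classical
  have hWo : IsOpen W := hθ.2.2.1
  have hSW : ∀ (g : SLn (m + 1)), ∀ x ∈ Set.range φ, (g, x) ∈ W := hθ.2.2.2.2.1
  have h1 : ∀ x, (1, x) ∈ W → θ (1, x) = x := hθ.2.2.2.2.2.2.1
  have hmul := hθ.2.2.2.2.2.2.2.1
  set C := E x with hC
  set w₀ := C.c (φ x) with hw₀
  set EM : Mat (m + 1) := Matrix.single i j (1 : ℝ) with hEM
  set Eij : Fin (m + 1) → Fin (m + 1) → ℝ := fun a b => EM a b with hEij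
  have htr : EM.trace = 0 := by
    rw [hEM]; exact Matrix.trace_single_eq_of_ne i j 1 hij
  have hw₀2 : w₀.2 = 0 := (C.zero _ C.mem).1 ⟨x, rfl⟩
  have hsyw : C.c.symm w₀ = φ x := C.c.left_inv C.mem
  have hsy : Tendsto C.c.symm (𝓝 w₀) (𝓝 (φ x)) := by
    have := C.c.continuousAt_symm (C.c.map_source C.mem)
    rw [ContinuousAt, C.c.left_inv C.mem] at this
    exact this
  have hent : ∀ t : ℝ, ent (tv hij t) = ent (1 : SLn (m + 1)) + t • Eij := fun t => ent_tv hij t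
  -- (1) the function `H`
  have hHz : ∀ᶠ w in 𝓝 w₀, w.2 = 0 →
      fderiv ℝ (fun B => (C.F (B, w)).2) (ent (1 : SLn (m + 1))) Eij = 0 := by
    have ht : ∀ᶠ w in 𝓝 w₀, w ∈ C.c.target := C.c.open_target.mem_nhds (C.c.map_source C.mem)
    have hs : ∀ᶠ w in 𝓝 w₀, C.c.symm w ∈ C.c.source :=
      hsy (C.c.open_source.mem_nhds C.mem)
    filter_upwards [ht, hs, hsy.eventually (tangency_near hθ C)] with w hw1 hw2 hw3 hw4
    have hcw : C.c (C.c.symm w) = w := C.c.right_inv hw1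
    have hr : C.c.symm w ∈ Set.range φ := (C.zero _ hw2).2 (by rw [hcw]; exact hw4)
    have h5 := hw3 hr EM htr
    rw [hcw] at h5
    apply h5.1
    obtain ⟨x'', hx''⟩ := hr
    have hk : EM ∈ kf E x'' := htop x'' EM htr
    have hk2 := ((mem_kf_iff hθ E x'' EM).1 hk).2
    rw [hx''] at hk2
    obtain ⟨K, hK, hb⟩ := bound_charts hM (E x'').toAdChart C.toAdChart (C.c.symm w)
      (by rw [← hx'']; exact (E x'').mem) hw2 ⟨x'', hx''⟩
    have hin : ((1 : SLn (m + 1)), C.c.symm w) ∈ W := hSW 1 _ ⟨x'', hx''⟩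
    have htend : Tendsto (fun t : ℝ => θ (cur EM t, C.c.symm w)) (𝓝 0) (𝓝 (C.c.symm w)) := by
      have hcont : ContinuousAt θ ((1 : SLn (m + 1)), C.c.symm w) :=
        (ext_continuousOn hθ).continuousAt (hWo.mem_nhds hin)
      have h6 : Tendsto (fun t : ℝ => (cur EM t, C.c.symm w)) (𝓝 0)
          (𝓝 ((1 : SLn (m + 1)), C.c.symm w)) :=
        (cur_tendsto (Nat.succ_pos m) EM htr).prodMk_nhds tendsto_const_nhds
      have h7 := hcont.tendsto.comp h6
      rw [h1 _ hin] at h7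
      exact h7
    refine (IsBigO.of_bound K ?_).trans_isLittleO hk2
    filter_upwards [htend.eventually hb] with t ht
    exact ht
  let H : Eu m × ℝ → ℝ := fun w => (fderiv ℝ C.F (ent (1 : SLn (m + 1)), w) (Eij, 0)).2
  have hFev : ∀ᶠ p in 𝓝 (ent (1 : SLn (m + 1)), w₀), ContDiffAt ℝ 2 C.F p :=
    C.smoothF.eventually (by simp)
  have hH1 : ContDiffAt ℝ 1 H w₀ := by
    have a1 : ContDiffAt ℝ 1 (fderiv ℝ C.F) (ent (1 : SLn (m + 1)), w₀) :=
      C.smoothF.fderiv_right (by norm_num)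
    have a2 : ContDiffAt ℝ 1 (fun w : Eu m × ℝ => (ent (1 : SLn (m + 1)), w)) w₀ :=
      contDiffAt_const.prodMk contDiffAt_id
    have a3 : ContDiffAt ℝ 1 (fun w : Eu m × ℝ => fderiv ℝ C.F (ent (1 : SLn (m + 1)), w)) w₀ :=
      ContDiffAt.comp w₀ a1 a2
    have a4 : ContDiffAt ℝ 1
        (fun w : Eu m × ℝ => fderiv ℝ C.F (ent (1 : SLn (m + 1)), w) (Eij, 0)) w₀ :=
      a3.clm_apply contDiffAt_const
    exact a4.snd
  have hHeq : ∀ᶠ w in 𝓝 w₀,
      fderiv ℝ (fun B => (C.F (B, w)).2) (ent (1 : SLn (m + 1))) Eij = H w := by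
    have h2 : Tendsto (fun w : Eu m × ℝ => (ent (1 : SLn (m + 1)), w)) (𝓝 w₀)
        (𝓝 (ent (1 : SLn (m + 1)), w₀)) := (Continuous.prodMk_right _).tendsto _
    filter_upwards [h2.eventually hFev] with w hw
    have d1 : HasFDerivAt C.F (fderiv ℝ C.F (ent (1 : SLn (m + 1)), w))
        (ent (1 : SLn (m + 1)), w) := (hw.differentiableAt (by norm_num)).hasFDerivAt
    have d2 := hasFDerivAt_prodMk_left (𝕜 := ℝ) (ent (1 : SLn (m + 1))) w
    have d3 := (d1.comp (ent (1 : SLn (m + 1))) d2).snd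
    have d4 : HasFDerivAt (fun B => (C.F (B, w)).2) _ (ent (1 : SLn (m + 1))) := d3
    rw [d4.fderiv]
    rfl
  obtain ⟨K, S, hS, hLip⟩ := hH1.exists_lipschitzOnWith
  have hHb : ∀ᶠ w in 𝓝 w₀, |H w| ≤ K * |w.2| := by
    have hproj : Tendsto (fun w : Eu m × ℝ => ((w.1, (0:ℝ)) : Eu m × ℝ)) (𝓝 w₀) (𝓝 w₀) := by
      have h3 : Continuous (fun w : Eu m × ℝ => ((w.1, (0:ℝ)) : Eu m × ℝ)) := by fun_prop
      have h := h3.tendsto w₀
      have e : ((w₀.1, (0:ℝ)) : Eu m × ℝ) = w₀ := Prod.ext rfl hw₀2.symm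
      rw [e] at h
      exact h
    filter_upwards [hS, hproj hS, hproj.eventually (hHz.and hHeq)] with w a b c
    have hz : H (w.1, 0) = 0 := by rw [← c.2]; exact c.1 rfl
    have h4 := hLip.dist_le_mul w a (w.1, 0) b
    rw [hz, Real.dist_eq, sub_zero] at h4
    refine h4.trans (le_of_eq ?_)
    congr 1
    rw [Prod.dist_eq]
    simp
  -- (2) the curve
  let P : (Fin (m + 1) → Fin (m + 1) → ℝ) × (Eu m × ℝ) → Prop := fun p =>
    ContDiffAt ℝ 2 C.F p ∧ ∀ g : SLn (m + 1), ent g = p.1 →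
      (g, C.c.symm p.2) ∈ W ∧ θ (g, C.c.symm p.2) ∈ C.c.source ∧
        C.c (θ (g, C.c.symm p.2)) = C.F p
  have hP : ∀ᶠ p in 𝓝 (ent (1 : SLn (m + 1)), w₀), P p := hFev.and C.eqF
  have hPP : ∀ᶠ p in 𝓝 (ent (1 : SLn (m + 1)), w₀), ∀ᶠ q in 𝓝 p, P q :=
    eventually_eventually_nhds.2 hP
  let w : ℝ → Eu m × ℝ := fun t => C.F (ent (1 : SLn (m + 1)) + t • Eij, w₀)
  have hcur : Continuous (fun t : ℝ => ((ent (1 : SLn (m + 1)) + t • Eij, w₀) :
      (Fin (m + 1) → Fin (m + 1) → ℝ) × (Eu m × ℝ))) := by fun_prop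
  have hcurT : Tendsto (fun t : ℝ => ((ent (1 : SLn (m + 1)) + t • Eij, w₀) :
      (Fin (m + 1) → Fin (m + 1) → ℝ) × (Eu m × ℝ))) (𝓝 0) (𝓝 (ent (1 : SLn (m + 1)), w₀)) := by
    have h := hcur.tendsto 0
    simpa using h
  have hw0 : w 0 = w₀ := by
    have h2 := (hP.self_of_nhds.2 1 rfl).2.2
    have h3 : w 0 = C.F (ent (1 : SLn (m + 1)), w₀) := by
      show C.F (ent (1 : SLn (m + 1)) + (0 : ℝ) • Eij, w₀) = _
      rw [zero_smul, add_zero]
    rw [h3, ← h2]
    show C.c (θ (1, C.c.symm w₀)) = w₀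
    rw [hsyw, h1 _ (hSW 1 _ ⟨x, rfl⟩)]
  have hwc : Tendsto w (𝓝 0) (𝓝 w₀) := by
    have h2 : ContinuousAt C.F (ent (1 : SLn (m + 1)), w₀) := C.smoothF.continuousAt
    have h3 := h2.tendsto.comp hcurT
    have h4 : C.F (ent (1 : SLn (m + 1)), w₀) = w₀ := by
      rw [← hw0]
      show _ = C.F (ent (1 : SLn (m + 1)) + (0 : ℝ) • Eij, w₀)
      rw [zero_smul, add_zero]
      show _ = C.F (ent (1 : SLn (m + 1)), w₀)
      rw [hw0]
    rw [h4] at h3
    exact h3
  have e1 : ∀ᶠ t in 𝓝 (0 : ℝ), P (ent (1 : SLn (m + 1)) + t • Eij, w₀) := hcurT.eventually hP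
  have e1' : ∀ᶠ t in 𝓝 (0 : ℝ), ∀ᶠ t' in 𝓝 t, P (ent (1 : SLn (m + 1)) + t' • Eij, w₀) :=
    eventually_eventually_nhds.2 e1
  have e2 : ∀ᶠ t in 𝓝 (0 : ℝ), ∀ᶠ q in 𝓝 (ent (1 : SLn (m + 1)), w t), P q := by
    have h2 : Tendsto (fun t : ℝ => (ent (1 : SLn (m + 1)), w t)) (𝓝 0)
        (𝓝 (ent (1 : SLn (m + 1)), w₀)) := tendsto_const_nhds.prodMk_nhds hwc
    exact h2.eventually hPP
  have e3 : ∀ᶠ t in 𝓝 (0 : ℝ), |H (w t)| ≤ K * |(w t).2| := hwc.eventually hHb
  have hder : ∀ᶠ t in 𝓝 (0 : ℝ), HasDerivAt (fun t => (w t).2) (H (w t)) t := by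
    filter_upwards [e1, e1', e2] with t q1 q1' q2
    have q1'' : ∀ᶠ s in 𝓝 (0 : ℝ), P (ent (1 : SLn (m + 1)) + (t + s) • Eij, w₀) := by
      have h2 : Tendsto (fun s : ℝ => t + s) (𝓝 0) (𝓝 t) := by
        have h3 : Continuous (fun s : ℝ => t + s) := by fun_prop
        have := h3.tendsto 0
        simpa using this
      exact h2.eventually q1'
    have q2' : ∀ᶠ s in 𝓝 (0 : ℝ), P (ent (1 : SLn (m + 1)) + s • Eij, w t) := by
      have h2 : Tendsto (fun s : ℝ => ((ent (1 : SLn (m + 1)) + s • Eij, w t) :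
          (Fin (m + 1) → Fin (m + 1) → ℝ) × (Eu m × ℝ))) (𝓝 0)
          (𝓝 (ent (1 : SLn (m + 1)), w t)) := by
        have h3 : Continuous (fun s : ℝ => ((ent (1 : SLn (m + 1)) + s • Eij, w t) :
          (Fin (m + 1) → Fin (m + 1) → ℝ) × (Eu m × ℝ))) := by fun_prop
        have := h3.tendsto 0
        simpa using this
      exact h2.eventually q2
    have key : ∀ᶠ s in 𝓝 (0 : ℝ), w (t + s) = C.F (ent (1 : SLn (m + 1)) + s • Eij, w t) := by
      filter_upwards [q1'', q2'] with s r1 r2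
      have b1 := r1.2 (tv hij (t + s)) (hent _)
      have b2 := q1.2 (tv hij t) (hent _)
      have b3 := r2.2 (tv hij s) (hent _)
      simp only [hsyw] at b1 b2 b3
      have b4 : C.c.symm (w t) = θ (tv hij t, φ x) := by
        show C.c.symm (C.F (ent (1 : SLn (m + 1)) + t • Eij, w₀)) = _
        rw [← b2.2.2]
        exact C.c.left_inv b2.2.1
      rw [b4] at b3
      have b5 := hmul (tv hij s) (tv hij t) (φ x) b2.1 b3.1
        (hSW _ _ ⟨x, rfl⟩)
      rw [← tv_add, add_comm s t] at b5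
      show C.F (ent (1 : SLn (m + 1)) + (t + s) • Eij, w₀) = _
      rw [← b1.2.2, ← b3.2.2, b5]
    have d1 : HasFDerivAt C.F (fderiv ℝ C.F (ent (1 : SLn (m + 1)), w t))
        (ent (1 : SLn (m + 1)), w t) :=
      (q2.self_of_nhds.1.differentiableAt (by norm_num)).hasFDerivAt
    have d2 : HasDerivAt (fun s : ℝ => ((ent (1 : SLn (m + 1)) + s • Eij, w t) :
          (Fin (m + 1) → Fin (m + 1) → ℝ) × (Eu m × ℝ))) (Eij, 0) 0 := by
      have h3 : HasDerivAt (fun s : ℝ => ent (1 : SLn (m + 1)) + s • Eij) Eij 0 := by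
        have h4 := ((hasDerivAt_id (0 : ℝ)).smul_const Eij).const_add (ent (1 : SLn (m + 1)))
        simpa using h4
      exact h3.prodMk (hasDerivAt_const _ _)
    have d1' : HasFDerivAt C.F (fderiv ℝ C.F (ent (1 : SLn (m + 1)), w t))
        ((fun s : ℝ => ((ent (1 : SLn (m + 1)) + s • Eij, w t) :
          (Fin (m + 1) → Fin (m + 1) → ℝ) × (Eu m × ℝ))) 0) := by
      simpa using d1
    have d3 := d1'.comp_hasDerivAt (0 : ℝ) d2
    have d4 : HasDerivAt (fun s : ℝ => w (t + s))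
        (fderiv ℝ C.F (ent (1 : SLn (m + 1)), w t) (Eij, 0)) 0 :=
      d3.congr_of_eventuallyEq key
    have d5 : HasDerivAt (fun s : ℝ => w (t + s))
        (fderiv ℝ C.F (ent (1 : SLn (m + 1)), w t) (Eij, 0)) (t - t) := by
      rw [sub_self]; exact d4
    have d6 := HasDerivAt.comp_sub_const t t d5
    have d7 : HasDerivAt w (fderiv ℝ C.F (ent (1 : SLn (m + 1)), w t) (Eij, 0)) t := by
      have e : (fun u : ℝ => w (t + (u - t))) = w := by
        funext u
        congr 1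
        ring
      rw [e] at d6
      exact d6
    exact d7.snd
  obtain ⟨δ, hδ, hall⟩ := Metric.eventually_nhds_iff.1 (hder.and e3)
  have hz := gron (f := fun t => (w t).2) (f' := fun t => H (w t)) (K := K) (δ := δ)
    (by show (w 0).2 = 0; rw [hw0]; exact hw₀2)
    (fun t ht => (hall (by rwa [Real.dist_eq, sub_zero])).1)
    (fun t ht => (hall (by rwa [Real.dist_eq, sub_zero])).2)
  have e4 : ∀ᶠ t : ℝ in 𝓝 0, |t| < δ := by
    have := Metric.ball_mem_nhds (0 : ℝ) hδ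
    filter_upwards [this] with t ht
    rwa [mem_ball, Real.dist_eq, sub_zero] at ht
  filter_upwards [e1, e4] with t q ht
  have b2 := q.2 (tv hij t) (hent _)
  simp only [hsyw] at b2
  refine (C.zero _ b2.2.1).2 ?_
  rw [b2.2.2]
  exact hz t ht

end Pool.Agent.Work.MP_20070e_gt.X
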