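import Mathlib
import Pool.Agent.Work.MP_20070e_gt.X.TKf

/-!
# X/THyp (M-L): the family `kf E` is a closed equivariant family

`tr`: definition. `codim`: `kf E x` is the kernel of a real linear functional `D` on the matrices of trace zero: if `D A = 0` take `(1, 0)`, otherwise `(- D B / D A, 1)`.

`closed`: let `x_j → x'`, `A_j → A'`, `A_j ∈ kf E x_j`. For large `j` (`mem_kf_iff_near` at `x'`): `fderiv (fun B => (F (B, c (φ x_j))).2) (ent 1) A_j = 0` with `F = (E x').F`, `c = (E x').c`. As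
`F` is `C²` at `(ent 1, c (φ x'))`, `(B, w) ↦ fderiv (fun B => (F (B, w)).2) B` is continuous near that point (it is the composition of `fderiv ℝ (fun p => (F p).2) (B, w)` with `inl`;
`ContDiffAt.fderiv_right`), so the limit is `fderiv (..) (ent 1) A' = 0`. Trace: limit.

`equiv`: let `A ∈ kf E x`, `γ ∈ Γ`, `A' = γ A γ⁻¹`, `x' = sphAct γ x`, `φ x' = α γ (φ x)`. `cur A' t = γ cur A t γ⁻¹` (`cur_conj`), so (with the membership in `W`, all the points are close to `range φ`)
`θ (cur A' t, φ x') = θ (γ cur A t γ⁻¹, θ (γ, φ x)) = θ (γ cur A t, φ x) = θ (γ, θ (cur A t, φ x)) = α γ (θ (cur A t, φ x))` for `t` near `0` [`(γ, φ x) ∈ W`, `(cur A' t, φ x') ∈ W`, `(γ cur A t, φ x) ∈ W` as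
these second coordinates are in `range φ`; `(γ, θ (cur A t, φ x)) ∈ W` for `t` near `0` since `W` is open, `(γ, φ x) ∈ W`, and `θ (cur A t, φ x) → φ x` by `ext_continuousOn`, `cur_tendsto`].
By `bound_action`: `|(c' (α γ z)).2| ≤ C |(c z).2|` near `φ x`; apply with `z = θ (cur A t, φ x)`: `o(t)` is preserved; conclude with `mem_kf_iff`.
-/

set_option autoImplicit false

open Matrix Topology Metric Filter ContDiff Manifold Asymptotics

namespace Pool.Agent.Work.MP_20070e_gt.X

variable {m : ℕ} {M : Type} [TopologicalSpace M] [ChartedSpace (Eu (m + 1)) M]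
  {φ : Sph (m + 1) → M} {Γ : Subgroup (SLn (m + 1))} {α : SmoothAction Γ M} {U : Set M}
  {W : Set (SLn (m + 1) × M)} {θ : SLn (m + 1) × M → M}

/-- partial derivative of a `C²` function: formula near the point and continuity -/
private theorem thyp_partial {A B : Type} [NormedAddCommGroup A] [NormedSpace ℝ A]
    [NormedAddCommGroup B] [NormedSpace ℝ B] {G : A × B → ℝ} {a : A} {b : B}
    (hG : ContDiffAt ℝ 2 G (a, b)) :
    ∃ D : B → A →L[ℝ] ℝ, ContinuousAt D b ∧
      ∀ᶠ w in 𝓝 b, fderiv ℝ (fun B' => G (B', w)) a = D w := by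
  refine ⟨fun w => (fderiv ℝ G (a, w)).comp (ContinuousLinearMap.inl ℝ A B), ?_, ?_⟩
  · have h1 : ContDiffAt ℝ 1 (fderiv ℝ G) (a, b) := hG.fderiv_right (by norm_num)
    have h2 : ContinuousAt (fun w : B => fderiv ℝ G (a, w)) b :=
      ContinuousAt.comp (f := fun w : B => (a, w)) (g := fderiv ℝ G) h1.continuousAt
        (Continuous.prodMk_right a).continuousAt
    exact h2.clm_comp continuousAt_const
  · have h1 : ∀ᶠ p in 𝓝 (a, b), ContDiffAt ℝ 2 G p := hG.eventually (by norm_num)
    have h2 : Tendsto (fun w : B => (a, w)) (𝓝 b) (𝓝 (a, b)) :=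
      (Continuous.prodMk_right a).continuousAt
    filter_upwards [h2.eventually h1] with w hw
    have h3 : HasFDerivAt G (fderiv ℝ G (a, w)) (a, w) :=
      (hw.differentiableAt (by norm_num)).hasFDerivAt
    have h4 : HasFDerivAt (fun B' : A => (B', w)) (ContinuousLinearMap.inl ℝ A B) a :=
      hasFDerivAt_prodMk_left a w
    exact (h3.comp a h4).fderiv

theorem kf_hypField (hM : IsSmoothManifold (m + 1) M)
    (hθ : IsLocalExtension α (Set.range φ) U W θ) (hφc : Continuous φ)
    (hst : IsStandardOn α φ) (E : ∀ x, ExtChart φ W θ x) : HypField Γ (kf E) := by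
  classical
  have hθ' := hθ
  obtain ⟨-, -, hWo, -, hWS, -, hone, hmul, hgam⟩ := hθ'
  refine ⟨fun x A hA => hA.1, ?_, ?_, ?_⟩
  · -- codimension
    intro x A B hA hB
    set D := fderiv ℝ (fun B => ((E x).F (B, (E x).c (φ x))).2) (ent (1 : SLn (m + 1))) with hD
    by_cases ha : D (fun i j => A i j) = 0
    · refine ⟨1, 0, Or.inl one_ne_zero, ?_⟩
      rw [one_smul, zero_smul, add_zero]
      exact ⟨hA, ha⟩
    · refine ⟨-D (fun i j => B i j), D (fun i j => A i j), Or.inr ha, ?_, ?_⟩
      · rw [Matrix.trace_add, Matrix.trace_smul, Matrix.trace_smul, hA, hB, smul_zero, smul_zero,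
          add_zero]
      · have h5 : (fun i j => ((-D (fun i j => B i j)) • A + (D (fun i j => A i j)) • B) i j) =
            (-D (fun i j => B i j)) • (fun i j => A i j) +
              (D (fun i j => A i j)) • (fun i j => B i j) := rfl
        rw [h5, ← hD, map_add, map_smul, map_smul, smul_eq_mul, smul_eq_mul]
        ring
  · -- closed
    intro x A x' A' hmem hx hA
    have hG : ContDiffAt ℝ 2 (fun p => ((E x').F p).2)
        (ent (1 : SLn (m + 1)), (E x').c (φ x')) := (E x').smoothF.snd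
    obtain ⟨D, hDc, hDe⟩ := thyp_partial hG
    have hcc : ContinuousAt (fun y => (E x').c (φ y)) x' :=
      ContinuousAt.comp (f := φ) (g := (E x').c)
        ((E x').c.continuousAt (E x').mem) hφc.continuousAt
    have hw : Tendsto (fun j => (E x').c (φ (x j))) atTop (𝓝 ((E x').c (φ x'))) :=
      hcc.tendsto.comp hx
    have h1 := hx.eventually (mem_kf_iff_near hM hθ hφc E x')
    have h2 := hw.eventually hDe
    have h3 : Tendsto (fun j => D ((E x').c (φ (x j)))) atTop (𝓝 (D ((E x').c (φ x')))) :=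
      hDc.tendsto.comp hw
    have hA2 : Tendsto (fun j => (fun i k => A j i k)) atTop (𝓝 (fun i k => A' i k)) := hA
    have h4 : Tendsto (fun j => D ((E x').c (φ (x j))) (fun i k => A j i k)) atTop
        (𝓝 (D ((E x').c (φ x')) (fun i k => A' i k))) :=
      (isBoundedBilinearMap_apply.continuous.tendsto
        (D ((E x').c (φ x')), (fun i k => A' i k))).comp (h3.prodMk_nhds hA2)
    have h5 : (fun j => D ((E x').c (φ (x j))) (fun i k => A j i k)) =ᶠ[atTop]
        fun _ => (0 : ℝ) := by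
      filter_upwards [h1, h2] with j hj1 hj2
      have := ((hj1 (A j)).1 (hmem j)).2
      rw [hj2] at this
      exact this
    have h6 : D ((E x').c (φ x')) (fun i k => A' i k) = 0 :=
      tendsto_nhds_unique (h4.congr' h5) tendsto_const_nhds |>.symm ▸ rfl
    refine ⟨?_, ?_⟩
    · have h7 : Tendsto (fun j => (A j).trace) atTop (𝓝 A'.trace) :=
        (Continuous.matrix_trace continuous_id).continuousAt.tendsto.comp hA
      have h8 : (fun j => (A j).trace) = fun _ => (0 : ℝ) := by
        funext j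
        exact (hmem j).1
      rw [h8] at h7
      exact tendsto_nhds_unique h7 tendsto_const_nhds |>.symm ▸ rfl
    · rw [hDe.self_of_nhds]
      exact h6
  · -- equivariance
    intro γ hγ x A hA
    rw [mem_kf_iff hθ] at hA ⊢
    obtain ⟨htr, hlo⟩ := hA
    have hinv : (γ⁻¹).1 * γ.1 = 1 := by
      have h1 := congrArg (fun g : SLn (m + 1) => (g : Matrix (Fin (m + 1)) (Fin (m + 1)) ℝ))
        (inv_mul_cancel γ)
      exact h1
    refine ⟨?_, ?_⟩
    · rw [Matrix.trace_mul_comm, ← Matrix.mul_assoc, hinv, Matrix.one_mul]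
      exact htr
    · have hz : φ x ∈ Set.range φ := ⟨x, rfl⟩
      have hz' : φ (sphAct γ x) = α.toFun ⟨γ, hγ⟩ (φ x) := hst ⟨γ, hγ⟩ x
      have hzz : θ (γ, φ x) = φ (sphAct γ x) := by
        rw [hz']
        exact hgam ⟨γ, hγ⟩ (φ x) (hWS γ _ hz)
      have hcur : Tendsto (fun t : ℝ => θ (cur A t, φ x)) (𝓝 0) (𝓝 (φ x)) := by
        have h1 : ContinuousAt θ (1, φ x) :=
          (ext_continuousOn hθ).continuousAt (hWo.mem_nhds (hWS 1 _ hz))
        have h2 : Tendsto (fun t : ℝ => ((cur A t, φ x) : SLn (m + 1) × M)) (𝓝 0)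
            (𝓝 (1, φ x)) := (cur_tendsto (Nat.succ_pos m) A htr).prodMk_nhds tendsto_const_nhds
        have h3 := h1.tendsto.comp h2
        rw [hone _ (hWS 1 _ hz)] at h3
        exact h3
      obtain ⟨C, hC, hb⟩ := bound_action hM α hst ⟨γ, hγ⟩ (E x).toAdChart
        (E (sphAct γ x)).toAdChart
      have hW1 : ∀ᶠ t : ℝ in 𝓝 0, ((γ, θ (cur A t, φ x)) : SLn (m + 1) × M) ∈ W := by
        have h1 : Tendsto (fun t : ℝ => ((γ, θ (cur A t, φ x)) : SLn (m + 1) × M)) (𝓝 0)
            (𝓝 (γ, φ x)) := tendsto_const_nhds.prodMk_nhds hcur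
        exact h1.eventually (hWo.mem_nhds (hWS γ _ hz))
      have hkey : ∀ᶠ t : ℝ in 𝓝 0, θ (cur (γ.1 * A * (γ⁻¹).1) t, φ (sphAct γ x)) =
          α.toFun ⟨γ, hγ⟩ (θ (cur A t, φ x)) := by
        filter_upwards [hW1] with t ht
        rw [cur_conj, ← hzz]
        have e1 : θ (γ * cur A t * γ⁻¹, θ (γ, φ x)) = θ (γ * cur A t, φ x) := by
          rw [hmul (γ * cur A t * γ⁻¹) γ (φ x) (hWS γ _ hz)
            (by rw [hzz]; exact hWS _ _ ⟨_, rfl⟩) (hWS _ _ hz), inv_mul_cancel_right]
        have e2 : θ (γ, θ (cur A t, φ x)) = θ (γ * cur A t, φ x) :=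
          hmul γ (cur A t) (φ x) (hWS _ _ hz) ht (hWS _ _ hz)
        rw [e1, ← e2]
        exact hgam ⟨γ, hγ⟩ _ ht
      have hO : (fun t : ℝ => ((E (sphAct γ x)).c
          (θ (cur (γ.1 * A * (γ⁻¹).1) t, φ (sphAct γ x)))).2) =O[𝓝 0]
          (fun t : ℝ => ((E x).c (θ (cur A t, φ x))).2) := by
        apply IsBigO.of_bound C
        filter_upwards [hkey, hcur.eventually hb] with t h1 h2
        rw [h1, Real.norm_eq_abs, Real.norm_eq_abs]
        exact h2
      exact hO.trans_isLittleO hlo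

end Pool.Agent.Work.MP_20070e_gt.X
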