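import Mathlib
import Pool.Agent.Work.MP_20070e_gt.X.TGr
import Pool.Agent.Work.MP_20070e_gt.X.THyp
import Pool.Agent.Work.MP_20070e_gt.X.DD

/-!
# X/TPres (M): a local extension preserves `Σ = range φ` and the sides of `Σ`

`preserves`: choose `E x` by `exists_extChart`; `kf_hypField` and `hypField_top` give `htop`. By `sl_induction` (`../T.lean`) for the property `P g : ∀ z ∈ range φ, θ (g, z) ∈ range φ` (multiplicative: `θ (a b, z) = θ (a, θ (b, z))`,
all the points are in `W`), it suffices to treat `tv hij s`. Fix `z = φ x`. The set `{t : θ (tv hij t, z) ∈ range φ}` contains `0`, is closed (`t ↦ θ (tv hij t, z)` is continuous, `range φ` is compact, `M` Hausdorff) and open: if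
`z' = θ (tv t, z) = φ x'` then `θ (tv (s + t), z) = θ (tv s, z')` is in `range φ` for `s` near `0` by `tv_small`. So it is `univ` (`IsClopen.eq_univ`, `ℝ` is preconnected).

`sides`: let `V` be an open neighbourhood of `Σ = range φ`, `ρ` continuous on `V` with `ρ z = 0 ↔ z ∈ Σ` for `z ∈ V`. Let `γ ∈ Γ` and `p : ℝ → G` a path from `1` to `γ` (`sl_path`). By compactness of `[0,1] × Σ`
(`IsCompact.eventually_forall_of_forall_eventually` for `[0,1]`, and `eventually_nhdsSet_iff_forall`): for `z` near `Σ` and all `s ∈ [0,1]`: `(p s, z) ∈ W` and `θ (p s, z) ∈ V` [at `(s, z₀)`, `z₀ ∈ Σ`: `θ (p s, z₀) ∈ Σ ⊆ V` by `preserves`, `θ` is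
continuous on the open set `W`]. Let `z` be such a point with `ρ z > 0`. For `s ∈ [0,1]`, `θ (p s, z) ∉ Σ`: otherwise `z = θ ((p s)⁻¹, θ (p s, z)) ∈ Σ` by `preserves`, but `ρ z ≠ 0`. So `s ↦ ρ (θ (p s, z))` is continuous and nonzero on `[0,1]`, equal to
`ρ z > 0` at `s = 0` (`θ (1, z) = z`), so positive at `s = 1`, where it is `ρ (α γ z)`.
-/

set_option autoImplicit false

open Matrix Topology Metric Filter ContDiff Manifold Asymptotics

namespace Pool.Agent.Work.MP_20070e_gt.X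

private theorem tv_add' {n : ℕ} {i j : Fin n} (hij : i ≠ j) (s t : ℝ) :
    tv hij (s + t) = tv hij s * tv hij t := by
  apply Subtype.ext
  simp [SpecialLinearGroup.transvection, Matrix.transvection_mul_transvection_same, hij]

theorem preserves {proj : Prop} {m : ℕ} (hm : 2 ≤ m) {Γ : Subgroup (SLn (m + 1))}
    (hΓ : IsUniformLattice Γ) {M : Type} [TopologicalSpace M] [ChartedSpace (Eu (m + 1)) M]
    (hM : IsSmoothManifold (m + 1) M) {α : SmoothAction Γ M} {φ : Sph (m + 1) → M}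
    (hφ : IsModel proj φ) (hst : IsStandardOn α φ) {U : Set M} {W : Set (SLn (m + 1) × M)}
    {θ : SLn (m + 1) × M → M} (hθ : IsLocalExtension α (Set.range φ) U W θ) (g : SLn (m + 1)) :
    ∀ z ∈ Set.range φ, θ (g, z) ∈ Set.range φ := by
  have hφc : Continuous φ := ContMDiff.continuous hφ.1
  have E : ∀ x, ExtChart φ W θ x := fun x => (exists_extChart hM hφ hθ x).some
  have hyp := kf_hypField hM hθ hφc hst E
  have htop := hypField_top hm hΓ hyp
  have := hM.1
  have hclosed : IsClosed (Set.range φ) := (isCompact_range hφc).isClosed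
  have hcont := ext_continuousOn hθ
  have hWo : IsOpen W := hθ.2.2.1
  have hSW : ∀ (g : SLn (m + 1)), ∀ x ∈ Set.range φ, (g, x) ∈ W := hθ.2.2.2.2.1
  have h1 : ∀ x, (1, x) ∈ W → θ (1, x) = x := hθ.2.2.2.2.2.2.1
  have hmul := hθ.2.2.2.2.2.2.2.1
  refine sl_induction (by omega) (fun g => ∀ z ∈ Set.range φ, θ (g, z) ∈ Set.range φ) ?_ ?_ g
  · intro i j hij s z hz
    have hc : Continuous (fun t : ℝ => θ (tv hij t, z)) := by
      rw [continuous_iff_continuousAt]
      intro t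
      have h2 : ContinuousAt θ (tv hij t, z) :=
        hcont.continuousAt (hWo.mem_nhds (hSW (tv hij t) z hz))
      exact ContinuousAt.comp (f := fun t => (tv hij t, z)) h2
        ((tv_continuous hij).prodMk continuous_const).continuousAt
    have hAc : IsClosed {t : ℝ | θ (tv hij t, z) ∈ Set.range φ} := hclosed.preimage hc
    have hAo : IsOpen {t : ℝ | θ (tv hij t, z) ∈ Set.range φ} := by
      rw [isOpen_iff_mem_nhds]
      intro t ht
      obtain ⟨x', hx'⟩ : ∃ x', φ x' = θ (tv hij t, z) := ht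
      have hs := tv_small hM hθ E htop hij x'
      have h2 : Tendsto (fun u : ℝ => u - t) (𝓝 t) (𝓝 0) := by
        have h3 : Continuous (fun u : ℝ => u - t) := by fun_prop
        have := h3.tendsto t
        simpa using this
      filter_upwards [h2.eventually hs] with u hu
      show θ (tv hij u, z) ∈ Set.range φ
      have h4 : tv hij u = tv hij (u - t) * tv hij t := by
        rw [← tv_add']
        congr 1
        ring
      rw [h4, ← hmul (tv hij (u - t)) (tv hij t) z (hSW _ z hz) (hSW _ _ ⟨x', hx'⟩) (hSW _ z hz),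
        ← hx']
      exact hu
    have hAu : {t : ℝ | θ (tv hij t, z) ∈ Set.range φ} = Set.univ := by
      refine IsClopen.eq_univ ⟨hAc, hAo⟩ ⟨0, ?_⟩
      show θ (tv hij 0, z) ∈ Set.range φ
      rw [show tv hij (0 : ℝ) = 1 from SpecialLinearGroup.transvection_coeff_zero hij,
        h1 _ (hSW _ z hz)]
      exact hz
    have h5 : s ∈ {t : ℝ | θ (tv hij t, z) ∈ Set.range φ} := by
      rw [hAu]; trivial
    exact h5
  · intro a b ha hb z hz
    rw [← hmul a b z (hSW b z hz) (hSW a _ (hb z hz)) (hSW _ z hz)]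
    exact ha _ (hb z hz)

theorem sides {proj : Prop} {m : ℕ} (hm : 2 ≤ m) {Γ : Subgroup (SLn (m + 1))}
    (hΓ : IsUniformLattice Γ) {M : Type} [TopologicalSpace M] [ChartedSpace (Eu (m + 1)) M]
    (hM : IsSmoothManifold (m + 1) M) {α : SmoothAction Γ M} {φ : Sph (m + 1) → M}
    (hφ : IsModel proj φ) (hst : IsStandardOn α φ) {U : Set M} {W : Set (SLn (m + 1) × M)}
    {θ : SLn (m + 1) × M → M} (hθ : IsLocalExtension α (Set.range φ) U W θ) {V : Set M}
    (hV : IsOpen V) (hV' : Set.range φ ⊆ V) {ρ : M → ℝ} (hρ : ContinuousOn ρ V)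
    (hρ0 : ∀ z ∈ V, ρ z = 0 ↔ z ∈ Set.range φ) (γ : Γ) :
    ∀ᶠ z in 𝓝ˢ (Set.range φ), 0 < ρ z → 0 < ρ (α.toFun γ z) := by
  have hpres := preserves hm hΓ hM hφ hst hθ
  have hcont := ext_continuousOn hθ
  have hWo : IsOpen W := hθ.2.2.1
  have hSW : ∀ (g : SLn (m + 1)), ∀ x ∈ Set.range φ, (g, x) ∈ W := hθ.2.2.2.2.1
  have h1 : ∀ x, (1, x) ∈ W → θ (1, x) = x := hθ.2.2.2.2.2.2.1
  have hmul := hθ.2.2.2.2.2.2.2.1
  have hext := hθ.2.2.2.2.2.2.2.2
  obtain ⟨p, hpc, hp0, hp1⟩ := sl_path (n := m + 1) (by omega) (γ : SLn (m + 1))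
  rw [eventually_nhdsSet_iff_forall]
  intro z₀ hz₀
  have key : ∀ᶠ z in 𝓝 z₀, ∀ s ∈ Set.Icc (0 : ℝ) 1, (p s, z) ∈ W ∧ θ (p s, z) ∈ V := by
    apply (isCompact_Icc (a := (0 : ℝ)) (b := 1)).eventually_forall_of_forall_eventually
    intro s hs
    have hin : (p s, z₀) ∈ W := hSW _ z₀ hz₀
    have c1 : ContinuousAt (fun q : M × ℝ => (p q.2, q.1)) (z₀, s) := by
      have : Continuous (fun q : M × ℝ => (p q.2, q.1)) :=
        (hpc.comp continuous_snd).prodMk continuous_fst
      exact this.continuousAt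
    have c2 : ContinuousAt θ (p s, z₀) := hcont.continuousAt (hWo.mem_nhds hin)
    have c3 : ContinuousAt (fun q : M × ℝ => θ (p q.2, q.1)) (z₀, s) :=
      ContinuousAt.comp (g := θ) (f := fun q : M × ℝ => (p q.2, q.1)) c2 c1
    have e1 : ∀ᶠ q : M × ℝ in 𝓝 (z₀, s), (p q.2, q.1) ∈ W := c1 (hWo.mem_nhds hin)
    have e2 : ∀ᶠ q : M × ℝ in 𝓝 (z₀, s), θ (p q.2, q.1) ∈ V :=
      c3 (hV.mem_nhds (hV' (hpres _ z₀ hz₀)))
    exact e1.and e2
  have hzV : ∀ᶠ z in 𝓝 z₀, z ∈ V := hV.mem_nhds (hV' hz₀)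
  filter_upwards [key, hzV] with z hz hzV hpos
  have h1W : ((1 : SLn (m + 1)), z) ∈ W := by
    have := (hz 0 ⟨le_rfl, zero_le_one⟩).1
    rwa [hp0] at this
  have hne : ∀ s ∈ Set.Icc (0 : ℝ) 1, ρ (θ (p s, z)) ≠ 0 := by
    intro s hs h0
    have hin : θ (p s, z) ∈ Set.range φ := (hρ0 _ (hz s hs).2).1 h0
    have h2 := hmul (p s)⁻¹ (p s) z (hz s hs).1 (hSW _ _ hin)
      (by rw [inv_mul_cancel]; exact h1W)
    rw [inv_mul_cancel, h1 _ h1W] at h2
    have h3 := hpres (p s)⁻¹ _ hin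
    rw [h2] at h3
    exact hpos.ne' ((hρ0 z hzV).2 h3)
  have hcf : ContinuousOn (fun s : ℝ => ρ (θ (p s, z))) (Set.Icc 0 1) := by
    intro s hs
    have c1 : ContinuousAt (fun s : ℝ => (p s, z)) s :=
      (hpc.prodMk continuous_const).continuousAt
    have c2 : ContinuousAt θ (p s, z) := hcont.continuousAt (hWo.mem_nhds (hz s hs).1)
    have c3 : ContinuousAt ρ (θ (p s, z)) := hρ.continuousAt (hV.mem_nhds (hz s hs).2)
    have c4 : ContinuousAt (fun s : ℝ => θ (p s, z)) s :=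
      ContinuousAt.comp (g := θ) (f := fun s : ℝ => (p s, z)) c2 c1
    exact (ContinuousAt.comp (g := ρ) (f := fun s : ℝ => θ (p s, z)) c3 c4).continuousWithinAt
  by_contra hcon
  have hend : θ (p 1, z) = α.toFun γ z := by
    rw [hp1]
    apply hext
    have := (hz 1 ⟨zero_le_one, le_rfl⟩).1
    rwa [hp1] at this
  have hle : ρ (θ (p 1, z)) ≤ 0 := by
    rw [hend]
    exact not_lt.1 hcon
  have hge : 0 ≤ ρ (θ (p 0, z)) := by
    rw [hp0, h1 _ h1W]
    exact hpos.le
  obtain ⟨s, hs, hs0⟩ := intermediate_value_Icc' zero_le_one hcf ⟨hle, hge⟩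
  exact hne s hs hs0

end Pool.Agent.Work.MP_20070e_gt.X
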