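import Mathlib
import Pool.Agent.Work.MP_20070e_gt.X.TPres
import Pool.Agent.Work.MP_20070e_gt.N2

/-!
# X/QSph (S-M): a sign gives a non-extendable action with an invariant sphere

`M = punc (m+1)`, `α = twistAction Γ χ`, `φ = incl (m+1)` (`../N1.lean`). `IsModel False φ`: `incl_smooth` gives smoothness, the injective derivative; `φ x = φ y ↔ x = y` (`Subtype.ext`). `IsStandardOn`: `incl_equivariant`.
Suppose that there is a local extension. Apply `sides` with `V = univ`, `ρ z = Real.log ‖(z : Eu)‖` (continuous, zero iff `‖z‖ = 1` since `‖z‖ > 0`, i.e. iff `z ∈ range φ`), and `γ₀` with `χ γ₀ = -1` (see the beginning of `nonExtendable` in `../N2.lean`):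
`ρ (α γ₀ z) = -ρ z` (`norm_twist`, `Real.log_zpow`). So near `Σ`: `0 < ρ z → 0 < -ρ z`, i.e. `ρ z ≤ 0`. But `z = (1 + t) x → x` for `t → 0+`, `ρ z = log (1 + t) > 0`: contradiction (`𝓝ˢ (range φ)` contains `𝓝 (φ x)`-eventualities: `eventually_nhdsSet_iff_forall`).
-/

set_option autoImplicit false

open Matrix Topology Metric Filter ContDiff Manifold TopologicalSpace

namespace Pool.Agent.Work.MP_20070e_gt.X

/-- the point `e^t x` -/
private noncomputable def ray {m : ℕ} (x : Sph (m + 1)) (t : ℝ) : punc (m + 1) :=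
  ⟨Real.exp t • (x : Eu (m + 1)), by
    have h : (x : Eu (m + 1)) ≠ 0 := by
      intro h0
      have h1 := x.2
      rw [mem_sphere_zero_iff_norm, h0, norm_zero] at h1
      exact zero_ne_one h1
    exact smul_ne_zero (Real.exp_pos t).ne' h⟩

private theorem log_ray {m : ℕ} (x : Sph (m + 1)) (t : ℝ) :
    Real.log ‖((ray x t : punc (m + 1)) : Eu (m + 1))‖ = t := by
  have h1 : ‖(x : Eu (m + 1))‖ = 1 := mem_sphere_zero_iff_norm.1 x.2
  change Real.log ‖Real.exp t • (x : Eu (m + 1))‖ = t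
  rw [norm_smul, h1, mul_one, Real.norm_eq_abs, abs_of_pos (Real.exp_pos t), Real.log_exp]

theorem nonExt_sph {m : ℕ} (hm : 2 ≤ m) {Γ : Subgroup (SLn (m + 1))} (hΓ : IsUniformLattice Γ)
    (χ : Γ →* ℤˣ) (hχ : χ ≠ 1) : HasNonExtendable False Γ := by
  obtain ⟨γ₀, hγ₀⟩ : ∃ γ₀ : Γ, χ γ₀ = -1 := by
    by_contra hcon
    push Not at hcon
    apply hχ
    ext γ
    rcases Int.units_eq_one_or (χ γ) with h | h
    · rw [h]; rfl
    · exact absurd h (hcon γ)
  have hM : IsSmoothManifold (m + 1) (punc (m + 1)) :=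
    ⟨inferInstance, inferInstance, inferInstance⟩
  have hφ : IsModel (M := punc (m + 1)) False (incl (m + 1)) := by
    refine ⟨(incl_smooth m).1, (incl_smooth m).2.2, fun x y => ⟨fun h => ?_, fun h => ?_⟩⟩
    · left
      apply Subtype.ext
      exact congrArg (Subtype.val : punc (m + 1) → Eu (m + 1)) h
    · rcases h with h | h
      · rw [h]
      · exact absurd h.1 id
  have hst : IsStandardOn (twistAction Γ χ) (incl (m + 1)) :=
    fun γ x => incl_equivariant Γ χ γ x
  refine ⟨punc (m + 1), inferInstance, inferInstance, hM, twistAction Γ χ, incl (m + 1), hφ, hst,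
    ?_⟩
  rw [hasLocalExtension_iff]
  rintro ⟨U, W, θ, hθ⟩
  have hnorm : ∀ z : punc (m + 1), 0 < ‖(z : Eu (m + 1))‖ := fun z => norm_pos_iff.2 z.2
  have hρc : ContinuousOn (fun z : punc (m + 1) => Real.log ‖(z : Eu (m + 1))‖) Set.univ := by
    rw [continuousOn_univ]
    exact Continuous.log (continuous_norm.comp continuous_subtype_val) fun z => (hnorm z).ne'
  have hρ0 : ∀ z ∈ (Set.univ : Set (punc (m + 1))),
      Real.log ‖(z : Eu (m + 1))‖ = 0 ↔ z ∈ Set.range (incl (m + 1)) := by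
    intro z _
    constructor
    · intro h
      have h1 : ‖(z : Eu (m + 1))‖ = 1 := Real.eq_one_of_pos_of_log_eq_zero (hnorm z) h
      exact ⟨⟨z, mem_sphere_zero_iff_norm.2 h1⟩, rfl⟩
    · rintro ⟨x, rfl⟩
      have h1 : ‖(x : Eu (m + 1))‖ = 1 := mem_sphere_zero_iff_norm.1 x.2
      change Real.log ‖(x : Eu (m + 1))‖ = 0
      rw [h1, Real.log_one]
  have hev := sides hm hΓ hM hφ hst hθ isOpen_univ (Set.subset_univ _) hρc hρ0 γ₀
  rw [eventually_nhdsSet_iff_forall] at hev
  have hev' := hev (incl (m + 1) (oo m)) ⟨_, rfl⟩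
  have hr0 : ray (oo m) 0 = incl (m + 1) (oo m) := by
    apply Subtype.ext
    change Real.exp 0 • ((oo m : Sph (m + 1)) : Eu (m + 1)) = ((oo m : Sph (m + 1)) : Eu (m + 1))
    rw [Real.exp_zero, one_smul]
  have hrc : Continuous (ray (oo m)) := by
    unfold ray
    exact Continuous.subtype_mk (Real.continuous_exp.smul continuous_const) _
  have ht : Tendsto (ray (oo m)) (𝓝 0) (𝓝 (incl (m + 1) (oo m))) := by
    rw [← hr0]
    exact hrc.tendsto 0
  have hev2 := ht.eventually hev'
  rw [Metric.eventually_nhds_iff] at hev2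
  obtain ⟨ε, hε, h2⟩ := hev2
  have h3 := h2 (y := ε / 2) (by
    rw [Real.dist_eq, sub_zero, abs_of_pos (by linarith)]
    linarith)
  rw [log_ray] at h3
  have h4 := h3 (by linarith)
  rw [twistAction_apply, norm_twist _ _ (ray (oo m) (ε / 2)).2, hγ₀, Units.val_neg, Units.val_one,
    Real.log_zpow, log_ray] at h4
  push_cast at h4
  linarith

end Pool.Agent.Work.MP_20070e_gt.X
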