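import Mathlib
import Pool.Agent.Work.MP_20070e_gt.X.QMan
import Pool.Agent.Work.MP_20070e_gt.X.QSph

/-!
# X/QProj (M): a sign gives a non-extendable action with an invariant projective space

`Q`, `pr` from `exists_quotient (m+1)`. The twisted action of `../N1.lean` commutes with `v ↦ -v` (`twist g k (-v) = - twist g k v`), so it descends: `α γ (pr v) = pr (twistAction γ v)` (choose `α γ q = pr (twistAction γ (a preimage of q))`, `Function.surjInv`); `map_one`, `map_mul` by
surjectivity; smooth by the last property of `exists_quotient` (`f ∘ pr = pr ∘ twistAction γ`, a composition of smooth maps). `φ = pr ∘ incl (m+1)`: smooth; derivative injective (composition of injective derivatives: `mfderiv_comp`, as in `incl_smooth`); `φ x = φ y ↔ x = y ∨ x = -y`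
(coercions: `coe_neg_sphere`). So `IsModel True φ`. `IsStandardOn`: `incl_equivariant`.
Non-extension: as in `QSph`: `ρ q = Real.log ‖v‖` for any `v` with `pr v = q`: well defined (`‖-v‖ = ‖v‖`), continuous (`pr` is an open continuous surjection, so a quotient map: `IsOpenMap.isQuotientMap`), zero iff `q ∈ range φ`; `ρ (α γ₀ q) = -ρ q`.
-/

set_option autoImplicit false

open Matrix Topology Metric Filter ContDiff Manifold TopologicalSpace

namespace Pool.Agent.Work.MP_20070e_gt.X

private theorem pj_twist_neg {n : ℕ} (g : SLn n) (k : ℤ) (v : Eu n) :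
    twist g k (-v) = -twist g k v := by
  have h : lin g (-v) = -lin g v := by rw [lin_eq, lin_eq, map_neg]
  rw [twist, twist, h, norm_neg, norm_neg, smul_neg, smul_neg]

section pj

variable {m : ℕ} {Q : Type} {Γ : Subgroup (SLn (m + 1))} {pr : punc (m + 1) → Q}

private noncomputable def pjf (χ : Γ →* ℤˣ) (hs : Function.Surjective pr) (γ : Γ) (q : Q) : Q :=
  pr ((twistAction Γ χ).toFun γ (Function.surjInv (f := pr) hs q))

private theorem pjf_pr (χ : Γ →* ℤˣ) (hs : Function.Surjective pr)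
    (hpr : ∀ v w : punc (m + 1), pr v = pr w ↔
      (v = w ∨ (v : Eu (m + 1)) = -(w : Eu (m + 1)))) (γ : Γ) (v : punc (m + 1)) :
    pjf χ hs γ (pr v) = pr ((twistAction Γ χ).toFun γ v) := by
  rw [pjf]
  have h1 : pr (Function.surjInv hs (pr v)) = pr v := Function.surjInv_eq hs (pr v)
  rcases (hpr _ _).1 h1 with h2 | h2
  · rw [h2]
  · rw [hpr]
    right
    rw [twistAction_apply, twistAction_apply, h2, pj_twist_neg]

private noncomputable def pjr (hs : Function.Surjective pr) (q : Q) : ℝ :=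
  Real.log ‖((Function.surjInv (f := pr) hs q : punc (m + 1)) : Eu (m + 1))‖

private theorem pjr_pr (hs : Function.Surjective pr)
    (hpr : ∀ v w : punc (m + 1), pr v = pr w ↔
      (v = w ∨ (v : Eu (m + 1)) = -(w : Eu (m + 1)))) (v : punc (m + 1)) :
    pjr hs (pr v) = Real.log ‖(v : Eu (m + 1))‖ := by
  rw [pjr]
  have h1 : pr (Function.surjInv hs (pr v)) = pr v := Function.surjInv_eq hs (pr v)
  rcases (hpr _ _).1 h1 with h2 | h2
  · rw [h2]
  · rw [h2, norm_neg]

end pj

theorem nonExt_proj {m : ℕ} (hm : 2 ≤ m) {Γ : Subgroup (SLn (m + 1))} (hΓ : IsUniformLattice Γ)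
    (χ : Γ →* ℤˣ) (hχ : χ ≠ 1) : HasNonExtendable True Γ := by
  classical
  obtain ⟨Q, tQ, cQ, pr, hQ, hs, hop, hpr, hsm, hinj, hlift⟩ := exists_quotient (m + 1)
  have hpc : Continuous pr := ContMDiff.continuous hsm
  let α : SmoothAction Γ Q :=
    { toFun := fun γ => pjf χ hs γ
      map_one := by
        funext q
        obtain ⟨v, rfl⟩ := hs q
        rw [pjf_pr χ hs hpr, (twistAction Γ χ).map_one]
        rfl
      map_mul := by
        intro γ δ
        funext q
        obtain ⟨v, rfl⟩ := hs q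
        simp only [Function.comp]
        rw [pjf_pr χ hs hpr, pjf_pr χ hs hpr, pjf_pr χ hs hpr, (twistAction Γ χ).map_mul]
        rfl
      smooth := by
        intro γ
        apply hlift
        have h1 : (fun v => pjf χ hs γ (pr v)) = pr ∘ (twistAction Γ χ).toFun γ := by
          funext v
          exact pjf_pr χ hs hpr γ v
        rw [h1]
        exact ContMDiff.comp hsm ((twistAction Γ χ).smooth γ) }
  obtain ⟨hi1, -, hi3⟩ := incl_smooth m
  let φ : Sph (m + 1) → Q := fun x => pr (incl (m + 1) x)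
  have hφ1 : SmoothMap (Eu m) (Eu (m + 1)) φ := ContMDiff.comp hsm hi1
  have hφ2 : InjDeriv (Eu m) (Eu (m + 1)) φ := by
    intro x
    have h2 : mfderiv (𝓡 m) (𝓡 (m + 1)) (pr ∘ incl (m + 1)) x =
        (mfderiv (𝓡 (m + 1)) (𝓡 (m + 1)) pr (incl (m + 1) x)).comp
          (mfderiv (𝓡 m) (𝓡 (m + 1)) (incl (m + 1)) x) := by
      apply mfderiv_comp
      · exact ContMDiff.mdifferentiable hsm (by simp) _
      · exact ContMDiff.mdifferentiable hi1 (by simp) _
    show Function.Injective (mfderiv (𝓡 m) (𝓡 (m + 1)) (pr ∘ incl (m + 1)) x)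
    rw [h2]
    intro a b hab
    simp only [ContinuousLinearMap.comp_apply] at hab
    exact hi3 x (hinj _ hab)
  have hφ3 : ∀ x y : Sph (m + 1), φ x = φ y ↔ (x = y ∨ (True ∧ x = -y)) := by
    intro x y
    show pr (incl (m + 1) x) = pr (incl (m + 1) y) ↔ _
    rw [hpr]
    constructor
    · rintro (h | h)
      · left
        exact Subtype.ext (congrArg (fun v : punc (m + 1) => (v : Eu (m + 1))) h)
      · right
        refine ⟨trivial, Subtype.ext ?_⟩
        rw [coe_neg_sphere]
        exact h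
    · rintro (h | ⟨-, h⟩)
      · left
        rw [h]
      · right
        rw [h]
        show ((-y : Sph (m + 1)) : Eu (m + 1)) = -(y : Eu (m + 1))
        rw [coe_neg_sphere]
  have hmod : IsModel True φ := ⟨hφ1, hφ2, hφ3⟩
  have hst : IsStandardOn α φ := by
    intro γ x
    show pr (incl (m + 1) (sphAct (γ : SLn (m + 1)) x)) = pjf χ hs γ (pr (incl (m + 1) x))
    rw [pjf_pr χ hs hpr, incl_equivariant Γ χ]
  refine ⟨Q, tQ, cQ, hQ, α, φ, hmod, hst, ?_⟩
  rw [hasLocalExtension_iff]
  rintro ⟨U, W, θ, hθ⟩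
  obtain ⟨γ₀, hγ₀⟩ : ∃ γ : Γ, χ γ = -1 := by
    by_contra hcon
    apply hχ
    ext γ
    rcases Int.units_eq_one_or (χ γ) with h | h
    · rw [h]; rfl
    · exact absurd ⟨γ, h⟩ hcon
  have hvpos : ∀ v : punc (m + 1), 0 < ‖(v : Eu (m + 1))‖ := fun v => norm_pos_iff.2 v.2
  have hρc : Continuous (pjr hs) := by
    rw [(hop.isQuotientMap hpc hs).continuous_iff]
    have h1 : pjr hs ∘ pr = fun v : punc (m + 1) => Real.log ‖(v : Eu (m + 1))‖ := by
      funext v
      exact pjr_pr hs hpr v
    rw [h1]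
    exact (continuous_subtype_val.norm).log (fun v => (hvpos v).ne')
  have hρ0 : ∀ z ∈ (Set.univ : Set Q), pjr hs z = 0 ↔ z ∈ Set.range φ := by
    intro z _
    obtain ⟨v, rfl⟩ := hs z
    rw [pjr_pr hs hpr]
    constructor
    · intro h
      have hv1 : ‖(v : Eu (m + 1))‖ = 1 := by
        rcases Real.log_eq_zero.1 h with h1 | h1 | h1
        · exact absurd h1 (hvpos v).ne'
        · exact h1
        · have := hvpos v
          linarith
      refine ⟨⟨v, mem_sphere_zero_iff_norm.2 hv1⟩, ?_⟩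
      show pr _ = pr v
      congr 1
    · rintro ⟨x, hx⟩
      have hx1 : ‖(x : Eu (m + 1))‖ = 1 := mem_sphere_zero_iff_norm.1 x.2
      have hv1 : ‖(v : Eu (m + 1))‖ = 1 := by
        rcases (hpr _ _).1 hx with h | h
        · rw [← h]
          exact hx1
        · have h2 : (x : Eu (m + 1)) = -(v : Eu (m + 1)) := h
          rw [h2, norm_neg] at hx1
          exact hx1
      rw [hv1, Real.log_one]
  have hE := sides hm hΓ hQ hmod hst hθ isOpen_univ (Set.subset_univ _) hρc.continuousOn hρ0 γ₀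
  have hneg : ∀ v : punc (m + 1), pjr hs (α.toFun γ₀ (pr v)) = -Real.log ‖(v : Eu (m + 1))‖ := by
    intro v
    show pjr hs (pjf χ hs γ₀ (pr v)) = _
    rw [pjf_pr χ hs hpr, pjr_pr hs hpr, twistAction_apply, norm_twist _ _ v.2, hγ₀]
    simp
  rw [eventually_nhdsSet_iff_forall] at hE
  have hE0 := hE (φ (oo m)) ⟨oo m, rfl⟩
  -- the path `(1 + t) x`
  have hx0 : ((oo m : Sph (m + 1)) : Eu (m + 1)) ≠ 0 := (incl (m + 1) (oo m)).2
  have hcont : ContinuousAt (fun t : ℝ => pr (ret (incl (m + 1) (oo m))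
      ((1 + t) • ((oo m : Sph (m + 1)) : Eu (m + 1))))) 0 := by
    refine hpc.continuousAt.comp ?_
    refine ContinuousAt.comp (g := ret (incl (m + 1) (oo m)))
      (f := fun t : ℝ => (1 + t) • ((oo m : Sph (m + 1)) : Eu (m + 1))) ?_ ?_
    · apply (ret_contMDiffAt _ _).continuousAt
      simpa using hx0
    · exact ((continuous_const.add continuous_id).smul continuous_const).continuousAt
  have hval : pr (ret (incl (m + 1) (oo m))
      ((1 + (0 : ℝ)) • ((oo m : Sph (m + 1)) : Eu (m + 1)))) = φ (oo m) := by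
    rw [add_zero, one_smul]
    exact congrArg pr (ret_coe _ (incl (m + 1) (oo m)))
  have hev : ∀ᶠ t in 𝓝 (0 : ℝ), 0 < pjr hs (pr (ret (incl (m + 1) (oo m))
      ((1 + t) • ((oo m : Sph (m + 1)) : Eu (m + 1))))) →
      0 < pjr hs (α.toFun γ₀ (pr (ret (incl (m + 1) (oo m))
        ((1 + t) • ((oo m : Sph (m + 1)) : Eu (m + 1)))))) := by
    have h5 : Tendsto (fun t : ℝ => pr (ret (incl (m + 1) (oo m))
        ((1 + t) • ((oo m : Sph (m + 1)) : Eu (m + 1))))) (𝓝 0) (𝓝 (φ (oo m))) := by
      have h6 := hcont.tendsto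
      rw [hval] at h6
      exact h6
    exact h5.eventually hE0
  obtain ⟨t, ht1, ht2⟩ := ((hev.filter_mono nhdsWithin_le_nhds).and
    (self_mem_nhdsWithin : Set.Ioi (0 : ℝ) ∈ 𝓝[>] (0 : ℝ))).exists
  have ht : (0 : ℝ) < t := ht2
  have hne : (1 + t) • ((oo m : Sph (m + 1)) : Eu (m + 1)) ≠ 0 :=
    smul_ne_zero (by positivity) hx0
  rw [ret_of_ne _ hne, hneg, pjr_pr hs hpr] at ht1
  have hn1 : ‖((oo m : Sph (m + 1)) : Eu (m + 1))‖ = 1 := mem_sphere_zero_iff_norm.1 (oo m).2
  have hn : ‖(1 + t) • ((oo m : Sph (m + 1)) : Eu (m + 1))‖ = 1 + t := by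
    rw [norm_smul, hn1, mul_one, Real.norm_eq_abs, abs_of_pos (by positivity)]
  have hlog : 0 < Real.log (1 + t) := Real.log_pos (by linarith)
  simp only [hn] at ht1
  have := ht1 hlog
  linarith

end Pool.Agent.Work.MP_20070e_gt.X
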