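import Mathlib
import Pool.Agent.Work.MP_20070e_gt.X.Defs

/-!
# X/SDefs (FIXED): continuous actions of the whole group on the sphere or the projective space
-/

set_option autoImplicit false

open Matrix Topology Metric Filter

namespace Pool.Agent.Work.MP_20070e_gt.X

/-- `X` is a copy of the sphere `S^m` or of its quotient by `±1` (`π : S^m → X`), and `τ` is a continuous action of `G` on
`X` which is the standard action for the elements of `Γ`. -/
structure SphSys (proj : Prop) {m : ℕ} (Γ : Subgroup (SLn (m + 1))) (X : Type)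
    [TopologicalSpace X] (π : Sph (m + 1) → X) (τ : SLn (m + 1) → X → X) : Prop where
  t2 : T2Space X
  sc : SecondCountableTopology X
  πc : Continuous π
  πs : Function.Surjective π
  fib : ∀ x y : Sph (m + 1), π x = π y ↔ (x = y ∨ (proj ∧ x = -y))
  τc : Continuous (fun p : SLn (m + 1) × X => τ p.1 p.2)
  one : ∀ z, τ 1 z = z
  mul : ∀ g h z, τ g (τ h z) = τ (g * h) z
  gam : ∀ γ ∈ Γ, ∀ x, τ γ (π x) = π (sphAct γ x)

end Pool.Agent.Work.MP_20070e_gt.X
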