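import Mathlib
import Pool.Agent.Work.MP_20070e_gt.X.SDefs
import Pool.Agent.Work.MP_20070e_gt.X.Min

/-!
# X/SDeg (M): an equivariant map is nowhere degenerate

Suppose `V₀` is open, nonempty, and for all `z ∈ V₀`, `w` with `Ω z = π w`: `(κ w)_0 = 0`. For `V ⊆ S^m` put `E(V) = span {w : ∃ z ∈ V, Ω z = π w}`. `E` is monotone, `E(V₀)` is contained in the proper subspace `{w : (κ w)_0 = 0}` (proper since `κ` is
invertible). Choose a nonempty open `V₁ ⊆ V₀` with `finrank E(V₁)` minimal (`Nat.find` / well-foundedness). For nonempty open `V' ⊆ V₁`: `E(V') = E(V₁)` (`Submodule.eq_of_le_of_finrank_le`).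

For `γ ∈ Γ`: `E(γ V) = γ E(V)` (`Submodule.map`; `Ω (γ z) = τ γ (Ω z) = τ γ (π w) = π (sphAct γ w)`, and `sphAct γ w` is a positive multiple of `γ w`; the other inclusion with `γ⁻¹`). If `γ, δ ∈ Γ` and `γ V₁ ∩ δ V₁ ≠ ∅`, then
`V' = V₁ ∩ γ⁻¹ δ V₁` is nonempty open, `E(V') = E(V₁)`, and `δ⁻¹ γ V' ⊆ V₁` is nonempty open, so `E(V₁) = E(δ⁻¹ γ V') = δ⁻¹ γ E(V') = δ⁻¹ γ E(V₁)`: `γ E(V₁) = δ E(V₁)`.

The sets `γ V₁`, `γ ∈ Γ`, cover the sphere (the complement of their union is closed and invariant, and is not everything: `minimal_sph` for the complement; if it were nonempty it would be `univ`). For `γ₀ ∈ Γ` let `A` be the union of the `γ V₁`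
with `γ E(V₁) = γ₀ E(V₁)` and `B` the union of the others: open, disjoint, they cover the connected sphere (`isPreconnected_sphere`), `A` is nonempty, so `B` is empty. So `γ E(V₁) = E(V₁)` for all `γ ∈ Γ` : invariant subspace, `≠ ⊤`, and `≠ ⊥` (it contains a
vector `w` of norm one: `V₁` nonempty, `πs`). Contradiction with `irreducible`.
-/

set_option autoImplicit false

open Matrix Topology Metric Filter

namespace Pool.Agent.Work.MP_20070e_gt.X

variable {m : ℕ}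

private theorem sd_cont0 (γ : SLn (m + 1)) :
    Continuous (fun x : Sph (m + 1) => ((γ, x) : SLn (m + 1) × Sph (m + 1))) :=
  continuous_const.prodMk continuous_id

private theorem sd_cont1 (γ : SLn (m + 1)) :
    Continuous ((fun p : SLn (m + 1) × Sph (m + 1) => sphAct p.1 p.2) ∘
      (fun x : Sph (m + 1) => ((γ, x) : SLn (m + 1) × Sph (m + 1)))) :=
  sphAct_continuous.comp (sd_cont0 γ)

private theorem sd_cont (γ : SLn (m + 1)) : Continuous (fun x : Sph (m + 1) => sphAct γ x) :=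
  sd_cont1 γ

private theorem sd_smul {n : ℕ} (g : SLn n) (c : ℝ) (v : Eu n) :
    lin g (c • v) = c • lin g v := by
  rw [lin_eq, lin_eq, map_smul]

private theorem sd_add {n : ℕ} (g : SLn n) (v w : Eu n) : lin g (v + w) = lin g v + lin g w := by
  rw [lin_eq, lin_eq, lin_eq, map_add]

private theorem sd_zero {n : ℕ} (g : SLn n) : lin g (0 : Eu n) = 0 := by
  rw [lin_eq, map_zero]

private theorem sd_ne {n : ℕ} (y : Sph n) : (y : Eu n) ≠ 0 := by
  intro h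
  have h1 := mem_sphere_zero_iff_norm.1 y.2
  rw [h, norm_zero] at h1
  exact zero_ne_one h1

private theorem sd_act {n : ℕ} (γ : SLn n) (y : Sph n) :
    lin γ (y : Eu n) = ‖lin γ (y : Eu n)‖ • (sphAct γ y : Eu n) := by
  have hn : ‖lin γ (y : Eu n)‖ ≠ 0 := norm_ne_zero_iff.2 (lin_ne_zero γ (sd_ne y))
  show _ = ‖lin γ (y : Eu n)‖ • ((‖lin γ (y : Eu n)‖)⁻¹ • lin γ (y : Eu n))
  rw [smul_smul, mul_inv_cancel₀ hn, one_smul]

/-- the span of the representatives of the values over `U` -/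
private def EE {X : Type} (π : Sph (m + 1) → X) (Ω : Sph (m + 1) → X) (U : Set (Sph (m + 1))) :
    Submodule ℝ (Eu (m + 1)) :=
  Submodule.span ℝ {v | ∃ z ∈ U, ∃ w : Sph (m + 1), Ω z = π w ∧ (w : Eu (m + 1)) = v}

private theorem EE_mono {X : Type} {π Ω : Sph (m + 1) → X} {U U' : Set (Sph (m + 1))}
    (h : U ⊆ U') : EE π Ω U ≤ EE π Ω U' := by
  refine Submodule.span_mono ?_
  rintro v ⟨z, hz, w, hw, rfl⟩
  exact ⟨z, h hz, w, hw, rfl⟩

private theorem EE_lin {proj : Prop} {Γ : Subgroup (SLn (m + 1))} {X : Type} [TopologicalSpace X]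
    {π : Sph (m + 1) → X} {τ : SLn (m + 1) → X → X} (h : SphSys proj Γ X π τ)
    {Ω : Sph (m + 1) → X} (hΩ : ∀ γ ∈ Γ, ∀ x, Ω (sphAct γ x) = τ γ (Ω x))
    {U U' : Set (Sph (m + 1))} {γ : SLn (m + 1)} (hγ : γ ∈ Γ)
    (hU : ∀ z ∈ U, sphAct γ z ∈ U') {v : Eu (m + 1)} (hv : v ∈ EE π Ω U) :
    lin γ v ∈ EE π Ω U' := by
  unfold EE at hv
  induction hv using Submodule.span_induction with
  | mem w hw =>
    obtain ⟨z, hz, w, hw, rfl⟩ := hw
    rw [sd_act]
    refine Submodule.smul_mem _ _ (Submodule.subset_span ⟨sphAct γ z, hU z hz, sphAct γ w, ?_, rfl⟩)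
    rw [hΩ γ hγ, hw, h.gam γ hγ]
  | zero =>
    rw [sd_zero]
    exact Submodule.zero_mem _
  | add w w' _ _ h1 h2 =>
    rw [sd_add]
    exact Submodule.add_mem _ h1 h2
  | smul c w _ h1 =>
    rw [sd_smul]
    exact Submodule.smul_mem _ _ h1

private theorem ex_min (P : Submodule ℝ (Eu (m + 1)) → Prop) (F : Submodule ℝ (Eu (m + 1)))
    (hF : P F) : ∃ E, P E ∧ ∀ F', P F' → F' ≤ E → E ≤ F' := by
  obtain ⟨E, hE, hmin⟩ := (measure fun E : Submodule ℝ (Eu (m + 1)) =>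
    Module.finrank ℝ E).wf.has_min {E | P E} ⟨F, hF⟩
  refine ⟨E, hE, fun F' h1 h2 => ?_⟩
  have h3 := Submodule.eq_of_le_of_finrank_le h2 (not_lt.1 (hmin F' h1))
  rw [h3]

theorem nondeg {proj : Prop} (hm : 1 ≤ m) {Γ : Subgroup (SLn (m + 1))}
    (hΓ : IsUniformLattice Γ) {X : Type} [TopologicalSpace X] {π : Sph (m + 1) → X}
    {τ : SLn (m + 1) → X → X} (h : SphSys proj Γ X π τ) (Ω : Sph (m + 1) → X)
    (hΩ : ∀ γ ∈ Γ, ∀ x, Ω (sphAct γ x) = τ γ (Ω x)) (κ : SLn (m + 1))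
    (V : Set (Sph (m + 1))) (hV : IsOpen V) (hne : V.Nonempty) :
    ∃ z ∈ V, ∃ w : Sph (m + 1), Ω z = π w ∧ (lin κ (w : Eu (m + 1))) 0 ≠ 0 := by
  by_contra hcon
  push Not at hcon
  have hcont : ∀ γ : SLn (m + 1), Continuous (sphAct γ) := fun γ => sd_cont γ
  obtain ⟨E, ⟨V₁, hV₁V, hV₁, hne₁, hE⟩, hmin⟩ := ex_min
    (fun E => ∃ V₁ : Set (Sph (m + 1)), V₁ ⊆ V ∧ IsOpen V₁ ∧ V₁.Nonempty ∧ E = EE π Ω V₁)
    (EE π Ω V) ⟨V, Set.Subset.rfl, hV, hne, rfl⟩
  -- smaller open sets have the same span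
  have hsame : ∀ U : Set (Sph (m + 1)), U ⊆ V₁ → IsOpen U → U.Nonempty → E ≤ EE π Ω U := by
    intro U hU hUo hUn
    refine hmin (EE π Ω U) ⟨U, hU.trans hV₁V, hUo, hUn, rfl⟩ ?_
    rw [hE]
    exact EE_mono hU
  -- stabilisers
  have hstab : ∀ β ∈ Γ, ∀ z ∈ V₁, sphAct β z ∈ V₁ → ∀ v ∈ E, lin β v ∈ E := by
    intro β hβ z hz hβz v hv
    have h1 := hsame (V₁ ∩ sphAct β ⁻¹' V₁) Set.inter_subset_left
      (hV₁.inter (hV₁.preimage (hcont β))) ⟨z, hz, hβz⟩ hv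
    rw [hE]
    exact EE_lin h hΩ hβ (fun z hz => hz.2) h1
  -- the translates cover the sphere
  have hcov : ∀ x, ∃ γ ∈ Γ, sphAct γ x ∈ V₁ := by
    by_contra hx
    push Not at hx
    obtain ⟨x, hx⟩ := hx
    have h1 := minimal_sph hm hΓ {x | ∀ γ ∈ Γ, sphAct γ x ∉ V₁} (by
      have h2 : {x : Sph (m + 1) | ∀ γ ∈ Γ, sphAct γ x ∉ V₁} =
          ⋂ γ ∈ Γ, (sphAct γ ⁻¹' V₁)ᶜ := by
        ext y
        simp
      rw [h2]
      exact isClosed_biInter fun γ _ => (hV₁.preimage (hcont γ)).isClosed_compl) (by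
      intro γ hγ z hz δ hδ
      rw [← sphAct_mul]
      exact hz _ (Γ.mul_mem hδ hγ)) ⟨x, hx⟩
    obtain ⟨z, hz⟩ := hne₁
    have h3 : z ∈ {x : Sph (m + 1) | ∀ γ ∈ Γ, sphAct γ x ∉ V₁} := by
      rw [h1]
      exact Set.mem_univ _
    apply h3 1 Γ.one_mem
    rw [sphAct_one]
    exact hz
  choose g hgΓ hg using hcov
  -- the transported subspace does not depend on the choice
  have hind : ∀ x, ∀ γ ∈ Γ, ∀ δ ∈ Γ, sphAct γ x ∈ V₁ → sphAct δ x ∈ V₁ → ∀ v, lin γ v ∈ E →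
      lin δ v ∈ E := by
    intro x γ hγ δ hδ h1 h2 v hv
    have h3 : lin δ v = lin (δ * γ⁻¹) (lin γ v) := by
      rw [← lin_mul, inv_mul_cancel_right]
    rw [h3]
    refine hstab _ (Γ.mul_mem hδ (Γ.inv_mem hγ)) _ h1 ?_ _ hv
    rw [← sphAct_mul, inv_mul_cancel_right]
    exact h2
  have hloc : IsLocallyConstant (fun x => {v : Eu (m + 1) | lin (g x) v ∈ E}) := by
    rw [IsLocallyConstant.iff_eventually_eq]
    intro x
    filter_upwards [(hV₁.preimage (hcont (g x))).mem_nhds (hg x)] with y hy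
    ext v
    exact ⟨hind y _ (hgΓ y) _ (hgΓ x) (hg y) hy v, hind y _ (hgΓ x) _ (hgΓ y) hy (hg y) v⟩
  have hrank : 1 < Module.rank ℝ (Eu (m + 1)) := by
    rw [← Module.finrank_eq_rank, finrank_euclideanSpace_fin]
    exact_mod_cast (by omega : 1 < m + 1)
  have hpc : PreconnectedSpace (Sph (m + 1)) :=
    isPreconnected_iff_preconnectedSpace.1 (isPreconnected_sphere hrank 0 1)
  obtain ⟨z₀, hz₀⟩ := hne₁
  have hinv : ∀ β ∈ Γ, ∀ v ∈ E, lin β v ∈ E := by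
    intro β hβ v hv
    have h1 := hloc.apply_eq_of_preconnectedSpace z₀ (sphAct β⁻¹ z₀)
    have h2 : v ∈ {v : Eu (m + 1) | lin (g z₀) v ∈ E} := by
      refine hind z₀ 1 Γ.one_mem _ (hgΓ z₀) ?_ (hg z₀) v ?_
      · rw [sphAct_one]
        exact hz₀
      · rw [lin_one]
        exact hv
    rw [h1] at h2
    refine hind (sphAct β⁻¹ z₀) _ (hgΓ _) β hβ (hg _) ?_ v h2
    rw [← sphAct_mul, mul_inv_cancel, sphAct_one]
    exact hz₀
  have hker : ∀ w ∈ E, (lin κ w) 0 = 0 := by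
    intro w hw
    rw [hE] at hw
    unfold EE at hw
    induction hw using Submodule.span_induction with
    | mem w hw =>
      obtain ⟨z, hz, w, hw, rfl⟩ := hw
      exact hcon z (hV₁V hz) w hw
    | zero =>
      rw [sd_zero]
      rfl
    | add w w' _ _ h1 h2 =>
      rw [sd_add, PiLp.add_apply, h1, h2, add_zero]
    | smul c w _ h1 =>
      rw [sd_smul, PiLp.smul_apply, h1, smul_zero]
  rcases irreducible hΓ E hinv with h1 | h1
  · obtain ⟨w, hw⟩ := h.πs (Ω z₀)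
    have h2 : (w : Eu (m + 1)) ∈ E := by
      rw [hE]
      exact Submodule.subset_span ⟨z₀, hz₀, w, hw.symm, rfl⟩
    rw [h1] at h2
    exact sd_ne w ((Submodule.mem_bot ℝ).1 h2)
  · have h2 := hker (lin κ⁻¹ (e0 m)) (by rw [h1]; exact Submodule.mem_top)
    rw [← lin_mul, mul_inv_cancel, lin_one] at h2
    simp [e0] at h2

end Pool.Agent.Work.MP_20070e_gt.X
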