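import Mathlib
import Pool.Agent.Work.MP_20070e_gt.X.SDefs
import Pool.Agent.Work.MP_20070e_gt.X.Seq

/-!
# X/SAsym (M): points of the open hemisphere are asymptotic to `o` under `aa`

`aa_sph`: if `k_j → ∞`, `x_j → x'`, `x'_0 > 0` then `sphAct (aa m k_j) x_j → oo m`: `e^{-m k} lin (aa m k) x_j = e^{-(m+1)k} x_j + (1 - e^{-(m+1)k}) (x_j)_0 e₀ → x'_0 e₀` (`lin_aa`), a nonzero vector, and
`sphAct` is the normalisation of any positive multiple (`normalize` is continuous at nonzero vectors; convergence in the subtype: `tendsto_subtype_rng`).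

`asym`: it is enough (both directions) to show: every subsequence has a further subsequence along which both `τ (aa k_j) (z_j)` and `τ (aa k_j) (π o)` converge to the same limit (`tendsto_of_subseq_tendsto`; if one of the two
sequences tends to `z`, the common limit is `z` by uniqueness of limits, `h.t2`). Given a subsequence, choose lifts `z_j = π x_j` (`πs`); the sphere is compact: pass to a subsequence with `x_j → x*`; `π x* = lim z_j = π w`, so `x* = w` or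
(`proj` and `x* = -w`). In the second case replace `x_j` by `-x_j` (`π (-x_j) = π x_j` by `fib`), which tends to `w`. So we may assume `x_j → w`, `w_0 > 0`.
Let `h_j = aa m k_j`; by `exists_subseq`, `γ_j ∈ Γ`, `κ_j = h_j γ_j → κ` along a subsequence. `h_j = κ_j γ_j⁻¹`, so `τ (h_j) (π x_j) = τ κ_j (π (sphAct γ_j⁻¹ x_j))`, and
`sphAct γ_j⁻¹ x_j = sphAct κ_j⁻¹ (sphAct h_j x_j) → sphAct κ⁻¹ o` by `aa_sph` and `sphAct_continuous`. So `τ h_j (π x_j) → τ κ (π (sphAct κ⁻¹ o))`. The same for `x_j = o` constant (`o_0 = 1 > 0`).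
-/

set_option autoImplicit false

open Matrix Topology Metric Filter

namespace Pool.Agent.Work.MP_20070e_gt.X

variable {m : ℕ}

theorem aa_sph (kj : ℕ → ℕ) (hk : Tendsto kj atTop atTop) (x : ℕ → Sph (m + 1))
    (x' : Sph (m + 1)) (hx : Tendsto x atTop (𝓝 x')) (h0 : 0 < (x' : Eu (m + 1)) 0) :
    Tendsto (fun j => sphAct (aa m (kj j)) (x j)) atTop (𝓝 (oo m)) := by
  rw [tendsto_subtype_rng]
  have hxv : Tendsto (fun j => (x j : Eu (m + 1))) atTop (𝓝 (x' : Eu (m + 1))) :=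
    (continuous_subtype_val.tendsto x').comp hx
  have hkR : Tendsto (fun j => ((kj j : ℕ) : ℝ)) atTop atTop :=
    tendsto_natCast_atTop_atTop.comp hk
  have hE : Tendsto (fun j => Real.exp (-(((m : ℝ) + 1) * (kj j : ℝ)))) atTop (𝓝 0) := by
    refine Real.tendsto_exp_atBot.comp ?_
    refine tendsto_neg_atTop_atBot.comp ?_
    exact hkR.const_mul_atTop (by positivity)
  have hx0 : Tendsto (fun j => (x j : Eu (m + 1)) 0) atTop (𝓝 ((x' : Eu (m + 1)) 0)) := by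
    have hc : Continuous (fun v : Eu (m + 1) => v 0) := by fun_prop
    exact (hc.tendsto _).comp hxv
  -- the rescaled vectors
  let u : ℕ → Eu (m + 1) := fun j => Real.exp (-((m : ℝ) * (kj j : ℝ))) •
    lin (aa m (kj j)) (x j : Eu (m + 1))
  have hu_eq : ∀ j, u j = Real.exp (-(((m : ℝ) + 1) * (kj j : ℝ))) • (x j : Eu (m + 1)) +
      ((1 - Real.exp (-(((m : ℝ) + 1) * (kj j : ℝ)))) * (x j : Eu (m + 1)) 0) • e0 m := by
    intro j
    have h1 : Real.exp (-((m : ℝ) * (kj j : ℝ))) * Real.exp (-(kj j : ℝ)) =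
        Real.exp (-(((m : ℝ) + 1) * (kj j : ℝ))) := by
      rw [← Real.exp_add]; congr 1; ring
    have h2 : Real.exp (-((m : ℝ) * (kj j : ℝ))) * Real.exp ((m : ℝ) * (kj j : ℝ)) = 1 := by
      rw [← Real.exp_add]; simp
    show Real.exp (-((m : ℝ) * (kj j : ℝ))) • lin (aa m (kj j)) (x j : Eu (m + 1)) = _
    rw [lin_aa, smul_add, smul_smul, smul_smul, h1, ← mul_assoc, mul_sub, h2, h1]
  have hu : Tendsto u atTop (𝓝 ((x' : Eu (m + 1)) 0 • e0 m)) := by
    have h3 : Tendsto (fun j => Real.exp (-(((m : ℝ) + 1) * (kj j : ℝ))) • (x j : Eu (m + 1)) +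
        ((1 - Real.exp (-(((m : ℝ) + 1) * (kj j : ℝ)))) * (x j : Eu (m + 1)) 0) • e0 m) atTop
        (𝓝 ((0 : ℝ) • (x' : Eu (m + 1)) + ((1 - 0) * (x' : Eu (m + 1)) 0) • e0 m)) :=
      (hE.smul hxv).add (((tendsto_const_nhds.sub hE).mul hx0).smul tendsto_const_nhds)
    rw [zero_smul, zero_add, sub_zero, one_mul] at h3
    exact h3.congr fun j => (hu_eq j).symm
  have hn : ‖(x' : Eu (m + 1)) 0 • e0 m‖ = (x' : Eu (m + 1)) 0 := by
    rw [norm_smul, norm_e0, mul_one, Real.norm_of_nonneg h0.le]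
  have hval : ∀ j, ((sphAct (aa m (kj j)) (x j) : Sph (m + 1)) : Eu (m + 1)) =
      (‖u j‖)⁻¹ • u j := by
    intro j
    show (‖lin (aa m (kj j)) (x j).1‖)⁻¹ • lin (aa m (kj j)) (x j).1 = _
    show _ = (‖Real.exp (-((m : ℝ) * (kj j : ℝ))) •
      lin (aa m (kj j)) (x j : Eu (m + 1))‖)⁻¹ • Real.exp (-((m : ℝ) * (kj j : ℝ))) •
      lin (aa m (kj j)) (x j : Eu (m + 1))
    have he : 0 < Real.exp (-((m : ℝ) * (kj j : ℝ))) := Real.exp_pos _
    rw [norm_smul, Real.norm_of_nonneg he.le, smul_smul, mul_inv, mul_comm (Real.exp _)⁻¹,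
      mul_assoc, inv_mul_cancel₀ he.ne', mul_one]
  have h4 : Tendsto (fun j => (‖u j‖)⁻¹ • u j) atTop
      (𝓝 ((‖(x' : Eu (m + 1)) 0 • e0 m‖)⁻¹ • ((x' : Eu (m + 1)) 0 • e0 m))) :=
    (hu.norm.inv₀ (by rw [hn]; exact h0.ne')).smul hu
  rw [hn, smul_smul, inv_mul_cancel₀ h0.ne', one_smul] at h4
  exact h4.congr fun j => (hval j).symm

private theorem sph_tendsto1 {n : ℕ} {X : Type} [TopologicalSpace X] {g : ℕ → SLn n} {g' : SLn n}
    {x : ℕ → X} {x' : X} (hg : Tendsto g atTop (𝓝 g')) (hx : Tendsto x atTop (𝓝 x')) :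
    Tendsto (fun j => (g j, x j)) atTop (𝓝 (g', x')) := hg.prodMk_nhds hx

private theorem sph_tendsto {n : ℕ} {g : ℕ → SLn n} {g' : SLn n} {x : ℕ → Sph n} {x' : Sph n}
    (hg : Tendsto g atTop (𝓝 g')) (hx : Tendsto x atTop (𝓝 x')) :
    Tendsto (fun j => sphAct (g j) (x j)) atTop (𝓝 (sphAct g' x')) := by
  have h2 := sph_tendsto1 hg hx
  have h1 := (sphAct_continuous (n := n)).tendsto (g', x')
  have h3 := h1.comp h2
  simpa only [Function.comp_def] using h3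

private theorem tau_tendsto {n : ℕ} {X : Type} [TopologicalSpace X] {τ : SLn n → X → X}
    (hτ : Continuous (fun p : SLn n × X => τ p.1 p.2)) {g : ℕ → SLn n} {g' : SLn n}
    {x : ℕ → X} {x' : X} (hg : Tendsto g atTop (𝓝 g')) (hx : Tendsto x atTop (𝓝 x')) :
    Tendsto (fun j => τ (g j) (x j)) atTop (𝓝 (τ g' x')) := by
  have h2 := sph_tendsto1 hg hx
  have h1 := hτ.tendsto (g', x')
  have h3 := h1.comp h2
  simpa only [Function.comp_def] using h3

private theorem key_alg {n : ℕ} {Γ : Subgroup (SLn n)} {X : Type} {π : Sph n → X}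
    {τ : SLn n → X → X} (mul : ∀ g h z, τ g (τ h z) = τ (g * h) z)
    (gam : ∀ γ ∈ Γ, ∀ x, τ γ (π x) = π (sphAct γ x)) (a γ : SLn n) (hγ : γ ∈ Γ) (x : Sph n) :
    τ (a * γ) (π (sphAct (a * γ)⁻¹ (sphAct a x))) = τ a (π x) := by
  have h1 : sphAct (a * γ)⁻¹ (sphAct a x) = sphAct γ⁻¹ x := by
    rw [← sphAct_mul, _root_.mul_inv_rev, mul_assoc, inv_mul_cancel, mul_one]
  rw [h1, ← gam _ (Γ.inv_mem hγ), mul, mul_assoc, mul_inv_cancel, mul_one]

private theorem asym_core {proj : Prop} {Γ : Subgroup (SLn (m + 1))} (hΓ : IsUniformLattice Γ)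
    {X : Type} [TopologicalSpace X] {π : Sph (m + 1) → X} {τ : SLn (m + 1) → X → X}
    (h : SphSys proj Γ X π τ) (kj : ℕ → ℕ) (hk : Tendsto kj atTop atTop) (z : ℕ → X)
    (w : Sph (m + 1)) (hw : 0 < (w : Eu (m + 1)) 0) (hz : Tendsto z atTop (𝓝 (π w))) :
    ∃ (φ : ℕ → ℕ) (p : X), StrictMono φ ∧
      Tendsto (fun j => τ (aa m (kj (φ j))) (z (φ j))) atTop (𝓝 p) ∧
      Tendsto (fun j => τ (aa m (kj (φ j))) (π (oo m))) atTop (𝓝 p) := by
  have hT2 := h.t2
  choose x0 hx0 using fun j => h.πs (z j)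
  obtain ⟨xs, φ, hφ, hxs⟩ := CompactSpace.tendsto_subseq x0
  have h1 : Tendsto (fun j => z (φ j)) atTop (𝓝 (π xs)) := by
    have h2 := (h.πc.tendsto xs).comp hxs
    refine h2.congr fun j => ?_
    exact hx0 (φ j)
  have h3 : π xs = π w := tendsto_nhds_unique h1 (hz.comp hφ.tendsto_atTop)
  -- good lifts
  obtain ⟨x, hx, hxw⟩ : ∃ x : ℕ → Sph (m + 1), (∀ j, π (x j) = z (φ j)) ∧
      Tendsto x atTop (𝓝 w) := by
    rcases (h.fib xs w).1 h3 with h4 | ⟨h4, h5⟩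
    · exact ⟨fun j => x0 (φ j), fun j => hx0 _, by rw [← h4]; exact hxs⟩
    · refine ⟨fun j => -x0 (φ j), fun j => ?_, ?_⟩
      · rw [← hx0 (φ j)]
        exact (h.fib _ _).2 (Or.inr ⟨h4, rfl⟩)
      · have h6 : w = -xs := by rw [h5, neg_neg]
        rw [h6]
        exact hxs.neg
  obtain ⟨_, C, hC, hCΓ⟩ := hΓ
  obtain ⟨γ, ψ, κ, hγ, -, hψ, -, hκ⟩ := exists_subseq hC hCΓ (fun j => aa m (kj (φ j)))
  -- the key convergence
  have key : ∀ (y : ℕ → Sph (m + 1)) (y' : Sph (m + 1)), 0 < (y' : Eu (m + 1)) 0 →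
      Tendsto y atTop (𝓝 y') →
      Tendsto (fun j => τ (aa m (kj (φ (ψ j)))) (π (y (ψ j)))) atTop
        (𝓝 (τ κ (π (sphAct κ⁻¹ (oo m))))) := by
    intro y y' hy' hy
    have h7 : Tendsto (fun j => sphAct (aa m (kj (φ (ψ j)))) (y (ψ j))) atTop (𝓝 (oo m)) :=
      aa_sph (fun j => kj (φ (ψ j)))
        (hk.comp (hφ.tendsto_atTop.comp hψ.tendsto_atTop)) (fun j => y (ψ j)) y'
        (hy.comp hψ.tendsto_atTop) hy'
    have h9 := sph_tendsto hκ.inv h7
    have h10 := tau_tendsto h.τc hκ ((h.πc.tendsto _).comp h9)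
    refine h10.congr fun j => ?_
    exact key_alg h.mul h.gam _ _ (hγ (ψ j)) _
  refine ⟨fun j => φ (ψ j), τ κ (π (sphAct κ⁻¹ (oo m))), hφ.comp hψ, ?_, ?_⟩
  · have h11 := key x w hw hxw
    refine h11.congr fun j => ?_
    rw [hx]
  · refine key (fun _ => oo m) (oo m) ?_ tendsto_const_nhds
    show 0 < (e0 m) 0
    simp [e0]

theorem asym {proj : Prop} {Γ : Subgroup (SLn (m + 1))} (hΓ : IsUniformLattice Γ) {X : Type}
    [TopologicalSpace X] {π : Sph (m + 1) → X} {τ : SLn (m + 1) → X → X}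
    (h : SphSys proj Γ X π τ) (kj : ℕ → ℕ) (hk : Tendsto kj atTop atTop) (z : ℕ → X)
    (w : Sph (m + 1)) (hw : 0 < (w : Eu (m + 1)) 0) (hz : Tendsto z atTop (𝓝 (π w))) (y : X) :
    Tendsto (fun j => τ (aa m (kj j)) (z j)) atTop (𝓝 y) ↔
      Tendsto (fun j => τ (aa m (kj j)) (π (oo m))) atTop (𝓝 y) := by
  have hT2 := h.t2
  constructor
  · intro h1
    refine tendsto_of_subseq_tendsto fun ns hns => ?_
    obtain ⟨φ, p, hφ, hp1, hp2⟩ := asym_core hΓ h (fun j => kj (ns j)) (hk.comp hns)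
      (fun j => z (ns j)) w hw (hz.comp hns)
    refine ⟨φ, ?_⟩
    have h2 : Tendsto (fun j => τ (aa m (kj (ns (φ j)))) (z (ns (φ j)))) atTop (𝓝 y) :=
      h1.comp (hns.comp hφ.tendsto_atTop)
    rw [← tendsto_nhds_unique hp1 h2]
    exact hp2
  · intro h1
    refine tendsto_of_subseq_tendsto fun ns hns => ?_
    obtain ⟨φ, p, hφ, hp1, hp2⟩ := asym_core hΓ h (fun j => kj (ns j)) (hk.comp hns)
      (fun j => z (ns j)) w hw (hz.comp hns)
    refine ⟨φ, ?_⟩
    have h2 : Tendsto (fun j => τ (aa m (kj (ns (φ j)))) (π (oo m))) atTop (𝓝 y) :=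
      h1.comp (hns.comp hφ.tendsto_atTop)
    rw [← tendsto_nhds_unique hp2 h2]
    exact hp1

end Pool.Agent.Work.MP_20070e_gt.X
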