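import Mathlib
import Pool.Agent.Work.MP_20070e_gt.X.El
import Pool.Agent.Work.MP_20070e_gt.T

/-!
# X/SPath (M): the stabiliser of the base point is path connected

Let `sphAct q o = o`: `q e₀ = l e₀`, `l > 0` (`sphAct_eq_oo`), i.e. the first column of `q` is `l e₀`. Let `b` be the rest of the first row and `D` the lower right `m × m` block: `det q = l det D = 1`
(expansion along the first column: `Matrix.det_succ_column_zero`), so `det D = l⁻¹ > 0`. `D' = l^{1/m} D ∈ SL_m(ℝ)` (`m ≥ 2`). `sl_path` (in `../T.lean`, dimension `m ≥ 2`) gives a continuous path `D'_t` in `SL_m(ℝ)` from `1` to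
`D'`. Put `q_t = [[l^t, t b], [0, l^{-t/m} D'_t]]` (`Matrix.of` with `Fin.cases`, or a `fromBlocks` reindexed): determinant `l^t · l^{-t} = 1`, continuous in `t`, `q_0 = 1`, `q_1 = q`, first column `l^t e₀` with `l^t > 0`, so
`sphAct q_t o = o`.
-/

set_option autoImplicit false

open Matrix Topology Metric Filter

namespace Pool.Agent.Work.MP_20070e_gt.X

/-- a block upper triangular matrix -/
private noncomputable def blk {m : ℕ} (a : ℝ) (b : Fin m → ℝ) (D : Mat m) : Mat (m + 1) :=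
  Matrix.of fun i j => Fin.cases (Fin.cases a b j) (fun i' => Fin.cases 0 (fun j' => D i' j') j) i

private theorem blk_00 {m : ℕ} (a : ℝ) (b : Fin m → ℝ) (D : Mat m) : blk a b D 0 0 = a := rfl

private theorem blk_0s {m : ℕ} (a : ℝ) (b : Fin m → ℝ) (D : Mat m) (j : Fin m) :
    blk a b D 0 j.succ = b j := rfl

private theorem blk_s0 {m : ℕ} (a : ℝ) (b : Fin m → ℝ) (D : Mat m) (i : Fin m) :
    blk a b D i.succ 0 = 0 := rfl

private theorem blk_ss {m : ℕ} (a : ℝ) (b : Fin m → ℝ) (D : Mat m) (i j : Fin m) :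
    blk a b D i.succ j.succ = D i j := rfl

private theorem blk_det {m : ℕ} (a : ℝ) (b : Fin m → ℝ) (D : Mat m) :
    (blk a b D).det = a * D.det := by
  rw [Matrix.det_succ_column_zero, Fin.sum_univ_succ]
  have h1 : ∑ i : Fin m, (-1 : ℝ) ^ ((i.succ : Fin (m + 1)) : ℕ) * blk a b D i.succ 0 *
      ((blk a b D).submatrix i.succ.succAbove Fin.succ).det = 0 := by
    apply Finset.sum_eq_zero
    intro i _
    rw [blk_s0, mul_zero, zero_mul]
  rw [h1, add_zero, blk_00]
  have h2 : (blk a b D).submatrix (Fin.succAbove 0) Fin.succ = D := by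
    ext i j
    rw [Matrix.submatrix_apply, Fin.zero_succAbove, blk_ss]
  rw [h2]
  simp

private theorem blk_one {m : ℕ} : blk 1 (0 : Fin m → ℝ) 1 = 1 := by
  ext i j
  refine Fin.cases ?_ (fun i' => ?_) i
  · refine Fin.cases ?_ (fun j' => ?_) j
    · rw [blk_00, Matrix.one_apply_eq]
    · rw [blk_0s, Matrix.one_apply_ne (Fin.succ_ne_zero j').symm]
      rfl
  · refine Fin.cases ?_ (fun j' => ?_) j
    · rw [blk_s0, Matrix.one_apply_ne (Fin.succ_ne_zero i')]
    · rw [blk_ss, Matrix.one_apply, Matrix.one_apply]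
      simp only [Fin.succ_inj]

private theorem blk_cont {m : ℕ} {a : ℝ → ℝ} {b : ℝ → Fin m → ℝ} {D : ℝ → Mat m}
    (ha : Continuous a) (hb : Continuous b) (hD : Continuous D) :
    Continuous fun t => blk (a t) (b t) (D t) := by
  refine continuous_matrix fun i j => ?_
  refine Fin.cases ?_ (fun i' => ?_) i
  · refine Fin.cases ?_ (fun j' => ?_) j
    · exact ha
    · exact (continuous_apply j').comp hb
  · refine Fin.cases ?_ (fun j' => ?_) j
    · exact continuous_const
    · exact hD.matrix_elem i' j'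

private theorem blk_sph {m : ℕ} (q : SLn (m + 1)) (a : ℝ) (ha : 0 < a) (b : Fin m → ℝ)
    (D : Mat m) (hq : q.1 = blk a b D) : sphAct q (oo m) = oo m := by
  have h1 : lin q (e0 m) = a • e0 m := by
    ext i
    have e1 : (e0 m).ofLp = Pi.single 0 1 := rfl
    show (q.1 *ᵥ (e0 m).ofLp) i = a * (e0 m).ofLp i
    rw [e1, Matrix.mulVec_single_one, hq]
    refine Fin.cases ?_ (fun i' => ?_) i
    · show blk a b D 0 0 = _
      rw [blk_00, Pi.single_eq_same, mul_one]
    · show blk a b D i'.succ 0 = _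
      rw [blk_s0, Pi.single_eq_of_ne (Fin.succ_ne_zero i'), mul_zero]
  apply Subtype.ext
  show (‖lin q (e0 m)‖)⁻¹ • lin q (e0 m) = e0 m
  rw [h1, norm_smul, norm_e0, mul_one, Real.norm_eq_abs, abs_of_pos ha, smul_smul,
    inv_mul_cancel₀ ha.ne', one_smul]

theorem stab_path {m : ℕ} (hm : 2 ≤ m) (q : SLn (m + 1)) (hq : sphAct q (oo m) = oo m) :
    ∃ p : ℝ → SLn (m + 1), Continuous p ∧ p 0 = 1 ∧ p 1 = q ∧
      ∀ t, sphAct (p t) (oo m) = oo m := by
  obtain ⟨l, hl, hle⟩ := sphAct_eq_oo hq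
  have hcol : ∀ i, q.1 i 0 = l * (e0 m).ofLp i := by
    intro i
    have h1 : (q.1 *ᵥ (e0 m).ofLp) i = l * (e0 m).ofLp i := congrFun (congrArg WithLp.ofLp hle) i
    have e1 : (e0 m).ofLp = Pi.single 0 1 := rfl
    rw [e1, Matrix.mulVec_single_one] at h1
    rw [e1]
    exact h1
  have h00 : q.1 0 0 = l := by
    rw [hcol 0]
    have e1 : (e0 m).ofLp = Pi.single 0 1 := rfl
    rw [e1, Pi.single_eq_same, mul_one]
  have hs0 : ∀ i : Fin m, q.1 i.succ 0 = 0 := by
    intro i
    rw [hcol]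
    have e1 : (e0 m).ofLp = Pi.single 0 1 := rfl
    rw [e1, Pi.single_eq_of_ne (Fin.succ_ne_zero i), mul_zero]
  set b : Fin m → ℝ := fun j => q.1 0 j.succ with hb
  set D : Mat m := Matrix.of fun i j => q.1 i.succ j.succ with hD
  have hqb : q.1 = blk l b D := by
    ext i j
    refine Fin.cases ?_ (fun i' => ?_) i
    · refine Fin.cases ?_ (fun j' => ?_) j
      · rw [blk_00, h00]
      · rw [blk_0s]
    · refine Fin.cases ?_ (fun j' => ?_) j
      · rw [blk_s0, hs0]
      · rw [blk_ss]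
        rfl
  have hdet : l * D.det = 1 := by
    rw [← blk_det l b D, ← hqb]
    exact q.2
  have hm0 : (m : ℝ) ≠ 0 := by
    have : m ≠ 0 := by omega
    exact_mod_cast this
  have hD' : ((l ^ (1 / (m : ℝ))) • D).det = 1 := by
    rw [Matrix.det_smul, Fintype.card_fin, ← Real.rpow_natCast, ← Real.rpow_mul hl.le,
      one_div, inv_mul_cancel₀ hm0, Real.rpow_one, hdet]
  obtain ⟨p', hp'c, hp'0, hp'1⟩ := sl_path hm (⟨(l ^ (1 / (m : ℝ))) • D, hD'⟩ : SLn m)
  have hdt : ∀ t : ℝ, (blk (l ^ t) (t • b) ((l ^ (-t / (m : ℝ))) • (p' t).1)).det = 1 := by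
    intro t
    have h1 : (p' t).1.det = 1 := (p' t).2
    rw [blk_det, Matrix.det_smul, Fintype.card_fin, h1, mul_one, ← Real.rpow_natCast,
      ← Real.rpow_mul hl.le, div_mul_cancel₀ _ hm0, ← Real.rpow_add hl, add_neg_cancel,
      Real.rpow_zero]
  refine ⟨fun t => ⟨blk (l ^ t) (t • b) ((l ^ (-t / (m : ℝ))) • (p' t).1), hdt t⟩, ?_, ?_, ?_, ?_⟩
  · apply Continuous.subtype_mk
    have hc1 : Continuous fun t : ℝ => l ^ t := by
      exact Real.continuous_const_rpow hl.ne'
    have hc2 : Continuous fun t : ℝ => l ^ (-t / (m : ℝ)) := by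
      exact (Real.continuous_const_rpow hl.ne').comp (continuous_neg.div_const _)
    exact blk_cont hc1 (continuous_id.smul continuous_const)
      (hc2.smul (continuous_subtype_val.comp hp'c))
  · apply Subtype.ext
    show blk (l ^ (0 : ℝ)) ((0 : ℝ) • b) ((l ^ (-(0 : ℝ) / (m : ℝ))) • (p' 0).1) = 1
    rw [hp'0, neg_zero, zero_div, Real.rpow_zero, zero_smul, one_smul]
    exact blk_one
  · apply Subtype.ext
    show blk (l ^ (1 : ℝ)) ((1 : ℝ) • b) ((l ^ (-(1 : ℝ) / (m : ℝ))) • (p' 1).1) = q.1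
    have h1 : (p' 1).1 = (l ^ (1 / (m : ℝ))) • D := congrArg Subtype.val hp'1
    rw [h1, Real.rpow_one, one_smul, smul_smul, ← Real.rpow_add hl, neg_div,
      neg_add_cancel, Real.rpow_zero, one_smul, ← hqb]
  · intro t
    exact blk_sph _ (l ^ t) (Real.rpow_pos_of_pos hl t) _ _ rfl

end Pool.Agent.Work.MP_20070e_gt.X
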