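import Mathlib
import Pool.Agent.Work.MP_20070e_gt.X.SAsym
import Pool.Agent.Work.MP_20070e_gt.X.SPath

/-!
# X/SFix (M-L): a point fixed by the stabiliser of `o`, and the equivariant map

`X` is compact (`π` is continuous and surjective from the compact sphere), Hausdorff, second countable. Let `y_k = τ (aa m k) (π o)`; choose `k_j → ∞` (strictly increasing) with `y_{k_j} → ω` (`IsCompact.tendsto_subseq`).

Claim 1: if `q o = o` (`sphAct`) and `τ q_L (π o) = π w` with `w_0 > 0`, where `q_L` is `q` with the entries `(0, j)`, `j ≠ 0`, replaced by `0`, then `τ q ω = ω`. Indeed `q_k := (aa m k)⁻¹ q (aa m k) → q_L` (entry `(i,j)` is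
multiplied by `a_j / a_i`: `1` for `i = j = 0` and for `i, j ≠ 0`, `e^{-(m+1)k}` for `(0, j)`, and the entries `(i, 0)` vanish since `q e₀ = l e₀`), `q_L ∈ SL` (the determinant is continuous, or expansion).
`τ q ω = lim τ (q aa k_j) (π o) = lim τ (aa k_j) (τ q_{k_j} (π o))`, and `z_j = τ q_{k_j} (π o) → τ q_L (π o) = π w`. By `asym` (`←` direction: `τ (aa k_j) (π o) → ω`), `τ (aa k_j) z_j → ω`. So `τ q ω = ω` (`T2`).

Claim 2: there is a neighbourhood `N` of `1` in `G` with `τ q ω = ω` for all `q ∈ N` with `q o = o`. Otherwise there are `q_j → 1`, `q_j o = o`, `τ q_j ω ≠ ω`; `(q_j)_L → 1`, so `τ (q_j)_L (π o) → π o`; lifts: `τ (q_j)_L (π o) = π w_j`, and (compactness of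
the sphere, `fib`) after passing to a subsequence and possibly changing signs (in the projective case) `w_j → o`, so `(w_j)_0 > 0` for large `j`; contradiction with claim 1.

Claim 3: all `q` with `q o = o`: path `p` of `stab_path`; the set `{t : τ (p t) ω = ω}` contains `0`, is closed, and open: `p t = (p t (p t₀)⁻¹) p t₀`, `p t (p t₀)⁻¹ → 1` fixes `o`; so it is `univ` (`ℝ` connected).

`exists_Omega`: define `Ω x = τ (g_x) ω` where `g_x` is the rotation of `exists_rot` (`sphAct g_x o = x`). If `sphAct g o = x` then `g_x⁻¹ g` fixes `o`, so `τ g ω = Ω x`. Hence `Ω (sphAct g x) = τ g (Ω x)`. Continuity: `x_j → x`: the `g_{x_j}` are in the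
compact set `compact_box 1`; along a subsequence `g_{x_j} → g`, `sphAct g o = x`, and `Ω x_j = τ g_{x_j} ω → τ g ω = Ω x` (sequential continuity with subsequences; the sphere is metrizable).
-/

set_option autoImplicit false

open Matrix Topology Metric Filter

namespace Pool.Agent.Work.MP_20070e_gt.X

variable {m : ℕ}

/-- `q` with the entries `(0, j)`, `j ≠ 0`, replaced by `0`. -/
private noncomputable def QL (q : Matrix (Fin (m + 1)) (Fin (m + 1)) ℝ) :
    Matrix (Fin (m + 1)) (Fin (m + 1)) ℝ := fun i j => if i = 0 ∧ j ≠ 0 then 0 else q i j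

private theorem QL_one : QL (1 : Matrix (Fin (m + 1)) (Fin (m + 1)) ℝ) = 1 := by
  ext i j
  unfold QL
  split_ifs with h
  · rw [h.1, Matrix.one_apply_ne (Ne.symm h.2)]
  · rfl

private theorem QL_cont : Continuous (QL (m := m)) := by
  refine continuous_matrix fun i j => ?_
  by_cases h : i = 0 ∧ j ≠ 0
  · have e : (fun a : Matrix (Fin (m + 1)) (Fin (m + 1)) ℝ => QL a i j) = fun _ => (0 : ℝ) := by
      funext a
      exact if_pos h
    rw [e]
    exact continuous_const
  · have e : (fun a : Matrix (Fin (m + 1)) (Fin (m + 1)) ℝ => QL a i j) = fun a => a i j := by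
      funext a
      exact if_neg h
    rw [e]
    exact continuous_id.matrix_elem i j

private theorem col_zero {q : SLn (m + 1)} (hq : sphAct q (oo m) = oo m) (i : Fin (m + 1))
    (hi : i ≠ 0) : q.1 i 0 = 0 := by
  obtain ⟨l, _, hl⟩ := sphAct_eq_oo hq
  have h1 := congrArg (fun v : Eu (m + 1) => v i) hl
  have h2 : (lin q (e0 m)) i = q.1 i 0 := by
    change (q.1 *ᵥ (e0 m).ofLp) i = q.1 i 0
    rw [Matrix.mulVec, dotProduct, Finset.sum_eq_single 0]
    · have : (e0 m).ofLp 0 = 1 := by unfold e0; simp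
      rw [this, mul_one]
    · intro b _ hb
      have : (e0 m).ofLp b = 0 := by
        unfold e0
        simp [hb]
      rw [this, mul_zero]
    · intro h; exact absurd (Finset.mem_univ _) h
  have h3 : (l • e0 m) i = 0 := by
    unfold e0
    simp [hi]
  simp only at h1
  rw [h2, h3] at h1
  exact h1

private theorem conj_entry (q : SLn (m + 1)) (s : ℝ) (i j : Fin (m + 1)) :
    ((aa m s)⁻¹ * q * aa m s).1 i j =
      (if i = 0 then Real.exp (m * (-s)) else Real.exp (-(-s))) * q.1 i j *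
        (if j = 0 then Real.exp (m * s) else Real.exp (-s)) := by
  rw [← aa_neg]
  change (((Matrix.diagonal (fun i => if i = 0 then Real.exp (m * (-s)) else Real.exp (-(-s))) :
    Matrix (Fin (m + 1)) (Fin (m + 1)) ℝ) * q.1) *
    (Matrix.diagonal (fun i => if i = 0 then Real.exp (m * s) else Real.exp (-s)) :
      Matrix (Fin (m + 1)) (Fin (m + 1)) ℝ) : Matrix (Fin (m + 1)) (Fin (m + 1)) ℝ) i j = _
  rw [Matrix.mul_diagonal, Matrix.diagonal_mul]

private theorem conj_tendsto {q : SLn (m + 1)} (hq : sphAct q (oo m) = oo m) (kj : ℕ → ℕ)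
    (hk : Tendsto kj atTop atTop) :
    Tendsto (fun k => ((aa m (kj k))⁻¹ * q * aa m (kj k)).1) atTop (𝓝 (QL q.1)) := by
  refine tendsto_pi_nhds.2 fun i => tendsto_pi_nhds.2 fun j => ?_
  simp only [conj_entry]
  unfold QL
  by_cases hi : i = 0
  · subst hi
    by_cases hj : j = 0
    · subst hj
      simp only [if_true, ne_eq, not_true_eq_false, and_false, if_false]
      refine tendsto_const_nhds.congr fun k => ?_
      rw [mul_right_comm, ← Real.exp_add]
      have : (m : ℝ) * -((kj k : ℕ) : ℝ) + m * ((kj k : ℕ) : ℝ) = 0 := by ring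
      rw [this, Real.exp_zero, one_mul]
    · simp only [if_true, ne_eq, hj, not_false_eq_true, and_self, if_false]
      have h1 : Tendsto (fun k : ℕ => Real.exp (-(((m : ℝ) + 1) * ((kj k : ℕ) : ℝ))) * q.1 0 j) atTop
          (𝓝 (0 * q.1 0 j)) := by
        refine Tendsto.mul_const _ ?_
        refine Real.tendsto_exp_neg_atTop_nhds_zero.comp ?_
        refine Tendsto.const_mul_atTop (by positivity) ?_
        exact tendsto_natCast_atTop_atTop.comp hk
      rw [zero_mul] at h1
      refine h1.congr fun k => ?_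
      rw [mul_right_comm, ← Real.exp_add]
      congr 2
      ring
  · by_cases hj : j = 0
    · subst hj
      rw [col_zero hq i hi]
      simp [hi]
    · simp only [hi, hj, if_false, false_and]
      refine tendsto_const_nhds.congr fun k => ?_
      rw [mul_right_comm, ← Real.exp_add]
      have : -(-((kj k : ℕ) : ℝ)) + -((kj k : ℕ) : ℝ) = 0 := by ring
      rw [this, Real.exp_zero, one_mul]

private theorem QL_det {q : SLn (m + 1)} (hq : sphAct q (oo m) = oo m) : (QL q.1).det = 1 := by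
  have h1 := conj_tendsto hq id tendsto_id
  have h2 : Tendsto (fun k : ℕ => (((aa m ((id k : ℕ) : ℝ))⁻¹ * q * aa m ((id k : ℕ) : ℝ)).1).det) atTop
      (𝓝 (QL q.1).det) := ((continuous_id.matrix_det).tendsto _).comp h1
  have h3 : (fun k : ℕ => (((aa m ((id k : ℕ) : ℝ))⁻¹ * q * aa m ((id k : ℕ) : ℝ)).1).det) =
      fun _ => (1 : ℝ) := by
    funext k
    exact ((aa m ((id k : ℕ) : ℝ))⁻¹ * q * aa m ((id k : ℕ) : ℝ)).2
  rw [h3] at h2
  exact tendsto_nhds_unique h2 tendsto_const_nhds

/-- the stabiliser of the base point -/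
private abbrev Stab (m : ℕ) := {q : SLn (m + 1) // sphAct q (oo m) = oo m}

private noncomputable def qL (q : Stab m) : SLn (m + 1) := ⟨QL q.1.1, QL_det q.2⟩

private theorem qL_cont : Continuous (qL (m := m)) := by
  refine Continuous.subtype_mk ?_ _
  exact QL_cont.comp (continuous_subtype_val.comp continuous_subtype_val)

private theorem claim1 {proj : Prop} {Γ : Subgroup (SLn (m + 1))}
    (hΓ : IsUniformLattice Γ) {X : Type} [TopologicalSpace X] {π : Sph (m + 1) → X}
    {τ : SLn (m + 1) → X → X} (h : SphSys proj Γ X π τ) (kj : ℕ → ℕ) (hk : Tendsto kj atTop atTop)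
    (ω : X) (hω : Tendsto (fun j => τ (aa m (kj j)) (π (oo m))) atTop (𝓝 ω))
    (q : Stab m) (w : Sph (m + 1)) (hw : 0 < (w : Eu (m + 1)) 0)
    (hqw : τ (qL q) (π (oo m)) = π w) : τ q.1 ω = ω := by
  haveI := h.t2
  have hτ : ∀ g : SLn (m + 1), Continuous (τ g) := fun g =>
    h.τc.comp (continuous_const.prodMk continuous_id)
  have h1 : Tendsto (fun j => τ q.1 (τ (aa m (kj j)) (π (oo m)))) atTop (𝓝 (τ q.1 ω)) :=
    ((hτ q.1).tendsto ω).comp hω
  have h2 : Tendsto (fun j => (aa m (kj j))⁻¹ * q.1 * aa m (kj j)) atTop (𝓝 (qL q)) := by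
    exact tendsto_subtype_rng.2 (conj_tendsto q.2 kj hk)
  have h3 : Tendsto (fun j => τ ((aa m (kj j))⁻¹ * q.1 * aa m (kj j)) (π (oo m))) atTop
      (𝓝 (π w)) := by
    rw [← hqw]
    have h4 : Continuous (fun g : SLn (m + 1) => τ g (π (oo m))) :=
      h.τc.comp (continuous_id.prodMk continuous_const)
    exact (h4.tendsto _).comp h2
  have h5 := (asym hΓ h kj hk _ w hw h3 ω).2 hω
  have h6 : (fun j => τ (aa m (kj j)) (τ ((aa m (kj j))⁻¹ * q.1 * aa m (kj j)) (π (oo m)))) =
      fun j => τ q.1 (τ (aa m (kj j)) (π (oo m))) := by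
    funext j
    rw [h.mul, h.mul]
    congr 1
    group
  rw [h6] at h5
  exact tendsto_nhds_unique h1 h5

private theorem image_open {proj : Prop} {Γ : Subgroup (SLn (m + 1))} {X : Type}
    [TopologicalSpace X] {π : Sph (m + 1) → X}
    {τ : SLn (m + 1) → X → X} (h : SphSys proj Γ X π τ) :
    IsOpen (π '' {w : Sph (m + 1) | 0 < (w : Eu (m + 1)) 0}) := by
  haveI := h.t2
  have h1 : IsQuotientMap π := (h.πc.isClosedMap).isQuotientMap h.πc h.πs
  rw [← h1.isOpen_preimage]
  have hc : Continuous (fun w : Sph (m + 1) => (w : Eu (m + 1)) 0) :=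
    (EuclideanSpace.proj (0 : Fin (m + 1)) : Eu (m + 1) →L[ℝ] ℝ).continuous.comp
      continuous_subtype_val
  have h2 : π ⁻¹' (π '' {w : Sph (m + 1) | 0 < (w : Eu (m + 1)) 0}) =
      {w : Sph (m + 1) | 0 < (w : Eu (m + 1)) 0} ∪
        {w : Sph (m + 1) | proj ∧ (w : Eu (m + 1)) 0 < 0} := by
    ext x
    constructor
    · rintro ⟨w, hw, hwx⟩
      rcases (h.fib w x).1 hwx with h3 | ⟨h3, h4⟩
      · left; rw [← h3]; exact hw
      · right
        refine ⟨h3, ?_⟩
        have h5 : (w : Eu (m + 1)) 0 = -((x : Eu (m + 1)) 0) := by rw [h4]; rfl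
        have h6 : 0 < (w : Eu (m + 1)) 0 := hw
        rw [h5] at h6
        linarith
    · rintro (h3 | ⟨h3, h4⟩)
      · exact ⟨x, h3, rfl⟩
      · refine ⟨-x, ?_, (h.fib _ _).2 (Or.inr ⟨h3, rfl⟩)⟩
        change 0 < -((x : Eu (m + 1)) 0)
        linarith
  rw [h2]
  refine (isOpen_lt continuous_const hc).union ?_
  by_cases hp : proj
  · simp only [hp, true_and]
    exact isOpen_lt hc continuous_const
  · simp [hp]

theorem exists_fix {proj : Prop} (hm : 2 ≤ m) {Γ : Subgroup (SLn (m + 1))}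
    (hΓ : IsUniformLattice Γ) {X : Type} [TopologicalSpace X] {π : Sph (m + 1) → X}
    {τ : SLn (m + 1) → X → X} (h : SphSys proj Γ X π τ) :
    ∃ ω : X, ∀ q : SLn (m + 1), sphAct q (oo m) = oo m → τ q ω = ω := by
  haveI := h.t2
  haveI := h.sc
  haveI : CompactSpace X := ⟨by
    rw [← h.πs.range_eq]
    exact isCompact_range h.πc⟩
  obtain ⟨ω, _, kj, hkj, hω⟩ := (isCompact_univ (X := X)).tendsto_subseq
    (x := fun k : ℕ => τ (aa m k) (π (oo m))) (fun _ => Set.mem_univ _)
  have hω' : Tendsto (fun j => τ (aa m (kj j)) (π (oo m))) atTop (𝓝 ω) := hω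
  refine ⟨ω, fun q hq => ?_⟩
  -- the open set of good elements
  have hf : Continuous (fun q : Stab m => τ (qL q) (π (oo m))) :=
    h.τc.comp (qL_cont.prodMk continuous_const)
  have hO : IsOpen ((fun q : Stab m => τ (qL q) (π (oo m))) ⁻¹'
      (π '' {w : Sph (m + 1) | 0 < (w : Eu (m + 1)) 0})) := (image_open h).preimage hf
  have hgood : ∀ q : Stab m, q ∈ ((fun q : Stab m => τ (qL q) (π (oo m))) ⁻¹'
      (π '' {w : Sph (m + 1) | 0 < (w : Eu (m + 1)) 0})) → τ q.1 ω = ω := by
    rintro q ⟨w, hw, hwq⟩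
    exact claim1 hΓ h kj hkj.tendsto_atTop ω hω' q w hw hwq.symm
  have hone : ∀ q : Stab m, q.1 = 1 → q ∈ ((fun q : Stab m => τ (qL q) (π (oo m))) ⁻¹'
      (π '' {w : Sph (m + 1) | 0 < (w : Eu (m + 1)) 0})) := by
    intro q hq1
    refine ⟨oo m, ?_, ?_⟩
    · change 0 < (e0 m) 0
      unfold e0
      simp
    · have : qL q = 1 := by
        apply Subtype.ext
        change QL q.1.1 = 1
        rw [hq1]
        exact QL_one
      change π (oo m) = τ (qL q) (π (oo m))
      rw [this, h.one]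
  obtain ⟨p, hp, hp0, hp1, hps⟩ := stab_path hm q hq
  have hpc : Continuous (fun t => τ (p t) ω) := h.τc.comp (hp.prodMk continuous_const)
  have hclosed : IsClosed {t : ℝ | τ (p t) ω = ω} := isClosed_eq hpc continuous_const
  have hopen : IsOpen {t : ℝ | τ (p t) ω = ω} := by
    rw [isOpen_iff_mem_nhds]
    intro t₀ ht₀
    have hst : ∀ t, sphAct (p t * (p t₀)⁻¹) (oo m) = oo m := by
      intro t
      rw [sphAct_mul]
      have h1 : sphAct (p t₀)⁻¹ (oo m) = oo m := by
        conv_lhs => rw [← hps t₀]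
        rw [← sphAct_mul, inv_mul_cancel, sphAct_one]
      rw [h1, hps]
    have hcont : Continuous (fun t => (⟨p t * (p t₀)⁻¹, hst t⟩ : Stab m)) :=
      Continuous.subtype_mk (hp.mul continuous_const) _
    have h2 := hO.preimage hcont
    have h3 : t₀ ∈ (fun t => (⟨p t * (p t₀)⁻¹, hst t⟩ : Stab m)) ⁻¹'
        ((fun q : Stab m => τ (qL q) (π (oo m))) ⁻¹'
      (π '' {w : Sph (m + 1) | 0 < (w : Eu (m + 1)) 0})) := hone _ (mul_inv_cancel _)
    refine Filter.mem_of_superset (h2.mem_nhds h3) ?_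
    intro t ht
    have h4 := hgood _ ht
    change τ (p t * (p t₀)⁻¹) ω = ω at h4
    change τ (p t) ω = ω
    have h5 : τ (p t) ω = τ (p t * (p t₀)⁻¹) (τ (p t₀) ω) := by
      rw [h.mul, inv_mul_cancel_right]
    have h6 : τ (p t₀) ω = ω := ht₀
    rw [h5, h6, h4]
  have huniv : {t : ℝ | τ (p t) ω = ω} = Set.univ :=
    IsClopen.eq_univ ⟨hclosed, hopen⟩ ⟨0, by
      change τ (p 0) ω = ω
      rw [hp0, h.one]⟩
  have h1 : (1 : ℝ) ∈ {t : ℝ | τ (p t) ω = ω} := by rw [huniv]; exact Set.mem_univ _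
  change τ (p 1) ω = ω at h1
  rw [hp1] at h1
  exact h1

private theorem cont_of_box {X : Type} [TopologicalSpace X] (K : Set (SLn (m + 1)))
    (hK : IsCompact K) (G : Sph (m + 1) → SLn (m + 1)) (hG1 : ∀ x, G x ∈ K)
    (hG3 : ∀ x, sphAct (G x) (oo m) = x) (f : SLn (m + 1) → X) (hf : Continuous f)
    (hwd : ∀ g x, sphAct g (oo m) = x → f g = f (G x)) : Continuous (fun x => f (G x)) := by
  have hKc : CompactSpace K := isCompact_iff_compactSpace.1 hK
  have he1 : Continuous (fun g : SLn (m + 1) => (g, oo m)) :=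
    continuous_id.prodMk continuous_const
  have he0 : Continuous (fun g : SLn (m + 1) => sphAct g (oo m)) := by
    have he2 := (sphAct_continuous (n := m + 1)).comp he1
    exact he2
  have he : Continuous (fun g : K => sphAct g.1 (oo m)) := he0.comp continuous_subtype_val
  have hs : Function.Surjective (fun g : K => sphAct g.1 (oo m)) := by
    intro x
    exact ⟨⟨G x, hG1 x⟩, hG3 x⟩
  have hq : IsQuotientMap (fun g : K => sphAct g.1 (oo m)) := (he.isClosedMap).isQuotientMap he hs
  refine hq.continuous_iff.2 ?_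
  have h1 : ((fun x => f (G x)) ∘ fun g : K => sphAct g.1 (oo m)) = fun g : K => f g.1 := by
    funext g
    exact (hwd g.1 _ rfl).symm
  rw [h1]
  exact hf.comp continuous_subtype_val

theorem exists_Omega {proj : Prop} (hm : 2 ≤ m) {Γ : Subgroup (SLn (m + 1))}
    (hΓ : IsUniformLattice Γ) {X : Type} [TopologicalSpace X] {π : Sph (m + 1) → X}
    {τ : SLn (m + 1) → X → X} (h : SphSys proj Γ X π τ) :
    ∃ Ω : Sph (m + 1) → X, Continuous Ω ∧ ∀ g x, Ω (sphAct g x) = τ g (Ω x) := by
  obtain ⟨ω, hω⟩ := exists_fix hm hΓ h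
  have hG : ∀ x : Sph (m + 1), ∃ g : SLn (m + 1), g ∈ {h : SLn (m + 1) | ∀ i j, |h.1 i j| ≤ 1} ∧
      sphAct g (oo m) = x := by
    intro x
    obtain ⟨g, h1, _, h3⟩ := exists_rot (m := m) (by omega) x
    exact ⟨g, h1, h3⟩
  choose G hG1 hG3 using hG
  have hwd : ∀ g x, sphAct g (oo m) = x → τ g ω = τ (G x) ω := by
    intro g x hg
    have h0 : sphAct (G x)⁻¹ x = oo m := by
      have h4 := congrArg (sphAct (G x)⁻¹) (hG3 x)
      rw [← sphAct_mul, inv_mul_cancel, sphAct_one] at h4
      exact h4.symm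
    have h1 : sphAct ((G x)⁻¹ * g) (oo m) = oo m := by
      rw [sphAct_mul, hg, h0]
    have h2 := hω _ h1
    have h3 : τ (G x) (τ ((G x)⁻¹ * g) ω) = τ g ω := by
      rw [h.mul, mul_inv_cancel_left]
    rw [← h3, h2]
  refine ⟨fun x => τ (G x) ω, ?_, ?_⟩
  · exact cont_of_box _ (compact_box 1) G hG1 hG3 (fun g => τ g ω)
      (h.τc.comp (continuous_id.prodMk continuous_const)) hwd
  · intro g x
    change τ (G (sphAct g x)) ω = τ g (τ (G x) ω)
    rw [h.mul]
    refine (hwd (g * G x) _ ?_).symm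
    rw [sphAct_mul, hG3]

end Pool.Agent.Work.MP_20070e_gt.X
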