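import Mathlib
import Pool.Agent.Work.MP_20070e_gt.X.SStd
import Pool.Agent.Work.MP_20070e_gt.X.TPres

/-!
# X/SApp (S-M): a local extension is the standard action on `Σ`

Apply `standard` to `X = Set.range φ` (subtype), `π x = ⟨φ x, _⟩`, `τ g z = ⟨θ (g, z), preserves ..⟩`. `M` is Hausdorff and second countable, so the subtype is. `τc`: `ext_continuousOn` (`θ` is continuous on the open set `W`, which contains `G × Σ`), so
`(g, z) ↦ θ (g, z)` is continuous on `G × Σ`. `one`, `mul`: the laws of `IsLocalExtension` (all the pairs are in `W`). `gam`: `θ (γ, φ x) = α γ (φ x) = φ (sphAct γ x)`.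
-/

set_option autoImplicit false

open Matrix Topology Metric Filter ContDiff Manifold

namespace Pool.Agent.Work.MP_20070e_gt.X

theorem standard_on {proj : Prop} {m : ℕ} (hm : 2 ≤ m) {Γ : Subgroup (SLn (m + 1))}
    (hΓ : IsUniformLattice Γ) {M : Type} [TopologicalSpace M] [ChartedSpace (Eu (m + 1)) M]
    (hM : IsSmoothManifold (m + 1) M) {α : SmoothAction Γ M} {φ : Sph (m + 1) → M}
    (hφ : IsModel proj φ) (hst : IsStandardOn α φ) {U : Set M} {W : Set (SLn (m + 1) × M)}
    {θ : SLn (m + 1) × M → M} (hθ : IsLocalExtension α (Set.range φ) U W θ) (g : SLn (m + 1))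
    (x : Sph (m + 1)) : θ (g, φ x) = φ (sphAct g x) := by
  have hpres := preserves hm hΓ hM hφ hst hθ
  have hcont := ext_continuousOn hθ
  have hWo : IsOpen W := hθ.2.2.1
  have hSW : ∀ (g : SLn (m + 1)), ∀ x ∈ Set.range φ, (g, x) ∈ W := hθ.2.2.2.2.1
  have h1 : ∀ x, (1, x) ∈ W → θ (1, x) = x := hθ.2.2.2.2.2.2.1
  have hmul := hθ.2.2.2.2.2.2.2.1
  have hext := hθ.2.2.2.2.2.2.2.2
  have ht2 : T2Space M := hM.1
  have hsc : SecondCountableTopology M := hM.2.1
  have hφc : Continuous φ := ContMDiff.continuous hφ.1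
  let π : Sph (m + 1) → Set.range φ := fun x => ⟨φ x, x, rfl⟩
  let τ : SLn (m + 1) → Set.range φ → Set.range φ := fun g z => ⟨θ (g, z.1), hpres g z.1 z.2⟩
  have hsys : SphSys proj Γ (Set.range φ) π τ := by
    refine
      { t2 := inferInstance
        sc := inferInstance
        πc := hφc.subtype_mk _
        πs := ?_
        fib := ?_
        τc := ?_
        one := ?_
        mul := ?_
        gam := ?_ }
    · rintro ⟨z, y, hy⟩
      exact ⟨y, Subtype.ext hy⟩
    · intro y y'
      rw [← hφ.2.2 y y']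
      exact Subtype.mk_eq_mk
    · refine Continuous.subtype_mk ?_ _
      rw [continuous_iff_continuousAt]
      intro p
      have h2 : ContinuousAt θ (p.1, (p.2 : M)) :=
        hcont.continuousAt (hWo.mem_nhds (hSW p.1 _ p.2.2))
      exact ContinuousAt.comp (g := θ)
        (f := fun p : SLn (m + 1) × Set.range φ => (p.1, (p.2 : M))) h2
        (continuous_fst.prodMk (continuous_subtype_val.comp continuous_snd)).continuousAt
    · intro z
      exact Subtype.ext (h1 _ (hSW _ _ z.2))
    · intro g h z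
      exact Subtype.ext (hmul g h z.1 (hSW _ _ z.2) (hSW _ _ (hpres h _ z.2)) (hSW _ _ z.2))
    · intro γ hγ y
      apply Subtype.ext
      show θ (γ, φ y) = φ (sphAct γ y)
      have h3 := hext ⟨γ, hγ⟩ (φ y) (hSW _ _ ⟨y, rfl⟩)
      have h4 := hst ⟨γ, hγ⟩ y
      exact h3.trans h4.symm
  exact congrArg Subtype.val (standard hm hΓ hsys g x)

end Pool.Agent.Work.MP_20070e_gt.X
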