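import Mathlib
import Pool.Agent.Work.MP_20070e_gt.X.SApp
import Pool.Agent.Work.MP_20070e_gt.X.QProj
import Pool.Agent.Work.MP_20070e_gt.X.LOrd
import Pool.Agent.Work.MP_20070e_gt.X.LLat
import Pool.Agent.Work.MP_20070e_gt.X.LCycB

/-!
# X/XMain: assembly (helper27)
-/

set_option autoImplicit false

open Matrix Topology Metric Filter ContDiff Manifold TopologicalSpace

namespace Pool.Agent.Work.MP_20070e_gt.X

theorem main :
    (∀ m : ℕ, 2 ≤ m → ∃ Γ : Subgroup (SLn (m + 1)), IsLattice Γ ∧ IsUniformLattice Γ ∧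
      HasNonExtendable False Γ ∧ HasNonExtendable True Γ) ∧
    (∀ m : ℕ, 2 ≤ m → ∀ Γ : Subgroup (SLn (m + 1)), IsUniformLattice Γ →
      (∃ χ : Γ →* ℤˣ, χ ≠ 1) → HasNonExtendable False Γ ∧ HasNonExtendable True Γ) ∧
    (∀ m : ℕ, 2 ≤ m → ∀ Γ : Subgroup (SLn (m + 1)), IsUniformLattice Γ →
      ∀ (proj : Prop) (M : Type) (_ : TopologicalSpace M) (_ : ChartedSpace (Eu (m + 1)) M),
      IsSmoothManifold (m + 1) M → ∀ (α : SmoothAction Γ M) (φ : Sph (m + 1) → M),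
      IsModel proj φ → IsStandardOn α φ →
      ∀ (U : Set M) (W : Set (SLn (m + 1) × M)) (θ : SLn (m + 1) × M → M),
      IsLocalExtension α (Set.range φ) U W θ →
      (∀ (g : SLn (m + 1)) (x : Sph (m + 1)), θ (g, φ x) = φ (sphAct g x)) ∧
      ∀ (V : Set M) (ρ : M → ℝ), IsOpen V → Set.range φ ⊆ V → ContinuousOn ρ V →
        (∀ z ∈ V, ρ z = 0 ↔ z ∈ Set.range φ) →
        ∀ γ : Γ, ∀ᶠ z in 𝓝ˢ (Set.range φ), 0 < ρ z → 0 < ρ (α.toFun γ z)) := by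
  refine ⟨?_, ?_, ?_⟩
  · intro m hm
    obtain ⟨D⟩ := exists_cycRing (m + 1) (by omega)
    obtain ⟨O⟩ := ordN_of_cycRing (by omega) D
    obtain ⟨Γ, hΓ, χ, hχ⟩ := lattice_of_ordN (by omega) O
    exact ⟨Γ, hΓ.isLattice, hΓ, nonExt_sph hm hΓ χ hχ, nonExt_proj hm hΓ χ hχ⟩
  · rintro m hm Γ hΓ ⟨χ, hχ⟩
    exact ⟨nonExt_sph hm hΓ χ hχ, nonExt_proj hm hΓ χ hχ⟩
  · intro m hm Γ hΓ proj M _ _ hM α φ hφ hst U W θ hθ
    exact ⟨fun g x => standard_on hm hΓ hM hφ hst hθ g x, fun V ρ hV hV' hρ hρ0 γ =>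
      sides hm hΓ hM hφ hst hθ hV hV' hρ hρ0 γ⟩

end Pool.Agent.Work.MP_20070e_gt.X
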